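import Pool.Agent.HOA.Grw

/-!
# HOA/Ang: angle between stable and unstable spaces; vectors with bounded forward orbit

PLAN.  First `C > 0` or the tangent spaces are trivial: by `contr`, `expd` with `k = 0` a nonzero vector
gives `C ≥ 1`.  `mem_Es_of_bdd`: write `ξ = a + b`, `a ∈ Es x`, `b ∈ Eu x` (`h.compl`).  Then
`N x b ≤ C ν ^ k N (f^k x) (df^k b) ≤ C ν ^ k (K + N (df^k a)) ≤ C ν ^ k (K + C ν ^ k N x a)`
(`df^k b = df^k ξ - df^k a`; `N (-v) = N v` from `smul` with `t = -1`), which tends to `0`, so `b = 0`.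
`angle`: for `ξ = a + b` and `k` fixed with `C ^ 2 * ν ^ (2 * k) ≤ 1 / 2`, let `L₀` be the constant of
`growth` for the diffeomorphism `f^k` (there is a `Diffeomorph` whose coercion is `f^[k]`, by
induction with `Diffeomorph.trans`): `N (df^k b) ≤ N (df^k ξ) + N (df^k a) ≤ L₀ N ξ + C ν ^ k N a` and
`N a ≤ N ξ + N b`, so `N b ≤ C ν ^ k (L₀ N ξ + C ν ^ k (N ξ + N b))`, i.e.
`N b / 2 ≤ (C ν ^ k L₀ + 1 / 2) N ξ`; then `N a ≤ N ξ + N b`.
-/

open scoped Manifold ContDiff Topology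
open Set Metric Filter

namespace Pool.Agent.HOA

noncomputable section

variable {E : Type} [NormedAddCommGroup E] [NormedSpace ℂ E] [FiniteDimensional ℂ E]
variable {M : Type} [TopologicalSpace M] [T2Space M] [CompactSpace M] [ChartedSpace E M]
  [IsManifold 𝓘(ℂ, E) ω M]
variable {f : Diffeomorph 𝓘(ℂ, E) 𝓘(ℂ, E) M M ω} {N : (x : M) → TangentSpace 𝓘(ℂ, E) x → ℝ}
  {Es Eu : (x : M) → Submodule ℝ (TangentSpace 𝓘(ℂ, E) x)} {C ν : ℝ}

private theorem N_neg' {f : M → M} (h : Hyp f N Es Eu C ν) (x : M)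
    (v : TangentSpace 𝓘(ℂ, E) x) : N x (-v) = N x v := by
  have h1 := h.smul x (-1) v
  rw [neg_one_smul, abs_neg, abs_one, one_mul] at h1
  exact h1

private theorem N_nn' {f : M → M} (h : Hyp f N Es Eu C ν) (x : M)
    (v : TangentSpace 𝓘(ℂ, E) x) : 0 ≤ N x v := by
  by_cases hv : v = 0
  · have h1 := h.smul x 0 v
    rw [zero_smul, abs_zero, zero_mul] at h1
    rw [hv, h1]
  · exact (h.pos x v hv).le

private theorem exists_diffeo (f : Diffeomorph 𝓘(ℂ, E) 𝓘(ℂ, E) M M ω) (k : ℕ) :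
    ∃ g : Diffeomorph 𝓘(ℂ, E) 𝓘(ℂ, E) M M ω, (g : M → M) = f^[k] := by
  induction k with
  | zero => exact ⟨Diffeomorph.refl _ _ _, rfl⟩
  | succ k ih =>
    obtain ⟨g, hg⟩ := ih
    refine ⟨f.trans g, ?_⟩
    rw [Diffeomorph.coe_trans, hg, Function.iterate_succ]

private theorem N_db {f : M → M} (h : Hyp f N Es Eu C ν) (x : M)
    (a b : TangentSpace 𝓘(ℂ, E) x) (ha : a ∈ Es x) (k : ℕ) :
    N (f^[k] x) (mfderiv 𝓘(ℂ, E) 𝓘(ℂ, E) (f^[k]) x b) ≤
      N (f^[k] x) (mfderiv 𝓘(ℂ, E) 𝓘(ℂ, E) (f^[k]) x (a + b)) + C * ν ^ k * N x a := by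
  have h1 : mfderiv 𝓘(ℂ, E) 𝓘(ℂ, E) (f^[k]) x b =
      mfderiv 𝓘(ℂ, E) 𝓘(ℂ, E) (f^[k]) x (a + b) +
        -(mfderiv 𝓘(ℂ, E) 𝓘(ℂ, E) (f^[k]) x a) := by
    rw [map_add]
    abel
  have h2 := h.add (f^[k] x) (mfderiv 𝓘(ℂ, E) 𝓘(ℂ, E) (f^[k]) x (a + b))
    (-(mfderiv 𝓘(ℂ, E) 𝓘(ℂ, E) (f^[k]) x a))
  rw [← h1, N_neg' h] at h2
  have h3 := h.contr x a ha k
  linarith

theorem angle (h : Hyp f N Es Eu C ν) :
    ∃ L : ℝ, 0 < L ∧ ∀ (x : M) (a b : TangentSpace 𝓘(ℂ, E) x), a ∈ Es x → b ∈ Eu x →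
      N x a ≤ L * N x (a + b) ∧ N x b ≤ L * N x (a + b) := by
  by_cases hC : 0 ≤ C
  · have ht : Tendsto (fun k : ℕ => (C * ν ^ k) ^ 2) atTop (𝓝 ((C * 0) ^ 2)) :=
      ((tendsto_pow_atTop_nhds_zero_of_lt_one h.ν_pos.le h.ν_lt).const_mul C).pow 2
    rw [mul_zero, zero_pow two_ne_zero] at ht
    obtain ⟨k, hk⟩ := (ht.eventually (eventually_le_nhds (show (0 : ℝ) < 1 / 2 by norm_num))).exists
    obtain ⟨g, hg⟩ := exists_diffeo f k
    obtain ⟨L₀, hL₀, hgr⟩ := growth h.cont h.smul h.pos g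
    rw [hg] at hgr
    have hq : 0 ≤ C * ν ^ k := mul_nonneg hC (pow_nonneg h.ν_pos.le k)
    refine ⟨2 * (C * ν ^ k) * L₀ + 2, by positivity, fun x a b ha hb => ?_⟩
    have h1 := h.expd x b hb k
    have h2 := N_db h x a b ha k
    have h3 := hgr x (a + b)
    have h4 : N x a ≤ N x (a + b) + N x b := by
      have h5 := h.add x (a + b) (-b)
      rw [N_neg' h, add_neg_cancel_right] at h5
      exact h5
    have h6 := N_nn' h x (a + b)
    have h7 := N_nn' h x b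
    have h8 : N x b ≤ C * ν ^ k * (L₀ * N x (a + b) + C * ν ^ k * (N x (a + b) + N x b)) := by
      refine h1.trans (mul_le_mul_of_nonneg_left ?_ hq)
      have h9 := mul_le_mul_of_nonneg_left h4 hq
      linarith
    have h10 : (C * ν ^ k) ^ 2 * (N x (a + b) + N x b) ≤ 1 / 2 * (N x (a + b) + N x b) :=
      mul_le_mul_of_nonneg_right hk (by linarith)
    have h11 : N x b ≤ 2 * (C * ν ^ k) * L₀ * N x (a + b) + N x (a + b) := by
      nlinarith
    constructor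
    · nlinarith
    · nlinarith
  · push Not at hC
    refine ⟨1, one_pos, fun x a b ha hb => ?_⟩
    have h6 := N_nn' h x (a + b)
    have key : ∀ r s : ℝ, 0 ≤ r → 0 ≤ s → r ≤ C * ν ^ 0 * s → r ≤ 0 := by
      intro r s _ hs h1
      rw [pow_zero, mul_one] at h1
      exact h1.trans (mul_nonpos_of_nonpos_of_nonneg hC.le hs)
    have h2 : N x b ≤ 0 := key _ _ (N_nn' h x b) (N_nn' h _ _) (h.expd x b hb 0)
    have h4 : N x a ≤ N x (a + b) + N x b := by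
      have h5 := h.add x (a + b) (-b)
      rw [N_neg' h, add_neg_cancel_right] at h5
      exact h5
    constructor <;> linarith

theorem mem_Es_of_bdd (h : Hyp f N Es Eu C ν) {x : M} {ξ : TangentSpace 𝓘(ℂ, E) x} {K : ℝ}
    (hK : ∀ k : ℕ, N (f^[k] x) (mfderiv 𝓘(ℂ, E) 𝓘(ℂ, E) (f^[k]) x ξ) ≤ K) : ξ ∈ Es x := by
  have htop : ξ ∈ Es x ⊔ Eu x := by
    rw [(h.compl x).sup_eq_top]
    exact Submodule.mem_top
  obtain ⟨a, ha, b, hb, rfl⟩ := Submodule.mem_sup.mp htop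
  by_cases hb0 : b = 0
  · rw [hb0, add_zero]
    exact ha
  exfalso
  have hpos := h.pos x b hb0
  have hC : 0 < C := by
    by_contra hcon
    push Not at hcon
    have h1 := h.expd x b hb 0
    rw [pow_zero, mul_one] at h1
    have h2 := mul_nonpos_of_nonpos_of_nonneg hcon
      (N_nn' h (f^[0] x) (mfderiv 𝓘(ℂ, E) 𝓘(ℂ, E) (f^[0]) x b))
    linarith
  have hle : ∀ k : ℕ, N x b ≤ C * ν ^ k * (K + C * ν ^ k * N x a) := by
    intro k
    have hq : 0 ≤ C * ν ^ k := mul_nonneg hC.le (pow_nonneg h.ν_pos.le k)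
    refine (h.expd x b hb k).trans (mul_le_mul_of_nonneg_left ?_ hq)
    have h2 := N_db h x a b ha k
    have h3 := hK k
    linarith
  have h0 := tendsto_pow_atTop_nhds_zero_of_lt_one h.ν_pos.le h.ν_lt
  have ht : Tendsto (fun k : ℕ => C * ν ^ k * (K + C * ν ^ k * N x a)) atTop
      (𝓝 (C * 0 * (K + C * 0 * N x a))) :=
    (h0.const_mul C).mul (((h0.const_mul C).mul_const (N x a)).const_add K)
  have h4 := ge_of_tendsto' ht hle
  rw [mul_zero, zero_mul] at h4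
  linarith

end

end Pool.Agent.HOA
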