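import Pool.Agent.HOA.Tools

/-!
# HOA/Br: the Lie bracket on the space of holomorphic vector fields
-/

open scoped Manifold ContDiff Topology
open Set Metric Filter

namespace Pool.Agent.HOA

noncomputable section

variable {E : Type} [NormedAddCommGroup E] [NormedSpace ℂ E] [FiniteDimensional ℂ E]
variable {M : Type} [TopologicalSpace M] [T2Space M] [CompactSpace M] [ChartedSpace E M]
  [IsManifold 𝓘(ℂ, E) ω M]
variable {f : Diffeomorph 𝓘(ℂ, E) 𝓘(ℂ, E) M M ω}

private theorem omega_add_one : (ω : WithTop ℕ∞) + 1 ≤ ω := le_top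

omit [T2Space M] [CompactSpace M] [FiniteDimensional ℂ E] in
private theorem mdiff_hf (v : HF E M) (x : M) :
    MDifferentiableAt 𝓘(ℂ, E) (𝓘(ℂ, E)).tangent
      (fun x => (⟨x, v.1 x⟩ : TangentBundle 𝓘(ℂ, E) M)) x :=
  (v.2 x).mdifferentiableAt (by simp)

omit [T2Space M] [CompactSpace M] in
private theorem hol_br (v w : HF E M) :
    HolField (VectorField.mlieBracket 𝓘(ℂ, E) v.1 w.1) := by
  have : CompleteSpace E := FiniteDimensional.complete ℂ E
  have : IsManifold 𝓘(ℂ, E) (ω + 1) M := IsManifold.of_le (n := ω) omega_add_one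
  have : IsManifold 𝓘(ℂ, E) (minSmoothness ℂ 2) M := IsManifold.of_le (n := ω) le_top
  intro x
  have hv : ContMDiffWithinAt 𝓘(ℂ, E) (𝓘(ℂ, E)).tangent ω
      (fun x => (⟨x, v.1 x⟩ : TangentBundle 𝓘(ℂ, E) M)) univ x := (v.2 x).contMDiffWithinAt
  have hw : ContMDiffWithinAt 𝓘(ℂ, E) (𝓘(ℂ, E)).tangent ω
      (fun x => (⟨x, w.1 x⟩ : TangentBundle 𝓘(ℂ, E) M)) univ x := (w.2 x).contMDiffWithinAt
  have h := hv.mlieBracketWithin_vectorField (m := ω) hw uniqueMDiffOn_univ (mem_univ x) le_top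
  rw [contMDiffWithinAt_univ] at h
  simpa only [VectorField.mlieBracketWithin_univ] using h

variable (E M) in
theorem exists_br : ∃ br : HF E M →ₗ[ℂ] HF E M →ₗ[ℂ] HF E M, IsBr br := by
  have : CompleteSpace E := FiniteDimensional.complete ℂ E
  have : IsManifold 𝓘(ℂ, E) 2 M := IsManifold.of_le (n := ω) le_top
  refine ⟨LinearMap.mk₂ ℂ (fun v w => ⟨VectorField.mlieBracket 𝓘(ℂ, E) v.1 w.1, hol_br v w⟩)
    (fun v v' w => ?_) (fun c v w => ?_) (fun v w w' => ?_) (fun c v w => ?_), fun v w x => rfl⟩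
  · apply Subtype.ext
    funext x
    exact VectorField.mlieBracket_add_left (mdiff_hf v x) (mdiff_hf v' x)
  · apply Subtype.ext
    funext x
    exact VectorField.mlieBracket_const_smul_left (mdiff_hf v x)
  · apply Subtype.ext
    funext x
    exact VectorField.mlieBracket_add_right (mdiff_hf w x) (mdiff_hf w' x)
  · apply Subtype.ext
    funext x
    exact VectorField.mlieBracket_const_smul_right (mdiff_hf w x)

omit [T2Space M] [CompactSpace M] [FiniteDimensional ℂ E] in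
private theorem br_fun {br : HF E M →ₗ[ℂ] HF E M →ₗ[ℂ] HF E M} (hbr : IsBr br) (v w : HF E M) :
    (br v w).1 = VectorField.mlieBracket 𝓘(ℂ, E) v.1 w.1 := funext fun x => hbr v w x

theorem br_props {br : HF E M →ₗ[ℂ] HF E M →ₗ[ℂ] HF E M} (hbr : IsBr br) :
    (∀ a, br a a = 0) ∧ ∀ a b c, br a (br b c) = br (br a b) c + br b (br a c) := by
  have : CompleteSpace E := FiniteDimensional.complete ℂ E
  have : IsManifold 𝓘(ℂ, E) (minSmoothness ℂ 3) M := IsManifold.of_le (n := ω) le_top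
  constructor
  · intro a
    apply Subtype.ext
    rw [br_fun hbr]
    exact VectorField.mlieBracket_self
  · intro a b c
    apply Subtype.ext
    funext x
    have h2 : ∀ v : HF E M, ContMDiffAt 𝓘(ℂ, E) (𝓘(ℂ, E)).tangent (minSmoothness ℂ 2)
        (fun x => (⟨x, v.1 x⟩ : TangentBundle 𝓘(ℂ, E) M)) x := fun v => (v.2 x).of_le le_top
    have h := VectorField.leibniz_identity_mlieBracket_apply (h2 a) (h2 b) (h2 c)
    show (br a (br b c)).1 x = (br (br a b) c).1 x + (br b (br a c)).1 x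
    rw [br_fun hbr a (br b c), br_fun hbr (br a b) c, br_fun hbr b (br a c), br_fun hbr b c,
      br_fun hbr a b, br_fun hbr a c]
    exact h

theorem push_br {T : HF E M ≃ₗ[ℂ] HF E M} (hT : IsPush f T)
    {br : HF E M →ₗ[ℂ] HF E M →ₗ[ℂ] HF E M} (hbr : IsBr br) (a b : HF E M) :
    T (br a b) = br (T a) (T b) := by
  have : CompleteSpace E := FiniteDimensional.complete ℂ E
  have : IsManifold 𝓘(ℂ, E) (minSmoothness ℂ 2) M := IsManifold.of_le (n := ω) le_top
  have hne : (ω : WithTop ℕ∞) ≠ 0 := by simp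
  have hinv : ∀ (x : M) (ξ : TangentSpace 𝓘(ℂ, E) x),
      (mfderiv 𝓘(ℂ, E) 𝓘(ℂ, E) f x).inverse (mfderiv 𝓘(ℂ, E) 𝓘(ℂ, E) f x ξ) = ξ := by
    intro x ξ
    rw [← f.mfderivToContinuousLinearEquiv_coe hne, ContinuousLinearMap.inverse_equiv]
    exact (f.mfderivToContinuousLinearEquiv hne x).symm_apply_apply ξ
  have hinv' : ∀ (x : M) (ξ : TangentSpace 𝓘(ℂ, E) (f x)),
      mfderiv 𝓘(ℂ, E) 𝓘(ℂ, E) f x ((mfderiv 𝓘(ℂ, E) 𝓘(ℂ, E) f x).inverse ξ) = ξ := by
    intro x ξ
    rw [← f.mfderivToContinuousLinearEquiv_coe hne, ContinuousLinearMap.inverse_equiv]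
    exact (f.mfderivToContinuousLinearEquiv hne x).apply_symm_apply ξ
  have hpull : ∀ v : HF E M, VectorField.mpullback 𝓘(ℂ, E) 𝓘(ℂ, E) f (T v).1 = v.1 := by
    intro v
    funext x
    rw [VectorField.mpullback_apply, hT v x]
    exact hinv x _
  apply Subtype.ext
  funext y
  obtain ⟨x, rfl⟩ := f.surjective y
  have h := VectorField.mpullback_mlieBracket (I := 𝓘(ℂ, E)) (I' := 𝓘(ℂ, E)) (n := ω) (f := f)
    (mdiff_hf (T a) (f x)) (mdiff_hf (T b) (f x)) (f.contMDiff x) le_top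
  rw [hpull, hpull, VectorField.mpullback_apply] at h
  show (T (br a b)).1 (f x) = (br (T a) (T b)).1 (f x)
  rw [hT, br_fun hbr, br_fun hbr, ← h, hinv']

end

end Pool.Agent.HOA
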