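import Pool.Agent.HOA.Tools

/-!
# HOA/CVar: holomorphic change of variables in an integral

PLAN.  `MeasureTheory.lintegral_image_eq_lintegral_abs_det_fderiv_mul` for the real derivative
`(fderiv ℂ F z).restrictScalars ℝ`, whose real determinant is
`Algebra.norm ℝ (complex determinant) = Complex.normSq (det) = ‖det‖ ^ 2`
(`LinearMap.det_restrictScalars`, `Algebra.norm_complex_apply`, `Complex.normSq_eq_norm_sq`), so its
absolute value is `‖det‖ ^ 2`.  `E` is a finite dimensional real normed space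
(`NormedSpace.complexToReal`, `FiniteDimensional.complexToReal`).
-/

open scoped Manifold ContDiff Topology
open Set Metric Filter
open MeasureTheory

namespace Pool.Agent.HOA

noncomputable section

variable {E : Type} [NormedAddCommGroup E] [NormedSpace ℂ E] [FiniteDimensional ℂ E]

omit [FiniteDimensional ℂ E] in
private theorem abs_real_det (L : E →L[ℂ] E) :
    |(L.restrictScalars ℝ).det| = ‖L.det‖ ^ 2 := by
  have h : (L.restrictScalars ℝ).det = ‖L.det‖ ^ 2 := by
    have h1 : (L.restrictScalars ℝ).det = ((L : E →ₗ[ℂ] E).restrictScalars ℝ).det := rfl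
    rw [h1, LinearMap.det_restrictScalars, Algebra.norm_complex_eq]
    simp [ContinuousLinearMap.det, Complex.normSq_eq_norm_sq]
  rw [h, abs_of_nonneg (by positivity)]

theorem change_vars [MeasurableSpace E] [BorelSpace E] (μ : Measure E) [μ.IsAddHaarMeasure]
    {F : E → E} {Q U : Set E} (hU : IsOpen U) (hQU : Q ⊆ U) (hQ : MeasurableSet Q)
    (hF : AnalyticOnNhd ℂ F U) (hinj : InjOn F Q) {ρ ρ' : E → ENNReal} {k : ENNReal}
    (hρ : ∀ z ∈ Q, ρ' (F z) * ENNReal.ofReal (‖(fderiv ℂ F z).det‖ ^ 2) = k * ρ z) :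
    ∫⁻ z in F '' Q, ρ' z ∂μ = ∫⁻ z in Q, k * ρ z ∂μ := by
  haveI : FiniteDimensional ℝ E := FiniteDimensional.complexToReal E
  have hd : ∀ z ∈ Q, HasFDerivWithinAt F ((fderiv ℂ F z).restrictScalars ℝ) Q z := by
    intro z hz
    have h1 : DifferentiableAt ℂ F z := (hF z (hQU hz)).differentiableAt
    exact (h1.hasFDerivAt.restrictScalars ℝ).hasFDerivWithinAt
  rw [lintegral_image_eq_lintegral_abs_det_fderiv_mul μ hQ hd hinj ρ']
  refine setLIntegral_congr_fun hQ ?_
  intro z hz
  change ENNReal.ofReal |((fderiv ℂ F z).restrictScalars ℝ).det| * ρ' (F z) = k * ρ z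
  rw [abs_real_det, mul_comm, hρ z hz]

end

end Pool.Agent.HOA
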