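import Pool.Agent.HOA.Tools

/-!
# HOA/Cov: existence of a finite good family of charts

A finite subcover of the balls around the centres of the charts `chartAt E x`.
-/

open scoped Manifold ContDiff Topology
open Set Metric Filter

namespace Pool.Agent.HOA

noncomputable section

variable {E : Type} [NormedAddCommGroup E] [NormedSpace ℂ E] [FiniteDimensional ℂ E]
variable {M : Type} [TopologicalSpace M] [T2Space M] [CompactSpace M] [ChartedSpace E M]
  [IsManifold 𝓘(ℂ, E) ω M]

variable (E M) in
theorem exists_cover : ∃ ι : Type, Finite ι ∧ Nonempty (GCover ι E M) := by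
  have h1 : ∀ x : M, ∃ ρ : ℝ, 0 < ρ ∧
      closedBall (chartAt E x x) (3 * ρ) ⊆ (chartAt E x).target := by
    intro x
    obtain ⟨ε, hε, h⟩ := Metric.isOpen_iff.1 (chartAt E x).open_target (chartAt E x x)
      (mem_chart_target E x)
    refine ⟨ε / 6, by positivity, (closedBall_subset_ball ?_).trans h⟩
    linarith
  choose ρ hρ hsub using h1
  have h2 : ∀ x : M, (chartAt E x).source ∩ chartAt E x ⁻¹' ball (chartAt E x x) (ρ x) ∈ 𝓝 x := by
    intro x
    refine Filter.inter_mem ((chartAt E x).open_source.mem_nhds (mem_chart_source E x)) ?_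
    exact ((chartAt E x).continuousAt (mem_chart_source E x)).preimage_mem_nhds
      (ball_mem_nhds _ (hρ x))
  obtain ⟨t, -, ht⟩ := (isCompact_univ (X := M)).elim_nhds_subcover _ fun x _ => h2 x
  refine ⟨{x // x ∈ t}, inferInstance, ⟨?_⟩⟩
  exact
    { e := fun x => chartAt E x.1
      c := fun x => chartAt E x.1 x.1
      r := fun x => ρ x.1
      mem := fun x => chart_mem_atlas E x.1
      pos := fun x => hρ x.1
      sub := fun x => hsub x.1
      cov := fun y => by
        obtain ⟨x, hx, hy⟩ := Set.mem_iUnion₂.1 (ht (Set.mem_univ y))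
        exact ⟨⟨x, hx⟩, hy.1, hy.2⟩ }

end

end Pool.Agent.HOA
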