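import Mathlib

/-!
# Holomorphic Anosov diffeomorphisms: definitions (problem MP_2bbe3e_an)

`M` is a complex manifold modelled on the finite-dimensional complex normed space `E`
(`IsManifold 𝓘(ℂ, E) ω M`).
-/

open scoped Manifold ContDiff Topology
open Set Metric

namespace Pool.Agent.HOA

noncomputable section

section Stmt

variable {E : Type} [NormedAddCommGroup E] [NormedSpace ℂ E]
variable {M : Type} [TopologicalSpace M] [ChartedSpace E M] [IsManifold 𝓘(ℂ, E) ω M]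

/-- `X` is a holomorphic vector field on `M`. -/
def HolField (X : (x : M) → TangentSpace 𝓘(ℂ, E) x) : Prop :=
  ContMDiff 𝓘(ℂ, E) (𝓘(ℂ, E)).tangent ω (fun x => (⟨x, X x⟩ : TangentBundle 𝓘(ℂ, E) M))

/-- `α` is a holomorphic 1-form on `M`: complex linear on each tangent space, and holomorphic
as a function on the tangent bundle. -/
def HolForm (α : (x : M) → TangentSpace 𝓘(ℂ, E) x → ℂ) : Prop :=
  (∀ x, IsLinearMap ℂ (α x)) ∧
    ContMDiff (𝓘(ℂ, E)).tangent 𝓘(ℂ, ℂ) ω (fun v : TangentBundle 𝓘(ℂ, E) M => α v.proj v.snd)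

/-- Hyperbolicity data of `f`: a continuous norm `N` on the tangent bundle, real subspaces
`Es x`, `Eu x` with direct sum the tangent space, carried into each other by the derivative of
`f`, contracted by the forward (backward) iterates, with constants `C` and `0 < ν < 1`. -/
structure Hyp (f : M → M) (N : (x : M) → TangentSpace 𝓘(ℂ, E) x → ℝ)
    (Es Eu : (x : M) → Submodule ℝ (TangentSpace 𝓘(ℂ, E) x)) (C ν : ℝ) : Prop where
  cont : Continuous (fun v : TangentBundle 𝓘(ℂ, E) M => N v.proj v.snd)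
  add : ∀ (x : M) (v w : TangentSpace 𝓘(ℂ, E) x), N x (v + w) ≤ N x v + N x w
  smul : ∀ (x : M) (t : ℝ) (v : TangentSpace 𝓘(ℂ, E) x), N x (t • v) = |t| * N x v
  pos : ∀ (x : M) (v : TangentSpace 𝓘(ℂ, E) x), v ≠ 0 → 0 < N x v
  compl : ∀ x : M, IsCompl (Es x) (Eu x)
  inv_s : ∀ (x : M) (v : TangentSpace 𝓘(ℂ, E) x), v ∈ Es x →
    mfderiv 𝓘(ℂ, E) 𝓘(ℂ, E) f x v ∈ Es (f x)
  inv_u : ∀ (x : M) (v : TangentSpace 𝓘(ℂ, E) x), v ∈ Eu x →
    mfderiv 𝓘(ℂ, E) 𝓘(ℂ, E) f x v ∈ Eu (f x)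
  ν_pos : 0 < ν
  ν_lt : ν < 1
  contr : ∀ (x : M) (v : TangentSpace 𝓘(ℂ, E) x), v ∈ Es x → ∀ k : ℕ,
    N (f^[k] x) (mfderiv 𝓘(ℂ, E) 𝓘(ℂ, E) (f^[k]) x v) ≤ C * ν ^ k * N x v
  expd : ∀ (x : M) (v : TangentSpace 𝓘(ℂ, E) x), v ∈ Eu x → ∀ k : ℕ,
    N x v ≤ C * ν ^ k * N (f^[k] x) (mfderiv 𝓘(ℂ, E) 𝓘(ℂ, E) (f^[k]) x v)

/-- `f` is Anosov. -/
def IsAnosov (f : M → M) : Prop :=
  ∃ (N : (x : M) → TangentSpace 𝓘(ℂ, E) x → ℝ)
    (Es Eu : (x : M) → Submodule ℝ (TangentSpace 𝓘(ℂ, E) x)) (C ν : ℝ), Hyp f N Es Eu C ν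

/-- `s` (a function of a chart and a point of `E`) is a holomorphic section of the `m`-th power
of the canonical bundle: in each chart `e` of the atlas it is given by the holomorphic function
`s e` on `e.target`, i.e. by `s e (z) (dz₁ ∧ ... ∧ dzₙ) ^ m`, and these expressions agree. -/
def CanSec (m : ℤ) (s : OpenPartialHomeomorph M E → E → ℂ) : Prop :=
  (∀ e ∈ atlas E M, AnalyticOnNhd ℂ (s e) e.target) ∧
  ∀ e ∈ atlas E M, ∀ e' ∈ atlas E M, ∀ z ∈ e.target, e.symm z ∈ e'.source →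
    s e z = s e' (e' (e.symm z)) * (fderiv ℂ (e' ∘ e.symm) z).det ^ m

end Stmt

end

end Pool.Agent.HOA
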