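import Pool.Agent.HOA.Tools

/-!
# HOA/DetF: derivative of the Jacobian determinant

PLAN.  `fderiv ℂ F` is analytic at `z`, and `det : (E →L[ℂ] E) → ℂ` is differentiable at every `A`
(in a basis it is the polynomial `Matrix.det` of the matrix entries, which are continuous linear in
`A`), with derivative at an invertible `A` in the direction `H` equal to
`A.det * trace (A⁻¹ ∘ H)`: compute the derivative along the line `t ↦ A + t H` by
`det (A + t H) = det A * det (1 + t A⁻¹ H)` and `Matrix.det_one_add_smul` /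
`Matrix.derivative_det_one_add_X_smul`, or search Mathlib for Jacobi formula (`hasFDerivAt_det`, ...).
Chain rule.
-/

open scoped Manifold ContDiff Topology
open Set Metric Filter

namespace Pool.Agent.HOA

noncomputable section

variable {E : Type} [NormedAddCommGroup E] [NormedSpace ℂ E] [FiniteDimensional ℂ E]

private theorem prod_diff {V ι : Type} [NormedAddCommGroup V] [NormedSpace ℂ V] (s : Finset ι)
    (g : ι → V → ℂ) (h : ∀ i, Differentiable ℂ (g i)) : Differentiable ℂ (fun x => ∏ i ∈ s, g i x) := by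
  classical
  induction s using Finset.induction_on with
  | empty =>
    simp only [Finset.prod_empty]
    exact differentiable_const _
  | insert a s ha ih =>
    simp only [Finset.prod_insert ha]
    exact (h a).mul ih

private theorem dt_diff : Differentiable ℂ (fun A : E →L[ℂ] E => A.det) := by
  set b := Module.finBasis ℂ E with hb
  have h : ∀ A : E →L[ℂ] E, A.det = ∑ σ : Equiv.Perm (Fin (Module.finrank ℂ E)),
      ((Equiv.Perm.sign σ : ℤ) : ℂ) * ∏ i, ((LinearMap.toContinuousLinearMap (b.coord (σ i))).comp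
        (ContinuousLinearMap.apply ℂ E (b i))) A := by
    intro A
    have h1 : A.det = LinearMap.det (A : E →ₗ[ℂ] E) := rfl
    rw [h1, ← LinearMap.det_toMatrix b, Matrix.det_apply']
    refine Finset.sum_congr rfl fun σ _ => ?_
    congr 1
    refine Finset.prod_congr rfl fun i _ => ?_
    rw [LinearMap.toMatrix_apply]
    rfl
  have h2 : (fun A : E →L[ℂ] E => A.det) = fun A => ∑ σ : Equiv.Perm (Fin (Module.finrank ℂ E)),
      ((Equiv.Perm.sign σ : ℤ) : ℂ) * ∏ i, ((LinearMap.toContinuousLinearMap (b.coord (σ i))).comp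
        (ContinuousLinearMap.apply ℂ E (b i))) A := funext h
  rw [h2]
  refine Differentiable.fun_sum fun σ _ => ?_
  refine (differentiable_const _).mul ?_
  have h3 : ∀ i : Fin (Module.finrank ℂ E), Differentiable ℂ (fun A : E →L[ℂ] E =>
      ((LinearMap.toContinuousLinearMap (b.coord (σ i))).comp
        (ContinuousLinearMap.apply ℂ E (b i))) A) := fun i => ContinuousLinearMap.differentiable _
  exact prod_diff _ _ h3

private theorem dt_one (N : E →L[ℂ] E) :
    HasDerivAt (fun t : ℂ => (1 + t • N : E →L[ℂ] E).det) (LinearMap.trace ℂ E (N : E →ₗ[ℂ] E)) 0 := by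
  set b := Module.finBasis ℂ E with hb
  set m := LinearMap.toMatrix b b (N : E →ₗ[ℂ] E) with hm
  have h : ∀ t : ℂ, (1 + t • N : E →L[ℂ] E).det = 1 + Matrix.trace m * t +
      (Matrix.det (1 + (Polynomial.X : Polynomial ℂ) • m.map Polynomial.C)).divX.divX.eval t * t ^ 2 := by
    intro t
    rw [← Matrix.det_one_add_smul]
    have h1 : (1 + t • N : E →L[ℂ] E).det = LinearMap.det (1 + t • (N : E →ₗ[ℂ] E)) := rfl
    rw [h1, ← LinearMap.det_toMatrix b, map_add, map_smul, LinearMap.toMatrix_one]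
  rw [funext h, LinearMap.trace_eq_matrix_trace ℂ b]
  have h3 := (((hasDerivAt_const (0 : ℂ) (1 : ℂ)).add ((hasDerivAt_id (0 : ℂ)).const_mul (Matrix.trace m))).add
    (((Matrix.det (1 + (Polynomial.X : Polynomial ℂ) • m.map Polynomial.C)).divX.divX.hasDerivAt 0).mul
      (hasDerivAt_pow 2 (0 : ℂ))))
  refine h3.congr_deriv ?_
  simp [hm]

private theorem dt_line {A : E →L[ℂ] E} (hA : A.IsInvertible) (H : E →L[ℂ] E) :
    HasDerivAt (fun t : ℂ => (A + t • H : E →L[ℂ] E).det)
      (A.det * LinearMap.trace ℂ E ((A.inverse ∘L H : E →L[ℂ] E) : E →ₗ[ℂ] E)) 0 := by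
  obtain ⟨e, rfl⟩ := hA
  have h : ∀ t : ℂ, ((e : E →L[ℂ] E) + t • H : E →L[ℂ] E).det =
      (e : E →L[ℂ] E).det * (1 + t • ((e : E →L[ℂ] E).inverse ∘L H) : E →L[ℂ] E).det := by
    intro t
    have h1 : ((e : E →L[ℂ] E) + t • H : E →L[ℂ] E) =
        (e : E →L[ℂ] E) ∘L (1 + t • ((e : E →L[ℂ] E).inverse ∘L H)) := by
      ext x
      simp [ContinuousLinearMap.inverse_equiv]
    rw [h1]
    exact LinearMap.det_comp _ _
  rw [funext h]
  exact (dt_one _).const_mul _

theorem det_fderiv {F : E → E} {z : E} (hF : AnalyticAt ℂ F z)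
    (hinv : (fderiv ℂ F z).IsInvertible) (w : E) :
    DifferentiableAt ℂ (fun y => (fderiv ℂ F y).det) z ∧
    fderiv ℂ (fun y => (fderiv ℂ F y).det) z w = (fderiv ℂ F z).det * Bt F z w := by
  have hc : CompleteSpace E := FiniteDimensional.complete ℂ E
  have hd : DifferentiableAt ℂ (fderiv ℂ F) z := hF.fderiv.differentiableAt
  have hD := (dt_diff (E := E)) (fderiv ℂ F z)
  refine ⟨hD.comp z hd, ?_⟩
  have h1 := fderiv_comp z hD hd
  have h2 : fderiv ℂ (fun y => (fderiv ℂ F y).det) z w =
      fderiv ℂ (fun A : E →L[ℂ] E => A.det) (fderiv ℂ F z) (fderiv ℂ (fderiv ℂ F) z w) :=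
    congrArg (fun L : E →L[ℂ] ℂ => L w) h1
  rw [h2]
  set H := fderiv ℂ (fderiv ℂ F) z w with hH
  have h3 : HasDerivAt (fun t : ℂ => fderiv ℂ F z + t • H) H 0 := by
    have := ((hasDerivAt_id (0 : ℂ)).smul_const H).const_add (fderiv ℂ F z)
    simpa using this
  have h4 : HasFDerivAt (fun A : E →L[ℂ] E => A.det)
      (fderiv ℂ (fun A : E →L[ℂ] E => A.det) (fderiv ℂ F z)) (fderiv ℂ F z + (0 : ℂ) • H) := by
    rw [zero_smul, add_zero]
    exact hD.hasFDerivAt
  have h5 := h4.comp_hasDerivAt (0 : ℂ) h3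
  exact h5.unique (dt_line hinv H)

end

end Pool.Agent.HOA
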