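import Pool.Agent.HOA.Tools

/-!
# HOA/DetFr: derivative of the determinant of a frame along a field

By multilinearity, `hbr` and the derivative of `det (1 + t L)` at `t = 0`.
-/

open scoped Manifold ContDiff Topology
open Set Metric Filter

namespace Pool.Agent.HOA

noncomputable section

variable {E : Type} [NormedAddCommGroup E] [NormedSpace ℂ E] [FiniteDimensional ℂ E]

private theorem df_cont {n : ℕ} (β : Module.Basis (Fin n) ℂ E) :
    Continuous (fun w : Fin n → E => β.det w) := by
  have h : (fun w : Fin n → E => β.det w) =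
      fun w : Fin n → E => Matrix.det (Matrix.of fun i j => β.coord i (w j)) := by
    funext w
    rw [Module.Basis.det_apply]
    rfl
  rw [h]
  refine Continuous.matrix_det (continuous_matrix fun i j => ?_)
  exact (LinearMap.continuous_of_finiteDimensional (β.coord i)).comp (continuous_apply j)

/-- the determinant as a continuous multilinear map -/
private def df_f {n : ℕ} (β : Module.Basis (Fin n) ℂ E) :
    ContinuousMultilinearMap ℂ (fun _ : Fin n => E) ℂ :=
  ⟨β.det.toMultilinearMap, df_cont β⟩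

omit [FiniteDimensional ℂ E] in
private theorem df_span {n : ℕ} (β : Module.Basis (Fin n) ℂ E) (U : Fin n → E) (i : Fin n)
    {w : E} (hw : w ∈ Submodule.span ℂ (U '' {l | l < i})) :
    β.det (Function.update U i w) = 0 := by
  have h1 : Submodule.span ℂ (U '' {l | l < i}) ≤
      LinearMap.ker (β.det.toMultilinearMap.toLinearMap U i) := by
    rw [Submodule.span_le]
    rintro _ ⟨l, hl, rfl⟩
    change β.det (Function.update U i (U l)) = 0
    exact AlternatingMap.map_update_self _ _ (ne_of_gt hl)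
  exact h1 hw

/-- the derivative of `det (1 + t L)` -/
private theorem df_tr {n : ℕ} (β : Module.Basis (Fin n) ℂ E) (L : E →ₗ[ℂ] E) (U : Fin n → E) :
    ∑ i, β.det (Function.update U i (L (U i))) = LinearMap.trace ℂ E L * β.det U := by
  have hg : ∀ i : Fin n, HasFDerivAt (fun t : ℂ => U i + t • L (U i))
      ((1 : ℂ →L[ℂ] ℂ).smulRight (L (U i))) (0 : ℂ) := by
    intro i
    have h1 : HasFDerivAt (fun t : ℂ => t • L (U i)) ((1 : ℂ →L[ℂ] ℂ).smulRight (L (U i))) 0 :=
      ((1 : ℂ →L[ℂ] ℂ).smulRight (L (U i))).hasFDerivAt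
    exact h1.const_add _
  have h1 := HasFDerivAt.multilinear_comp (f := df_f β) hg
  have h2 : HasDerivAt (fun t : ℂ => β.det (fun i => U i + t • L (U i)))
      (∑ i, β.det (Function.update U i (L (U i)))) 0 := by
    have h3 := h1.hasDerivAt
    have h4 : ((∑ i : Fin n, ((df_f β).toContinuousLinearMap (fun j => U j + (0 : ℂ) • L (U j)) i) ∘L
        ((1 : ℂ →L[ℂ] ℂ).smulRight (L (U i)))) : ℂ →L[ℂ] ℂ) 1 =
        ∑ i, β.det (Function.update U i (L (U i))) := by
      rw [ContinuousLinearMap.sum_apply]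
      refine Finset.sum_congr rfl fun i _ => ?_
      have h5 : (fun j => U j + (0 : ℂ) • L (U j)) = U := by
        funext j
        rw [zero_smul, add_zero]
      rw [h5]
      change β.det (Function.update U i ((1 : ℂ) • L (U i))) = _
      rw [one_smul]
    rw [h4] at h3
    exact h3
  obtain ⟨M, hM⟩ : ∃ M : Matrix (Fin n) (Fin n) ℂ, M = LinearMap.toMatrix β β L := ⟨_, rfl⟩
  have h3 : ∀ t : ℂ, β.det (fun i => U i + t • L (U i)) =
      (1 + M.trace * t + (Matrix.det (1 + (Polynomial.X : Polynomial ℂ) •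
        M.map Polynomial.C)).divX.divX.eval t * t ^ 2) * β.det U := by
    intro t
    have e1 : (fun i => U i + t • L (U i)) = (LinearMap.id + t • L : E →ₗ[ℂ] E) ∘ U := rfl
    rw [e1, Module.Basis.det_comp, ← Matrix.det_one_add_smul, hM,
      ← LinearMap.det_toMatrix β (LinearMap.id + t • L : E →ₗ[ℂ] E)]
    congr 2
    rw [map_add, map_smul, LinearMap.toMatrix_id]
  have h4 : HasDerivAt (fun t : ℂ => (1 + M.trace * t + (Matrix.det (1 +
      (Polynomial.X : Polynomial ℂ) • M.map Polynomial.C)).divX.divX.eval t * t ^ 2) * β.det U)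
      (M.trace * β.det U) 0 := by
    obtain ⟨q, hq⟩ : ∃ q : Polynomial ℂ, q = (Matrix.det (1 +
      (Polynomial.X : Polynomial ℂ) • M.map Polynomial.C)).divX.divX := ⟨_, rfl⟩
    rw [← hq]
    have h5 := ((((hasDerivAt_const (0 : ℂ) (1 : ℂ)).add
      ((hasDerivAt_id (0 : ℂ)).const_mul M.trace)).add
      ((q.hasDerivAt (0 : ℂ)).mul (hasDerivAt_pow 2 (0 : ℂ)))).mul_const (β.det U))
    refine h5.congr_deriv ?_
    simp
  have h5 : HasDerivAt (fun t : ℂ => β.det (fun i => U i + t • L (U i))) (M.trace * β.det U) 0 := by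
    have e1 : (fun t : ℂ => β.det (fun i => U i + t • L (U i))) = fun t : ℂ =>
        (1 + M.trace * t + (Matrix.det (1 + (Polynomial.X : Polynomial ℂ) •
        M.map Polynomial.C)).divX.divX.eval t * t ^ 2) * β.det U := funext h3
    rw [e1]
    exact h4
  rw [h2.unique h5, hM, LinearMap.trace_eq_matrix_trace ℂ β L]

theorem det_frame {n : ℕ} (β : Module.Basis (Fin n) ℂ E) (u : Fin n → E → E) (v : E → E) (z : E)
    (hu : ∀ k, DifferentiableAt ℂ (u k) z)
    (hbr : ∀ k, fderiv ℂ (u k) z (v z) - fderiv ℂ v z (u k z) ∈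
      Submodule.span ℂ ((fun l => u l z) '' {l | l < k})) :
    fderiv ℂ (fun y => β.det (fun k => u k y)) z (v z) =
      tr (fderiv ℂ v z) * β.det (fun k => u k z) := by
  have hg : ∀ k : Fin n, HasFDerivAt (u k) (fderiv ℂ (u k) z) z := fun k => (hu k).hasFDerivAt
  have h1 : fderiv ℂ (fun y => β.det (fun k => u k y)) z =
      ∑ i : Fin n, ((df_f β).toContinuousLinearMap (fun j => u j z) i) ∘L (fderiv ℂ (u i) z) :=
    (HasFDerivAt.multilinear_comp (f := df_f β) hg).fderiv
  rw [h1, ContinuousLinearMap.sum_apply]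
  have h2 := df_tr β (fderiv ℂ v z : E →ₗ[ℂ] E) (fun k => u k z)
  refine Eq.trans ?_ h2
  refine Finset.sum_congr rfl fun i _ => ?_
  change β.det (Function.update (fun k => u k z) i (fderiv ℂ (u i) z (v z))) =
    β.det (Function.update (fun k => u k z) i (fderiv ℂ v z (u i z)))
  have h3 := df_span β (fun k => u k z) i (hbr i)
  have h4 : β.det (Function.update (fun k => u k z) i
      (fderiv ℂ (u i) z (v z) - fderiv ℂ v z (u i z))) =
      β.det (Function.update (fun k => u k z) i (fderiv ℂ (u i) z (v z))) -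
      β.det (Function.update (fun k => u k z) i (fderiv ℂ v z (u i z))) :=
    β.det.map_update_sub _ _ _ _
  rw [h4] at h3
  exact sub_eq_zero.1 h3

end

end Pool.Agent.HOA
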