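import Pool.Agent.HOA.Loc

/-!
# HOA/LBd: uniform bounds of the local expressions of a diffeomorphism (compactness)
-/

open scoped Manifold ContDiff Topology
open Set Metric Filter

namespace Pool.Agent.HOA

noncomputable section

variable {E : Type} [NormedAddCommGroup E] [NormedSpace ℂ E] [FiniteDimensional ℂ E]
variable {M : Type} [TopologicalSpace M] [T2Space M] [CompactSpace M] [ChartedSpace E M]
  [IsManifold 𝓘(ℂ, E) ω M]

omit [T2Space M] [CompactSpace M] [IsManifold 𝓘(ℂ, E) ω M] in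
private theorem la_compact {ι : Type} (G : GCover ι E M) (i : ι) : IsCompact {x : M | G.In i x} := by
  have h0 : closedBall (G.c i) (2 * G.r i) ⊆ (G.e i).target := by
    refine (closedBall_subset_closedBall ?_).trans (G.sub i)
    have := G.pos i
    linarith
  have h1 : {x : M | G.In i x} = (G.e i).symm '' closedBall (G.c i) (2 * G.r i) := by
    ext x
    constructor
    · rintro ⟨h1, h2⟩
      exact ⟨G.e i x, h2, (G.e i).left_inv h1⟩
    · rintro ⟨z, hz, rfl⟩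
      refine ⟨(G.e i).map_target (h0 hz), ?_⟩
      rw [(G.e i).right_inv (h0 hz)]
      exact hz
  rw [h1]
  have : ProperSpace E := FiniteDimensional.proper ℂ E
  exact (isCompact_closedBall _ _).image_of_continuousOn ((G.e i).continuousOn_symm.mono h0)

private theorem lb_one (g : Diffeomorph 𝓘(ℂ, E) 𝓘(ℂ, E) M M ω) {ι : Type} (G : GCover ι E M)
    (i j : ι) : ∃ C : ℝ, ∀ x : M, G.In i x → G.In j (g x) →
      (∀ w : E, ‖fderiv ℂ (lmap (G.e i) g (G.e j)) (G.e i x) w‖ ≤ C * ‖w‖) ∧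
      (∀ w : E, ‖Bt (lmap (G.e i) g (G.e j)) (G.e i x) w‖ ≤ C * ‖w‖) ∧
      ‖(fderiv ℂ (lmap (G.e i) g (G.e j)) (G.e i x)).det‖ ≤ C ∧
      ‖((fderiv ℂ (lmap (G.e i) g (G.e j)) (G.e i x)).det)⁻¹‖ ≤ C := by
  have hcE : CompleteSpace E := FiniteDimensional.complete ℂ E
  obtain ⟨F, hF⟩ : ∃ F, F = lmap (G.e i) g (G.e j) := ⟨_, rfl⟩
  rw [← hF]
  obtain ⟨K, hK⟩ : ∃ K : Set M, K = {x | G.In i x} ∩ g ⁻¹' {x | G.In j x} := ⟨_, rfl⟩
  have hKc : IsCompact K := by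
    rw [hK]
    exact (la_compact G i).inter_right ((la_compact G j).isClosed.preimage g.continuous)
  have hmem : ∀ x, x ∈ K ↔ G.In i x ∧ G.In j (g x) := by
    intro x
    rw [hK]
    exact Iff.rfl
  have han : ∀ x ∈ K, AnalyticAt ℂ F (G.e i x) := by
    intro x hx
    obtain ⟨h1, h2⟩ := (hmem x).1 hx
    rw [hF]
    refine lmap_analytic g.contMDiff (G.mem i) (G.mem j) ((G.e i).map_source h1.1) ?_
    rw [(G.e i).left_inv h1.1]
    exact h2.1
  have hinv : ∀ x ∈ K, (fderiv ℂ F (G.e i x)).IsInvertible ∧ (fderiv ℂ F (G.e i x)).det ≠ 0 := by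
    intro x hx
    obtain ⟨h1, h2⟩ := (hmem x).1 hx
    rw [hF]
    exact lmap_invertible g (G.mem i) (G.mem j) h1.1 h2.1
  have hce : ∀ x ∈ K, ContinuousAt (G.e i) x := fun x hx => (G.e i).continuousAt ((hmem x).1 hx).1.1
  have c1 : ∀ x ∈ K, ContinuousAt (fun x => fderiv ℂ F (G.e i x)) x := fun x hx =>
    ContinuousAt.comp (g := fderiv ℂ F) (han x hx).fderiv.continuousAt (hce x hx)
  have c2 : ∀ x ∈ K, ContinuousAt (fun x => fderiv ℂ (fderiv ℂ F) (G.e i x)) x := fun x hx =>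
    ContinuousAt.comp (g := fderiv ℂ (fderiv ℂ F)) (han x hx).fderiv.fderiv.continuousAt (hce x hx)
  have c3 : ∀ x ∈ K, ContinuousAt (fun x => (fderiv ℂ F (G.e i x)).inverse) x := by
    intro x hx
    obtain ⟨e, he⟩ := (hinv x hx).1
    have h1 : ContinuousAt (ContinuousLinearMap.inverse : (E →L[ℂ] E) → (E →L[ℂ] E))
        (fderiv ℂ F (G.e i x)) := by
      rw [← he]
      exact (contDiffAt_map_inverse (𝕜 := ℂ) (n := 0) e).continuousAt
    exact ContinuousAt.comp (g := ContinuousLinearMap.inverse) h1 (c1 x hx)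
  have c4 : ∀ x ∈ K, ContinuousAt (fun x => (fderiv ℂ F (G.e i x)).det) x := fun x hx =>
    ContinuousAt.comp (g := fun A : E →L[ℂ] E => A.det) ContinuousLinearMap.continuous_det.continuousAt
      (c1 x hx)
  have c5 : ∀ x ∈ K, ContinuousAt (fun x => ((fderiv ℂ F (G.e i x)).det)⁻¹) x := fun x hx =>
    (c4 x hx).inv₀ (hinv x hx).2
  obtain ⟨C1, h1⟩ := hKc.exists_bound_of_continuousOn fun x hx => (c1 x hx).continuousWithinAt
  obtain ⟨C2, h2⟩ := hKc.exists_bound_of_continuousOn fun x hx => (c2 x hx).continuousWithinAt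
  obtain ⟨C3, h3⟩ := hKc.exists_bound_of_continuousOn fun x hx => (c3 x hx).continuousWithinAt
  obtain ⟨C4, h4⟩ := hKc.exists_bound_of_continuousOn fun x hx => (c4 x hx).continuousWithinAt
  obtain ⟨C5, h5⟩ := hKc.exists_bound_of_continuousOn fun x hx => (c5 x hx).continuousWithinAt
  obtain ⟨tl, htl⟩ : ∃ tl : (E →L[ℂ] E) →L[ℂ] ℂ, ∀ A : E →L[ℂ] E,
      tl A = LinearMap.trace ℂ E (A : E →ₗ[ℂ] E) :=
    ⟨LinearMap.toContinuousLinearMap ((LinearMap.trace ℂ E).comp (ContinuousLinearMap.coeLM ℂ)),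
      fun A => rfl⟩
  refine ⟨|C1| + ‖tl‖ * (|C3| * |C2|) + |C4| + |C5|, fun x hi hj => ?_⟩
  have hx : x ∈ K := (hmem x).2 ⟨hi, hj⟩
  have k1 : ‖fderiv ℂ F (G.e i x)‖ ≤ |C1| := (h1 x hx).trans (le_abs_self _)
  have k2 : ‖fderiv ℂ (fderiv ℂ F) (G.e i x)‖ ≤ |C2| := (h2 x hx).trans (le_abs_self _)
  have k3 : ‖(fderiv ℂ F (G.e i x)).inverse‖ ≤ |C3| := (h3 x hx).trans (le_abs_self _)
  have k4 : ‖(fderiv ℂ F (G.e i x)).det‖ ≤ |C4| := (h4 x hx).trans (le_abs_self _)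
  have k5 : ‖((fderiv ℂ F (G.e i x)).det)⁻¹‖ ≤ |C5| := (h5 x hx).trans (le_abs_self _)
  have ptl : 0 ≤ ‖tl‖ := by positivity
  have p1 : 0 ≤ |C1| := abs_nonneg _
  have p2 : 0 ≤ ‖tl‖ * (|C3| * |C2|) := by positivity
  have p4 : 0 ≤ |C4| := abs_nonneg _
  have p5 : 0 ≤ |C5| := abs_nonneg _
  refine ⟨fun w => ?_, fun w => ?_, by linarith, by linarith⟩
  · calc ‖fderiv ℂ F (G.e i x) w‖ ≤ ‖fderiv ℂ F (G.e i x)‖ * ‖w‖ := ContinuousLinearMap.le_opNorm _ _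
      _ ≤ (|C1| + ‖tl‖ * (|C3| * |C2|) + |C4| + |C5|) * ‖w‖ :=
          mul_le_mul_of_nonneg_right (by linarith) (norm_nonneg _)
  · have e1 : Bt F (G.e i x) w = tl ((fderiv ℂ F (G.e i x)).inverse ∘L
        (fderiv ℂ (fderiv ℂ F) (G.e i x) w)) := (htl _).symm
    rw [e1]
    calc ‖tl ((fderiv ℂ F (G.e i x)).inverse ∘L (fderiv ℂ (fderiv ℂ F) (G.e i x) w))‖
        ≤ ‖tl‖ * ‖(fderiv ℂ F (G.e i x)).inverse ∘L (fderiv ℂ (fderiv ℂ F) (G.e i x) w)‖ :=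
          ContinuousLinearMap.le_opNorm _ _
      _ ≤ ‖tl‖ * (‖(fderiv ℂ F (G.e i x)).inverse‖ * ‖fderiv ℂ (fderiv ℂ F) (G.e i x) w‖) :=
          mul_le_mul_of_nonneg_left (ContinuousLinearMap.opNorm_comp_le _ _) ptl
      _ ≤ ‖tl‖ * (|C3| * (|C2| * ‖w‖)) := by
          refine mul_le_mul_of_nonneg_left ?_ ptl
          refine mul_le_mul k3 ?_ (norm_nonneg _) (abs_nonneg _)
          refine (ContinuousLinearMap.le_opNorm _ _).trans ?_
          exact mul_le_mul_of_nonneg_right k2 (norm_nonneg _)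
      _ = (‖tl‖ * (|C3| * |C2|)) * ‖w‖ := by ring
      _ ≤ (|C1| + ‖tl‖ * (|C3| * |C2|) + |C4| + |C5|) * ‖w‖ :=
          mul_le_mul_of_nonneg_right (by linarith) (norm_nonneg _)

theorem lmap_bounds (g : Diffeomorph 𝓘(ℂ, E) 𝓘(ℂ, E) M M ω)
    {ι : Type} [Finite ι] (G : GCover ι E M) :
    ∃ C : ℝ, 0 < C ∧ ∀ (i j : ι) (x : M), G.In i x → G.In j (g x) →
      (∀ w : E, ‖fderiv ℂ (lmap (G.e i) g (G.e j)) (G.e i x) w‖ ≤ C * ‖w‖) ∧
      (∀ w : E, ‖Bt (lmap (G.e i) g (G.e j)) (G.e i x) w‖ ≤ C * ‖w‖) ∧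
      ‖(fderiv ℂ (lmap (G.e i) g (G.e j)) (G.e i x)).det‖ ≤ C ∧
      ‖((fderiv ℂ (lmap (G.e i) g (G.e j)) (G.e i x)).det)⁻¹‖ ≤ C := by
  choose c hc using fun i j => lb_one g G i j
  obtain ⟨C, hC⟩ := (Set.finite_range (fun p : ι × ι => c p.1 p.2)).bddAbove
  have hC' : ∀ i j, c i j ≤ max C 1 := fun i j => (hC ⟨(i, j), rfl⟩).trans (le_max_left _ _)
  refine ⟨max C 1, lt_of_lt_of_le one_pos (le_max_right _ _), fun i j x hi hj => ?_⟩
  obtain ⟨h1, h2, h3, h4⟩ := hc i j x hi hj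
  refine ⟨fun w => (h1 w).trans ?_, fun w => (h2 w).trans ?_, h3.trans (hC' i j), h4.trans (hC' i j)⟩
  · exact mul_le_mul_of_nonneg_right (hC' i j) (norm_nonneg _)
  · exact mul_le_mul_of_nonneg_right (hC' i j) (norm_nonneg _)

end

end Pool.Agent.HOA
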