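import Pool.Agent.HOA.Tools

/-!
# HOA/NCmp: comparison of the norm N with the norm of the coordinates

Compactness of a closed ball times the unit sphere and homogeneity.
-/

open scoped Manifold ContDiff Topology
open Set Metric Filter

namespace Pool.Agent.HOA

noncomputable section

variable {E : Type} [NormedAddCommGroup E] [NormedSpace ℂ E] [FiniteDimensional ℂ E]
variable {M : Type} [TopologicalSpace M] [T2Space M] [CompactSpace M] [ChartedSpace E M]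
  [IsManifold 𝓘(ℂ, E) ω M]

omit [FiniteDimensional ℂ E] [T2Space M] [CompactSpace M] in
private theorem nc_cont {N : (x : M) → TangentSpace 𝓘(ℂ, E) x → ℝ}
    (hc : Continuous (fun v : TangentBundle 𝓘(ℂ, E) M => N v.proj v.snd))
    {e : OpenPartialHomeomorph M E} (he : e ∈ atlas E M) :
    ContinuousOn (fun p : E × E => N (e.symm p.1) (ilc e p.1 p.2)) (e.target ×ˢ univ) := by
  have h1 : ContMDiffOn 𝓘(ℂ, E) 𝓘(ℂ, E) ω e.symm e.target :=
    contMDiffOn_symm_of_mem_maximalAtlas (IsManifold.subset_maximalAtlas he)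
  have h2 := h1.continuousOn_tangentMapWithin (by simp) e.open_target.uniqueMDiffOn
  have h3 : Continuous (fun p : E × E => (tangentBundleModelSpaceHomeomorph 𝓘(ℂ, E)).symm p) :=
    Homeomorph.continuous _
  have h4 := hc.comp_continuousOn (h2.comp (s := e.target ×ˢ univ) h3.continuousOn
    (fun p hp => hp.1))
  refine h4.congr fun p hp => ?_
  show N (e.symm p.1) (mfderiv 𝓘(ℂ, E) 𝓘(ℂ, E) e.symm p.1 p.2) =
    N (e.symm p.1) (mfderivWithin 𝓘(ℂ, E) 𝓘(ℂ, E) e.symm e.target p.1 p.2)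
  rw [mfderivWithin_of_isOpen e.open_target hp.1]

omit [FiniteDimensional ℂ E] [T2Space M] [CompactSpace M] in
private theorem nc_key {N : (x : M) → TangentSpace 𝓘(ℂ, E) x → ℝ}
    {e : OpenPartialHomeomorph M E} (he : e.MDifferentiable 𝓘(ℂ, E) 𝓘(ℂ, E)) {x : M}
    (hx : x ∈ e.source) (ξ : TangentSpace 𝓘(ℂ, E) x) :
    N (e.symm (e x)) (ilc e (e x) (lc e x ξ)) = N x ξ := by
  have h1 := he.symm_comp_deriv hx
  have h2 : (ilc e (e x) (lc e x ξ) : E) = ξ := congrArg (fun A : E →L[ℂ] E => A ξ) h1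
  have h3 : (⟨e.symm (e x), ilc e (e x) (lc e x ξ)⟩ : TangentBundle 𝓘(ℂ, E) M) = ⟨x, ξ⟩ := by
    have h4 : e.symm (e x) = x := e.left_inv hx
    refine Bundle.TotalSpace.ext h4 ?_
    exact heq_of_eq h2
  exact congrArg (fun v : TangentBundle 𝓘(ℂ, E) M => N v.proj v.snd) h3

omit [FiniteDimensional ℂ E] [T2Space M] [CompactSpace M] in
private theorem nc_ne {e : OpenPartialHomeomorph M E}
    (he : e.MDifferentiable 𝓘(ℂ, E) 𝓘(ℂ, E)) {z : E} (hz : z ∈ e.target) {w : E} (hw : w ≠ 0) :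
    ilc e z w ≠ 0 := by
  intro h
  apply hw
  have h1 := he.comp_symm_deriv hz
  have h2 : (mfderiv 𝓘(ℂ, E) 𝓘(ℂ, E) e (e.symm z)) (ilc e z w) = w :=
    congrArg (fun A : E →L[ℂ] E => A w) h1
  rw [← h2, h]
  exact map_zero _

omit [FiniteDimensional ℂ E] [T2Space M] [CompactSpace M] [IsManifold 𝓘(ℂ, E) ω M] in
private theorem nc_smul (e : OpenPartialHomeomorph M E) (z : E) (t : ℝ) (w : E) :
    ilc e z (t • w) = t • ilc e z w := by
  have h1 : t • w = (t : ℂ) • w := (Complex.coe_smul t w).symm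
  have h2 : t • ilc e z w = (t : ℂ) • ilc e z w :=
    (Complex.coe_smul t (ilc e z w)).symm
  rw [h1, h2]
  exact map_smul (mfderiv 𝓘(ℂ, E) 𝓘(ℂ, E) e.symm z) (t : ℂ) w

omit [T2Space M] [CompactSpace M] in
private theorem nc_one {N : (x : M) → TangentSpace 𝓘(ℂ, E) x → ℝ}
    (hc : Continuous (fun v : TangentBundle 𝓘(ℂ, E) M => N v.proj v.snd))
    (hs : ∀ (x : M) (t : ℝ) (v : TangentSpace 𝓘(ℂ, E) x), N x (t • v) = |t| * N x v)
    (hp : ∀ (x : M) (v : TangentSpace 𝓘(ℂ, E) x), v ≠ 0 → 0 < N x v)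
    {e : OpenPartialHomeomorph M E} (he : e ∈ atlas E M) {K : Set E} (hK : IsCompact K)
    (hKt : K ⊆ e.target) :
    ∃ A : ℝ, 0 < A ∧ ∀ x ∈ e.source, e x ∈ K → ∀ ξ : TangentSpace 𝓘(ℂ, E) x,
      ‖lc e x ξ‖ ≤ A * N x ξ ∧ N x ξ ≤ A * ‖lc e x ξ‖ := by
  have : ProperSpace E := FiniteDimensional.proper ℂ E
  have : IsManifold 𝓘(ℂ, E) 1 M := IsManifold.of_le (n := ω) (by simp)
  have hmd : e.MDifferentiable 𝓘(ℂ, E) 𝓘(ℂ, E) := mdifferentiable_of_mem_atlas he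
  set F : E × E → ℝ := fun p => N (e.symm p.1) (ilc e p.1 p.2) with hF
  set S : Set (E × E) := K ×ˢ sphere (0 : E) 1 with hS
  have hSc : IsCompact S := hK.prod (isCompact_sphere 0 1)
  have hFc : ContinuousOn F S := (nc_cont hc he).mono (prod_mono hKt (subset_univ _))
  have hFp : ∀ p ∈ S, 0 < F p := by
    intro p hp'
    apply hp
    apply nc_ne hmd (hKt hp'.1)
    intro h0
    have h1 := hp'.2
    rw [mem_sphere_zero_iff_norm, h0, norm_zero] at h1
    exact zero_ne_one h1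
  obtain ⟨b, hb⟩ := hSc.bddAbove_image hFc
  obtain ⟨b', hb'⟩ := hSc.bddAbove_image (hFc.inv₀ fun p hp' => (hFp p hp').ne')
  have hA0 : 0 < max 1 (max b b') := lt_of_lt_of_le one_pos (le_max_left _ _)
  refine ⟨max 1 (max b b'), hA0, ?_⟩
  intro x hx hxK ξ
  rw [← nc_key (N := N) hmd hx ξ]
  set w : E := lc e x ξ with hw
  by_cases hw0 : w = 0
  · have h1 : N (e.symm (e x)) (ilc e (e x) w) = 0 := by
      have h2 := nc_smul e (e x) 0 w
      have h3 := hs (e.symm (e x)) 0 (ilc e (e x) w)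
      rw [abs_zero, zero_mul, ← h2, zero_smul] at h3
      rw [hw0]
      exact h3
    rw [h1, hw0, norm_zero, mul_zero]
    exact ⟨le_refl _, le_refl _⟩
  · have hn : 0 < ‖w‖ := norm_pos_iff.2 hw0
    have hu : (e x, ‖w‖⁻¹ • w) ∈ S := by
      refine ⟨hxK, ?_⟩
      rw [mem_sphere_zero_iff_norm]
      show ‖‖w‖⁻¹ • w‖ = 1
      rw [norm_smul, norm_inv, norm_norm, inv_mul_cancel₀ hn.ne']
    have h1 : N (e.symm (e x)) (ilc e (e x) w) = ‖w‖ * F (e x, ‖w‖⁻¹ • w) := by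
      have h2 : w = ‖w‖ • (‖w‖⁻¹ • w) := by
        rw [smul_smul, mul_inv_cancel₀ hn.ne', one_smul]
      have h3 := hs (e.symm (e x)) ‖w‖ (ilc e (e x) (‖w‖⁻¹ • w))
      rw [← nc_smul, ← h2, abs_of_pos hn] at h3
      exact h3
    have h4 : F (e x, ‖w‖⁻¹ • w) ≤ b := hb (mem_image_of_mem F hu)
    have h5 : (F (e x, ‖w‖⁻¹ • w))⁻¹ ≤ b' := hb' (mem_image_of_mem (fun p => (F p)⁻¹) hu)
    have h6 := hFp _ hu
    have h7 : b ≤ max 1 (max b b') := (le_max_left _ _).trans (le_max_right _ _)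
    have h8 : b' ≤ max 1 (max b b') := (le_max_right _ _).trans (le_max_right _ _)
    rw [h1]
    constructor
    · have h9 : 1 ≤ max 1 (max b b') * F (e x, ‖w‖⁻¹ • w) := by
        have h11 := mul_le_mul_of_nonneg_right (h5.trans h8) h6.le
        rwa [inv_mul_cancel₀ h6.ne'] at h11
      have h10 : max 1 (max b b') * (‖w‖ * F (e x, ‖w‖⁻¹ • w)) =
          ‖w‖ * (max 1 (max b b') * F (e x, ‖w‖⁻¹ • w)) := by ring
      rw [h10]
      exact le_mul_of_one_le_right hn.le h9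
    · rw [mul_comm]
      exact mul_le_mul_of_nonneg_right (h4.trans h7) hn.le

theorem norm_compare {N : (x : M) → TangentSpace 𝓘(ℂ, E) x → ℝ}
    (hc : Continuous (fun v : TangentBundle 𝓘(ℂ, E) M => N v.proj v.snd))
    (hs : ∀ (x : M) (t : ℝ) (v : TangentSpace 𝓘(ℂ, E) x), N x (t • v) = |t| * N x v)
    (hp : ∀ (x : M) (v : TangentSpace 𝓘(ℂ, E) x), v ≠ 0 → 0 < N x v)
    {ι : Type} [Finite ι] (G : GCover ι E M) :
    ∃ A : ℝ, 0 < A ∧ ∀ (i : ι) (x : M), G.In i x → ∀ ξ : TangentSpace 𝓘(ℂ, E) x,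
      ‖lc (G.e i) x ξ‖ ≤ A * N x ξ ∧ N x ξ ≤ A * ‖lc (G.e i) x ξ‖ := by
  have : ProperSpace E := FiniteDimensional.proper ℂ E
  have h1 : ∀ i : ι, ∃ A : ℝ, 0 < A ∧ ∀ x ∈ (G.e i).source,
      G.e i x ∈ closedBall (G.c i) (2 * G.r i) → ∀ ξ : TangentSpace 𝓘(ℂ, E) x,
      ‖lc (G.e i) x ξ‖ ≤ A * N x ξ ∧ N x ξ ≤ A * ‖lc (G.e i) x ξ‖ := by
    intro i
    refine nc_one hc hs hp (G.mem i) (isCompact_closedBall _ _) ?_
    refine (closedBall_subset_closedBall ?_).trans (G.sub i)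
    have := G.pos i
    linarith
  choose A hA0 hA using h1
  have := Fintype.ofFinite ι
  have hN : ∀ (x : M) (ξ : TangentSpace 𝓘(ℂ, E) x), 0 ≤ N x ξ := by
    intro x ξ
    by_cases h0 : ξ = 0
    · have h3 := hs x 0 ξ
      rw [abs_zero, zero_mul, zero_smul] at h3
      rw [h0, h3]
    · exact (hp x ξ h0).le
  refine ⟨1 + ∑ i, A i, ?_, ?_⟩
  · have : 0 ≤ ∑ i, A i := Finset.sum_nonneg fun i _ => (hA0 i).le
    linarith
  · intro i x hx ξ
    have h2 : A i ≤ 1 + ∑ j, A j := by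
      have h3 := Finset.single_le_sum (f := A) (fun j _ => (hA0 j).le) (Finset.mem_univ i)
      linarith
    obtain ⟨h4, h5⟩ := hA i x hx.1 hx.2 ξ
    exact ⟨h4.trans (mul_le_mul_of_nonneg_right h2 (hN x ξ)),
      h5.trans (mul_le_mul_of_nonneg_right h2 (norm_nonneg _))⟩

end

end Pool.Agent.HOA
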