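import Pool.Agent.HOA.Tools

/-!
# HOA/TrPush: change of the divergence under a map

The relation `u' ∘ F = DF u` is differentiated; the second derivative is symmetric; traces.
-/

open scoped Manifold ContDiff Topology
open Set Metric Filter

namespace Pool.Agent.HOA

noncomputable section

variable {E : Type} [NormedAddCommGroup E] [NormedSpace ℂ E] [FiniteDimensional ℂ E]

omit [FiniteDimensional ℂ E] in
private theorem trpush_comm (A B : E →L[ℂ] E) :
    LinearMap.trace ℂ E ((A ∘L B : E →L[ℂ] E) : E →ₗ[ℂ] E) =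
      LinearMap.trace ℂ E ((B ∘L A : E →L[ℂ] E) : E →ₗ[ℂ] E) := by
  have h := LinearMap.trace_mul_comm ℂ (A : E →ₗ[ℂ] E) (B : E →ₗ[ℂ] E)
  exact h

theorem tr_push {F u u' : E → E} {z : E} (hF : AnalyticAt ℂ F z)
    (hinv : (fderiv ℂ F z).IsInvertible) (hu : DifferentiableAt ℂ u z)
    (hu' : DifferentiableAt ℂ u' (F z)) (h : ∀ᶠ y in 𝓝 z, u' (F y) = fderiv ℂ F y (u y)) :
    tr (fderiv ℂ u' (F z)) = tr (fderiv ℂ u z) + Bt F z (u z) := by
  have : CompleteSpace E := FiniteDimensional.complete ℂ E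
  have hF1 : HasFDerivAt F (fderiv ℂ F z) z := hF.differentiableAt.hasFDerivAt
  have hF2 : HasFDerivAt (fderiv ℂ F) (fderiv ℂ (fderiv ℂ F) z) z :=
    hF.fderiv.differentiableAt.hasFDerivAt
  have hL : HasFDerivAt (fun y => u' (F y)) ((fderiv ℂ u' (F z)).comp (fderiv ℂ F z)) z :=
    hu'.hasFDerivAt.comp z hF1
  have hR : HasFDerivAt (fun y => fderiv ℂ F y (u y))
      ((fderiv ℂ F z).comp (fderiv ℂ u z) + (fderiv ℂ (fderiv ℂ F) z).flip (u z)) z :=
    hF2.clm_apply hu.hasFDerivAt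
  have hR' := hR.congr_of_eventuallyEq h
  have heq := hL.unique hR'
  have hsymm : IsSymmSndFDerivAt ℂ F z :=
    (hF.contDiffAt (n := ω)).isSymmSndFDerivAt le_top
  have hflip : (fderiv ℂ (fderiv ℂ F) z).flip (u z) = fderiv ℂ (fderiv ℂ F) z (u z) := by
    ext v
    rw [ContinuousLinearMap.flip_apply]
    exact hsymm v (u z)
  rw [hflip] at heq
  have hA1 : (fderiv ℂ F z).comp (fderiv ℂ F z).inverse = ContinuousLinearMap.id ℂ E := by
    obtain ⟨e, he⟩ := hinv
    rw [← he, ContinuousLinearMap.inverse_equiv]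
    ext v
    simp
  have hA2 : (fderiv ℂ F z).inverse.comp (fderiv ℂ F z) = ContinuousLinearMap.id ℂ E := by
    obtain ⟨e, he⟩ := hinv
    rw [← he, ContinuousLinearMap.inverse_equiv]
    ext v
    simp
  set A := (fderiv ℂ F z).inverse with hA
  have h1 : fderiv ℂ u' (F z) = ((fderiv ℂ F z).comp (fderiv ℂ u z)).comp A +
      (fderiv ℂ (fderiv ℂ F) z (u z)).comp A := by
    have h2 := congrArg (fun B : E →L[ℂ] E => B.comp A) heq
    simp only [ContinuousLinearMap.add_comp] at h2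
    rw [ContinuousLinearMap.comp_assoc (fderiv ℂ u' (F z)), hA1,
      ContinuousLinearMap.comp_id] at h2
    exact h2
  have h3 : LinearMap.trace ℂ E ((((fderiv ℂ F z).comp (fderiv ℂ u z)).comp A : E →L[ℂ] E) :
      E →ₗ[ℂ] E) = LinearMap.trace ℂ E ((fderiv ℂ u z : E →L[ℂ] E) : E →ₗ[ℂ] E) := by
    rw [trpush_comm, ← ContinuousLinearMap.comp_assoc, hA2, ContinuousLinearMap.id_comp]
  unfold tr Bt
  rw [h1, ContinuousLinearMap.toLinearMap_add, map_add, h3, trpush_comm]

end

end Pool.Agent.HOA
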