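import Pool.Agent.HOA.InEs
import Pool.Agent.HOA.TrPush
import Pool.Agent.HOA.NCmp
import Pool.Agent.HOA.LBd

/-!
# HOA/Div: the divergence of a contracted holomorphic field is bounded by the field
-/

open scoped Manifold ContDiff Topology
open Set Metric Filter

namespace Pool.Agent.HOA

noncomputable section

variable {E : Type} [NormedAddCommGroup E] [NormedSpace ℂ E] [FiniteDimensional ℂ E]
variable {M : Type} [TopologicalSpace M] [T2Space M] [CompactSpace M] [ChartedSpace E M]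
  [IsManifold 𝓘(ℂ, E) ω M]
variable {f : Diffeomorph 𝓘(ℂ, E) 𝓘(ℂ, E) M M ω} {N : (x : M) → TangentSpace 𝓘(ℂ, E) x → ℝ}
  {Es Eu : (x : M) → Submodule ℝ (TangentSpace 𝓘(ℂ, E) x)} {C ν : ℝ}

omit [FiniteDimensional ℂ E] [T2Space M] [CompactSpace M] [IsManifold 𝓘(ℂ, E) ω M] in
private theorem rep_at (e : OpenPartialHomeomorph M E) (X : (x : M) → TangentSpace 𝓘(ℂ, E) x)
    {x : M} (hx : x ∈ e.source) : rep e X (e x) = lc e x (X x) := by
  unfold rep
  rw [e.left_inv hx]

omit [FiniteDimensional ℂ E] in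
private theorem tr_add (A B : E →L[ℂ] E) : tr (A + B) = tr A + tr B := by
  unfold tr
  rw [ContinuousLinearMap.toLinearMap_add, map_add]

omit [FiniteDimensional ℂ E] in
private theorem tr_smul (a : ℂ) (B : E →L[ℂ] E) : tr (a • B) = a * tr B := by
  unfold tr
  rw [ContinuousLinearMap.toLinearMap_smul, map_smul, smul_eq_mul]

private theorem tr_cont : Continuous (tr : (E →L[ℂ] E) → ℂ) := by
  let L : (E →L[ℂ] E) →ₗ[ℂ] ℂ :=
    { toFun := tr
      map_add' := tr_add
      map_smul' := fun a B => by rw [tr_smul, RingHom.id_apply, smul_eq_mul] }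
  exact L.continuous_of_finiteDimensional

omit [FiniteDimensional ℂ E] [T2Space M] [CompactSpace M] in
private theorem rep_add (e : OpenPartialHomeomorph M E) (v w : HF E M) :
    rep e (v + w).1 = rep e v.1 + rep e w.1 := by
  funext z
  exact map_add (mfderiv 𝓘(ℂ, E) 𝓘(ℂ, E) e (e.symm z)) _ _

omit [FiniteDimensional ℂ E] [T2Space M] [CompactSpace M] in
private theorem rep_smul (e : OpenPartialHomeomorph M E) (a : ℂ) (v : HF E M) :
    rep e (a • v).1 = a • rep e v.1 := by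
  funext z
  exact map_smul (mfderiv 𝓘(ℂ, E) 𝓘(ℂ, E) e (e.symm z)) _ _

private theorem rep_diff {ι : Type} (G : GCover ι E M) (v : HF E M) {i : ι} {x : M}
    (hx : G.In i x) : DifferentiableAt ℂ (rep (G.e i) v.1) (G.e i x) :=
  (rep_analytic v.2 (G.mem i) _ ((G.e i).map_source hx.1)).differentiableAt

/-- the divergence at the points of the cores is uniformly bounded -/
private theorem div_bdd {ι : Type} [Finite ι] (G : GCover ι E M) (v : HF E M) :
    ∃ K : ℝ, ∀ (i : ι) (x : M), G.In i x → ‖tr (fderiv ℂ (rep (G.e i) v.1) (G.e i x))‖ ≤ K := by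
  have : CompleteSpace E := FiniteDimensional.complete ℂ E
  have : ProperSpace E := FiniteDimensional.proper ℂ E
  have h1 : ∀ i : ι, ∃ K : ℝ, ∀ z ∈ closedBall (G.c i) (2 * G.r i),
      ‖tr (fderiv ℂ (rep (G.e i) v.1) z)‖ ≤ K := by
    intro i
    refine (isCompact_closedBall (G.c i) (2 * G.r i)).exists_bound_of_continuousOn ?_
    refine tr_cont.comp_continuousOn ?_
    have h2 : closedBall (G.c i) (2 * G.r i) ⊆ (G.e i).target :=
      (closedBall_subset_closedBall (by linarith [G.pos i])).trans (G.sub i)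
    exact ((rep_analytic v.2 (G.mem i)).fderiv.continuousOn).mono h2
  choose K hK using h1
  obtain ⟨K0, hK0⟩ := (Set.finite_range K).bddAbove
  exact ⟨K0, fun i x hx => (hK i _ hx.2).trans (hK0 (Set.mem_range_self i))⟩

/-- uniform smallness of the divergence -/
private theorem div_small {T : HF E M ≃ₗ[ℂ] HF E M} {ι : Type} [Finite ι] (G : GCover ι E M)
    {v : HF E M} (hv : Tends T v) {ε : ℝ} (hε : 0 < ε) :
    ∀ᶠ k : ℕ in atTop, ∀ (i : ι) (x : M), G.In i x →
      ‖tr (fderiv ℂ (rep (G.e i) ((T ^ k : HF E M ≃ₗ[ℂ] HF E M) v).1) (G.e i x))‖ < ε := by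
  have : FiniteDimensional ℂ (HF E M) := hf_finite E M
  have h1 := unif_small (V := HF E M) (Y := {p : ι × M // G.In p.1 p.2})
    (fun p w => ‖tr (fderiv ℂ (rep (G.e p.1.1) w.1) (G.e p.1.1 p.1.2))‖) ?_ ?_ T hv ε hε
  · filter_upwards [h1] with k hk i x hx
    exact hk ⟨(i, x), hx⟩
  · intro y a b
    rw [rep_add, fderiv_add (rep_diff G a y.2) (rep_diff G b y.2), tr_add]
    exact norm_add_le _ _
  · intro a
    obtain ⟨K, hK⟩ := div_bdd G a
    refine ⟨K, fun y c => ?_⟩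
    rw [rep_smul, fderiv_const_smul (rep_diff G a y.2), tr_smul, norm_mul, mul_comm]
    exact mul_le_mul_of_nonneg_right (hK _ _ y.2) (norm_nonneg _)

/-- one step of the iteration -/
private theorem step {T : HF E M ≃ₗ[ℂ] HF E M} (hT : IsPush f T) {ι : Type}
    (G : GCover ι E M) (w : HF E M) {i j : ι} {x : M} (hi : G.In i x) (hj : G.In j (f x)) :
    tr (fderiv ℂ (rep (G.e j) (T w).1) (G.e j (f x))) =
      tr (fderiv ℂ (rep (G.e i) w.1) (G.e i x)) +
        Bt (lmap (G.e i) f (G.e j)) (G.e i x) (rep (G.e i) w.1 (G.e i x)) := by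
  have hz : G.e i x ∈ (G.e i).target := (G.e i).map_source hi.1
  have hFz : lmap (G.e i) f (G.e j) (G.e i x) = G.e j (f x) := by
    change G.e j (f ((G.e i).symm (G.e i x))) = _
    rw [(G.e i).left_inv hi.1]
  have hz' : f ((G.e i).symm (G.e i x)) ∈ (G.e j).source := by
    rw [(G.e i).left_inv hi.1]
    exact hj.1
  have hF : AnalyticAt ℂ (lmap (G.e i) f (G.e j)) (G.e i x) :=
    lmap_analytic f.contMDiff (G.mem i) (G.mem j) hz hz'
  have hinv := (lmap_invertible f (G.mem i) (G.mem j) hi.1 hj.1).1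
  rw [← hFz]
  refine tr_push hF hinv (rep_diff G w hi) ?_ ?_
  · rw [hFz]
    exact rep_diff G (T w) hj
  · have hc : ContinuousAt (fun y => f ((G.e i).symm y)) (G.e i x) :=
      f.continuous.continuousAt.comp ((G.e i).continuousAt_symm hz)
    filter_upwards [(G.e i).open_target.mem_nhds hz,
      hc.preimage_mem_nhds ((G.e j).open_source.mem_nhds hz')] with y hy hy'
    have h1 : (G.e i).symm y ∈ (G.e i).source := (G.e i).map_target hy
    have h2 : rep (G.e j) (T w).1 (lmap (G.e i) f (G.e j) y) =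
        lc (G.e j) (f ((G.e i).symm y)) ((T w).1 (f ((G.e i).symm y))) :=
      rep_at (G.e j) (T w).1 hy'
    rw [h2, hT, lc_mfderiv f.contMDiff (G.mem i) (G.mem j) h1 hy', (G.e i).right_inv hy]
    rfl

theorem div_bound (h : Hyp f N Es Eu C ν) {T : HF E M ≃ₗ[ℂ] HF E M} (hT : IsPush f T)
    {ι : Type} [Finite ι] (G : GCover ι E M) :
    ∃ K : ℝ, 0 < K ∧ ∀ v : HF E M, Tends T v → ∀ (i : ι) (x : M), G.In i x →
      ‖tr (fderiv ℂ (rep (G.e i) v.1) (G.e i x))‖ ≤ K * ‖rep (G.e i) v.1 (G.e i x)‖ := by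
  obtain ⟨A, hA, hA'⟩ := norm_compare h.cont h.smul h.pos G
  obtain ⟨B, hB, hB'⟩ := lmap_bounds f G
  have hν : 0 < 1 - ν := by linarith [h.ν_lt]
  have hC0 : 0 ≤ B * (A * |C| * A) := by positivity
  refine ⟨B * (A * |C| * A) / (1 - ν) + 1, by positivity, ?_⟩
  intro v hv i x hx
  have hex : ∀ k : ℕ, ∃ j, G.In j (f^[k] x) ∧ (k = 0 → j = i) := by
    intro k
    rcases Nat.eq_zero_or_pos k with hk | hk
    · subst hk
      exact ⟨i, hx, fun _ => rfl⟩
    · obtain ⟨j, hj1, hj2⟩ := G.cov (f^[k] x)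
      refine ⟨j, ⟨hj1, ?_⟩, fun h0 => by omega⟩
      exact (ball_subset_closedBall.trans
        (closedBall_subset_closedBall (by linarith [G.pos j]))) hj2
  choose J hJ hJ0 using hex
  have hJ0' : J 0 = i := hJ0 0 rfl
  -- the vectors
  set W : ℕ → HF E M := fun k => (T ^ k : HF E M ≃ₗ[ℂ] HF E M) v with hW
  have hW0 : W 0 = v := by simp [hW]
  have hWs : ∀ k, W (k + 1) = T (W k) := by
    intro k
    simp only [hW]
    rw [pow_succ', LinearEquiv.mul_apply]
  set a : ℕ → E := fun k => rep (G.e (J k)) (W k).1 (G.e (J k) (f^[k] x)) with ha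
  set d : ℕ → ℂ := fun k => tr (fderiv ℂ (rep (G.e (J k)) (W k).1) (G.e (J k) (f^[k] x))) with hd
  have hNx : N x (v.1 x) ≤ A * ‖a 0‖ := by
    have h1 := (hA' i x hx (v.1 x)).2
    simp only [ha]
    rw [hW0, hJ0', Function.iterate_zero_apply, rep_at _ _ hx.1]
    exact h1
  have hNx0 : 0 ≤ N x (v.1 x) := by
    have h1 := (hA' i x hx (v.1 x)).1
    exact nonneg_of_mul_nonneg_right ((norm_nonneg _).trans h1) hA
  have hak : ∀ k, ‖a k‖ ≤ (A * |C| * A) * ‖a 0‖ * ν ^ k := by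
    intro k
    have h1 : a k = lc (G.e (J k)) (f^[k] x) ((W k).1 (f^[k] x)) := rep_at _ _ (hJ k).1
    have h2 := (hA' (J k) (f^[k] x) (hJ k) ((W k).1 (f^[k] x))).1
    have h3 : (W k).1 (f^[k] x) = mfderiv 𝓘(ℂ, E) 𝓘(ℂ, E) (f^[k]) x (v.1 x) := push_iter hT k v x
    have h4 := h.contr x (v.1 x) (hf_in_Es h hT hv x) k
    rw [h1]
    refine h2.trans ?_
    rw [h3]
    have h5 : C * ν ^ k * N x (v.1 x) ≤ |C| * ν ^ k * (A * ‖a 0‖) := by
      have hp : 0 ≤ ν ^ k := pow_nonneg h.ν_pos.le k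
      calc C * ν ^ k * N x (v.1 x) ≤ |C| * ν ^ k * N x (v.1 x) :=
            mul_le_mul_of_nonneg_right (mul_le_mul_of_nonneg_right (le_abs_self C) hp) hNx0
        _ ≤ |C| * ν ^ k * (A * ‖a 0‖) := mul_le_mul_of_nonneg_left hNx (by positivity)
    calc A * N (f^[k] x) (mfderiv 𝓘(ℂ, E) 𝓘(ℂ, E) (f^[k]) x (v.1 x))
        ≤ A * (|C| * ν ^ k * (A * ‖a 0‖)) := mul_le_mul_of_nonneg_left (h4.trans h5) hA.le
      _ = (A * |C| * A) * ‖a 0‖ * ν ^ k := by ring
  have hstep : ∀ k, ‖d k‖ ≤ ‖d (k + 1)‖ + B * ‖a k‖ := by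
    intro k
    have hj : G.In (J (k + 1)) (f (f^[k] x)) := by
      have := hJ (k + 1)
      rwa [Function.iterate_succ_apply'] at this
    have h1 : d (k + 1) = d k + Bt (lmap (G.e (J k)) f (G.e (J (k + 1)))) (G.e (J k) (f^[k] x))
        (a k) := by
      have h2 := step hT G (W k) (hJ k) hj
      simp only [hd, ha]
      rw [hWs, Function.iterate_succ_apply']
      exact h2
    have h3 := (hB' (J k) (J (k + 1)) (f^[k] x) (hJ k) hj).2.1 (a k)
    have h4 : d k = d (k + 1) - Bt (lmap (G.e (J k)) f (G.e (J (k + 1))))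
        (G.e (J k) (f^[k] x)) (a k) := by
      rw [h1]; ring
    rw [h4]
    exact (norm_sub_le _ _).trans (add_le_add le_rfl h3)
  have hsum : ∀ n, ‖d 0‖ ≤ ‖d n‖ + ∑ k ∈ Finset.range n, B * ‖a k‖ := by
    intro n
    induction n with
    | zero => simp
    | succ n ih =>
      rw [Finset.sum_range_succ]
      linarith [hstep n]
  have hS : ∀ n, ∑ k ∈ Finset.range n, B * ‖a k‖ ≤ B * (A * |C| * A) / (1 - ν) * ‖a 0‖ := by
    intro n
    have h1 : ∑ k ∈ Finset.range n, B * ‖a k‖ ≤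
        ∑ k ∈ Finset.range n, (B * (A * |C| * A) * ‖a 0‖) * ν ^ k := by
      refine Finset.sum_le_sum fun k _ => ?_
      calc B * ‖a k‖ ≤ B * ((A * |C| * A) * ‖a 0‖ * ν ^ k) :=
            mul_le_mul_of_nonneg_left (hak k) hB.le
        _ = _ := by ring
    have h2 : ∑ k ∈ Finset.range n, ν ^ k ≤ 1 / (1 - ν) := by
      rw [geom_sum_eq h.ν_lt.ne, le_div_iff₀ hν]
      have h3 : (ν ^ n - 1) / (ν - 1) * (1 - ν) = 1 - ν ^ n := by
        have : ν - 1 ≠ 0 := by linarith
        field_simp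
        ring
      rw [h3]
      linarith [pow_nonneg h.ν_pos.le n]
    refine h1.trans ?_
    rw [← Finset.mul_sum]
    calc B * (A * |C| * A) * ‖a 0‖ * ∑ k ∈ Finset.range n, ν ^ k
        ≤ B * (A * |C| * A) * ‖a 0‖ * (1 / (1 - ν)) :=
          mul_le_mul_of_nonneg_left h2 (by positivity)
      _ = B * (A * |C| * A) / (1 - ν) * ‖a 0‖ := by ring
  have hfin : ‖d 0‖ ≤ B * (A * |C| * A) / (1 - ν) * ‖a 0‖ := by
    refine le_of_forall_pos_le_add fun ε hε => ?_
    obtain ⟨n, hn⟩ := (div_small G hv hε).exists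
    have h1 := hn (J n) (f^[n] x) (hJ n)
    have h2 := hsum n
    have h3 := hS n
    have h4 : ‖d n‖ < ε := h1
    linarith
  have hd0 : d 0 = tr (fderiv ℂ (rep (G.e i) v.1) (G.e i x)) := by
    simp only [hd]
    rw [hW0, hJ0', Function.iterate_zero_apply]
  have ha0 : a 0 = rep (G.e i) v.1 (G.e i x) := by
    simp only [ha]
    rw [hW0, hJ0', Function.iterate_zero_apply]
  rw [← hd0, ← ha0]
  refine hfin.trans ?_
  exact mul_le_mul_of_nonneg_right (by linarith) (norm_nonneg _)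

end

end Pool.Agent.HOA
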