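import Pool.Agent.HOA.Tools

/-!
# HOA/Loc: local expressions of maps, coordinates of tangent vectors

PLAN.  All are routine from the chain rule `mfderiv_comp` and the manifold API
(`mdifferentiable_of_mem_atlas`, `contMDiffOn_of_mem_maximalAtlas`,
`contMDiffOn_symm_of_mem_maximalAtlas`, `IsManifold.subset_maximalAtlas`,
`contMDiffAt_iff_contDiffAt`, `mfderiv_eq_fderiv`, `ContDiffAt.analyticAt` for `ω`).
`lmap e g e' = e' ∘ g ∘ e.symm`, and on `E` the derivative `mfderiv` is `fderiv`.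
`lmap_invertible`: the inverse is the derivative of `lmap e' g.symm e` at `e' (g x)` (the
compositions are the identity near the points); an invertible continuous linear map has nonzero
determinant.
-/

open scoped Manifold ContDiff Topology
open Set Metric Filter

namespace Pool.Agent.HOA

noncomputable section

variable {E : Type} [NormedAddCommGroup E] [NormedSpace ℂ E] [FiniteDimensional ℂ E]
variable {M : Type} [TopologicalSpace M] [T2Space M] [CompactSpace M] [ChartedSpace E M]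
  [IsManifold 𝓘(ℂ, E) ω M]

private theorem symm_at {e : OpenPartialHomeomorph M E} (he : e ∈ atlas E M) {z : E}
    (hz : z ∈ e.target) : ContMDiffAt 𝓘(ℂ, E) 𝓘(ℂ, E) ω e.symm z :=
  (contMDiffOn_symm_of_mem_maximalAtlas (IsManifold.subset_maximalAtlas he)).contMDiffAt
    (e.open_target.mem_nhds hz)

private theorem chart_at {e : OpenPartialHomeomorph M E} (he : e ∈ atlas E M) {x : M}
    (hx : x ∈ e.source) : ContMDiffAt 𝓘(ℂ, E) 𝓘(ℂ, E) ω e x :=
  (contMDiffOn_of_mem_maximalAtlas (IsManifold.subset_maximalAtlas he)).contMDiffAt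
    (e.open_source.mem_nhds hx)

private theorem lmap_cmd {g : M → M} (hg : ContMDiff 𝓘(ℂ, E) 𝓘(ℂ, E) ω g)
    {e e' : OpenPartialHomeomorph M E} (he : e ∈ atlas E M) (he' : e' ∈ atlas E M)
    {z : E} (hz : z ∈ e.target) (hz' : g (e.symm z) ∈ e'.source) :
    ContMDiffAt 𝓘(ℂ, E) 𝓘(ℂ, E) ω (lmap e g e') z := by
  have h1 := symm_at he hz
  have h2 := hg.contMDiffAt (x := e.symm z)
  have h3 := chart_at he' hz'
  have h4 : ContMDiffAt 𝓘(ℂ, E) 𝓘(ℂ, E) ω (g ∘ e.symm) z := h2.comp z h1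
  exact ContMDiffAt.comp z h3 h4

theorem lmap_analytic {g : M → M} (hg : ContMDiff 𝓘(ℂ, E) 𝓘(ℂ, E) ω g)
    {e e' : OpenPartialHomeomorph M E} (he : e ∈ atlas E M) (he' : e' ∈ atlas E M)
    {z : E} (hz : z ∈ e.target) (hz' : g (e.symm z) ∈ e'.source) :
    AnalyticAt ℂ (lmap e g e') z := by
  have h := lmap_cmd hg he he' hz hz'
  rw [contMDiffAt_iff_contDiffAt] at h
  exact h.analyticAt

theorem lc_ilc {e : OpenPartialHomeomorph M E} (he : e ∈ atlas E M) {z : E} (hz : z ∈ e.target)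
    (w : E) : lc e (e.symm z) (ilc e z w) = w := by
  have h1 := (symm_at he hz).mdifferentiableAt (by simp)
  have h2 := (chart_at he (e.map_target hz)).mdifferentiableAt (by simp)
  have h3 : mfderiv 𝓘(ℂ, E) 𝓘(ℂ, E) (e ∘ e.symm) z
      = (mfderiv 𝓘(ℂ, E) 𝓘(ℂ, E) e (e.symm z)).comp (mfderiv 𝓘(ℂ, E) 𝓘(ℂ, E) e.symm z) :=
    mfderiv_comp z h2 h1
  have h4 : (e ∘ e.symm) =ᶠ[𝓝 z] id := by
    filter_upwards [e.open_target.mem_nhds hz] with y hy
    simp [e.right_inv hy]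
  rw [h4.mfderiv_eq, mfderiv_id] at h3
  have h5 := congrArg (fun A => A w) h3
  exact h5.symm

theorem lc_injective {e : OpenPartialHomeomorph M E} (he : e ∈ atlas E M) {x : M}
    (hx : x ∈ e.source) : Function.Injective (lc e x) := by
  have h1 := (chart_at he hx).mdifferentiableAt (by simp)
  have h2 := (symm_at he (e.map_source hx)).mdifferentiableAt (by simp)
  have h3 : mfderiv 𝓘(ℂ, E) 𝓘(ℂ, E) (e.symm ∘ e) x
      = (mfderiv 𝓘(ℂ, E) 𝓘(ℂ, E) e.symm (e x)).comp (mfderiv 𝓘(ℂ, E) 𝓘(ℂ, E) e x) :=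
    mfderiv_comp x h2 h1
  have h4 : (e.symm ∘ e) =ᶠ[𝓝 x] id := by
    filter_upwards [e.open_source.mem_nhds hx] with y hy
    simp [e.left_inv hy]
  rw [h4.mfderiv_eq, mfderiv_id] at h3
  intro u v huv
  have h5 := congrArg (fun A => A u) h3
  have h6 := congrArg (fun A => A v) h3
  have h7 : mfderiv 𝓘(ℂ, E) 𝓘(ℂ, E) e.symm (e x) (mfderiv 𝓘(ℂ, E) 𝓘(ℂ, E) e x u) = u := h5.symm
  have h8 : mfderiv 𝓘(ℂ, E) 𝓘(ℂ, E) e.symm (e x) (mfderiv 𝓘(ℂ, E) 𝓘(ℂ, E) e x v) = v := h6.symm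
  unfold lc at huv
  rw [← h7, ← h8, huv]

theorem ilc_lc {e : OpenPartialHomeomorph M E} (he : e ∈ atlas E M) {z : E} (hz : z ∈ e.target)
    (ξ : TangentSpace 𝓘(ℂ, E) (e.symm z)) : ilc e z (lc e (e.symm z) ξ) = ξ := by
  apply lc_injective he (e.map_target hz)
  exact lc_ilc he hz _

theorem lc_mfderiv {g : M → M} (hg : ContMDiff 𝓘(ℂ, E) 𝓘(ℂ, E) ω g)
    {e e' : OpenPartialHomeomorph M E} (he : e ∈ atlas E M) (he' : e' ∈ atlas E M)
    {x : M} (hx : x ∈ e.source) (hx' : g x ∈ e'.source) (ξ : TangentSpace 𝓘(ℂ, E) x) :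
    lc e' (g x) (mfderiv 𝓘(ℂ, E) 𝓘(ℂ, E) g x ξ) = fderiv ℂ (lmap e g e') (e x) (lc e x ξ) := by
  have h1 := (chart_at he hx).mdifferentiableAt (by simp)
  have h2 := (hg.contMDiffAt (x := x)).mdifferentiableAt (by simp)
  have h3 := (chart_at he' hx').mdifferentiableAt (by simp)
  have hx2 : g (e.symm (e x)) ∈ e'.source := by rw [e.left_inv hx]; exact hx'
  have h4 := (lmap_cmd hg he he' (e.map_source hx) hx2).mdifferentiableAt (by simp)
  have h5 : mfderiv 𝓘(ℂ, E) 𝓘(ℂ, E) (e' ∘ g) x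
      = (mfderiv 𝓘(ℂ, E) 𝓘(ℂ, E) e' (g x)).comp (mfderiv 𝓘(ℂ, E) 𝓘(ℂ, E) g x) :=
    mfderiv_comp x h3 h2
  have h6 : mfderiv 𝓘(ℂ, E) 𝓘(ℂ, E) (lmap e g e' ∘ e) x
      = (mfderiv 𝓘(ℂ, E) 𝓘(ℂ, E) (lmap e g e') (e x)).comp (mfderiv 𝓘(ℂ, E) 𝓘(ℂ, E) e x) :=
    mfderiv_comp x h4 h1
  have h7 : (lmap e g e' ∘ e) =ᶠ[𝓝 x] (e' ∘ g) := by
    filter_upwards [e.open_source.mem_nhds hx] with y hy
    simp [lmap, e.left_inv hy]
  rw [h7.mfderiv_eq, h5, mfderiv_eq_fderiv] at h6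
  have h8 := congrArg (fun A => A ξ) h6
  exact h8

private theorem lmap_comp (g : Diffeomorph 𝓘(ℂ, E) 𝓘(ℂ, E) M M ω)
    {e e' : OpenPartialHomeomorph M E} (he : e ∈ atlas E M) (he' : e' ∈ atlas E M)
    {x : M} (hx : x ∈ e.source) (hx' : g x ∈ e'.source) :
    (fderiv ℂ (lmap e' g.symm e) (e' (g x))).comp (fderiv ℂ (lmap e g e') (e x)) =
      ContinuousLinearMap.id ℂ E := by
  have hx2 : g (e.symm (e x)) ∈ e'.source := by rw [e.left_inv hx]; exact hx'
  have h1 := (lmap_analytic g.contMDiff he he' (e.map_source hx) hx2).differentiableAt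
  have hx3 : g.symm (e'.symm (e' (g x))) ∈ e.source := by
    rw [e'.left_inv hx', g.symm_apply_apply]; exact hx
  have h2 := (lmap_analytic g.symm.contMDiff he' he (e'.map_source hx') hx3).differentiableAt
  have h3 : lmap e g e' (e x) = e' (g x) := by simp [lmap, e.left_inv hx]
  have h4 : (lmap e' g.symm e ∘ lmap e g e') =ᶠ[𝓝 (e x)] id := by
    have hc : ContinuousAt (fun y => g (e.symm y)) (e x) :=
      g.continuous.continuousAt.comp (e.continuousAt_symm (e.map_source hx))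
    filter_upwards [e.open_target.mem_nhds (e.map_source hx),
      hc.preimage_mem_nhds (e'.open_source.mem_nhds hx2)] with y hy hy2
    have hy3 : g (e.symm y) ∈ e'.source := hy2
    simp [lmap, e'.left_inv hy3, e.right_inv hy]
  rw [← h3] at h2 ⊢
  rw [← fderiv_comp (e x) h2 h1, h4.fderiv_eq, fderiv_id]

theorem lmap_invertible (g : Diffeomorph 𝓘(ℂ, E) 𝓘(ℂ, E) M M ω)
    {e e' : OpenPartialHomeomorph M E} (he : e ∈ atlas E M) (he' : e' ∈ atlas E M)
    {x : M} (hx : x ∈ e.source) (hx' : g x ∈ e'.source) :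
    (fderiv ℂ (lmap e g e') (e x)).IsInvertible ∧ (fderiv ℂ (lmap e g e') (e x)).det ≠ 0 := by
  have h1 := lmap_comp g he he' hx hx'
  have hx4 : g.symm (g x) ∈ e.source := by rw [g.symm_apply_apply]; exact hx
  have h2 := lmap_comp g.symm he' he hx' hx4
  have h0 : g.symm.symm = g := by ext; rfl
  rw [h0, g.symm_apply_apply] at h2
  generalize fderiv ℂ (lmap e g e') (e x) = A at h1 h2
  generalize fderiv ℂ (lmap e' g.symm e) (e' (g x)) = B at h1 h2
  constructor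
  · refine ⟨ContinuousLinearEquiv.equivOfInverse A B ?_ ?_, ?_⟩
    · intro v
      exact congrArg (fun T => T v) h1
    · intro v
      exact congrArg (fun T => T v) h2
    · ext v; rfl
  · intro h3
    have h4 : LinearMap.det ((B : E →ₗ[ℂ] E) ∘ₗ (A : E →ₗ[ℂ] E)) = 1 := by
      have h6 : (B : E →ₗ[ℂ] E) ∘ₗ (A : E →ₗ[ℂ] E) = LinearMap.id := by
        ext v
        exact congrArg (fun T => T v) h1
      rw [h6, LinearMap.det_id]
    have h5 : LinearMap.det (A : E →ₗ[ℂ] E) = 0 := h3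
    rw [LinearMap.det_comp, h5, mul_zero] at h4
    exact zero_ne_one h4

end

end Pool.Agent.HOA
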