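import Pool.Agent.HOA.Tools

/-!
# HOA/RepInv: a vector field with analytic coordinate expressions is holomorphic

The section is locally the image of the section with the coordinate expression under the tangent map of the inverse chart.
-/

open scoped Manifold ContDiff Topology
open Set Metric Filter

namespace Pool.Agent.HOA

noncomputable section

variable {E : Type} [NormedAddCommGroup E] [NormedSpace ℂ E] [FiniteDimensional ℂ E]
variable {M : Type} [TopologicalSpace M] [T2Space M] [CompactSpace M] [ChartedSpace E M]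
  [IsManifold 𝓘(ℂ, E) ω M]

theorem holField_of_rep {X : (x : M) → TangentSpace 𝓘(ℂ, E) x}
    (h : ∀ e ∈ atlas E M, AnalyticOnNhd ℂ (rep e X) e.target) : HolField X := by
  intro x
  obtain ⟨e, he, hx⟩ : ∃ e ∈ atlas E M, x ∈ e.source :=
    ⟨chartAt E x, chart_mem_atlas E x, mem_chart_source E x⟩
  have hmax : e ∈ IsManifold.maximalAtlas 𝓘(ℂ, E) ω M := IsManifold.subset_maximalAtlas he
  have h1 : ContMDiffOn 𝓘(ℂ, E) 𝓘(ℂ, E) ω e e.source := contMDiffOn_of_mem_maximalAtlas hmax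
  have h2 : ContMDiffOn 𝓘(ℂ, E) 𝓘(ℂ, E) ω e.symm e.target :=
    contMDiffOn_symm_of_mem_maximalAtlas hmax
  have h3 := h2.contMDiffOn_tangentMapWithin (m := ω) le_rfl e.open_target.uniqueMDiffOn
  obtain ⟨V, hV⟩ : ∃ V : E → E, V = rep e X := ⟨_, rfl⟩
  have h4a : AnalyticAt ℂ V (e x) := by
    rw [hV]
    exact h e he (e x) (e.map_source hx)
  have h4 : ContMDiffAt 𝓘(ℂ, E) (𝓘(ℂ, E)).tangent ω
      (fun z => (⟨z, V z⟩ : TangentBundle 𝓘(ℂ, E) E)) (e x) :=
    contMDiffAt_vectorSpace_iff_contDiffAt.2 h4a.contDiffAt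
  have h5 : ContMDiffAt 𝓘(ℂ, E) 𝓘(ℂ, E) ω e x := h1.contMDiffAt (e.open_source.mem_nhds hx)
  have h6 := h4.comp x h5
  have hopen : IsOpen (Bundle.TotalSpace.proj ⁻¹' e.target : Set (TangentBundle 𝓘(ℂ, E) E)) :=
    e.open_target.preimage (FiberBundle.continuous_proj E (TangentSpace 𝓘(ℂ, E)))
  have h7 := h3.contMDiffAt (x := (⟨e x, V (e x)⟩ : TangentBundle 𝓘(ℂ, E) E))
    (hopen.mem_nhds (e.map_source hx))
  have h8 := h7.comp x h6
  refine h8.congr_of_eventuallyEq ?_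
  filter_upwards [e.open_source.mem_nhds hx] with y hy
  have hmd := mdifferentiable_of_mem_atlas (I := 𝓘(ℂ, E)) he
  have e1 : V (e y) = (mfderiv 𝓘(ℂ, E) 𝓘(ℂ, E) e y (X y) : E) := by
    rw [hV]
    show lc e (e.symm (e y)) (X (e.symm (e y))) = lc e y (X y)
    rw [e.left_inv hy]
  have e2 : (mfderivWithin 𝓘(ℂ, E) 𝓘(ℂ, E) e.symm e.target (e y) (V (e y)) : E) = (X y : E) := by
    rw [mfderivWithin_of_mem_nhds (e.open_target.mem_nhds (e.map_source hy))]
    have e3 := DFunLike.congr_fun (hmd.symm_comp_deriv hy) (X y)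
    have e4 : (mfderiv 𝓘(ℂ, E) 𝓘(ℂ, E) e.symm (e y) (V (e y)) : E) =
        (mfderiv 𝓘(ℂ, E) 𝓘(ℂ, E) e.symm (e y) (mfderiv 𝓘(ℂ, E) 𝓘(ℂ, E) e y (X y)) : E) := by
      rw [e1]
    exact e4.trans e3
  refine Bundle.TotalSpace.ext (e.left_inv hy).symm ?_
  exact heq_of_eq e2.symm

end

end Pool.Agent.HOA
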