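import Pool.Agent.HOA.FormL
import Pool.Agent.HOA.RepInv
import Pool.Agent.HOA.Loc

/-!
# HOA/Dual: the frame dual to a global coframe
-/

open scoped Manifold ContDiff Topology
open Set Metric Filter

namespace Pool.Agent.HOA

noncomputable section

variable {E : Type} [NormedAddCommGroup E] [NormedSpace ℂ E] [FiniteDimensional ℂ E]
variable {M : Type} [TopologicalSpace M] [T2Space M] [CompactSpace M] [ChartedSpace E M]
  [IsManifold 𝓘(ℂ, E) ω M]

/-- `ilc e z` as a linear map -/
private def ilcl (e : OpenPartialHomeomorph M E) (z : E) :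
    E →ₗ[ℂ] TangentSpace 𝓘(ℂ, E) (e.symm z) :=
  (mfderiv 𝓘(ℂ, E) 𝓘(ℂ, E) e.symm z :
    TangentSpace 𝓘(ℂ, E) z →L[ℂ] TangentSpace 𝓘(ℂ, E) (e.symm z)).toLinearMap

omit [FiniteDimensional ℂ E] in
private theorem det_an {n : ℕ} {a : E → Matrix (Fin n) (Fin n) ℂ} {z : E}
    (h : ∀ i j, AnalyticAt ℂ (fun y => a y i j) z) : AnalyticAt ℂ (fun y => (a y).det) z := by
  have h3 : (fun y => (a y).det) = fun y => ∑ σ : Equiv.Perm (Fin n),
      ((Equiv.Perm.sign σ : ℤ) : ℂ) * ∏ i, a y (σ i) i := by
    funext y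
    rw [Matrix.det_apply']
  rw [h3]
  refine Finset.analyticAt_fun_sum _ fun σ _ => ?_
  exact analyticAt_const.mul (Finset.analyticAt_fun_prod _ fun i _ => h (σ i) i)

omit [FiniteDimensional ℂ E] in
private theorem inv_an {n : ℕ} {a : E → Matrix (Fin n) (Fin n) ℂ} {z : E}
    (h : ∀ i j, AnalyticAt ℂ (fun y => a y i j) z) (h0 : (a z).det ≠ 0) (i j : Fin n) :
    AnalyticAt ℂ (fun y => (a y)⁻¹ i j) z := by
  have h1 : (fun y => (a y)⁻¹ i j) = fun y => ((a y).det)⁻¹ * (a y).adjugate i j := by
    funext y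
    rw [Matrix.inv_def, Matrix.smul_apply, Ring.inverse_eq_inv', smul_eq_mul]
  rw [h1]
  refine ((det_an h).inv h0).mul ?_
  have h2 : (fun y => (a y).adjugate i j) = fun y => ((a y).updateRow j (Pi.single i 1)).det := by
    funext y
    rw [Matrix.adjugate_apply]
  rw [h2]
  refine det_an fun k l => ?_
  by_cases hk : k = j
  · subst hk
    simp only [Matrix.updateRow_self]
    exact analyticAt_const
  · simp only [Matrix.updateRow_ne hk]
    exact h k l

theorem dual_fields {n : ℕ} (hn : Module.finrank ℂ E = n)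
    (α : Fin n → (x : M) → TangentSpace 𝓘(ℂ, E) x → ℂ) (hα : ∀ k, HolForm (α k))
    (h : ∀ (x : M) (ξ : TangentSpace 𝓘(ℂ, E) x), (∀ k, α k x ξ = 0) → ξ = 0) :
    ∃ X : Fin n → HF E M, ∀ k l x, α k x ((X l).1 x) = if k = l then 1 else 0 := by
  classical
  have hfd : ∀ x : M, FiniteDimensional ℂ (TangentSpace 𝓘(ℂ, E) x) := fun x =>
    inferInstanceAs (FiniteDimensional ℂ E)
  let A : (x : M) → TangentSpace 𝓘(ℂ, E) x →ₗ[ℂ] (Fin n → ℂ) := fun x =>
    LinearMap.pi fun k => IsLinearMap.mk' (α k x) ((hα k).1 x)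
  have hA : ∀ x ξ k, A x ξ k = α k x ξ := fun _ _ _ => rfl
  have hAinj : ∀ x, Function.Injective (A x) := by
    intro x
    rw [← LinearMap.ker_eq_bot, LinearMap.ker_eq_bot']
    intro ξ hξ
    refine h x ξ fun k => ?_
    rw [← hA, hξ]
    rfl
  have hfr : ∀ x : M, Module.finrank ℂ (TangentSpace 𝓘(ℂ, E) x) =
      Module.finrank ℂ (Fin n → ℂ) := by
    intro x
    rw [Module.finrank_fin_fun]
    exact hn
  let Y : Fin n → (x : M) → TangentSpace 𝓘(ℂ, E) x := fun l x =>
    (LinearMap.linearEquivOfInjective (A x) (hAinj x) (hfr x)).symm (Pi.single l 1)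
  have hY : ∀ k l x, α k x (Y l x) = if k = l then 1 else 0 := by
    intro k l x
    rw [← hA]
    have h1 : A x (Y l x) = Pi.single l 1 := by
      have := (LinearMap.linearEquivOfInjective (A x) (hAinj x) (hfr x)).apply_symm_apply
        (Pi.single l 1)
      exact this
    rw [h1, Pi.single_apply]
  have hhol : ∀ l, HolField (Y l) := by
    intro l
    refine holField_of_rep fun e he z hz => ?_
    let β : Module.Basis (Fin n) ℂ E := Module.finBasisOfFinrankEq ℂ E hn
    let a : E → Matrix (Fin n) (Fin n) ℂ := fun y k j => α k (e.symm y) (ilc e y (β j))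
    have ha : ∀ i j, AnalyticAt ℂ (fun y => a y i j) z := fun i j =>
      holForm_local (hα i) he (β j) z hz
    -- multiplication by `a y`
    have hmul : ∀ y (c : Fin n → ℂ) (k : Fin n),
        (a y).mulVec c k = α k (e.symm y) (ilc e y (∑ j, c j • β j)) := by
      intro y c k
      have h1 : α k (e.symm y) (ilc e y (∑ j, c j • β j)) =
          (IsLinearMap.mk' (α k (e.symm y)) ((hα k).1 (e.symm y)) ∘ₗ ilcl e y)
            (∑ j, c j • β j) := rfl
      rw [h1, map_sum]
      show ∑ j, a y k j * c j = _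
      refine Finset.sum_congr rfl fun j _ => ?_
      rw [map_smul, smul_eq_mul, mul_comm]
      rfl
    have hdet : ∀ y ∈ e.target, (a y).det ≠ 0 := by
      intro y hy h0
      obtain ⟨c, hc, hc0⟩ := Matrix.exists_mulVec_eq_zero_iff.2 h0
      have h1 : ilc e y (∑ j, c j • β j) = 0 := by
        refine h _ _ fun k => ?_
        rw [← hmul, hc0]
        rfl
      have h2 : (∑ j, c j • β j) = 0 := by
        have h3 := lc_ilc he hy (∑ j, c j • β j)
        rw [h1] at h3
        rw [← h3]
        exact map_zero (mfderiv 𝓘(ℂ, E) 𝓘(ℂ, E) e (e.symm y))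
      apply hc
      have h4 := (Fintype.linearIndependent_iff.1 β.linearIndependent) c h2
      funext j
      exact h4 j
    have hrep : ∀ y ∈ e.target, rep e (Y l) y = ∑ j, (a y)⁻¹ j l • β j := by
      intro y hy
      set w : E := rep e (Y l) y with hw
      have h1 : ilc e y w = Y l (e.symm y) := ilc_lc he hy _
      have h2 : (a y).mulVec (fun j => β.repr w j) = Pi.single l 1 := by
        funext k
        rw [hmul, β.sum_repr, h1, hY, Pi.single_apply]
      have h3 : (fun j => β.repr w j) = (a y)⁻¹.mulVec (Pi.single l 1) := by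
        rw [← h2, Matrix.mulVec_mulVec, Matrix.nonsing_inv_mul _ (isUnit_iff_ne_zero.2 (hdet y hy)),
          Matrix.one_mulVec]
      conv_lhs => rw [← β.sum_repr w]
      refine Finset.sum_congr rfl fun j _ => ?_
      have h4 := congrFun h3 j
      simp only [Matrix.mulVec_single_one, Matrix.col_apply] at h4
      rw [h4]
    have h5 : AnalyticAt ℂ (fun y => ∑ j, (a y)⁻¹ j l • β j) z := by
      refine Finset.analyticAt_fun_sum _ fun j _ => ?_
      exact (inv_an ha (hdet z hz) j l).smul analyticAt_const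
    refine h5.congr ?_
    filter_upwards [e.open_target.mem_nhds hz] with y hy
    exact (hrep y hy).symm
  exact ⟨fun l => ⟨Y l, hhol l⟩, hY⟩

end

end Pool.Agent.HOA
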