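import Pool.Agent.HOA.Tools

/-!
# HOA/Engel: Engel theorem for a spanning set closed under the bracket

PLAN.  Build `LieRing`/`LieAlgebra ℂ` structures on `V` from `br` inside the proof.  Call a Lie
subalgebra `H` of `V` good if `H = span (H ∩ S)` and `V` is a nilpotent `H`-module.  The zero
subalgebra is good; take `H` good of maximal dimension.  Claim `H = ⊤`.  Otherwise, as `S` spans `V`,
there is `a ∈ S`, `a ∉ H`.  By nilpotency of `V` as an `H`-module there is a bound on the length of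
brackets `[h_k, ..., [h_1, a]]`, `h_i ∈ H ∩ S`; choose such a bracket not in `H` of maximal length:
call it `a'`; `a' ∈ S` (closure), `a' ∉ H`, `[h, a'] ∈ H` for all `h ∈ H ∩ S`, hence for all `h ∈ H`.
Then `H' = H + ℂ a'` is a Lie subalgebra spanned by elements of `S`, `H` is an ideal of `H'`, and `a'`
acts nilpotently on `V`: `LieSubmodule.isNilpotentOfIsNilpotentSpanSupEqTop`
(Mathlib/Algebra/Lie/Engel.lean) with `L = H'`, `I = H`, module `V`, shows that `V` is a nilpotent
`H'`-module: `H'` is good, a contradiction.  So `V` is a nilpotent module over itself.  Given an ideal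
`W ≠ ⊤`, start from `u₀ ∉ W` and take iterated brackets `[v_k, ..., [v_1, u₀]]` not in `W` of maximal
length (bounded by nilpotency): the last one is `u`.
You may also do the whole proof by hand, without the Lie algebra library: say that a submodule `H`
closed under `br` is good if `H = span (H ∩ S)` and all products of `K` operators `br h`, `h ∈ H`, on
`V` vanish for some `K` (the inductive step: the products of the operators `br (h + c a')` on `V` of
length `K' K`, using `(br a') ^ p = 0` and that `H` is an ideal of `H'`).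
-/

open scoped Manifold ContDiff Topology
open Set Metric Filter

namespace Pool.Agent.HOA

noncomputable section

variable {V : Type} [AddCommGroup V] [Module ℂ V] [FiniteDimensional ℂ V]

/-- good subspaces: subalgebras spanned by elements of the set, for which the statement of the
Engel theorem holds for all pairs of stable subspaces -/
private def Gd (br : V →ₗ[ℂ] V →ₗ[ℂ] V) (S : Set V) (H : Submodule ℂ V) : Prop :=
  (∀ x ∈ H, ∀ y ∈ H, br x y ∈ H) ∧ H ≤ Submodule.span ℂ ((H : Set V) ∩ S) ∧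
  ∀ M W : Submodule ℂ V, (∀ h ∈ H, ∀ m ∈ M, br h m ∈ M) → (∀ h ∈ H, ∀ w ∈ W, br h w ∈ W) →
    ¬ M ≤ W → ∃ u ∈ M, u ∉ W ∧ ∀ h ∈ H, br h u ∈ W

omit [FiniteDimensional ℂ V] in
private theorem gd_bot (br : V →ₗ[ℂ] V →ₗ[ℂ] V) (S : Set V) : Gd br S ⊥ := by
  refine ⟨?_, bot_le, ?_⟩
  · intro x hx y _
    rw [(Submodule.mem_bot ℂ).1 hx, map_zero, LinearMap.zero_apply]
    exact Submodule.zero_mem _
  · intro M W _ _ hMW
    obtain ⟨u, hu, hu'⟩ := SetLike.not_le_iff_exists.1 hMW
    refine ⟨u, hu, hu', ?_⟩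
    intro h hh
    rw [(Submodule.mem_bot ℂ).1 hh, map_zero, LinearMap.zero_apply]
    exact Submodule.zero_mem _

omit [FiniteDimensional ℂ V] in
private theorem mem_sup_line {H : Submodule ℂ V} {a x : V} (hx : x ∈ H ⊔ Submodule.span ℂ {a}) :
    ∃ h ∈ H, ∃ c : ℂ, x = h + c • a := by
  obtain ⟨h, hh, y, hy, rfl⟩ := Submodule.mem_sup.1 hx
  obtain ⟨c, rfl⟩ := Submodule.mem_span_singleton.1 hy
  exact ⟨h, hh, c, rfl⟩

omit [FiniteDimensional ℂ V] in
/-- the inductive step of the Engel theorem -/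
private theorem gd_step {br : V →ₗ[ℂ] V →ₗ[ℂ] V} (halt : ∀ a, br a a = 0)
    (hjac : ∀ a b c, br a (br b c) = br (br a b) c + br b (br a c))
    {S : Set V} (hSn : ∀ a ∈ S, IsNilpotent (br a : Module.End ℂ V))
    {H : Submodule ℂ V} (hH : Gd br S H) {a : V} (ha : a ∈ S)
    (hHa : ∀ h ∈ H, br h a ∈ H) : Gd br S (H ⊔ Submodule.span ℂ {a}) := by
  have hskew : ∀ x y, br x y = - br y x := by
    intro x y
    have h1 := halt (x + y)
    rw [LinearMap.map_add₂, map_add, map_add, halt x, halt y, zero_add, add_zero] at h1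
    exact eq_neg_of_add_eq_zero_left h1
  obtain ⟨h1, h2, h3⟩ := hH
  have haH' : a ∈ H ⊔ Submodule.span ℂ {a} :=
    Submodule.mem_sup_right (Submodule.mem_span_singleton_self a)
  have hle : H ≤ H ⊔ Submodule.span ℂ {a} := le_sup_left
  refine ⟨?_, ?_, ?_⟩
  · intro x hx y hy
    obtain ⟨h, hh, c, rfl⟩ := mem_sup_line hx
    obtain ⟨h', hh', c', rfl⟩ := mem_sup_line hy
    have e : br (h + c • a) (h' + c' • a) = br h h' + c' • br h a + c • -(br h' a) := by
      rw [LinearMap.map_add₂, map_add, map_add, map_smul, map_smul, LinearMap.smul_apply,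
        LinearMap.smul_apply, map_smul, halt a, hskew a h']
      rw [smul_zero, smul_zero, add_zero]
    rw [e]
    exact hle (H.add_mem (H.add_mem (h1 h hh h' hh') (H.smul_mem _ (hHa h hh)))
      (H.smul_mem _ (H.neg_mem (hHa h' hh'))))
  · refine sup_le ?_ ?_
    · refine h2.trans (Submodule.span_mono ?_)
      rintro x ⟨hx, hxS⟩
      exact ⟨hle hx, hxS⟩
    · rw [Submodule.span_singleton_le_iff_mem]
      exact Submodule.subset_span ⟨haH', ha⟩
  · intro M W hM hW hMW
    have hM' : ∀ h ∈ H, ∀ m ∈ M, br h m ∈ M := fun h hh => hM h (hle hh)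
    have hW' : ∀ h ∈ H, ∀ m ∈ W, br h m ∈ W := fun h hh => hW h (hle hh)
    obtain ⟨u, hu, huW, hu3⟩ := h3 M W hM' hW' hMW
    -- the orbit of `u` under `br a`
    have horb : ∀ k : ℕ, ((br a : Module.End ℂ V) ^ k) u ∈ M ∧
        ∀ h ∈ H, br h (((br a : Module.End ℂ V) ^ k) u) ∈ W := by
      intro k
      induction k with
      | zero => exact ⟨by simpa using hu, by simpa using hu3⟩
      | succ k ih =>
        obtain ⟨i1, i2⟩ := ih
        have e : ((br a : Module.End ℂ V) ^ (k + 1)) u =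
            br a (((br a : Module.End ℂ V) ^ k) u) := by
          rw [pow_succ']
          rfl
        rw [e]
        refine ⟨hM a haH' _ i1, ?_⟩
        intro h hh
        rw [hjac]
        exact W.add_mem (i2 _ (hHa h hh)) (hW a haH' _ (i2 h hh))
    obtain ⟨n, hn⟩ := hSn a ha
    have hex : ∃ k : ℕ, ((br a : Module.End ℂ V) ^ k) u ∈ W := by
      refine ⟨n, ?_⟩
      rw [hn]
      exact W.zero_mem
    classical
    have hk1 := Nat.find_spec hex
    have hk2 : Nat.find hex ≠ 0 := by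
      intro h0
      rw [h0] at hk1
      exact huW (by simpa using hk1)
    obtain ⟨k, hk⟩ := Nat.exists_eq_succ_of_ne_zero hk2
    have hk3 : ((br a : Module.End ℂ V) ^ k) u ∉ W := Nat.find_min hex (by omega)
    refine ⟨((br a : Module.End ℂ V) ^ k) u, (horb k).1, hk3, ?_⟩
    intro x hx
    obtain ⟨h, hh, c, rfl⟩ := mem_sup_line hx
    rw [map_add, LinearMap.add_apply, map_smul, LinearMap.smul_apply]
    refine W.add_mem ((horb k).2 h hh) (W.smul_mem _ ?_)
    have e : br a (((br a : Module.End ℂ V) ^ k) u) = ((br a : Module.End ℂ V) ^ (k + 1)) u := by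
      rw [pow_succ']
      rfl
    rw [e]
    have hk4 := hk1
    rw [hk] at hk4
    exact hk4

/-- an element of the set normalising a good subspace -/
private theorem exists_norm {br : V →ₗ[ℂ] V →ₗ[ℂ] V}
    {S : Set V} (hS : Submodule.span ℂ S = ⊤) (hSb : ∀ a ∈ S, ∀ b ∈ S, br a b ∈ S)
    {H : Submodule ℂ V} (hH : Gd br S H) (hHt : H ≠ ⊤) :
    ∃ a ∈ S, a ∉ H ∧ ∀ h ∈ H, br h a ∈ H := by
  obtain ⟨h1, h2, h3⟩ := hH
  obtain ⟨W, hW, hmax⟩ := (wellFounded_gt (α := Submodule ℂ V)).has_min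
    {W | H ≤ W ∧ (∀ h ∈ H, ∀ w ∈ W, br h w ∈ W) ∧ ∀ s ∈ S, s ∈ W → s ∈ H}
    ⟨H, le_rfl, h1, fun s _ hs => hs⟩
  obtain ⟨hW1, hW2, hW3⟩ := hW
  have hWt : ¬ (⊤ : Submodule ℂ V) ≤ W := by
    intro h
    apply hHt
    rw [eq_top_iff, ← hS, Submodule.span_le]
    intro s hs
    exact hW3 s hs (h Submodule.mem_top)
  obtain ⟨u, -, huW, hu⟩ := h3 ⊤ W (fun _ _ _ _ => Submodule.mem_top) hW2 hWt
  have hlt : W < W ⊔ Submodule.span ℂ {u} := by
    refine lt_of_le_of_ne le_sup_left ?_
    intro h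
    apply huW
    rw [h]
    exact Submodule.mem_sup_right (Submodule.mem_span_singleton_self u)
  have hmap : ∀ h ∈ H, ∀ w ∈ W ⊔ Submodule.span ℂ {u}, br h w ∈ W := by
    intro h hh w hw
    obtain ⟨w', hw', c, rfl⟩ := mem_sup_line hw
    rw [map_add, map_smul]
    exact W.add_mem (hW2 h hh w' hw') (W.smul_mem _ (hu h hh))
  have hnot := hmax (W ⊔ Submodule.span ℂ {u})
  have hex : ∃ s ∈ S, s ∈ W ⊔ Submodule.span ℂ {u} ∧ s ∉ H := by
    by_contra hcon
    push Not at hcon
    exact hnot ⟨hW1.trans le_sup_left, fun h hh w hw => le_sup_left (a := W) (hmap h hh w hw),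
      hcon⟩ hlt
  obtain ⟨s, hsS, hsW, hsH⟩ := hex
  refine ⟨s, hsS, hsH, ?_⟩
  intro h hh
  have hspan := h2 hh
  refine Submodule.span_induction (p := fun x _ => br x s ∈ H) ?_ ?_ ?_ ?_ hspan
  · rintro x ⟨hx, hxS⟩
    exact hW3 _ (hSb x hxS s hsS) (hmap x hx s hsW)
  · rw [map_zero, LinearMap.zero_apply]
    exact H.zero_mem
  · intro x y _ _ hx hy
    rw [map_add, LinearMap.add_apply]
    exact H.add_mem hx hy
  · intro c x _ hx
    rw [map_smul, LinearMap.smul_apply]
    exact H.smul_mem _ hx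

theorem graded_engel (br : V →ₗ[ℂ] V →ₗ[ℂ] V) (halt : ∀ a, br a a = 0)
    (hjac : ∀ a b c, br a (br b c) = br (br a b) c + br b (br a c))
    (S : Set V) (hS : Submodule.span ℂ S = ⊤) (hSb : ∀ a ∈ S, ∀ b ∈ S, br a b ∈ S)
    (hSn : ∀ a ∈ S, IsNilpotent (br a : Module.End ℂ V)) :
    ∀ W : Submodule ℂ V, W ≠ ⊤ → (∀ v, ∀ w ∈ W, br v w ∈ W) →
      ∃ u, u ∉ W ∧ ∀ v, br v u ∈ W := by
  intro W hWt hW
  obtain ⟨H, hH, hmax⟩ := (wellFounded_gt (α := Submodule ℂ V)).has_min
    {H | Gd br S H} ⟨⊥, gd_bot br S⟩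
  have hHt : H = ⊤ := by
    by_contra hne
    obtain ⟨a, haS, haH, hHa⟩ := exists_norm hS hSb hH hne
    refine hmax _ (gd_step halt hjac hSn hH haS hHa) (lt_of_le_of_ne le_sup_left ?_)
    intro h
    apply haH
    rw [h]
    exact Submodule.mem_sup_right (Submodule.mem_span_singleton_self a)
  obtain ⟨-, -, h3⟩ := hH
  obtain ⟨u, -, huW, hu⟩ := h3 ⊤ W (fun _ _ _ _ => Submodule.mem_top) (fun v _ w hw => hW v w hw)
    (fun h => hWt (eq_top_iff.2 h))
  refine ⟨u, huW, fun v => hu v ?_⟩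
  rw [hHt]
  exact Submodule.mem_top

end

end Pool.Agent.HOA
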