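import Pool.Agent.HOA.Schw

/-!
# HOA/FD: finite dimensionality of a space of sections

PLAN.  Choose `k` with `C < 2 ^ k`.  The linear map
`v ↦ (iteratedFDeriv ℂ j (g i v) (c i))_{i, j < k}` (linear because the `g i v` are analytic at `c i`)
goes to a finite dimensional space (continuous multilinear maps between finite dimensional spaces),
so it is enough that it is injective (`Module.Finite.of_injective`; also
`FiniteDimensional.of_injective`).  Let `v` be in its kernel and
`K = sup_i sup_{z ∈ closedBall (c i) (2 r i)} ‖g i v z‖` (finite, compact balls, finite `ι`; if `ι` is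
empty then `v = 0` by `hinj`).  For `z` in the `i`-th ball of radius `2 r`, `hT` gives `j`, `z'` with
`‖g i v z‖ ≤ C ‖g j v z'‖`, and `schwarz_high` gives `‖g j v z'‖ ≤ K (1/2) ^ k`; if `C ≤ 0` we get
`‖g i v z‖ ≤ 0`, otherwise `K ≤ C K / 2 ^ k` with `C / 2 ^ k < 1`, so `K = 0`.  So `v = 0` by `hinj`.
-/

open scoped Manifold ContDiff Topology
open Set Metric Filter

namespace Pool.Agent.HOA

noncomputable section

variable {E : Type} [NormedAddCommGroup E] [NormedSpace ℂ E] [FiniteDimensional ℂ E]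

omit [FiniteDimensional ℂ E] in
private theorem cd_at {F : Type} [NormedAddCommGroup F] [NormedSpace ℂ F] [FiniteDimensional ℂ F]
    {f : E → F} {c : E} {r : ℝ} (hr : 0 < r) (hf : AnalyticOnNhd ℂ f (closedBall c (2 * r)))
    (j : ℕ) : ContDiffAt ℂ j f c := by
  have : CompleteSpace F := FiniteDimensional.complete ℂ F
  have h1 : AnalyticAt ℂ f c := hf c (mem_closedBall_self (by linarith))
  exact h1.contDiffAt

/-- the linear map given by the derivatives of order `j` at `c` -/
private def derL {F : Type} [NormedAddCommGroup F] [NormedSpace ℂ F] [FiniteDimensional ℂ F]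
    {V : Type} [AddCommGroup V] [Module ℂ V] (c : E) (r : ℝ) (hr : 0 < r)
    (g : V →ₗ[ℂ] (E → F)) (hg : ∀ v, AnalyticOnNhd ℂ (g v) (closedBall c (2 * r))) (j : ℕ) :
    V →ₗ[ℂ] MultilinearMap ℂ (fun _ : Fin j => E) F where
  toFun v := (iteratedFDeriv ℂ j (g v) c).toMultilinearMap
  map_add' v w := by
    rw [map_add, iteratedFDeriv_add_apply (cd_at hr (hg v) j) (cd_at hr (hg w) j)]
    rfl
  map_smul' a v := by
    rw [map_smul, iteratedFDeriv_const_smul_apply (cd_at hr (hg v) j)]
    rfl

theorem fd_abstract {F : Type} [NormedAddCommGroup F] [NormedSpace ℂ F] [FiniteDimensional ℂ F]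
    {V : Type} [AddCommGroup V] [Module ℂ V]
    {ι : Type} [Finite ι] (c : ι → E) (r : ι → ℝ) (hr : ∀ i, 0 < r i)
    (g : ι → V →ₗ[ℂ] (E → F)) (hg : ∀ i v, AnalyticOnNhd ℂ (g i v) (closedBall (c i) (2 * r i)))
    (hinj : ∀ v, (∀ i, ∀ z ∈ closedBall (c i) (r i), g i v z = 0) → v = 0) (C : ℝ)
    (hT : ∀ i v, ∀ z ∈ closedBall (c i) (2 * r i), ∃ j, ∃ z' ∈ closedBall (c j) (r j),
      ‖g i v z‖ ≤ C * ‖g j v z'‖) :
    FiniteDimensional ℂ V := by
  have : CompleteSpace F := FiniteDimensional.complete ℂ F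
  have : ProperSpace E := FiniteDimensional.proper ℂ E
  obtain ⟨k, hk⟩ := pow_unbounded_of_one_lt (max C 0) (one_lt_two (α := ℝ))
  let L : V →ₗ[ℂ] ((x : ι × Fin k) → MultilinearMap ℂ (fun _ : Fin (x.2 : ℕ) => E) F) :=
    LinearMap.pi fun x => derL (c x.1) (r x.1) (hr x.1) (g x.1) (hg x.1) x.2
  have hL : Function.Injective L := by
    rw [← LinearMap.ker_eq_bot, LinearMap.ker_eq_bot']
    intro v hv
    have hder : ∀ (i : ι) (j : ℕ), j < k → iteratedFDeriv ℂ j (g i v) (c i) = 0 := by
      intro i j hj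
      have h1 := congrFun hv (i, ⟨j, hj⟩)
      have h2 : (iteratedFDeriv ℂ j (g i v) (c i)).toMultilinearMap = 0 := h1
      ext m
      exact congrArg (fun f => f m) h2
    have hb : ∀ i, ∃ K, ∀ z ∈ closedBall (c i) (2 * r i), ‖g i v z‖ ≤ K := fun i =>
      (isCompact_closedBall (c i) (2 * r i)).exists_bound_of_continuousOn (hg i v).continuousOn
    choose K₀ hK₀ using hb
    obtain ⟨K, hK⟩ := Finite.exists_le K₀
    set q : ℝ := max C 0 * (1 / 2) ^ k with hq
    have hq0 : 0 ≤ q := by positivity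
    have hq1 : q < 1 := by
      rw [hq, one_div, inv_pow, ← div_eq_mul_inv, div_lt_one (by positivity)]
      exact hk
    have hn : ∀ n : ℕ, ∀ i, ∀ z ∈ closedBall (c i) (2 * r i), ‖g i v z‖ ≤ K * q ^ n := by
      intro n
      induction n with
      | zero =>
        intro i z hz
        rw [pow_zero, mul_one]
        exact (hK₀ i z hz).trans (hK i)
      | succ n ih =>
        intro i z hz
        obtain ⟨j, z', hz', hle⟩ := hT i v z hz
        have h1 := schwarz_high (hr j) (hg j v) (ih j) k (hder j) z' hz'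
        calc ‖g i v z‖ ≤ C * ‖g j v z'‖ := hle
          _ ≤ max C 0 * ‖g j v z'‖ := mul_le_mul_of_nonneg_right (le_max_left _ _) (norm_nonneg _)
          _ ≤ max C 0 * (K * q ^ n * (1 / 2) ^ k) :=
            mul_le_mul_of_nonneg_left h1 (le_max_right _ _)
          _ = K * q ^ (n + 1) := by
            rw [pow_succ, hq]
            ring
    apply hinj
    intro i z hz
    have hz2 : z ∈ closedBall (c i) (2 * r i) :=
      closedBall_subset_closedBall (by linarith [hr i]) hz
    have hlim : Tendsto (fun n : ℕ => K * q ^ n) atTop (𝓝 (K * 0)) :=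
      (tendsto_pow_atTop_nhds_zero_of_lt_one hq0 hq1).const_mul K
    rw [mul_zero] at hlim
    have h3 : ‖g i v z‖ ≤ 0 := ge_of_tendsto' hlim fun n => hn n i z hz2
    exact norm_le_zero_iff.1 h3
  exact Module.Finite.of_injective L hL

end

end Pool.Agent.HOA
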