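import Pool.Agent.HOA.Tools

/-!
# HOA/Flag: a flag of ideals stable under an automorphism
-/

open scoped Manifold ContDiff Topology
open Set Metric Filter

namespace Pool.Agent.HOA

noncomputable section

variable {V : Type} [AddCommGroup V] [Module ℂ V] [FiniteDimensional ℂ V]

/-- one step: an element outside `W`, in the annihilator of `V / W`, which is an eigenvector of `T`
modulo `W` -/
private theorem flag_step (br : V →ₗ[ℂ] V →ₗ[ℂ] V) (T : V ≃ₗ[ℂ] V)
    (hT : ∀ a b, T (br a b) = br (T a) (T b)) (W : Submodule ℂ V)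
    (hTW : ∀ w ∈ W, T w ∈ W)
    (hu : ∃ u, u ∉ W ∧ ∀ v, br v u ∈ W) :
    ∃ (u : V) (c : ℂ), u ∉ W ∧ (∀ v, br v u ∈ W) ∧ T u - c • u ∈ W := by
  obtain ⟨W', hW'⟩ : ∃ W' : Submodule ℂ V, ∀ u, u ∈ W' ↔ ∀ v, br v u ∈ W :=
    ⟨{ carrier := {u | ∀ v, br v u ∈ W}
       add_mem' := fun {a b} ha hb v => by rw [map_add]; exact W.add_mem (ha v) (hb v)
       zero_mem' := fun v => by rw [map_zero]; exact W.zero_mem
       smul_mem' := fun c x hx v => by rw [map_smul]; exact W.smul_mem c (hx v) },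
      fun _ => Iff.rfl⟩
  have hTW' : ∀ u ∈ W', T u ∈ W' := fun u hu => by
    rw [hW'] at hu ⊢
    intro v
    have h1 := hTW _ (hu (T.symm v))
    rwa [hT, LinearEquiv.apply_symm_apply] at h1
  obtain ⟨u₀, hu₀, hu₀'⟩ := hu
  obtain ⟨Tq, hTq⟩ : ∃ Tq : (V ⧸ W) →ₗ[ℂ] (V ⧸ W), ∀ u, Tq (W.mkQ u) = W.mkQ (T u) :=
    ⟨W.mapQ W (T : V →ₗ[ℂ] V) (fun w hw => hTW w hw), fun u => rfl⟩
  obtain ⟨U, hU⟩ : ∃ U : Submodule ℂ (V ⧸ W), U = W'.map W.mkQ := ⟨_, rfl⟩
  have hUT : ∀ q ∈ U, Tq q ∈ U := by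
    rw [hU]
    rintro _ ⟨u, hu, rfl⟩
    rw [hTq]
    exact ⟨T u, hTW' u hu, rfl⟩
  have hne : Nontrivial U := by
    rw [Submodule.nontrivial_iff_ne_bot]
    intro h
    have h1 : W.mkQ u₀ ∈ U := by
      rw [hU]
      exact ⟨u₀, (hW' u₀).2 hu₀', rfl⟩
    rw [h, Submodule.mem_bot] at h1
    exact hu₀ ((Submodule.Quotient.mk_eq_zero W).1 h1)
  obtain ⟨c, hc⟩ := Module.End.exists_eigenvalue (Tq.restrict hUT : Module.End ℂ U)
  obtain ⟨⟨q, hq⟩, hev⟩ := hc.exists_hasEigenvector
  have h1 := hev.apply_eq_smul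
  have h2 := hev.2
  have h3 : Tq q = c • q := congrArg Subtype.val h1
  rw [hU] at hq
  obtain ⟨u, hu, rfl⟩ := hq
  refine ⟨u, c, ?_, (hW' u).1 hu, ?_⟩
  · intro hmem
    apply h2
    apply Subtype.ext
    exact (Submodule.Quotient.mk_eq_zero W).2 hmem
  · rw [hTq] at h3
    have h4 : W.mkQ (T u - c • u) = 0 := by
      rw [map_sub, map_smul, h3, sub_self]
    exact (Submodule.Quotient.mk_eq_zero W).1 h4

theorem flag_exists (br : V →ₗ[ℂ] V →ₗ[ℂ] V) (T : V ≃ₗ[ℂ] V)
    (hT : ∀ a b, T (br a b) = br (T a) (T b))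
    (hW : ∀ W : Submodule ℂ V, W ≠ ⊤ → (∀ v, ∀ w ∈ W, br v w ∈ W) →
      ∃ u, u ∉ W ∧ ∀ v, br v u ∈ W) :
    ∃ (m : ℕ) (b : Module.Basis (Fin m) ℂ V),
      (∀ v i, br v (b i) ∈ Submodule.span ℂ (b '' {j | j < i})) ∧
      ∀ i, T (b i) ∈ Submodule.span ℂ (b '' {j | j ≤ i}) := by
  have key : ∀ k : ℕ, k ≤ Module.finrank ℂ V → ∃ b : Fin k → V, LinearIndependent ℂ b ∧
      (∀ v i, br v (b i) ∈ Submodule.span ℂ (b '' {j | j < i})) ∧
      ∀ i, T (b i) ∈ Submodule.span ℂ (b '' {j | j ≤ i}) := by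
    intro k
    induction k with
    | zero =>
      intro _
      exact ⟨Fin.elim0, linearIndependent_empty_type, fun _ i => Fin.elim0 i, fun i => Fin.elim0 i⟩
    | succ k ih =>
      intro hk
      obtain ⟨b, hli, hbr, hbT⟩ := ih (by omega)
      obtain ⟨W, hWd⟩ : ∃ W : Submodule ℂ V, W = Submodule.span ℂ (Set.range b) := ⟨_, rfl⟩
      have hsub : ∀ s : Set (Fin k), Submodule.span ℂ (b '' s) ≤ W := fun s => by
        rw [hWd]
        exact Submodule.span_mono (Set.image_subset_range b s)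
      have hne : W ≠ ⊤ := by
        intro h
        have h1 := finrank_span_eq_card hli
        rw [← hWd, h, finrank_top, Fintype.card_fin] at h1
        omega
      have hWbr : ∀ v, ∀ w ∈ W, br v w ∈ W := by
        intro v w hw
        rw [hWd] at hw
        induction hw using Submodule.span_induction with
        | mem x hx =>
          obtain ⟨i, rfl⟩ := hx
          exact hsub _ (hbr v i)
        | zero => rw [map_zero]; exact W.zero_mem
        | add x y _ _ hx hy => rw [map_add]; exact W.add_mem hx hy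
        | smul a x _ hx => rw [map_smul]; exact W.smul_mem a hx
      have hWT : ∀ w ∈ W, T w ∈ W := by
        intro w hw
        rw [hWd] at hw
        induction hw using Submodule.span_induction with
        | mem x hx =>
          obtain ⟨i, rfl⟩ := hx
          exact hsub _ (hbT i)
        | zero => rw [map_zero]; exact W.zero_mem
        | add x y _ _ hx hy => rw [map_add]; exact W.add_mem hx hy
        | smul a x _ hx => rw [map_smul]; exact W.smul_mem a hx
      obtain ⟨u, c, hu, hubr, huT⟩ := flag_step br T hT W hWT (hW W hne hWbr)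
      obtain ⟨b', hb'⟩ : ∃ b' : Fin (k + 1) → V, b' = Fin.snoc b u := ⟨_, rfl⟩
      have hcs : ∀ j : Fin k, b' j.castSucc = b j := fun j => by rw [hb', Fin.snoc_castSucc]
      have hls : b' (Fin.last k) = u := by rw [hb', Fin.snoc_last]
      have hlow : ∀ (s : Set (Fin k)) (s' : Set (Fin (k + 1))), (∀ j ∈ s, j.castSucc ∈ s') →
          Submodule.span ℂ (b '' s) ≤ Submodule.span ℂ (b' '' s') := by
        intro s s' hs
        apply Submodule.span_mono
        rintro _ ⟨j, hj, rfl⟩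
        exact ⟨j.castSucc, hs j hj, hcs j⟩
      have hWle : ∀ s' : Set (Fin (k + 1)), (∀ j : Fin k, j.castSucc ∈ s') →
          W ≤ Submodule.span ℂ (b' '' s') := by
        intro s' hs
        rw [hWd, ← Set.image_univ]
        exact hlow _ _ fun j _ => hs j
      refine ⟨b', ?_, ?_, ?_⟩
      · rw [hb', linearIndependent_finSnoc]
        refine ⟨hli, ?_⟩
        rw [← hWd]
        exact hu
      · intro v i
        refine Fin.lastCases ?_ (fun i => ?_) i
        · rw [hls]
          exact hWle _ (fun j => Fin.castSucc_lt_last j) (hubr v)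
        · rw [hcs]
          exact hlow _ _ (fun j hj => Fin.castSucc_lt_castSucc_iff.2 hj) (hbr v i)
      · intro i
        refine Fin.lastCases ?_ (fun i => ?_) i
        · rw [hls]
          have h1 : T u = (T u - c • u) + c • u := by abel
          rw [h1]
          refine Submodule.add_mem _ (hWle _ (fun j => Fin.le_last _) huT)
            (Submodule.smul_mem _ _ (Submodule.subset_span ⟨Fin.last k, ?_, hls⟩))
          exact le_refl (Fin.last k)
        · rw [hcs]
          exact hlow _ _ (fun j hj => Fin.castSucc_le_castSucc_iff.2 hj) (hbT i)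
  obtain ⟨b, hli, hbr, hbT⟩ := key (Module.finrank ℂ V) le_rfl
  have hsp : ⊤ ≤ Submodule.span ℂ (Set.range b) := by
    rw [hli.span_eq_top_of_card_eq_finrank' (Fintype.card_fin _)]
  refine ⟨Module.finrank ℂ V, Module.Basis.mk hli hsp, ?_, ?_⟩
  · rw [Module.Basis.coe_mk]
    exact hbr
  · rw [Module.Basis.coe_mk]
    exact hbT

end

end Pool.Agent.HOA
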