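import Pool.Agent.HOA.Tools

/-!
# HOA/Rep: coordinate expressions of holomorphic vector fields are analytic

PLAN.  On `e.target`, `rep e X z = mfderiv e (e.symm z) (X (e.symm z))` equals
`VectorField.mpullback 𝓘(ℂ, E) 𝓘(ℂ, E) e.symm X z = (mfderiv e.symm z).inverse (X (e.symm z))`
(the two derivatives are inverse to each other: `OpenPartialHomeomorph.MDifferentiable.symm_comp_deriv`,
`comp_symm_deriv`, with `mdifferentiable_of_mem_atlas`).  The pull-back is `C^ω` on the target:
`ContMDiffWithinAt.mpullback_vectorField_preimage` and variants (file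
Mathlib/Geometry/Manifold/VectorField/Pullback.lean), with `e.symm` being `ContMDiffOn ω` on the
target (`contMDiffOn_symm_of_mem_maximalAtlas`), and then
`contMDiffWithinAt_vectorSpace_iff_contDiffWithinAt` (or similar) gives `ContDiffOn ℂ ω`, and
`ContDiffAt ℂ ω` is `AnalyticAt` (`ContDiffAt.analyticAt`, `contDiffAt_omega_iff_analyticAt`).
An alternative: `rep e X` is the second component of `tangentMap e` composed with the section `X`
and `e.symm`.
-/

open scoped Manifold ContDiff Topology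
open Set Metric Filter

namespace Pool.Agent.HOA

noncomputable section

variable {E : Type} [NormedAddCommGroup E] [NormedSpace ℂ E] [FiniteDimensional ℂ E]
variable {M : Type} [TopologicalSpace M] [T2Space M] [CompactSpace M] [ChartedSpace E M]
  [IsManifold 𝓘(ℂ, E) ω M]

theorem rep_analytic {X : (x : M) → TangentSpace 𝓘(ℂ, E) x} (hX : HolField X)
    {e : OpenPartialHomeomorph M E} (he : e ∈ atlas E M) :
    AnalyticOnNhd ℂ (rep e X) e.target := by
  have hmax : e ∈ IsManifold.maximalAtlas 𝓘(ℂ, E) ω M := IsManifold.subset_maximalAtlas he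
  have h1 : ContMDiffOn 𝓘(ℂ, E) 𝓘(ℂ, E) ω e e.source := contMDiffOn_of_mem_maximalAtlas hmax
  have h2 : ContMDiffOn 𝓘(ℂ, E) 𝓘(ℂ, E) ω e.symm e.target :=
    contMDiffOn_symm_of_mem_maximalAtlas hmax
  have h3 := h1.contMDiffOn_tangentMapWithin (m := ω) le_rfl e.open_source.uniqueMDiffOn
  have h4 : ContMDiffOn 𝓘(ℂ, E) (𝓘(ℂ, E)).tangent ω
      (fun z => (⟨e.symm z, X (e.symm z)⟩ : TangentBundle 𝓘(ℂ, E) M)) e.target :=
    ContMDiff.comp_contMDiffOn (g := fun x => (⟨x, X x⟩ : TangentBundle 𝓘(ℂ, E) M)) hX h2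
  have h5 := h3.comp h4 (fun z hz => e.map_target hz)
  have h6 := (contMDiff_snd_tangentBundle_modelSpace E 𝓘(ℂ, E) (n := ω)).comp_contMDiffOn h5
  have h7 := h6.contDiffOn
  intro z hz
  have h8 := (h7.contDiffAt (e.open_target.mem_nhds hz)).analyticAt
  refine h8.congr ?_
  filter_upwards [e.open_target.mem_nhds hz] with y hy
  show mfderivWithin 𝓘(ℂ, E) 𝓘(ℂ, E) e e.source (e.symm y) (X (e.symm y)) =
    mfderiv 𝓘(ℂ, E) 𝓘(ℂ, E) e (e.symm y) (X (e.symm y))
  rw [mfderivWithin_of_mem_nhds (e.open_source.mem_nhds (e.map_target hy))]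

end

end Pool.Agent.HOA
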