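import Pool.Agent.HOA.Tools

/-!
# HOA/RepBr: the Lie bracket in a chart
-/

open scoped Manifold ContDiff Topology
open Set Metric Filter

namespace Pool.Agent.HOA

noncomputable section

variable {E : Type} [NormedAddCommGroup E] [NormedSpace ℂ E] [FiniteDimensional ℂ E]
variable {M : Type} [TopologicalSpace M] [T2Space M] [CompactSpace M] [ChartedSpace E M]
  [IsManifold 𝓘(ℂ, E) ω M]

omit [FiniteDimensional ℂ E] [T2Space M] [CompactSpace M] in
private theorem rep_eq_pull (X : (x : M) → TangentSpace 𝓘(ℂ, E) x)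
    {e : OpenPartialHomeomorph M E} (he : e ∈ atlas E M) {z : E} (hz : z ∈ e.target) :
    rep e X z = VectorField.mpullback 𝓘(ℂ, E) 𝓘(ℂ, E) e.symm X z := by
  have hm : e.MDifferentiable 𝓘(ℂ, E) 𝓘(ℂ, E) := mdifferentiable_of_mem_atlas he
  have h1 := hm.comp_symm_deriv hz
  have h2 := hm.symm_comp_deriv (x := e.symm z) (e.map_target hz)
  have key : ∀ w : E, w = z →
      (mfderiv 𝓘(ℂ, E) 𝓘(ℂ, E) e.symm w : E →L[ℂ] E).comp
        (mfderiv 𝓘(ℂ, E) 𝓘(ℂ, E) e (e.symm z) : E →L[ℂ] E) = ContinuousLinearMap.id ℂ E →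
      (mfderiv 𝓘(ℂ, E) 𝓘(ℂ, E) e.symm z : E →L[ℂ] E).comp
        (mfderiv 𝓘(ℂ, E) 𝓘(ℂ, E) e (e.symm z) : E →L[ℂ] E) = ContinuousLinearMap.id ℂ E := by
    rintro w rfl h
    exact h
  have h3 := key (e (e.symm z)) (e.right_inv hz) h2
  have hinv : (mfderiv 𝓘(ℂ, E) 𝓘(ℂ, E) e.symm z : E →L[ℂ] E).inverse =
      (mfderiv 𝓘(ℂ, E) 𝓘(ℂ, E) e (e.symm z) : E →L[ℂ] E) :=
    ContinuousLinearMap.inverse_eq h3 h1
  exact (congrArg (fun A : E →L[ℂ] E => A (X (e.symm z))) hinv).symm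

omit [FiniteDimensional ℂ E] in
private theorem br_vec (V W : E → E) (z : E) :
    (VectorField.mlieBracket 𝓘(ℂ, E) (M := E) (V : (x : E) → TangentSpace 𝓘(ℂ, E) x)
      (W : (x : E) → TangentSpace 𝓘(ℂ, E) x) z : E) = fderiv ℂ W z (V z) - fderiv ℂ V z (W z) := by
  have h := congrFun (VectorField.mlieBracketWithin_eq_lieBracketWithin (𝕜 := ℂ)
    (V := (V : (x : E) → TangentSpace 𝓘(ℂ, E) x)) (W := (W : (x : E) → TangentSpace 𝓘(ℂ, E) x))
    (s := univ)) z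
  rw [VectorField.lieBracketWithin_univ] at h
  exact h

theorem rep_bracket {X Y : (x : M) → TangentSpace 𝓘(ℂ, E) x} (hX : HolField X) (hY : HolField Y)
    {e : OpenPartialHomeomorph M E} (he : e ∈ atlas E M) {z : E} (hz : z ∈ e.target) :
    rep e (VectorField.mlieBracket 𝓘(ℂ, E) X Y) z =
      fderiv ℂ (rep e Y) z (rep e X z) - fderiv ℂ (rep e X) z (rep e Y z) := by
  have hcs : CompleteSpace E := FiniteDimensional.complete ℂ E
  have hm2 : IsManifold 𝓘(ℂ, E) (minSmoothness ℂ 2) M := IsManifold.of_le (n := ω) le_top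
  rw [rep_eq_pull _ he hz]
  have hf : ContMDiffAt 𝓘(ℂ, E) 𝓘(ℂ, E) ω e.symm z :=
    (contMDiffOn_symm_of_mem_maximalAtlas (IsManifold.subset_maximalAtlas he)).contMDiffAt
      (e.open_target.mem_nhds hz)
  have hX1 : MDifferentiableAt 𝓘(ℂ, E) (𝓘(ℂ, E)).tangent
      (fun x => (⟨x, X x⟩ : TangentBundle 𝓘(ℂ, E) M)) (e.symm z) :=
    (ContMDiff.contMDiffAt hX).mdifferentiableAt (by simp)
  have hY1 : MDifferentiableAt 𝓘(ℂ, E) (𝓘(ℂ, E)).tangent
      (fun x => (⟨x, Y x⟩ : TangentBundle 𝓘(ℂ, E) M)) (e.symm z) :=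
    (ContMDiff.contMDiffAt hY).mdifferentiableAt (by simp)
  rw [VectorField.mpullback_mlieBracket hX1 hY1 hf (by simp)]
  have hXe : VectorField.mpullback 𝓘(ℂ, E) 𝓘(ℂ, E) e.symm X =ᶠ[𝓝 z] rep e X := by
    filter_upwards [e.open_target.mem_nhds hz] with w hw
    exact (rep_eq_pull X he hw).symm
  have hYe : VectorField.mpullback 𝓘(ℂ, E) 𝓘(ℂ, E) e.symm Y =ᶠ[𝓝 z] rep e Y := by
    filter_upwards [e.open_target.mem_nhds hz] with w hw
    exact (rep_eq_pull Y he hw).symm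
  exact (Filter.EventuallyEq.mlieBracket_vectorField_eq hXe hYe).trans (br_vec (rep e X) (rep e Y) z)

end

end Pool.Agent.HOA
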