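import Pool.Agent.HOA.DetFr
import Pool.Agent.HOA.RepBr
import Pool.Agent.HOA.Rep
import Pool.Agent.HOA.Loc

/-!
# HOA/FrD: derivative of the determinant of the adapted frame
-/

open scoped Manifold ContDiff Topology
open Set Metric Filter

namespace Pool.Agent.HOA

noncomputable section

variable {E : Type} [NormedAddCommGroup E] [NormedSpace ℂ E] [FiniteDimensional ℂ E]
variable {M : Type} [TopologicalSpace M] [T2Space M] [CompactSpace M] [ChartedSpace E M]
  [IsManifold 𝓘(ℂ, E) ω M]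

/-- the local determinant of an `n`-tuple of vector fields -/
def dd {n : ℕ} (β : Module.Basis (Fin n) ℂ E) (w : Fin n → HF E M)
    (e : OpenPartialHomeomorph M E) : E → ℂ :=
  fun z => β.det (fun k => rep e (w k).1 z)

theorem dd_analytic {n : ℕ} (β : Module.Basis (Fin n) ℂ E) (w : Fin n → HF E M)
    {e : OpenPartialHomeomorph M E} (he : e ∈ atlas E M) :
    AnalyticOnNhd ℂ (dd β w e) e.target := by
  intro z hz
  have h1 : ∀ k i, AnalyticAt ℂ (fun z => β.coord i (rep e (w k).1 z)) z := by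
    intro k i
    have h2 : AnalyticAt ℂ (LinearMap.toContinuousLinearMap (β.coord i)) (rep e (w k).1 z) :=
      ContinuousLinearMap.analyticAt _ _
    exact h2.comp (rep_analytic (w k).2 he z hz)
  have h3 : dd β w e = fun z => ∑ σ : Equiv.Perm (Fin n), ((Equiv.Perm.sign σ : ℤ) : ℂ) *
      ∏ i, β.coord (σ i) (rep e (w i).1 z) := by
    funext z
    unfold dd
    rw [Module.Basis.det_apply, Matrix.det_apply']
    refine Finset.sum_congr rfl fun σ _ => ?_
    congr 1
  rw [h3]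
  refine Finset.analyticAt_fun_sum _ fun σ _ => ?_
  exact analyticAt_const.mul (Finset.analyticAt_fun_prod _ fun i _ => h1 i (σ i))

omit [FiniteDimensional ℂ E] [T2Space M] [CompactSpace M] [IsManifold 𝓘(ℂ, E) ω M] in
private theorem rep_at (X : (x : M) → TangentSpace 𝓘(ℂ, E) x) {e : OpenPartialHomeomorph M E}
    {x : M} (hx : x ∈ e.source) : rep e X (e x) = lc e x (X x) := by
  unfold rep
  rw [e.left_inv hx]

/-- `lc e x` as a linear map -/
private def lcl (e : OpenPartialHomeomorph M E) (x : M) : TangentSpace 𝓘(ℂ, E) x →ₗ[ℂ] E :=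
  (mfderiv 𝓘(ℂ, E) 𝓘(ℂ, E) e x : TangentSpace 𝓘(ℂ, E) x →L[ℂ] E).toLinearMap

theorem dd_ne_zero {n : ℕ} (β : Module.Basis (Fin n) ℂ E) (w : Fin n → HF E M)
    {e : OpenPartialHomeomorph M E} (he : e ∈ atlas E M) {x : M} (hx : x ∈ e.source) :
    dd β w e (e x) ≠ 0 ↔ LinearIndependent ℂ (fun k => (w k).1 x) := by
  have h1 : dd β w e (e x) = β.det (lcl e x ∘ fun k => (w k).1 x) := by
    unfold dd
    congr 1
    funext k
    exact rep_at _ hx
  have hinj : LinearMap.ker (lcl (M := M) e x) = ⊥ :=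
    LinearMap.ker_eq_bot.2 (lc_injective he hx)
  rw [h1, ← isUnit_iff_ne_zero, ← Module.Basis.is_basis_iff_det,
    ← LinearMap.linearIndependent_iff (lcl e x) hinj]
  constructor
  · exact fun h => h.1
  · intro h
    refine ⟨h, ?_⟩
    exact h.span_eq_top_of_card_eq_finrank' (Module.finrank_eq_card_basis β).symm

theorem frame_deriv {br : HF E M →ₗ[ℂ] HF E M →ₗ[ℂ] HF E M} (hbr : IsBr br) {m n : ℕ}
    {b : Module.Basis (Fin m) ℂ (HF E M)}
    (hfl : ∀ v i, br v (b i) ∈ Submodule.span ℂ (b '' {j | j < i}))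
    {idx : Fin n → Fin m} (hidx : StrictMono idx) (β : Module.Basis (Fin n) ℂ E)
    {e : OpenPartialHomeomorph M E} (he : e ∈ atlas E M) {x : M} (hx : x ∈ e.source)
    (hdep : ∀ i, (b i).1 x ∈ Submodule.span ℂ ((fun k => (b (idx k)).1 x) '' {k | idx k ≤ i}))
    (v : HF E M) :
    fderiv ℂ (dd β (fun k => b (idx k)) e) (e x) (rep e v.1 (e x)) =
      tr (fderiv ℂ (rep e v.1) (e x)) * dd β (fun k => b (idx k)) e (e x) := by
  have hz : e x ∈ e.target := e.map_source hx
  refine det_frame β (fun k => rep e (b (idx k)).1) (rep e v.1) (e x)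
    (fun k => (rep_analytic (b (idx k)).2 he _ hz).differentiableAt) (fun k => ?_)
  have h1 := rep_bracket v.2 (b (idx k)).2 he hz
  have h2 : VectorField.mlieBracket 𝓘(ℂ, E) v.1 (b (idx k)).1 = (br v (b (idx k))).1 := by
    funext y
    exact (hbr v (b (idx k)) y).symm
  rw [h2, rep_at _ hx] at h1
  rw [← h1]
  -- evaluation at `x` in the chart
  let L : HF E M →ₗ[ℂ] E := (lcl e x) ∘ₗ
    ((LinearMap.proj x : ((y : M) → TangentSpace 𝓘(ℂ, E) y) →ₗ[ℂ] TangentSpace 𝓘(ℂ, E) x) ∘ₗ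
      (HF E M).subtype)
  have hL : ∀ u : HF E M, L u = lc e x (u.1 x) := fun u => rfl
  rw [← hL]
  have h3 : L (br v (b (idx k))) ∈ (Submodule.span ℂ (b '' {j | j < idx k})).map L :=
    Submodule.mem_map_of_mem (hfl v (idx k))
  rw [Submodule.map_span] at h3
  refine Submodule.span_le.2 ?_ h3
  rintro _ ⟨_, ⟨j, hj, rfl⟩, rfl⟩
  have h4 : L (b j) ∈ (Submodule.span ℂ ((fun k => (b (idx k)).1 x) '' {k | idx k ≤ j})).map
      (lcl e x) := Submodule.mem_map_of_mem (hdep j)
  rw [Submodule.map_span] at h4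
  refine Submodule.span_mono ?_ h4
  rintro _ ⟨_, ⟨l, hl, rfl⟩, rfl⟩
  refine ⟨l, ?_, ?_⟩
  · have h5 : idx l < idx k := lt_of_le_of_lt hl hj
    exact hidx.lt_iff_lt.1 h5
  · exact rep_at _ hx

end

end Pool.Agent.HOA
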