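import Pool.Agent.HOA.FD
import Pool.Agent.HOA.Loc
import Pool.Agent.HOA.LBd
import Pool.Agent.HOA.Cov
import Pool.Agent.HOA.Rep

/-!
# HOA/HFfin: the space of holomorphic vector fields is finite dimensional

`fd_abstract` applied to the coordinate expressions in a finite good family of charts.
-/

open scoped Manifold ContDiff Topology
open Set Metric Filter

namespace Pool.Agent.HOA

noncomputable section

variable {E : Type} [NormedAddCommGroup E] [NormedSpace ℂ E] [FiniteDimensional ℂ E]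
variable {M : Type} [TopologicalSpace M] [T2Space M] [CompactSpace M] [ChartedSpace E M]
  [IsManifold 𝓘(ℂ, E) ω M]

omit [FiniteDimensional ℂ E] [T2Space M] [CompactSpace M] [IsManifold 𝓘(ℂ, E) ω M] in
private theorem rep_at (e : OpenPartialHomeomorph M E) (X : (x : M) → TangentSpace 𝓘(ℂ, E) x) {x : M}
    (hx : x ∈ e.source) : rep e X (e x) = lc e x (X x) := by
  unfold rep
  rw [e.left_inv hx]

private def gl {ι : Type} (G : GCover ι E M) (i : ι) : HF E M →ₗ[ℂ] (E → E) where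
  toFun v := rep (G.e i) v.1
  map_add' v w := by
    funext z
    exact map_add (mfderiv 𝓘(ℂ, E) 𝓘(ℂ, E) (G.e i) ((G.e i).symm z)) _ _
  map_smul' a v := by
    funext z
    exact map_smul (mfderiv 𝓘(ℂ, E) 𝓘(ℂ, E) (G.e i) ((G.e i).symm z)) a _

variable (E M) in
theorem hf_finite : FiniteDimensional ℂ (HF E M) := by
  obtain ⟨ι, hι, ⟨G⟩⟩ := exists_cover E M
  obtain ⟨C, hC, hb⟩ := lmap_bounds (Diffeomorph.refl 𝓘(ℂ, E) M ω) G
  have hsub : ∀ i, closedBall (G.c i) (2 * G.r i) ⊆ (G.e i).target := fun i =>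
    (closedBall_subset_closedBall (by nlinarith [G.pos i])).trans (G.sub i)
  refine fd_abstract G.c G.r G.pos (gl G) ?_ ?_ C ?_
  · intro i v
    exact (rep_analytic v.2 (G.mem i)).mono (hsub i)
  · intro v hv
    apply Subtype.ext
    funext x
    obtain ⟨i, hi, hi'⟩ := G.cov x
    have h1 : rep (G.e i) v.1 (G.e i x) = 0 := hv i (G.e i x) (ball_subset_closedBall hi')
    rw [rep_at (G.e i) v.1 hi] at h1
    apply lc_injective (G.mem i) hi
    rw [h1]
    exact (map_zero (mfderiv 𝓘(ℂ, E) 𝓘(ℂ, E) (G.e i) x)).symm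
  · intro i v z hz
    have hz' := hsub i hz
    obtain ⟨x, hx⟩ : ∃ x, x = (G.e i).symm z := ⟨_, rfl⟩
    have hxi : x ∈ (G.e i).source := by
      rw [hx]
      exact (G.e i).map_target hz'
    have hxz : G.e i x = z := by
      rw [hx]
      exact (G.e i).right_inv hz'
    obtain ⟨j, hj, hj'⟩ := G.cov x
    refine ⟨j, G.e j x, ball_subset_closedBall hj', ?_⟩
    have h1 : rep (G.e i) v.1 z = lc (G.e i) x (v.1 x) := by
      rw [← hxz]
      exact rep_at (G.e i) v.1 hxi
    have h2 : rep (G.e j) v.1 (G.e j x) = lc (G.e j) x (v.1 x) := rep_at (G.e j) v.1 hj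
    have h3 : lc (G.e i) x (v.1 x) =
        fderiv ℂ (lmap (G.e j) (Diffeomorph.refl 𝓘(ℂ, E) M ω) (G.e i)) (G.e j x)
          (lc (G.e j) x (v.1 x)) := by
      have h4 := lc_mfderiv (g := (Diffeomorph.refl 𝓘(ℂ, E) M ω))
        (Diffeomorph.refl 𝓘(ℂ, E) M ω).contMDiff (G.mem j) (G.mem i) hj (x := x) hxi (v.1 x)
      rw [← h4]
      congr 1
      have h5 : mfderiv 𝓘(ℂ, E) 𝓘(ℂ, E) (id : M → M) x = ContinuousLinearMap.id ℂ (TangentSpace 𝓘(ℂ, E) x) :=
        mfderiv_id
      exact (DFunLike.congr_fun h5 (v.1 x)).symm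
    have h6 := (hb j i x ⟨hj, closedBall_subset_closedBall (by nlinarith [G.pos j])
      (ball_subset_closedBall hj')⟩ ⟨hxi, by
        show G.e i x ∈ closedBall (G.c i) (2 * G.r i)
        rw [hxz]
        exact hz⟩).1 (lc (G.e j) x (v.1 x))
    show ‖rep (G.e i) v.1 z‖ ≤ C * ‖rep (G.e j) v.1 (G.e j x)‖
    rw [h1, h2, h3]
    exact h6

end

end Pool.Agent.HOA
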