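import Pool.Agent.HOA.Tools

/-!
# HOA/HSym: the inverse of a hyperbolic diffeomorphism is hyperbolic

The norm is unchanged, the two bundles are exchanged; chain rule for `f^[k] ∘ f.symm^[k] = id`.
-/

open scoped Manifold ContDiff Topology
open Set Metric Filter

namespace Pool.Agent.HOA

noncomputable section

variable {E : Type} [NormedAddCommGroup E] [NormedSpace ℂ E] [FiniteDimensional ℂ E]
variable {M : Type} [TopologicalSpace M] [T2Space M] [CompactSpace M] [ChartedSpace E M]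
  [IsManifold 𝓘(ℂ, E) ω M]
variable {f : Diffeomorph 𝓘(ℂ, E) 𝓘(ℂ, E) M M ω} {N : (x : M) → TangentSpace 𝓘(ℂ, E) x → ℝ}
  {Es Eu : (x : M) → Submodule ℝ (TangentSpace 𝓘(ℂ, E) x)} {C ν : ℝ}

omit [FiniteDimensional ℂ E] [T2Space M] [CompactSpace M] [IsManifold 𝓘(ℂ, E) ω M] in
private theorem hs_mem {S : (x : M) → Submodule ℝ (TangentSpace 𝓘(ℂ, E) x)} {a b : M} (h : a = b)
    {u : TangentSpace 𝓘(ℂ, E) a} {v : TangentSpace 𝓘(ℂ, E) b} (huv : (u : E) = (v : E))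
    (hu : u ∈ S a) : v ∈ S b := by
  subst h
  have h1 : u = v := huv
  rw [← h1]
  exact hu

omit [FiniteDimensional ℂ E] [T2Space M] [CompactSpace M] [IsManifold 𝓘(ℂ, E) ω M] in
private theorem hs_norm {N : (x : M) → TangentSpace 𝓘(ℂ, E) x → ℝ} {a b : M} (h : a = b)
    {u : TangentSpace 𝓘(ℂ, E) a} {v : TangentSpace 𝓘(ℂ, E) b} (huv : (u : E) = (v : E)) :
    N a u = N b v := by
  subst h
  have h1 : u = v := huv
  rw [h1]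

omit [FiniteDimensional ℂ E] [T2Space M] [CompactSpace M] in
private theorem hs_md (f : Diffeomorph 𝓘(ℂ, E) 𝓘(ℂ, E) M M ω) (k : ℕ) :
    MDifferentiable 𝓘(ℂ, E) 𝓘(ℂ, E) (f^[k]) :=
  (f.contMDiff.iterate k).mdifferentiable (by simp)

omit [FiniteDimensional ℂ E] [T2Space M] [CompactSpace M] in
private theorem hs_left (f : Diffeomorph 𝓘(ℂ, E) 𝓘(ℂ, E) M M ω) (k : ℕ) (x : M)
    (v : TangentSpace 𝓘(ℂ, E) x) :
    (mfderiv 𝓘(ℂ, E) 𝓘(ℂ, E) (f.symm^[k]) (f^[k] x)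
      (mfderiv 𝓘(ℂ, E) 𝓘(ℂ, E) (f^[k]) x v) : E) = (v : E) := by
  have h1 : f.symm^[k] ∘ f^[k] = id := by
    funext z
    exact Function.LeftInverse.iterate (fun y => f.symm_apply_apply y) k z
  have h2 := mfderiv_comp x (hs_md f.symm k (f^[k] x)) (hs_md f k x)
  have h3 : ∀ g : M → M, g = id →
      (mfderiv 𝓘(ℂ, E) 𝓘(ℂ, E) g x : E →L[ℂ] E) = ContinuousLinearMap.id ℂ E := by
    rintro _ rfl
    exact mfderiv_id
  have h4 := h3 _ h1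
  have h5 : (mfderiv 𝓘(ℂ, E) 𝓘(ℂ, E) (f.symm^[k] ∘ f^[k]) x : E →L[ℂ] E) (v : E) =
      (v : E) := by
    rw [h4]
    rfl
  have h6 := congrArg (fun L : E →L[ℂ] E => L (v : E)) h2
  exact h6.symm.trans h5

omit [FiniteDimensional ℂ E] [T2Space M] [CompactSpace M] in
private theorem hs_right (f : Diffeomorph 𝓘(ℂ, E) 𝓘(ℂ, E) M M ω) (k : ℕ) (x : M)
    (v : TangentSpace 𝓘(ℂ, E) x) :
    (mfderiv 𝓘(ℂ, E) 𝓘(ℂ, E) (f^[k]) (f.symm^[k] x)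
      (mfderiv 𝓘(ℂ, E) 𝓘(ℂ, E) (f.symm^[k]) x v) : E) = (v : E) :=
  hs_left f.symm k x v

omit [T2Space M] [CompactSpace M] [FiniteDimensional ℂ E] [IsManifold 𝓘(ℂ, E) ω M] in
private theorem hs_iter (f : Diffeomorph 𝓘(ℂ, E) 𝓘(ℂ, E) M M ω) (k : ℕ) (x : M) :
    f^[k] (f.symm^[k] x) = x :=
  Function.LeftInverse.iterate (fun y => f.apply_symm_apply y) k x

omit [FiniteDimensional ℂ E] [T2Space M] [CompactSpace M] in
private theorem hs_one (f : Diffeomorph 𝓘(ℂ, E) 𝓘(ℂ, E) M M ω) {S S' :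
    (x : M) → Submodule ℝ (TangentSpace 𝓘(ℂ, E) x)} (hc : ∀ x : M, IsCompl (S x) (S' x))
    (h1 : ∀ (x : M) (v : TangentSpace 𝓘(ℂ, E) x), v ∈ S x →
      mfderiv 𝓘(ℂ, E) 𝓘(ℂ, E) f x v ∈ S (f x))
    (h2 : ∀ (x : M) (v : TangentSpace 𝓘(ℂ, E) x), v ∈ S' x →
      mfderiv 𝓘(ℂ, E) 𝓘(ℂ, E) f x v ∈ S' (f x))
    (y : M) (v : TangentSpace 𝓘(ℂ, E) y) (hv : v ∈ S' y) :
    mfderiv 𝓘(ℂ, E) 𝓘(ℂ, E) f.symm y v ∈ S' (f.symm y) := by
  have e1 : (mfderiv 𝓘(ℂ, E) 𝓘(ℂ, E) f (f.symm y)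
      (mfderiv 𝓘(ℂ, E) 𝓘(ℂ, E) f.symm y v) : E) = (v : E) := hs_right f 1 y v
  have e2 : f (f.symm y) = y := f.apply_symm_apply y
  have hu : mfderiv 𝓘(ℂ, E) 𝓘(ℂ, E) f.symm y v ∈ (⊤ : Submodule ℝ
      (TangentSpace 𝓘(ℂ, E) (f.symm y))) := trivial
  rw [← (hc (f.symm y)).sup_eq_top] at hu
  obtain ⟨a, ha, b, hb, hab⟩ := Submodule.mem_sup.1 hu
  have h3 := h1 _ a ha
  have h4 := h2 _ b hb
  have h5 : mfderiv 𝓘(ℂ, E) 𝓘(ℂ, E) f (f.symm y) (mfderiv 𝓘(ℂ, E) 𝓘(ℂ, E) f.symm y v) ∈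
      S' (f (f.symm y)) := hs_mem e2.symm e1.symm hv
  rw [← hab, map_add] at h5
  have h6 : mfderiv 𝓘(ℂ, E) 𝓘(ℂ, E) f (f.symm y) a ∈ S' (f (f.symm y)) := by
    have := Submodule.sub_mem _ h5 h4
    rwa [add_sub_cancel_right] at this
  have h7 : mfderiv 𝓘(ℂ, E) 𝓘(ℂ, E) f (f.symm y) a = 0 := by
    have h8 := Submodule.mem_inf.2 ⟨h3, h6⟩
    rw [(hc (f (f.symm y))).inf_eq_bot] at h8
    exact (Submodule.mem_bot ℝ).1 h8
  have h8 : (mfderiv 𝓘(ℂ, E) 𝓘(ℂ, E) f.symm (f (f.symm y))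
      (mfderiv 𝓘(ℂ, E) 𝓘(ℂ, E) f (f.symm y) a) : E) = (a : E) := hs_left f 1 (f.symm y) a
  rw [h7, map_zero] at h8
  have h9 : a = 0 := h8.symm
  rw [← hab, h9, zero_add]
  exact hb

omit [FiniteDimensional ℂ E] [T2Space M] [CompactSpace M] in
private theorem hs_pow (f : Diffeomorph 𝓘(ℂ, E) 𝓘(ℂ, E) M M ω) {S' :
    (x : M) → Submodule ℝ (TangentSpace 𝓘(ℂ, E) x)}
    (h : ∀ (x : M) (v : TangentSpace 𝓘(ℂ, E) x), v ∈ S' x →
      mfderiv 𝓘(ℂ, E) 𝓘(ℂ, E) f x v ∈ S' (f x)) (k : ℕ)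
    (y : M) (v : TangentSpace 𝓘(ℂ, E) y) (hv : v ∈ S' y) :
    mfderiv 𝓘(ℂ, E) 𝓘(ℂ, E) (f^[k]) y v ∈ S' (f^[k] y) := by
  induction k with
  | zero =>
    have h1 : (mfderiv 𝓘(ℂ, E) 𝓘(ℂ, E) (id : M → M) y v : E) = (v : E) := by
      rw [mfderiv_id]
      rfl
    exact hs_mem (S := S') (a := y) (b := f^[0] y) rfl h1.symm hv
  | succ k ih =>
    have h1 : f^[k + 1] = f ∘ f^[k] := Function.iterate_succ' f k
    have h2 := mfderiv_comp y (hs_md f 1 (f^[k] y)) (hs_md f k y)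
    have h3 : ∀ g : M → M, g = f ∘ f^[k] → (mfderiv 𝓘(ℂ, E) 𝓘(ℂ, E) g y v : E) =
        (mfderiv 𝓘(ℂ, E) 𝓘(ℂ, E) f (f^[k] y) (mfderiv 𝓘(ℂ, E) 𝓘(ℂ, E) (f^[k]) y v) : E) := by
      rintro _ rfl
      exact congrArg (fun L : E →L[ℂ] E => L (v : E)) h2
    exact hs_mem (S := S') (congrFun h1 y).symm (h3 _ h1).symm (h _ _ ih)

theorem hyp_symm (h : Hyp f N Es Eu C ν) : Hyp f.symm N Eu Es C ν := by
  have iu := hs_one f h.compl h.inv_s h.inv_u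
  have is := hs_one f (fun x => (h.compl x).symm) h.inv_u h.inv_s
  refine ⟨h.cont, h.add, h.smul, h.pos, fun x => (h.compl x).symm, iu, is, h.ν_pos, h.ν_lt, ?_, ?_⟩
  · intro x v hv k
    have h1 := h.expd _ _ (hs_pow f.symm iu k x v hv) k
    rwa [hs_norm (N := N) (hs_iter f k x) (hs_right f k x v)] at h1
  · intro x v hv k
    have h1 := h.contr _ _ (hs_pow f.symm is k x v hv) k
    rwa [hs_norm (N := N) (hs_iter f k x) (hs_right f k x v)] at h1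

end

end Pool.Agent.HOA
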