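import Pool.Agent.HOA.Tools

/-!
# HOA/Push: push-forward of holomorphic vector fields
-/

open scoped Manifold ContDiff Topology
open Set Metric Filter

namespace Pool.Agent.HOA

noncomputable section

variable {E : Type} [NormedAddCommGroup E] [NormedSpace ℂ E] [FiniteDimensional ℂ E]
variable {M : Type} [TopologicalSpace M] [T2Space M] [CompactSpace M] [ChartedSpace E M]
  [IsManifold 𝓘(ℂ, E) ω M]
variable {f : Diffeomorph 𝓘(ℂ, E) 𝓘(ℂ, E) M M ω}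

omit [FiniteDimensional ℂ E] [T2Space M] [CompactSpace M] [IsManifold 𝓘(ℂ, E) ω M] in
private theorem md (f : Diffeomorph 𝓘(ℂ, E) 𝓘(ℂ, E) M M ω) : MDifferentiable 𝓘(ℂ, E) 𝓘(ℂ, E) f :=
  f.contMDiff.mdifferentiable (by simp)

omit [FiniteDimensional ℂ E] [T2Space M] [CompactSpace M] in
private theorem inv_md (f : Diffeomorph 𝓘(ℂ, E) 𝓘(ℂ, E) M M ω) (x : M) :
    (mfderiv 𝓘(ℂ, E) 𝓘(ℂ, E) f x).IsInvertible :=
  ⟨f.mfderivToContinuousLinearEquiv (by simp) x, rfl⟩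

omit [FiniteDimensional ℂ E] [T2Space M] [CompactSpace M] in
private theorem md_comp (f : Diffeomorph 𝓘(ℂ, E) 𝓘(ℂ, E) M M ω) (x : M) :
    (mfderiv 𝓘(ℂ, E) 𝓘(ℂ, E) f.symm (f x)).comp (mfderiv 𝓘(ℂ, E) 𝓘(ℂ, E) f x) =
      ContinuousLinearMap.id ℂ E := by
  have h1 : HasMFDerivAt 𝓘(ℂ, E) 𝓘(ℂ, E) (f.symm ∘ f) x
      ((mfderiv 𝓘(ℂ, E) 𝓘(ℂ, E) f.symm (f x)).comp (mfderiv 𝓘(ℂ, E) 𝓘(ℂ, E) f x)) :=
    HasMFDerivAt.comp x (md f.symm (f x)).hasMFDerivAt (md f x).hasMFDerivAt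
  have h2 := (hasMFDerivAt_id (I := 𝓘(ℂ, E)) x).congr_of_eventuallyEq
    (Eventually.of_forall fun z => f.symm_apply_apply z : (f.symm ∘ f) =ᶠ[𝓝 x] id)
  exact hasMFDerivAt_unique h1 h2

omit [FiniteDimensional ℂ E] [T2Space M] [CompactSpace M] in
private theorem md_cancel (f : Diffeomorph 𝓘(ℂ, E) 𝓘(ℂ, E) M M ω) (x : M)
    (w : TangentSpace 𝓘(ℂ, E) x) :
    mfderiv 𝓘(ℂ, E) 𝓘(ℂ, E) f.symm (f x) (mfderiv 𝓘(ℂ, E) 𝓘(ℂ, E) f x w) = (w : E) :=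
  DFunLike.congr_fun (md_comp f x) w

omit [FiniteDimensional ℂ E] [T2Space M] [CompactSpace M] [IsManifold 𝓘(ℂ, E) ω M] in
private theorem val_eq (V : (x : M) → TangentSpace 𝓘(ℂ, E) x) {x y : M} (h : x = y) :
    (V x : E) = (V y : E) := by
  subst h
  rfl

omit [FiniteDimensional ℂ E] [T2Space M] [CompactSpace M] in
private theorem pull_apply (f : Diffeomorph 𝓘(ℂ, E) 𝓘(ℂ, E) M M ω)
    (V : (x : M) → TangentSpace 𝓘(ℂ, E) x) (x : M) :
    VectorField.mpullback 𝓘(ℂ, E) 𝓘(ℂ, E) f.symm V (f x) = mfderiv 𝓘(ℂ, E) 𝓘(ℂ, E) f x (V x) := by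
  rw [VectorField.mpullback_apply, (inv_md f.symm (f x)).inverse_apply_eq]
  exact (val_eq V (f.symm_apply_apply x)).trans (md_cancel f x (V x)).symm

omit [T2Space M] [CompactSpace M] in
private theorem pull_hol (f : Diffeomorph 𝓘(ℂ, E) 𝓘(ℂ, E) M M ω)
    {V : (x : M) → TangentSpace 𝓘(ℂ, E) x} (hV : HolField V) :
    HolField (VectorField.mpullback 𝓘(ℂ, E) 𝓘(ℂ, E) f V) := by
  have : CompleteSpace E := FiniteDimensional.complete ℂ E
  exact ContMDiff.mpullback_vectorField (n := ω) hV f.contMDiff (inv_md f) (by simp)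

omit [FiniteDimensional ℂ E] [T2Space M] [CompactSpace M] in
private theorem pull_pull (f : Diffeomorph 𝓘(ℂ, E) 𝓘(ℂ, E) M M ω)
    (V : (x : M) → TangentSpace 𝓘(ℂ, E) x) :
    VectorField.mpullback 𝓘(ℂ, E) 𝓘(ℂ, E) f (VectorField.mpullback 𝓘(ℂ, E) 𝓘(ℂ, E) f.symm V) = V := by
  funext x
  rw [VectorField.mpullback_apply, pull_apply, (inv_md f x).inverse_apply_eq]

theorem exists_push (f : Diffeomorph 𝓘(ℂ, E) 𝓘(ℂ, E) M M ω) :
    ∃ T : HF E M ≃ₗ[ℂ] HF E M, IsPush f T := by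
  refine ⟨{ toFun := fun v => ⟨VectorField.mpullback 𝓘(ℂ, E) 𝓘(ℂ, E) f.symm v.1, pull_hol f.symm v.2⟩
            invFun := fun v => ⟨VectorField.mpullback 𝓘(ℂ, E) 𝓘(ℂ, E) f v.1, pull_hol f v.2⟩
            map_add' := fun v w => Subtype.ext (VectorField.mpullback_add)
            map_smul' := fun c v => Subtype.ext (VectorField.mpullback_const_smul)
            left_inv := fun v => Subtype.ext (pull_pull f v.1)
            right_inv := fun v => Subtype.ext (pull_pull f.symm v.1) }, ?_⟩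
  intro v x
  exact pull_apply f v.1 x

theorem push_iter {T : HF E M ≃ₗ[ℂ] HF E M} (hT : IsPush f T) (k : ℕ) (v : HF E M) (x : M) :
    ((T ^ k : HF E M ≃ₗ[ℂ] HF E M) v).1 (f^[k] x) =
      mfderiv 𝓘(ℂ, E) 𝓘(ℂ, E) (f^[k]) x (v.1 x) := by
  induction k with
  | zero =>
    show v.1 x = mfderiv 𝓘(ℂ, E) 𝓘(ℂ, E) id x (v.1 x)
    rw [mfderiv_id]
    rfl
  | succ k ih =>
    have hk : MDifferentiable 𝓘(ℂ, E) 𝓘(ℂ, E) (f^[k]) := by
      clear ih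
      induction k with
      | zero => exact mdifferentiable_id
      | succ k ih2 =>
        rw [Function.iterate_succ']
        exact (md f).comp ih2
    rw [Function.iterate_succ', mfderiv_comp x (md f _) (hk x), pow_succ']
    show (T ((T ^ k : HF E M ≃ₗ[ℂ] HF E M) v)).1 (f (f^[k] x)) =
      mfderiv 𝓘(ℂ, E) 𝓘(ℂ, E) f (f^[k] x) (mfderiv 𝓘(ℂ, E) 𝓘(ℂ, E) (f^[k]) x (v.1 x))
    rw [hT, ih]

theorem push_symm {T : HF E M ≃ₗ[ℂ] HF E M} (hT : IsPush f T) : IsPush f.symm T.symm := by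
  intro v x
  obtain ⟨z, rfl⟩ := f.surjective x
  change (T.symm v).1 (f.symm (f z)) = mfderiv 𝓘(ℂ, E) 𝓘(ℂ, E) f.symm (f z) (v.1 (f z))
  have h := hT (T.symm v) z
  rw [T.apply_symm_apply] at h
  rw [h]
  exact (val_eq (T.symm v).1 (f.symm_apply_apply z)).trans (md_cancel f z ((T.symm v).1 z)).symm

end

end Pool.Agent.HOA
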