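import Pool.Agent.HOA.Tools

/-!
# HOA/Unif: uniform smallness of a family of seminorm-like functions
-/

open scoped Manifold ContDiff Topology
open Set Metric Filter

namespace Pool.Agent.HOA

noncomputable section

variable {V : Type} [AddCommGroup V] [Module ℂ V] [FiniteDimensional ℂ V]

omit [Module ℂ V] [FiniteDimensional ℂ V] in
private theorem sum_le {Y : Type} (P : Y → V → ℝ)
    (ha : ∀ y v w, P y (v + w) ≤ P y v + P y w) (h0 : ∀ y, P y 0 ≤ 0)
    {ι : Type} (s : Finset ι) (u : ι → V) (C : ι → ℝ) (y : Y) (h : ∀ i, P y (u i) ≤ C i) :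
    P y (∑ i ∈ s, u i) ≤ ∑ i ∈ s, C i := by
  classical
  induction s using Finset.induction_on with
  | empty =>
    rw [Finset.sum_empty, Finset.sum_empty]
    exact h0 y
  | insert a s has ih =>
    rw [Finset.sum_insert has, Finset.sum_insert has]
    exact (ha y _ _).trans (add_le_add (h a) ih)

theorem unif_small {Y : Type} (P : Y → V → ℝ)
    (ha : ∀ y v w, P y (v + w) ≤ P y v + P y w)
    (hb : ∀ v, ∃ K : ℝ, ∀ (y : Y) (a : ℂ), P y (a • v) ≤ K * ‖a‖)
    (T : V ≃ₗ[ℂ] V) {v : V} (hv : Tends T v) :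
    ∀ ε : ℝ, 0 < ε → ∀ᶠ k : ℕ in atTop, ∀ y, P y ((T ^ k : V ≃ₗ[ℂ] V) v) < ε := by
  intro ε hε
  have h0 : ∀ y, P y 0 ≤ 0 := by
    intro y
    obtain ⟨K, hK⟩ := hb 0
    have h1 := hK y 0
    rw [zero_smul, norm_zero, mul_zero] at h1
    exact h1
  set b := Module.finBasis ℂ V with hbdef
  choose K hK using fun l => hb (b l)
  have hlim : Tendsto (fun k : ℕ => ∑ l, K l * ‖b.repr ((T ^ k : V ≃ₗ[ℂ] V) v) l‖) atTop (𝓝 0) := by
    have h1 : ∀ l ∈ Finset.univ, Tendsto (fun k : ℕ => K l * ‖b.repr ((T ^ k : V ≃ₗ[ℂ] V) v) l‖)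
        atTop (𝓝 0) := by
      intro l _
      have h2 := hv (b.coord l)
      have h3 := (tendsto_zero_iff_norm_tendsto_zero.1 h2).const_mul (K l)
      rw [mul_zero] at h3
      exact h3
    have h2 := tendsto_finsetSum Finset.univ h1
    rw [Finset.sum_const_zero] at h2
    exact h2
  filter_upwards [hlim.eventually_lt_const hε] with k hk y
  refine lt_of_le_of_lt ?_ hk
  have h1 := sum_le P ha h0 Finset.univ
    (fun l => b.repr ((T ^ k : V ≃ₗ[ℂ] V) v) l • b l)
    (fun l => K l * ‖b.repr ((T ^ k : V ≃ₗ[ℂ] V) v) l‖) y (fun l => hK l y _)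
  rw [b.sum_repr] at h1
  exact h1

end

end Pool.Agent.HOA
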