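import Pool.Agent.HOA.Ang
import Pool.Agent.HOA.Push
import Pool.Agent.HOA.Unif
import Pool.Agent.HOA.HFfin
import Pool.Agent.HOA.HSym

/-!
# HOA/InEs: contracted holomorphic fields are in the stable bundle; no eigenvalue of modulus one

PLAN.  `hf_in_Es`: by `push_iter`, `N (f^k x) (df^k (v x)) = N (f^k x) ((T^k v) (f^k x))`.  Apply
`unif_small` with `Y = M`, `P y w = N y (w.1 y)` (`HF E M` is finite dimensional, `hf_finite E M`):
`hb` holds with `K = sup_y N y (w y) + sup_y N y (i w y)` because for `a = α + i β`,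
`N y (a • w y) ≤ |α| N y (w y) + |β| N y (i • w y)` and these are continuous functions of `y` on a
compact space (`h.cont` composed with the continuous section `y ↦ ⟨y, w y⟩`).  So the sequence is
bounded (eventually `< 1`, finitely many remaining terms) and `mem_Es_of_bdd` applies.
`no_unit`: `T^k v = l^k v`, so `N (f^k x) (df^k (v x)) = N (f^k x) (l^k v (f^k x)) ≤ K` with the same
bound: `v x ∈ Es x`.  The same for `f.symm`, `T.symm` (`hyp_symm` may be imported from HSym: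
`T.symm v = l⁻¹ v`) gives `v x ∈ Eu x`; so `v x = 0` by `h.compl`.
-/

open scoped Manifold ContDiff Topology
open Set Metric Filter

namespace Pool.Agent.HOA

noncomputable section

variable {E : Type} [NormedAddCommGroup E] [NormedSpace ℂ E] [FiniteDimensional ℂ E]
variable {M : Type} [TopologicalSpace M] [T2Space M] [CompactSpace M] [ChartedSpace E M]
  [IsManifold 𝓘(ℂ, E) ω M]
variable {f : Diffeomorph 𝓘(ℂ, E) 𝓘(ℂ, E) M M ω} {N : (x : M) → TangentSpace 𝓘(ℂ, E) x → ℝ}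
  {Es Eu : (x : M) → Submodule ℝ (TangentSpace 𝓘(ℂ, E) x)} {C ν : ℝ}

private theorem N_zero (h : Hyp f N Es Eu C ν) (x : M) : N x 0 = 0 := by
  have := h.smul x 0 0
  simpa using this

private theorem N_nonneg (h : Hyp f N Es Eu C ν) (x : M) (v : TangentSpace 𝓘(ℂ, E) x) :
    0 ≤ N x v := by
  by_cases hv : v = 0
  · rw [hv, N_zero h]
  · exact (h.pos x v hv).le

private theorem bdd_one (h : Hyp f N Es Eu C ν) (w : HF E M) :
    ∃ K : ℝ, 0 ≤ K ∧ ∀ y : M, N y (w.1 y) ≤ K := by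
  have hc : Continuous (fun y : M => N y (w.1 y)) := by
    have h1 : Continuous (fun x : M => (⟨x, w.1 x⟩ : TangentBundle 𝓘(ℂ, E) M)) :=
      ContMDiff.continuous w.2
    exact h.cont.comp h1
  obtain ⟨K, hK⟩ := (isCompact_range hc).bddAbove
  refine ⟨max K 0, le_max_right _ _, fun y => (hK ⟨y, rfl⟩).trans (le_max_left _ _)⟩

private theorem smul_decomp (x : M) (a : ℂ) (w : TangentSpace 𝓘(ℂ, E) x) :
    a • w = a.re • w + a.im • (Complex.I • w) := by
  have h1 : a.re • w = (a.re : ℂ) • w := rfl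
  have h2 : a.im • (Complex.I • w) = (a.im : ℂ) • (Complex.I • w) := rfl
  rw [h1, h2, smul_smul, ← add_smul, Complex.re_add_im]

private theorem bdd_smul (h : Hyp f N Es Eu C ν) (w : HF E M) :
    ∃ K : ℝ, ∀ (y : M) (a : ℂ), N y ((a • w).1 y) ≤ K * ‖a‖ := by
  obtain ⟨K1, hK1, h1⟩ := bdd_one h w
  obtain ⟨K2, hK2, h2⟩ := bdd_one h (Complex.I • w)
  refine ⟨K1 + K2, fun y a => ?_⟩
  have e : (a • w).1 y = a.re • w.1 y + a.im • (Complex.I • w.1 y) := smul_decomp y a (w.1 y)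
  rw [e]
  have e2 : N y (Complex.I • w.1 y) ≤ K2 := h2 y
  have b1 : |a.re| * N y (w.1 y) ≤ ‖a‖ * K1 :=
    mul_le_mul (Complex.abs_re_le_norm a) (h1 y) (N_nonneg h y _) (norm_nonneg a)
  have b2 : |a.im| * N y (Complex.I • w.1 y) ≤ ‖a‖ * K2 :=
    mul_le_mul (Complex.abs_im_le_norm a) e2 (N_nonneg h y _) (norm_nonneg a)
  have c := h.add y (a.re • w.1 y) (a.im • (Complex.I • w.1 y))
  rw [h.smul, h.smul] at c
  linarith

theorem hf_in_Es (h : Hyp f N Es Eu C ν) {T : HF E M ≃ₗ[ℂ] HF E M} (hT : IsPush f T)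
    {v : HF E M} (hv : Tends T v) (x : M) : v.1 x ∈ Es x := by
  haveI := hf_finite E M
  have key := unif_small (V := HF E M) (Y := M) (fun y w => N y (w.1 y))
    (fun y a b => h.add y (a.1 y) (b.1 y)) (fun w => bdd_smul h w) T hv 1 one_pos
  obtain ⟨k0, hk0⟩ := eventually_atTop.1 key
  set u : ℕ → ℝ := fun k => N (f^[k] x) (mfderiv 𝓘(ℂ, E) 𝓘(ℂ, E) (f^[k]) x (v.1 x)) with hu
  have hlt : ∀ k, k0 ≤ k → u k < 1 := by
    intro k hk
    have := hk0 k hk (f^[k] x)
    simp only [push_iter hT k v x] at this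
    exact this
  apply mem_Es_of_bdd h (K := 1 + ∑ k ∈ Finset.range k0, u k)
  intro k
  have hn : ∀ j, 0 ≤ u j := fun j => N_nonneg h _ _
  have hs : 0 ≤ ∑ k ∈ Finset.range k0, u k := Finset.sum_nonneg fun j _ => hn j
  rcases lt_or_ge k k0 with hk | hk
  · have : u k ≤ ∑ k ∈ Finset.range k0, u k :=
      Finset.single_le_sum (fun j _ => hn j) (Finset.mem_range.2 hk)
    change u k ≤ _
    linarith
  · have := hlt k hk
    change u k ≤ _
    linarith

private theorem unit_in_Es (h : Hyp f N Es Eu C ν) {T : HF E M ≃ₗ[ℂ] HF E M} (hT : IsPush f T)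
    (v : HF E M) (l : ℂ) (hl : ‖l‖ = 1) (hv : T v = l • v) (x : M) : v.1 x ∈ Es x := by
  obtain ⟨K, hK⟩ := bdd_smul h v
  have hpow : ∀ k : ℕ, (T ^ k : HF E M ≃ₗ[ℂ] HF E M) v = l ^ k • v := by
    intro k
    induction k with
    | zero => simp
    | succ k ih =>
      rw [pow_succ', LinearEquiv.mul_apply, ih, map_smul, hv, smul_smul, ← pow_succ]
  apply mem_Es_of_bdd h (K := K)
  intro k
  have e := push_iter hT k v x
  rw [hpow k] at e
  rw [← e]
  have := hK (f^[k] x) (l ^ k)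
  rw [norm_pow, hl, one_pow, mul_one] at this
  exact this

theorem no_unit (h : Hyp f N Es Eu C ν) {T : HF E M ≃ₗ[ℂ] HF E M} (hT : IsPush f T)
    (v : HF E M) (l : ℂ) (hl : ‖l‖ = 1) (hv : T v = l • v) : v = 0 := by
  have hl0 : l ≠ 0 := by
    intro h0
    rw [h0, norm_zero] at hl
    exact zero_ne_one hl
  have hv' : T.symm v = l⁻¹ • v := by
    rw [LinearEquiv.symm_apply_eq, map_smul, hv, smul_smul, inv_mul_cancel₀ hl0, one_smul]
  have hl' : ‖l⁻¹‖ = 1 := by rw [norm_inv, hl, inv_one]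
  apply Subtype.ext
  funext x
  have h1 : v.1 x ∈ Es x := unit_in_Es h hT v l hl hv x
  have h2 : v.1 x ∈ Eu x := unit_in_Es (hyp_symm h) (push_symm hT) v l⁻¹ hl' hv' x
  have h3 : v.1 x ∈ Es x ⊓ Eu x := ⟨h1, h2⟩
  rw [(h.compl x).inf_eq_bot] at h3
  exact (Submodule.mem_bot ℝ).1 h3

end

end Pool.Agent.HOA
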