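import Pool.Agent.HOA.Tools

/-!
# HOA/Split: spectral splitting of an automorphism without eigenvalues of modulus one

`V` is the sum of the generalized eigenspaces of `T`; on those with `‖l‖ < 1` the binomial theorem gives `Tends T`, those
with `‖l‖ > 1` are generalized eigenspaces of `T.symm` for `l⁻¹`, those with `‖l‖ = 1` are zero.
-/

open scoped Manifold ContDiff Topology
open Set Metric Filter

namespace Pool.Agent.HOA

noncomputable section

variable {V : Type} [AddCommGroup V] [Module ℂ V] [FiniteDimensional ℂ V]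

omit [FiniteDimensional ℂ V] in
private theorem sp_pow (T : V ≃ₗ[ℂ] V) (k : ℕ) (v : V) :
    (T ^ k : V ≃ₗ[ℂ] V) v = (((T : V →ₗ[ℂ] V) : Module.End ℂ V) ^ k) v := by
  induction k generalizing v with
  | zero => rfl
  | succ k ih =>
    rw [pow_succ, pow_succ]
    show (T ^ k : V ≃ₗ[ℂ] V) (T v) = (((T : V →ₗ[ℂ] V) : Module.End ℂ V) ^ k) (T v)
    exact ih (T v)

private theorem sp_lim {l : ℂ} (hl : ‖l‖ < 1) (j : ℕ) :
    Tendsto (fun k : ℕ => ((k.choose j : ℕ) : ℂ) * l ^ (k - j)) atTop (𝓝 0) := by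
  obtain ⟨r, hr0, hr1, hlr⟩ : ∃ r : ℝ, 0 < r ∧ r < 1 ∧ ‖l‖ ≤ r :=
    ⟨max ‖l‖ (1 / 2), lt_max_of_lt_right (by norm_num), max_lt hl (by norm_num), le_max_left _ _⟩
  have h1 : Tendsto (fun k : ℕ => ((k : ℝ) ^ j * r ^ k) * (r ^ j)⁻¹) atTop (𝓝 (0 * (r ^ j)⁻¹)) :=
    (tendsto_pow_const_mul_const_pow_of_abs_lt_one j (by rwa [abs_of_pos hr0])).mul_const _
  rw [zero_mul] at h1
  refine squeeze_zero_norm (fun k => ?_) h1
  rw [norm_mul, norm_pow, Complex.norm_natCast]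
  by_cases hkj : j ≤ k
  · have h2 : ((k.choose j : ℕ) : ℝ) ≤ (k : ℝ) ^ j := by exact_mod_cast Nat.choose_le_pow k j
    have h3 : ‖l‖ ^ (k - j) ≤ r ^ (k - j) := pow_le_pow_left₀ (norm_nonneg l) hlr _
    have h4 : r ^ (k - j) = r ^ k * (r ^ j)⁻¹ := by
      rw [eq_mul_inv_iff_mul_eq₀ (pow_pos hr0 j).ne', ← pow_add, Nat.sub_add_cancel hkj]
    calc ((k.choose j : ℕ) : ℝ) * ‖l‖ ^ (k - j) ≤ (k : ℝ) ^ j * r ^ (k - j) :=
          mul_le_mul h2 h3 (by positivity) (by positivity)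
      _ = ((k : ℝ) ^ j * r ^ k) * (r ^ j)⁻¹ := by
          rw [h4]
          ring
  · push Not at hkj
    rw [Nat.choose_eq_zero_of_lt hkj, Nat.cast_zero, zero_mul]
    positivity

omit [FiniteDimensional ℂ V] in
private theorem sp_lt (T : V ≃ₗ[ℂ] V) {l : ℂ} (hl : ‖l‖ < 1) (p : ℕ) (v : V)
    (h : ((((T : V →ₗ[ℂ] V) : Module.End ℂ V) - l • (1 : Module.End ℂ V)) ^ p) v = 0) : Tends T v := by
  intro φ
  set f : Module.End ℂ V := ((T : V →ₗ[ℂ] V) : Module.End ℂ V) with hf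
  set N : Module.End ℂ V := f - l • (1 : Module.End ℂ V) with hN
  have hfN : f = N + l • (1 : Module.End ℂ V) := by
    rw [hN]
    abel
  have hcomm : Commute N (l • (1 : Module.End ℂ V)) := by
    unfold Commute SemiconjBy
    rw [mul_smul_comm, smul_mul_assoc, mul_one, one_mul]
  have hz : ∀ m, p ≤ m → (N ^ m) v = 0 := by
    intro m hm
    obtain ⟨c, rfl⟩ := Nat.exists_eq_add_of_le hm
    rw [add_comm p c, pow_add]
    show (N ^ c) ((N ^ p) v) = 0
    rw [h, map_zero]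
  have hexp : ∀ k : ℕ, φ ((T ^ k : V ≃ₗ[ℂ] V) v) =
      ∑ m ∈ Finset.range p, (((k.choose m : ℕ) : ℂ) * l ^ (k - m)) * φ ((N ^ m) v) := by
    intro k
    have h1 : (f ^ k) v = ∑ m ∈ Finset.range (k + 1), (((k.choose m : ℕ) : ℂ) * l ^ (k - m)) • (N ^ m) v := by
      rw [hfN, hcomm.add_pow, LinearMap.sum_apply]
      refine Finset.sum_congr rfl fun m _ => ?_
      have h2 : (l • (1 : Module.End ℂ V)) ^ (k - m) = l ^ (k - m) • (1 : Module.End ℂ V) := by
        rw [smul_pow, one_pow]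
      have h3 : ((k.choose m : ℕ) : Module.End ℂ V) = ((k.choose m : ℕ) : ℂ) • (1 : Module.End ℂ V) := by
        rw [← nsmul_one, Nat.cast_smul_eq_nsmul]
      rw [h2, h3, mul_smul_comm, mul_one, mul_smul_comm, mul_one, smul_smul, LinearMap.smul_apply]
    rw [sp_pow, ← hf, h1, map_sum]
    have h4 : ∀ m ∈ Finset.range (k + 1), φ ((((k.choose m : ℕ) : ℂ) * l ^ (k - m)) • (N ^ m) v) =
        (((k.choose m : ℕ) : ℂ) * l ^ (k - m)) * φ ((N ^ m) v) := by
      intro m _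
      rw [map_smul, smul_eq_mul]
    rw [Finset.sum_congr rfl h4]
    have e1 : ∑ m ∈ Finset.range (k + 1), (((k.choose m : ℕ) : ℂ) * l ^ (k - m)) * φ ((N ^ m) v) =
        ∑ m ∈ Finset.range (k + 1 + p), (((k.choose m : ℕ) : ℂ) * l ^ (k - m)) * φ ((N ^ m) v) := by
      apply Finset.sum_subset (Finset.range_mono (by omega))
      intro m _ hm
      rw [Finset.mem_range, not_lt] at hm
      rw [Nat.choose_eq_zero_of_lt (by omega), Nat.cast_zero, zero_mul, zero_mul]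
    have e2 : ∑ m ∈ Finset.range p, (((k.choose m : ℕ) : ℂ) * l ^ (k - m)) * φ ((N ^ m) v) =
        ∑ m ∈ Finset.range (k + 1 + p), (((k.choose m : ℕ) : ℂ) * l ^ (k - m)) * φ ((N ^ m) v) := by
      apply Finset.sum_subset (Finset.range_mono (by omega))
      intro m _ hm
      rw [Finset.mem_range, not_lt] at hm
      rw [hz m hm, map_zero, mul_zero]
    rw [e1, e2]
  simp only [hexp]
  have h5 : Tendsto (fun k : ℕ => ∑ m ∈ Finset.range p,
      (((k.choose m : ℕ) : ℂ) * l ^ (k - m)) * φ ((N ^ m) v)) atTop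
      (𝓝 (∑ m ∈ Finset.range p, 0 * φ ((N ^ m) v))) :=
    tendsto_finsetSum _ fun m _ => (sp_lim hl m).mul_const _
  simpa using h5

omit [FiniteDimensional ℂ V] in
private theorem sp_gt (T : V ≃ₗ[ℂ] V) {l : ℂ} (hl : 1 < ‖l‖) (p : ℕ) (v : V)
    (h : ((((T : V →ₗ[ℂ] V) : Module.End ℂ V) - l • (1 : Module.End ℂ V)) ^ p) v = 0) :
    Tends T.symm v := by
  have hl0 : l ≠ 0 := by
    intro h0
    rw [h0, norm_zero] at hl
    linarith
  have hl1 : ‖l⁻¹‖ < 1 := by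
    rw [norm_inv]
    exact inv_lt_one_of_one_lt₀ hl
  apply sp_lt T.symm hl1 p v
  set f : Module.End ℂ V := ((T : V →ₗ[ℂ] V) : Module.End ℂ V) with hf
  set g : Module.End ℂ V := ((T.symm : V →ₗ[ℂ] V) : Module.End ℂ V) with hg
  have hgf : ∀ w, g (f w) = w := fun w => T.symm_apply_apply w
  have hfg : ∀ w, f (g w) = w := fun w => T.apply_symm_apply w
  set u : Module.End ℂ V := -(l⁻¹ • g) with hu
  have e1 : g - l⁻¹ • (1 : Module.End ℂ V) = u * (f - l • (1 : Module.End ℂ V)) := by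
    ext w
    show g w - l⁻¹ • w = -(l⁻¹ • g (f w - l • w))
    rw [map_sub, hgf, map_smul, smul_sub, smul_smul, inv_mul_cancel₀ hl0, one_smul]
    abel
  have e2 : Commute u (f - l • (1 : Module.End ℂ V)) := by
    show u * (f - l • (1 : Module.End ℂ V)) = (f - l • (1 : Module.End ℂ V)) * u
    ext w
    show -(l⁻¹ • g (f w - l • w)) = f (-(l⁻¹ • g w)) - l • (-(l⁻¹ • g w))
    rw [map_sub, hgf, map_smul, map_neg, map_smul, hfg, smul_sub, smul_neg, smul_smul, smul_smul,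
      mul_comm l⁻¹ l]
    abel
  rw [e1, e2.mul_pow]
  show (u ^ p) (((f - l • (1 : Module.End ℂ V)) ^ p) v) = 0
  rw [h, map_zero]

omit [FiniteDimensional ℂ V] in
private theorem sp_zero (T : V ≃ₗ[ℂ] V) : Tends T 0 := by
  intro φ
  simp only [map_zero]
  exact tendsto_const_nhds

omit [FiniteDimensional ℂ V] in
private theorem sp_add (T : V ≃ₗ[ℂ] V) {a b : V} (ha : Tends T a) (hb : Tends T b) : Tends T (a + b) := by
  intro φ
  have h := (ha φ).add (hb φ)
  simp only [map_add]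
  simpa using h

omit [FiniteDimensional ℂ V] in
private theorem sp_one (T : V ≃ₗ[ℂ] V) (h : ∀ (v : V) (l : ℂ), ‖l‖ = 1 → T v = l • v → v = 0) {l : ℂ}
    (hl : ‖l‖ = 1) (p : ℕ) (v : V)
    (hp : ((((T : V →ₗ[ℂ] V) : Module.End ℂ V) - l • (1 : Module.End ℂ V)) ^ p) v = 0) : v = 0 := by
  induction p generalizing v with
  | zero => exact hp
  | succ p ih =>
    rw [pow_succ] at hp
    have h1 := ih ((((T : V →ₗ[ℂ] V) : Module.End ℂ V) - l • (1 : Module.End ℂ V)) v) hp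
    apply h v l hl
    have h2 : T v - l • v = 0 := h1
    exact sub_eq_zero.1 h2

theorem spectral_split (T : V ≃ₗ[ℂ] V) (h : ∀ (v : V) (l : ℂ), ‖l‖ = 1 → T v = l • v → v = 0)
    (v : V) : ∃ a b : V, v = a + b ∧ Tends T a ∧ Tends T.symm b := by
  have hv : v ∈ (⨆ μ : ℂ, Module.End.maxGenEigenspace ((T : V →ₗ[ℂ] V) : Module.End ℂ V) μ) := by
    rw [Module.End.iSup_maxGenEigenspace_eq_top]
    trivial
  refine Submodule.iSup_induction _ (motive := fun v => ∃ a b : V, v = a + b ∧ Tends T a ∧ Tends T.symm b)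
    hv ?_ ?_ ?_
  · intro μ x hx
    rw [Module.End.mem_maxGenEigenspace] at hx
    obtain ⟨p, hp⟩ := hx
    rcases lt_trichotomy ‖μ‖ 1 with h1 | h1 | h1
    · exact ⟨x, 0, (add_zero x).symm, sp_lt T h1 p x hp, sp_zero _⟩
    · have h2 := sp_one T h h1 p x hp
      exact ⟨0, 0, by rw [h2, add_zero], sp_zero _, sp_zero _⟩
    · exact ⟨0, x, (zero_add x).symm, sp_zero _, sp_gt T h1 p x hp⟩
  · exact ⟨0, 0, (add_zero 0).symm, sp_zero _, sp_zero _⟩
  · rintro x y ⟨a, b, h1, h2, h3⟩ ⟨c, d, h4, h5, h6⟩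
    refine ⟨a + c, b + d, ?_, sp_add T h2 h5, sp_add T.symm h3 h6⟩
    rw [h1, h4]
    abel

end

end Pool.Agent.HOA
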