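import Pool.Agent.HOA.Div
import Pool.Agent.HOA.FrD
import Pool.Agent.HOA.HSym
import Pool.Agent.HOA.Split
import Pool.Agent.HOA.NCmp
import Pool.Agent.HOA.Ang
import Pool.Agent.HOA.InEs
import Pool.Agent.HOA.Push
import Pool.Agent.HOA.Loc
import Pool.Agent.HOA.HFfin

/-!
# HOA/FrB: logarithmic derivative bound for the determinant of the adapted frame

PLAN.  Constants: `A` from `norm_compare`, `L` from `angle`, `K₁` from `div_bound h hT G`, `K₂` from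
`div_bound (hyp_symm h) (push_symm hT) G`; `K = (K₁ + K₂) * A * L * A`.  Let `G.In i x`, the frame
independent at `x`, `w : E`; we show `‖fderiv (dd ..) z w‖ ≤ K ‖w‖ ‖dd .. z‖`, `z = G.e i x` (then
`ContinuousLinearMap.opNorm_le_bound`).  Let `ξ` be the tangent vector at `x` with `lc ξ = w`
(`lc_ilc`), `ξ = ξs + ξu` (`h.compl x`).  As `(b (idx k)).1 x`, `k : Fin n`, is a basis of the tangent
space (`β` shows `n = finrank`), there is `v : HF E M` with `v.1 x = ξs`; by `spectral_split T`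
(`no_unit h hT`, `hf_finite`), `v = a + c`, `Tends T a`, `Tends T.symm c`, with `a.1 x ∈ Es x`
(`hf_in_Es`), `c.1 x ∈ Eu x` (the same for `f.symm`), so `a.1 x - ξs = - c.1 x ∈ Es ∩ Eu = 0` and
`a.1 x = ξs`.  By `frame_deriv`, `fderiv (dd) z (lc ξs) = tr (D (rep a) z) * dd z`, of norm at most
`K₁ ‖lc ξs‖ ‖dd z‖ ≤ K₁ A N ξs ‖dd z‖ ≤ K₁ A L N ξ ‖dd z‖ ≤ K₁ A L A ‖w‖ ‖dd z‖`.  Same for `ξu`.
-/

open scoped Manifold ContDiff Topology
open Set Metric Filter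

namespace Pool.Agent.HOA

noncomputable section

variable {E : Type} [NormedAddCommGroup E] [NormedSpace ℂ E] [FiniteDimensional ℂ E]
variable {M : Type} [TopologicalSpace M] [T2Space M] [CompactSpace M] [ChartedSpace E M]
  [IsManifold 𝓘(ℂ, E) ω M]
variable {f : Diffeomorph 𝓘(ℂ, E) 𝓘(ℂ, E) M M ω} {N : (x : M) → TangentSpace 𝓘(ℂ, E) x → ℝ}
  {Es Eu : (x : M) → Submodule ℝ (TangentSpace 𝓘(ℂ, E) x)} {C ν : ℝ}

private theorem rep_at {e : OpenPartialHomeomorph M E} {x : M} (hx : x ∈ e.source)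
    (X : (x : M) → TangentSpace 𝓘(ℂ, E) x) : rep e X (e x) = lc e x (X x) := by
  show lc e (e.symm (e x)) (X (e.symm (e x))) = lc e x (X x)
  rw [e.left_inv hx]

private theorem exists_field {n : ℕ} (β : Module.Basis (Fin n) ℂ E) (u : Fin n → HF E M) (x : M)
    (hli : LinearIndependent ℂ (fun k => (u k).1 x)) (a : TangentSpace 𝓘(ℂ, E) x) :
    ∃ v : HF E M, v.1 x = a := by
  have hcard : Fintype.card (Fin n) = Module.finrank ℂ (TangentSpace 𝓘(ℂ, E) x) :=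
    (Module.finrank_eq_card_basis β).symm
  haveI : FiniteDimensional ℂ (TangentSpace 𝓘(ℂ, E) x) := inferInstanceAs (FiniteDimensional ℂ E)
  have hsp := hli.span_eq_top_of_card_eq_finrank' hcard
  have ha : a ∈ Submodule.span ℂ (Set.range (fun k => (u k).1 x)) := by
    rw [hsp]; exact Submodule.mem_top
  obtain ⟨c, hc⟩ := (Submodule.mem_span_range_iff_exists_fun ℂ).1 ha
  refine ⟨∑ k, c k • u k, ?_⟩
  rw [← hc]
  have : ((∑ k, c k • u k : HF E M) : (x : M) → TangentSpace 𝓘(ℂ, E) x) =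
      ∑ k, c k • (u k).1 := by
    push_cast
    rfl
  rw [this, Finset.sum_apply]
  rfl

private theorem part_bound (h : Hyp f N Es Eu C ν) {T : HF E M ≃ₗ[ℂ] HF E M} (hT : IsPush f T)
    {br : HF E M →ₗ[ℂ] HF E M →ₗ[ℂ] HF E M} (hbr : IsBr br) {m n : ℕ}
    {b : Module.Basis (Fin m) ℂ (HF E M)}
    (hfl : ∀ v i, br v (b i) ∈ Submodule.span ℂ (b '' {j | j < i}))
    {idx : Fin n → Fin m} (hidx : StrictMono idx) (β : Module.Basis (Fin n) ℂ E)
    (hdep : ∀ x : M, LinearIndependent ℂ (fun k => (b (idx k)).1 x) → ∀ i,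
      (b i).1 x ∈ Submodule.span ℂ ((fun k => (b (idx k)).1 x) '' {k | idx k ≤ i}))
    {ι : Type} (G : GCover ι E M) {K : ℝ}
    (hK : ∀ v : HF E M, Tends T v → ∀ (i : ι) (x : M), G.In i x →
      ‖tr (fderiv ℂ (rep (G.e i) v.1) (G.e i x))‖ ≤ K * ‖rep (G.e i) v.1 (G.e i x)‖)
    (i : ι) (x : M) (hx : G.In i x) (hli : LinearIndependent ℂ (fun k => (b (idx k)).1 x))
    (a : TangentSpace 𝓘(ℂ, E) x) (ha : a ∈ Es x) :
    ‖fderiv ℂ (dd β (fun k => b (idx k)) (G.e i)) (G.e i x) (lc (G.e i) x a)‖ ≤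
      K * ‖lc (G.e i) x a‖ * ‖dd β (fun k => b (idx k)) (G.e i) (G.e i x)‖ := by
  haveI := hf_finite E M
  obtain ⟨v, hv⟩ := exists_field β (fun k => b (idx k)) x hli a
  obtain ⟨p, q, hpq, hp, hq⟩ := spectral_split T (no_unit h hT) v
  have h1 : p.1 x ∈ Es x := hf_in_Es h hT hp x
  have h2 : q.1 x ∈ Eu x := hf_in_Es (hyp_symm h) (push_symm hT) hq x
  have h3 : p.1 x + q.1 x = a := by
    rw [← hv, hpq]; rfl
  have h4 : p.1 x - a ∈ Es x := (Es x).sub_mem h1 ha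
  have h5 : p.1 x - a = - q.1 x := by
    rw [← h3]; abel
  have h6 : p.1 x - a ∈ Eu x := by
    rw [h5]; exact (Eu x).neg_mem h2
  have h7 : p.1 x - a = 0 := by
    have := (h.compl x).disjoint.le_bot (show p.1 x - a ∈ Es x ⊓ Eu x from ⟨h4, h6⟩)
    exact (Submodule.mem_bot ℝ).1 this
  have h8 : p.1 x = a := sub_eq_zero.1 h7
  have h9 := frame_deriv hbr hfl hidx β (G.mem i) hx.1 (hdep x hli) p
  have h10 := hK p hp i x hx
  rw [rep_at hx.1, h8] at h9 h10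
  rw [h9, norm_mul]
  exact mul_le_mul_of_nonneg_right h10 (norm_nonneg _)

theorem frame_bound (h : Hyp f N Es Eu C ν) {T : HF E M ≃ₗ[ℂ] HF E M} (hT : IsPush f T)
    {br : HF E M →ₗ[ℂ] HF E M →ₗ[ℂ] HF E M} (hbr : IsBr br) {m n : ℕ}
    {b : Module.Basis (Fin m) ℂ (HF E M)}
    (hfl : ∀ v i, br v (b i) ∈ Submodule.span ℂ (b '' {j | j < i}))
    {idx : Fin n → Fin m} (hidx : StrictMono idx) (β : Module.Basis (Fin n) ℂ E)
    (hdep : ∀ x : M, LinearIndependent ℂ (fun k => (b (idx k)).1 x) → ∀ i,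
      (b i).1 x ∈ Submodule.span ℂ ((fun k => (b (idx k)).1 x) '' {k | idx k ≤ i}))
    {ι : Type} [Finite ι] (G : GCover ι E M) :
    ∃ K : ℝ, ∀ (i : ι) (x : M), G.In i x → LinearIndependent ℂ (fun k => (b (idx k)).1 x) →
      ‖fderiv ℂ (dd β (fun k => b (idx k)) (G.e i)) (G.e i x)‖ ≤
        K * ‖dd β (fun k => b (idx k)) (G.e i) (G.e i x)‖ := by
  obtain ⟨A, hA, hAc⟩ := norm_compare h.cont h.smul h.pos G
  obtain ⟨L, hL, hLc⟩ := angle h
  obtain ⟨K₁, hK₁, hd₁⟩ := div_bound h hT G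
  obtain ⟨K₂, hK₂, hd₂⟩ := div_bound (hyp_symm h) (push_symm hT) G
  refine ⟨(K₁ + K₂) * A * L * A, fun i x hx hli => ?_⟩
  refine ContinuousLinearMap.opNorm_le_bound _ (by positivity) (fun w => ?_)
  have hex : ∃ ξ : TangentSpace 𝓘(ℂ, E) x, lc (G.e i) x ξ = w := by
    have hz : G.e i x ∈ (G.e i).target := (G.e i).map_source hx.1
    have h0 : ∃ ξ : TangentSpace 𝓘(ℂ, E) ((G.e i).symm (G.e i x)),
        lc (G.e i) ((G.e i).symm (G.e i x)) ξ = w := ⟨_, lc_ilc (G.mem i) hz w⟩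
    have key : ∀ y, y = x → (∃ ξ : TangentSpace 𝓘(ℂ, E) y, lc (G.e i) y ξ = w) →
        ∃ ξ : TangentSpace 𝓘(ℂ, E) x, lc (G.e i) x ξ = w := by
      rintro y rfl hy; exact hy
    exact key _ ((G.e i).left_inv hx.1) h0
  obtain ⟨ξ, hξ⟩ := hex
  have htop : ξ ∈ Es x ⊔ Eu x := by
    rw [(h.compl x).sup_eq_top]; exact Submodule.mem_top
  obtain ⟨a, ha, c, hc, hac⟩ := Submodule.mem_sup.1 htop
  have e1 := part_bound h hT hbr hfl hidx β hdep G hd₁ i x hx hli a ha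
  have e2 := part_bound (hyp_symm h) (push_symm hT) hbr hfl hidx β hdep G hd₂ i x hx hli c hc
  obtain ⟨n1, n2⟩ := hLc x a c ha hc
  rw [hac] at n1 n2
  obtain ⟨m1, m2⟩ := hAc i x hx ξ
  obtain ⟨a1, a2⟩ := hAc i x hx a
  obtain ⟨c1, c2⟩ := hAc i x hx c
  have hw : w = lc (G.e i) x a + lc (G.e i) x c := by
    rw [← hξ, ← hac]
    exact map_add (mfderiv 𝓘(ℂ, E) 𝓘(ℂ, E) (G.e i) x) a c
  rw [hξ] at m1 m2
  have b1 : ‖lc (G.e i) x a‖ ≤ A * L * A * ‖w‖ := by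
    calc ‖lc (G.e i) x a‖ ≤ A * N x a := a1
      _ ≤ A * (L * N x ξ) := by gcongr
      _ ≤ A * (L * (A * ‖w‖)) := by gcongr
      _ = A * L * A * ‖w‖ := by ring
  have b2 : ‖lc (G.e i) x c‖ ≤ A * L * A * ‖w‖ := by
    calc ‖lc (G.e i) x c‖ ≤ A * N x c := c1
      _ ≤ A * (L * N x ξ) := by gcongr
      _ ≤ A * (L * (A * ‖w‖)) := by gcongr
      _ = A * L * A * ‖w‖ := by ring
  set D := dd β (fun k => b (idx k)) (G.e i) with hD
  calc ‖fderiv ℂ D (G.e i x) w‖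
      = ‖fderiv ℂ D (G.e i x) (lc (G.e i) x a) + fderiv ℂ D (G.e i x) (lc (G.e i) x c)‖ := by
        rw [← map_add, ← hw]
    _ ≤ ‖fderiv ℂ D (G.e i x) (lc (G.e i) x a)‖ + ‖fderiv ℂ D (G.e i x) (lc (G.e i) x c)‖ :=
        norm_add_le _ _
    _ ≤ K₁ * ‖lc (G.e i) x a‖ * ‖D (G.e i x)‖ + K₂ * ‖lc (G.e i) x c‖ * ‖D (G.e i x)‖ :=
        add_le_add e1 e2
    _ ≤ K₁ * (A * L * A * ‖w‖) * ‖D (G.e i x)‖ + K₂ * (A * L * A * ‖w‖) * ‖D (G.e i x)‖ := by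
        gcongr
    _ = (K₁ + K₂) * A * L * A * ‖D (G.e i x)‖ * ‖w‖ := by ring

end

end Pool.Agent.HOA
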