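import Pool.Agent.HOA.FrD
import Pool.Agent.HOA.Rep
import Pool.Agent.HOA.Loc

/-!
# HOA/FrS: a global holomorphic frame spans all holomorphic fields with constant coefficients

The coefficients of a holomorphic field in the frame are holomorphic functions (Cramer's rule), so they
are constant.
-/

open scoped Manifold ContDiff Topology
open Set Metric Filter

namespace Pool.Agent.HOA

noncomputable section

variable {E : Type} [NormedAddCommGroup E] [NormedSpace ℂ E] [FiniteDimensional ℂ E]
variable {M : Type} [TopologicalSpace M] [T2Space M] [CompactSpace M] [ChartedSpace E M]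
  [IsManifold 𝓘(ℂ, E) ω M]

omit [FiniteDimensional ℂ E] in
private theorem frs_cramer {n : ℕ} (β : Module.Basis (Fin n) ℂ E) (w : Fin n → E)
    (c : Fin n → ℂ) (k : Fin n) :
    β.det (Function.update w k (∑ j, c j • w j)) = c k * β.det w := by
  rw [AlternatingMap.map_update_sum, Finset.sum_eq_single k]
  · rw [AlternatingMap.map_update_smul, Function.update_eq_self, smul_eq_mul]
  · intro j _ hj
    rw [AlternatingMap.map_update_smul, AlternatingMap.map_update_self _ _ (Ne.symm hj), smul_zero]
  · intro h
    exact absurd (Finset.mem_univ k) h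

omit [FiniteDimensional ℂ E] [T2Space M] [CompactSpace M] [IsManifold 𝓘(ℂ, E) ω M] in
private theorem frs_rep {e : OpenPartialHomeomorph M E} {x : M} (hx : x ∈ e.source)
    (X : (x : M) → TangentSpace 𝓘(ℂ, E) x) : rep e X (e x) = lc e x (X x) :=
  congrArg (fun y => lc e y (X y)) (e.left_inv hx)

omit [FiniteDimensional ℂ E] [T2Space M] [CompactSpace M] [IsManifold 𝓘(ℂ, E) ω M] in
private theorem frs_lc_sum {e : OpenPartialHomeomorph M E} {x : M} {n : ℕ} (a : Fin n → ℂ)
    (ξ : Fin n → TangentSpace 𝓘(ℂ, E) x) :
    lc e x (∑ k, a k • ξ k) = ∑ k, a k • lc e x (ξ k) := by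
  unfold lc
  rw [map_sum]
  exact Finset.sum_congr rfl fun k _ => map_smul _ _ _

private theorem frs_coef {n : ℕ} (β : Module.Basis (Fin n) ℂ E)
    (X : Fin n → HF E M) (hX : ∀ x, LinearIndependent ℂ (fun k => (X k).1 x)) (v : HF E M) (y : M) :
    ∃ a : Fin n → ℂ, v.1 y = ∑ k, a k • (X k).1 y := by
  have he : chartAt E y ∈ atlas E M := chart_mem_atlas E y
  have hy : y ∈ (chartAt E y).source := mem_chart_source E y
  have hd := (dd_ne_zero β X he hy).mpr (hX y)
  have hb := (Module.Basis.is_basis_iff_det β).mpr (isUnit_iff_ne_zero.mpr hd)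
  have hmem : rep (chartAt E y) v.1 (chartAt E y y) ∈ Submodule.span ℂ
      (range fun k => rep (chartAt E y) (X k).1 (chartAt E y y)) := by
    rw [hb.2]
    exact Submodule.mem_top
  rw [Submodule.mem_span_range_iff_exists_fun] at hmem
  obtain ⟨a, ha⟩ := hmem
  refine ⟨a, lc_injective he hy ?_⟩
  rw [frs_lc_sum, ← frs_rep hy, ← ha]
  exact Finset.sum_congr rfl fun k _ => by rw [frs_rep hy]

theorem frame_span [ConnectedSpace M] {n : ℕ} (hn : Module.finrank ℂ E = n)
    (X : Fin n → HF E M) (hX : ∀ x, LinearIndependent ℂ (fun k => (X k).1 x)) (v : HF E M) :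
    v ∈ Submodule.span ℂ (range X) := by
  have β : Module.Basis (Fin n) ℂ E := Module.finBasisOfFinrankEq ℂ E hn
  choose a ha using frs_coef β X hX v
  have hcr : ∀ (k : Fin n) (e : OpenPartialHomeomorph M E), e ∈ atlas E M → ∀ y ∈ e.source,
      a y k = dd β (Function.update X k v) e (e y) / dd β X e (e y) := by
    intro k e he y hy
    have hd := (dd_ne_zero β X he hy).mpr (hX y)
    rw [eq_div_iff hd]
    have h1 := frs_cramer β (fun l => rep e (X l).1 (e y)) (a y) k
    have h2 : ∑ j, a y j • rep e (X j).1 (e y) = rep e v.1 (e y) := by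
      rw [frs_rep hy v.1, ha y, frs_lc_sum]
      exact Finset.sum_congr rfl fun j _ => by rw [frs_rep hy]
    rw [h2] at h1
    have h3 : dd β (Function.update X k v) e (e y) =
        β.det (Function.update (fun l => rep e (X l).1 (e y)) k (rep e v.1 (e y))) := by
      unfold dd
      congr 1
      funext l
      by_cases hl : l = k
      · subst hl
        rw [Function.update_self, Function.update_self]
      · rw [Function.update_of_ne hl, Function.update_of_ne hl]
    rw [h3, h1]
    rfl
  have hconst : ∀ k : Fin n, ∃ c : ℂ, ∀ y, a y k = c := by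
    intro k
    have hmd : MDifferentiable 𝓘(ℂ, E) 𝓘(ℂ, ℂ) (fun y => a y k) := by
      intro x
      have he : chartAt E x ∈ atlas E M := chart_mem_atlas E x
      have hx : x ∈ (chartAt E x).source := mem_chart_source E x
      have hex : chartAt E x x ∈ (chartAt E x).target := (chartAt E x).map_source hx
      have hd := (dd_ne_zero β X he hx).mpr (hX x)
      have hdiff : DifferentiableAt ℂ (fun z => dd β (Function.update X k v) (chartAt E x) z *
          (dd β X (chartAt E x) z)⁻¹) (chartAt E x x) :=
        ((dd_analytic β _ he _ hex).differentiableAt).fun_mul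
          (((dd_analytic β _ he _ hex).differentiableAt).fun_inv hd)
      have hme : MDifferentiableAt 𝓘(ℂ, E) 𝓘(ℂ, E) (chartAt E x) x :=
        mdifferentiableAt_atlas he hx
      have hcomp := hdiff.mdifferentiableAt.comp x hme
      refine hcomp.congr_of_eventuallyEq ?_
      filter_upwards [(chartAt E x).open_source.mem_nhds hx] with y hy
      exact (hcr k (chartAt E x) he y hy).trans (div_eq_mul_inv _ _)
    obtain ⟨c, hc⟩ := hmd.exists_eq_const_of_compactSpace
    exact ⟨c, fun y => congrFun hc y⟩
  choose c hc using hconst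
  have hv : v = ∑ k, c k • X k := by
    apply Subtype.ext
    funext y
    rw [ha y]
    have h1 : ((∑ k, c k • X k : HF E M) : (x : M) → TangentSpace 𝓘(ℂ, E) x) y =
        ∑ k, c k • (X k).1 y := by
      rw [Submodule.coe_sum, Finset.sum_apply]
      rfl
    refine Eq.trans ?_ h1.symm
    exact Finset.sum_congr rfl fun k _ => by rw [hc k y]
  rw [hv]
  exact Submodule.sum_mem _ fun k _ => Submodule.smul_mem _ _ (Submodule.subset_span ⟨k, rfl⟩)

end

end Pool.Agent.HOA
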