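import Pool.Agent.HOA.Tools

/-!
# HOA/Hom: homogeneous elements of an algebra with automorphism

Generalized eigenvectors of an automorphism span, products of generalized eigenvectors are
generalized eigenvectors, and left multiplication by one of them is nilpotent if no eigenvalue has
modulus one.
-/

open scoped Manifold ContDiff Topology
open Set Metric Filter

namespace Pool.Agent.HOA

noncomputable section

variable {V : Type} [AddCommGroup V] [Module ℂ V] [FiniteDimensional ℂ V]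

/-- homogeneous elements: generalized eigenvectors of `T` -/
def Homog (T : V ≃ₗ[ℂ] V) (a : V) : Prop :=
  ∃ (l : ℂ) (p : ℕ), (((T : V →ₗ[ℂ] V) - l • (LinearMap.id : V →ₗ[ℂ] V)) ^ p) a = 0

theorem homog_span (T : V ≃ₗ[ℂ] V) : Submodule.span ℂ {a | Homog T a} = ⊤ := by
  rw [eq_top_iff, ← Module.End.iSup_maxGenEigenspace_eq_top (T : Module.End ℂ V)]
  refine iSup_le fun l => ?_
  intro a ha
  rw [Module.End.mem_maxGenEigenspace] at ha
  obtain ⟨k, hk⟩ := ha
  exact Submodule.subset_span ⟨l, k, hk⟩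

omit [FiniteDimensional ℂ V] in
private theorem homog_aux (T : V ≃ₗ[ℂ] V) (br : V →ₗ[ℂ] V →ₗ[ℂ] V)
    (hT : ∀ a b, T (br a b) = br (T a) (T b)) (l m : ℂ) :
    ∀ (n p q : ℕ), p + q = n → ∀ a b : V,
      (((T : V →ₗ[ℂ] V) - l • (LinearMap.id : V →ₗ[ℂ] V)) ^ p) a = 0 →
      (((T : V →ₗ[ℂ] V) - m • (LinearMap.id : V →ₗ[ℂ] V)) ^ q) b = 0 →
      (((T : V →ₗ[ℂ] V) - (l * m) • (LinearMap.id : V →ₗ[ℂ] V)) ^ n) (br a b) = 0 := by
  intro n
  induction n with
  | zero =>
    intro p q hpq a b ha hb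
    have hp : p = 0 := by omega
    subst hp
    have ha' : a = 0 := by simpa using ha
    rw [ha', map_zero, LinearMap.zero_apply, map_zero]
  | succ n ih =>
    intro p q hpq a b ha hb
    rcases Nat.eq_zero_or_pos p with hp | hp
    · subst hp
      have ha' : a = 0 := by simpa using ha
      rw [ha', map_zero, LinearMap.zero_apply, map_zero]
    rcases Nat.eq_zero_or_pos q with hq | hq
    · subst hq
      have hb' : b = 0 := by simpa using hb
      rw [hb', map_zero, map_zero]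
    obtain ⟨p', rfl⟩ : ∃ p', p = p' + 1 := ⟨p - 1, by omega⟩
    obtain ⟨q', rfl⟩ : ∃ q', q = q' + 1 := ⟨q - 1, by omega⟩
    have key : ((T : V →ₗ[ℂ] V) - (l * m) • (LinearMap.id : V →ₗ[ℂ] V)) (br a b) =
        br (((T : V →ₗ[ℂ] V) - l • (LinearMap.id : V →ₗ[ℂ] V)) a) (T b) +
          l • br a (((T : V →ₗ[ℂ] V) - m • (LinearMap.id : V →ₗ[ℂ] V)) b) := by
      simp only [LinearMap.sub_apply, LinearMap.smul_apply, LinearMap.id_apply,
        LinearEquiv.coe_coe, hT, map_sub, map_smul, smul_sub, mul_smul]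
      abel
    rw [pow_succ, Module.End.mul_apply, key, map_add, map_smul]
    have hc : Commute ((T : V →ₗ[ℂ] V) : Module.End ℂ V)
        ((T : V →ₗ[ℂ] V) - m • (LinearMap.id : V →ₗ[ℂ] V)) := by
      refine Commute.sub_right (Commute.refl _) (Commute.smul_right ?_ m)
      exact Commute.one_right _
    have h1 : (((T : V →ₗ[ℂ] V) - m • (LinearMap.id : V →ₗ[ℂ] V)) ^ (q' + 1)) (T b) = 0 := by
      have h2 := hc.pow_right (q' + 1)
      have h3 := LinearMap.congr_fun h2.eq b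
      rw [Module.End.mul_apply, Module.End.mul_apply, hb, map_zero] at h3
      exact h3.symm
    rw [pow_succ, Module.End.mul_apply] at ha
    rw [ih p' (q' + 1) (by omega) _ _ ha h1]
    rw [pow_succ, Module.End.mul_apply] at hb
    have h4 : (((T : V →ₗ[ℂ] V) - l • (LinearMap.id : V →ₗ[ℂ] V)) ^ (p' + 1)) a = 0 := by
      rw [pow_succ, Module.End.mul_apply]
      exact ha
    rw [ih (p' + 1) q' (by omega) _ _ h4 hb, smul_zero, add_zero]

theorem homog_br (T : V ≃ₗ[ℂ] V) (br : V →ₗ[ℂ] V →ₗ[ℂ] V)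
    (hT : ∀ a b, T (br a b) = br (T a) (T b)) {a b : V} (ha : Homog T a) (hb : Homog T b) :
    Homog T (br a b) := by
  obtain ⟨l, p, hp⟩ := ha
  obtain ⟨m, q, hq⟩ := hb
  exact ⟨l * m, p + q, homog_aux T br hT l m (p + q) p q rfl a b hp hq⟩

omit [FiniteDimensional ℂ V] in
private theorem homog_eig (T : V ≃ₗ[ℂ] V) (l : ℂ) : ∀ (p : ℕ) (a : V), a ≠ 0 →
    (((T : V →ₗ[ℂ] V) - l • (LinearMap.id : V →ₗ[ℂ] V)) ^ p) a = 0 →
    ∃ v : V, v ≠ 0 ∧ T v = l • v := by
  intro p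
  induction p with
  | zero =>
    intro a ha h
    exact absurd (by simpa using h) ha
  | succ p ih =>
    intro a ha h
    rw [pow_succ, Module.End.mul_apply] at h
    by_cases h0 : ((T : V →ₗ[ℂ] V) - l • (LinearMap.id : V →ₗ[ℂ] V)) a = 0
    · refine ⟨a, ha, ?_⟩
      rw [LinearMap.sub_apply, LinearMap.smul_apply, LinearMap.id_apply, sub_eq_zero] at h0
      exact h0
    · exact ih _ h0 h

omit [FiniteDimensional ℂ V] in
private theorem homog_iter (T : V ≃ₗ[ℂ] V) (br : V →ₗ[ℂ] V →ₗ[ℂ] V)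
    (hT : ∀ a b, T (br a b) = br (T a) (T b)) (l m : ℂ) (p q : ℕ) (a b : V)
    (ha : (((T : V →ₗ[ℂ] V) - l • (LinearMap.id : V →ₗ[ℂ] V)) ^ p) a = 0)
    (hb : (((T : V →ₗ[ℂ] V) - m • (LinearMap.id : V →ₗ[ℂ] V)) ^ q) b = 0) :
    ∀ k : ℕ, ∃ s : ℕ, (((T : V →ₗ[ℂ] V) - (l ^ k * m) • (LinearMap.id : V →ₗ[ℂ] V)) ^ s)
      (((br a : Module.End ℂ V) ^ k) b) = 0 := by
  intro k
  induction k with
  | zero => exact ⟨q, by simpa using hb⟩
  | succ k ih =>
    obtain ⟨s, hs⟩ := ih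
    refine ⟨p + s, ?_⟩
    have h1 := homog_aux T br hT l (l ^ k * m) (p + s) p s rfl a _ ha hs
    have e : l ^ (k + 1) * m = l * (l ^ k * m) := by ring
    have e2 : ((br a : Module.End ℂ V) ^ (k + 1)) b = br a (((br a : Module.End ℂ V) ^ k) b) := by
      rw [pow_succ', Module.End.mul_apply]
    rw [e, e2]
    exact h1

theorem homog_nil (T : V ≃ₗ[ℂ] V) (h : ∀ (v : V) (l : ℂ), ‖l‖ = 1 → T v = l • v → v = 0)
    (br : V →ₗ[ℂ] V →ₗ[ℂ] V) (hT : ∀ a b, T (br a b) = br (T a) (T b)) {a : V}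
    (ha : Homog T a) : IsNilpotent (br a : Module.End ℂ V) := by
  obtain ⟨l, p, hp⟩ := ha
  by_cases ha0 : a = 0
  · rw [ha0, map_zero]
    exact IsNilpotent.zero
  obtain ⟨v, hv0, hv⟩ := homog_eig T l p a ha0 hp
  have hl1 : ‖l‖ ≠ 1 := fun hl => hv0 (h v l hl hv)
  have hl0 : l ≠ 0 := by
    intro hl
    rw [hl, zero_smul] at hv
    exact hv0 ((map_eq_zero_iff T T.injective).1 hv)
  refine ⟨Module.finrank ℂ V, ?_⟩
  refine LinearMap.ext_on (homog_span T) ?_
  rintro b ⟨m, q, hq⟩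
  change ((br a : Module.End ℂ V) ^ Module.finrank ℂ V) b = 0
  by_contra hne
  have hnz : ∀ k : Fin (Module.finrank ℂ V + 1), ((br a : Module.End ℂ V) ^ (k : ℕ)) b ≠ 0 := by
    intro k hk
    apply hne
    have hk' : Module.finrank ℂ V = (Module.finrank ℂ V - k) + k := by omega
    rw [hk', pow_add, Module.End.mul_apply, hk, map_zero]
  have hb0 : b ≠ 0 := by
    have := hnz 0
    simpa using this
  obtain ⟨v', hv0', hv'⟩ := homog_eig T m q b hb0 hq
  have hm0 : m ≠ 0 := by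
    intro hm
    rw [hm, zero_smul] at hv'
    exact hv0' ((map_eq_zero_iff T T.injective).1 hv')
  have hex : ∀ k : Fin (Module.finrank ℂ V + 1), ∃ u : V, u ≠ 0 ∧ T u = (l ^ (k : ℕ) * m) • u := by
    intro k
    obtain ⟨s, hs⟩ := homog_iter T br hT l m p q a b hp hq k
    exact homog_eig T _ s _ (hnz k) hs
  choose u hu0 hu using hex
  have hinj : Function.Injective fun k : Fin (Module.finrank ℂ V + 1) => l ^ (k : ℕ) * m := by
    intro i j hij
    have h1 : l ^ (i : ℕ) = l ^ (j : ℕ) := mul_right_cancel₀ hm0 hij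
    have h2 : ‖l‖ ^ (i : ℕ) = ‖l‖ ^ (j : ℕ) := by rw [← norm_pow, ← norm_pow, h1]
    have h3 : 0 < ‖l‖ := norm_pos_iff.2 hl0
    exact Fin.ext (pow_right_injective₀ h3 hl1 h2)
  have hli : LinearIndependent ℂ u := by
    refine Module.End.eigenvectors_linearIndependent' ((T : V →ₗ[ℂ] V) : Module.End ℂ V)
      (fun k : Fin (Module.finrank ℂ V + 1) => l ^ (k : ℕ) * m) hinj u fun k => ?_
    exact ⟨Module.End.mem_eigenspace_iff.2 (hu k), hu0 k⟩
  have hc := hli.fintype_card_le_finrank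
  rw [Fintype.card_fin] at hc
  omega

end

end Pool.Agent.HOA
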