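import Pool.Agent.HOA.Tools

/-!
# HOA/Prop: a section with bounded logarithmic derivative has no zero

Segments and the Gronwall inequality for the inverse give the ball lemma; the zero set is clopen.
-/

open scoped Manifold ContDiff Topology
open Set Metric Filter

namespace Pool.Agent.HOA

noncomputable section

variable {E : Type} [NormedAddCommGroup E] [NormedSpace ℂ E] [FiniteDimensional ℂ E]
variable {M : Type} [TopologicalSpace M] [T2Space M] [CompactSpace M] [ChartedSpace E M]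
  [IsManifold 𝓘(ℂ, E) ω M]

omit [FiniteDimensional ℂ E] in
private lemma seg_ne (g : E → ℂ) (S : Set E) (hS : Convex ℝ S)
    (hg : ∀ z ∈ S, DifferentiableAt ℂ g z) (K : ℝ)
    (hb : ∀ z ∈ S, g z ≠ 0 → ‖fderiv ℂ g z‖ ≤ K * ‖g z‖) {a b : E} (ha : a ∈ S) (hbS : b ∈ S)
    (hne : g a ≠ 0) : g b ≠ 0 := by
  intro hzero
  set γ : ℝ → E := fun t => a + t • (b - a) with hγ
  have hγS : ∀ t ∈ Icc (0:ℝ) 1, γ t ∈ S := fun t ht => hS.add_smul_sub_mem ha hbS ht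
  set φ : ℝ → ℂ := fun t => g (γ t) with hφ
  have hdφ : ∀ t ∈ Icc (0:ℝ) 1, HasDerivAt φ (fderiv ℂ g (γ t) (b - a)) t := by
    intro t ht
    have h1 : HasDerivAt γ (b - a) t := by
      have := ((hasDerivAt_id t).smul_const (b - a)).const_add a
      rw [one_smul] at this
      exact this
    exact ((hg _ (hγS t ht)).hasFDerivAt.restrictScalars ℝ).comp_hasDerivAt t h1
  have hcφ : ContinuousOn φ (Icc 0 1) := fun t ht => (hdφ t ht).continuousAt.continuousWithinAt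
  have hφ0 : φ 0 = g a := by simp [hφ, hγ]
  have hφ1 : φ 1 = g b := by simp [hφ, hγ]
  set Z : Set ℝ := Icc (0:ℝ) 1 ∩ φ ⁻¹' {0} with hZ
  have hZc : IsClosed Z := hcφ.preimage_isClosed_of_isClosed isClosed_Icc isClosed_singleton
  have h1Z : (1:ℝ) ∈ Z := ⟨⟨zero_le_one, le_refl _⟩, by
    show φ 1 = 0
    rw [hφ1, hzero]⟩
  have hbdd : BddBelow Z := ⟨0, fun x hx => hx.1.1⟩
  have ht₀ : sInf Z ∈ Z := hZc.csInf_mem ⟨1, h1Z⟩ hbdd
  set t₀ : ℝ := sInf Z with ht₀def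
  have hφt₀ : φ t₀ = 0 := ht₀.2
  have hpos : 0 < t₀ := by
    rcases lt_or_eq_of_le ht₀.1.1 with h | h
    · exact h
    · exfalso
      rw [← h, hφ0] at hφt₀
      exact hne hφt₀
  have hnz : ∀ s ∈ Ico (0:ℝ) t₀, φ s ≠ 0 := by
    intro s hs h0
    have : s ∈ Z := ⟨⟨hs.1, hs.2.le.trans ht₀.1.2⟩, h0⟩
    exact absurd (csInf_le hbdd this) (not_le.mpr hs.2)
  set L : ℝ := |K| * ‖b - a‖ with hL
  have hL0 : 0 ≤ L := by positivity
  have key : ∀ s ∈ Ioo (0:ℝ) t₀, ‖φ 0‖ * Real.exp (-L) ≤ ‖φ s‖ := by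
    intro s hs
    have hsub : ∀ t ∈ Icc (0:ℝ) s, t ∈ Icc (0:ℝ) 1 ∧ φ t ≠ 0 := fun t ht =>
      ⟨⟨ht.1, (ht.2.trans hs.2.le).trans ht₀.1.2⟩, hnz t ⟨ht.1, lt_of_le_of_lt ht.2 hs.2⟩⟩
    have hder : ∀ t ∈ Icc (0:ℝ) s, HasDerivAt (fun t => (φ t)⁻¹)
        (-(fderiv ℂ g (γ t) (b - a)) / (φ t) ^ 2) t := fun t ht =>
      (hdφ t (hsub t ht).1).inv (hsub t ht).2
    have hgr := norm_le_gronwallBound_of_norm_deriv_right_le (f := fun t => (φ t)⁻¹)
      (f' := fun t => -(fderiv ℂ g (γ t) (b - a)) / (φ t) ^ 2) (δ := ‖(φ 0)⁻¹‖) (K := L)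
      (ε := 0) (a := 0) (b := s)
      (fun t ht => (hder t ht).continuousAt.continuousWithinAt)
      (fun t ht => (hder t ⟨ht.1, ht.2.le⟩).hasDerivWithinAt) (le_refl _) (by
        intro t ht
        have h := hsub t ⟨ht.1, ht.2.le⟩
        have hpt : 0 < ‖φ t‖ := norm_pos_iff.mpr h.2
        have h3 := hb (γ t) (hγS t h.1) h.2
        have h4 : ‖fderiv ℂ g (γ t) (b - a)‖ ≤ L * ‖φ t‖ := by
          calc ‖fderiv ℂ g (γ t) (b - a)‖ ≤ ‖fderiv ℂ g (γ t)‖ * ‖b - a‖ :=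
                ContinuousLinearMap.le_opNorm _ _
            _ ≤ (K * ‖φ t‖) * ‖b - a‖ := mul_le_mul_of_nonneg_right h3 (norm_nonneg _)
            _ ≤ (|K| * ‖φ t‖) * ‖b - a‖ := by
                gcongr
                exact le_abs_self K
            _ = L * ‖φ t‖ := by rw [hL]; ring
        rw [norm_div, norm_neg, norm_pow, norm_inv, add_zero, div_le_iff₀ (by positivity)]
        calc ‖fderiv ℂ g (γ t) (b - a)‖ ≤ L * ‖φ t‖ := h4
          _ = L * ‖φ t‖⁻¹ * ‖φ t‖ ^ 2 := by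
              field_simp) s ⟨hs.1.le, le_refl _⟩
    rw [gronwallBound_ε0, sub_zero, norm_inv, norm_inv] at hgr
    have hps : 0 < ‖φ s‖ := norm_pos_iff.mpr (hsub s ⟨hs.1.le, le_refl _⟩).2
    have hp0 : 0 < ‖φ 0‖ := norm_pos_iff.mpr (hsub 0 ⟨le_refl _, hs.1.le⟩).2
    have hs1 : s ≤ 1 := hs.2.le.trans ht₀.1.2
    have hexp : Real.exp (L * s) ≤ Real.exp L := Real.exp_le_exp.mpr (by nlinarith)
    have h5 : ‖φ s‖⁻¹ ≤ ‖φ 0‖⁻¹ * Real.exp L :=
      hgr.trans (mul_le_mul_of_nonneg_left hexp (by positivity))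
    have h6 : ‖φ 0‖ ≤ Real.exp L * ‖φ s‖ := by
      have h7 := mul_le_mul_of_nonneg_left h5 (mul_pos hp0 hps).le
      have h8 : ‖φ 0‖ * ‖φ s‖ * ‖φ s‖⁻¹ = ‖φ 0‖ := by field_simp
      have h9 : ‖φ 0‖ * ‖φ s‖ * (‖φ 0‖⁻¹ * Real.exp L) = Real.exp L * ‖φ s‖ := by
        field_simp
      rw [h8, h9] at h7
      exact h7
    calc ‖φ 0‖ * Real.exp (-L) ≤ (Real.exp L * ‖φ s‖) * Real.exp (-L) :=
          mul_le_mul_of_nonneg_right h6 (Real.exp_pos _).le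
      _ = (Real.exp L * Real.exp (-L)) * ‖φ s‖ := by ring
      _ = ‖φ s‖ := by rw [← Real.exp_add, add_neg_cancel, Real.exp_zero, one_mul]
  have hlim : Tendsto (fun s => ‖φ s‖) (𝓝[<] t₀) (𝓝 ‖φ t₀‖) :=
    ((hdφ t₀ ht₀.1).continuousAt.norm.tendsto).mono_left nhdsWithin_le_nhds
  have hge : ‖φ 0‖ * Real.exp (-L) ≤ ‖φ t₀‖ :=
    ge_of_tendsto hlim (Filter.mem_of_superset (Ioo_mem_nhdsLT hpos) key)
  rw [hφt₀, norm_zero, hφ0] at hge
  exact absurd hge (not_le.mpr (mul_pos (norm_pos_iff.mpr hne) (Real.exp_pos _)))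

theorem propagate [ConnectedSpace M] {ι : Type} (G : GCover ι E M) (A : Set M)
    (hA : A.Nonempty) (d : ι → E → ℂ) (hd : ∀ i, AnalyticOnNhd ℂ (d i) (G.e i).target)
    (h1 : ∀ (i : ι) (x : M), G.Io i x → (x ∈ A ↔ d i (G.e i x) ≠ 0)) (K : ℝ)
    (h2 : ∀ (i : ι) (x : M), G.Io i x → x ∈ A →
      ‖fderiv ℂ (d i) (G.e i x)‖ ≤ K * ‖d i (G.e i x)‖) :
    A = univ := by
  have hsub : ∀ i, ball (G.c i) (2 * G.r i) ⊆ (G.e i).target := by
    intro i
    have h3 : 2 * G.r i ≤ 3 * G.r i := by nlinarith [G.pos i]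
    exact (ball_subset_closedBall.trans (closedBall_subset_closedBall h3)).trans (G.sub i)
  have hcov : ∀ x : M, ∃ i, G.Io i x := by
    intro x
    obtain ⟨i, hi, hx⟩ := G.cov x
    refine ⟨i, hi, ball_subset_ball ?_ hx⟩
    nlinarith [G.pos i]
  have hopen : IsOpen A := by
    rw [isOpen_iff_mem_nhds]
    intro x hx
    obtain ⟨i, hi⟩ := hcov x
    have hW : IsOpen (ball (G.c i) (2 * G.r i) ∩ d i ⁻¹' {z | z ≠ 0}) :=
      (((hd i).continuousOn).mono (hsub i)).isOpen_inter_preimage isOpen_ball isOpen_ne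
    have hO := (G.e i).isOpen_inter_preimage hW
    refine Filter.mem_of_superset (hO.mem_nhds ⟨hi.1, hi.2, (h1 i x hi).mp hx⟩) ?_
    intro y hy
    exact (h1 i y ⟨hy.1, hy.2.1⟩).mpr hy.2.2
  have hclosed : IsClosed A := by
    rw [← isOpen_compl_iff, isOpen_iff_mem_nhds]
    intro x hx
    obtain ⟨i, hi⟩ := hcov x
    have hO := (G.e i).isOpen_inter_preimage (isOpen_ball (x := G.c i) (ε := 2 * G.r i))
    refine Filter.mem_of_superset (hO.mem_nhds ⟨hi.1, hi.2⟩) ?_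
    intro y hy hyA
    apply hx
    rw [h1 i x hi]
    refine seg_ne (d i) (ball (G.c i) (2 * G.r i)) (convex_ball _ _)
      (fun z hz => (hd i z (hsub i hz)).differentiableAt) K ?_ hy.2 hi.2
      ((h1 i y ⟨hy.1, hy.2⟩).mp hyA)
    intro z hz hgz
    have hzt := hsub i hz
    have hez : G.e i ((G.e i).symm z) = z := (G.e i).right_inv hzt
    have hIo : G.Io i ((G.e i).symm z) := ⟨(G.e i).map_target hzt, by rw [hez]; exact hz⟩
    have hzA : (G.e i).symm z ∈ A := by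
      rw [h1 i _ hIo, hez]
      exact hgz
    have h := h2 i _ hIo hzA
    rw [hez] at h
    exact h
  exact IsClopen.eq_univ ⟨hclosed, hopen⟩ hA

end

end Pool.Agent.HOA
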