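import Pool.Agent.HOA.Tools

/-!
# HOA/Sel: selection of a generic basis adapted to a flag

The index set `J` of the basis is chosen with the least sum of indices; the exchange property
shows that it is adapted to the flag at every point where it gives a basis.
-/

open scoped Manifold ContDiff Topology
open Set Metric Filter

namespace Pool.Agent.HOA

noncomputable section

variable {E : Type} [NormedAddCommGroup E] [NormedSpace ℂ E] [FiniteDimensional ℂ E]

omit [FiniteDimensional ℂ E] in
private theorem sel_card {n m : ℕ} (hn : Module.finrank ℂ E = n) (v : Fin m → E)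
    (B : Finset (Fin m)) (hB : LinearIndepOn ℂ v (B : Set (Fin m)))
    (hs : Submodule.span ℂ (v '' (B : Set (Fin m))) = ⊤) : B.card = n := by
  have h1 := finrank_span_eq_card (R := ℂ) (b := fun j : (B : Set (Fin m)) => v j) hB
  have h2 : Set.range (fun j : (B : Set (Fin m)) => v j) = v '' (B : Set (Fin m)) := by
    rw [Set.image_eq_range]
  rw [h2, hs, finrank_top, hn] at h1
  rw [h1]
  simp

private theorem sel_span {n m : ℕ} (hn : Module.finrank ℂ E = n) (v : Fin m → E)
    (B : Finset (Fin m)) (hB : LinearIndepOn ℂ v (B : Set (Fin m))) (hc : B.card = n) :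
    Submodule.span ℂ (v '' (B : Set (Fin m))) = ⊤ := by
  have h1 := finrank_span_eq_card (R := ℂ) (b := fun j : (B : Set (Fin m)) => v j) hB
  have h2 : Set.range (fun j : (B : Set (Fin m)) => v j) = v '' (B : Set (Fin m)) := by
    rw [Set.image_eq_range]
  rw [h2] at h1
  apply Submodule.eq_top_of_finrank_eq
  rw [h1, hn, ← hc]
  simp

private theorem sel_exchange {n m : ℕ} (hn : Module.finrank ℂ E = n) (v : Fin m → E)
    (J : Finset (Fin m)) (hJ : LinearIndepOn ℂ v (J : Set (Fin m))) (hc : J.card = n) (i : Fin m)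
    (hi : v i ∉ Submodule.span ℂ (v '' ((J.filter fun j => j ≤ i : Finset (Fin m)) : Set (Fin m)))) :
    ∃ J' : Finset (Fin m), J'.card = n ∧ LinearIndepOn ℂ v (J' : Set (Fin m)) ∧
      ∑ j ∈ J', j.1 < ∑ j ∈ J, j.1 := by
  classical
  have hiJ : i ∉ J := by
    intro h
    apply hi
    apply Submodule.subset_span
    exact ⟨i, by simp [h], rfl⟩
  have h1 : LinearIndepOn ℂ v
      (insert i ((J.filter fun j => j ≤ i : Finset (Fin m)) : Set (Fin m))) := by
    refine LinearIndepOn.insert ?_ hi
    exact hJ.mono (by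
      intro j hj
      have := (Finset.mem_filter.1 (Finset.mem_coe.1 hj)).1
      exact this)
  have h2 : insert i ((J.filter fun j => j ≤ i : Finset (Fin m)) : Set (Fin m)) ⊆
      ((insert i J : Finset (Fin m)) : Set (Fin m)) := by
    intro j hj
    rcases hj with rfl | hj
    · simp
    · have := (Finset.mem_filter.1 (Finset.mem_coe.1 hj)).1
      simp [this]
  obtain ⟨B, hBt, hsB, hspan, hBi⟩ := exists_linearIndepOn_extension h1 h2
  obtain ⟨J', rfl⟩ : ∃ J' : Finset (Fin m), (J' : Set (Fin m)) = B :=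
    ⟨(Set.toFinite B).toFinset, Set.Finite.coe_toFinset _⟩
  have h3 : Submodule.span ℂ (v '' (J' : Set (Fin m))) = ⊤ := by
    rw [eq_top_iff, ← sel_span hn v J hJ hc]
    refine Submodule.span_le.2 ?_
    refine subset_trans (Set.image_mono ?_) hspan
    intro j hj
    simp only [Finset.coe_insert]
    exact Or.inr hj
  have h4 := sel_card hn v J' hBi h3
  have hsub : J' ⊆ insert i J := by
    intro j hj
    have := hBt (Finset.mem_coe.2 hj)
    exact_mod_cast this
  have hcd : (insert i J \ J').card = 1 := by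
    rw [Finset.card_sdiff_of_subset hsub, Finset.card_insert_of_notMem hiJ, hc, h4]
    omega
  obtain ⟨j0, hj0⟩ := Finset.card_eq_one.1 hcd
  have hj0m : j0 ∈ insert i J \ J' := by rw [hj0]; exact Finset.mem_singleton_self _
  obtain ⟨hj1, hj2⟩ := Finset.mem_sdiff.1 hj0m
  have hlt : i < j0 := by
    rcases Finset.mem_insert.1 hj1 with h | h
    · exfalso
      apply hj2
      rw [h]
      exact Finset.mem_coe.1 (hsB (Set.mem_insert _ _))
    · by_contra hle
      apply hj2
      exact Finset.mem_coe.1 (hsB (Set.mem_insert_of_mem _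
        (Finset.mem_coe.2 (Finset.mem_filter.2 ⟨h, not_lt.1 hle⟩))))
  refine ⟨J', h4, hBi, ?_⟩
  have h5 : ∑ j ∈ insert i J \ J', j.1 + ∑ j ∈ J', j.1 = ∑ j ∈ insert i J, j.1 :=
    Finset.sum_sdiff hsub
  rw [hj0, Finset.sum_singleton, Finset.sum_insert hiJ] at h5
  have h6 : i.1 < j0.1 := hlt
  omega

theorem select {n m : ℕ} {Y : Type} (b : Fin m → Y → E) (hn : Module.finrank ℂ E = n) (x₁ : Y)
    (hx₁ : Submodule.span ℂ (range fun i => b i x₁) = ⊤) :
    ∃ (idx : Fin n → Fin m) (x₀ : Y), StrictMono idx ∧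
      LinearIndependent ℂ (fun k => b (idx k) x₀) ∧
      ∀ y, LinearIndependent ℂ (fun k => b (idx k) y) → ∀ i,
        b i y ∈ Submodule.span ℂ ((fun k => b (idx k) y) '' {k | idx k ≤ i}) := by
  classical
  -- the admissible index sets
  let A : Finset (Finset (Fin m)) := Finset.univ.filter fun J => J.card = n ∧
    ∃ y : Y, LinearIndepOn ℂ (fun j => b j y) (J : Set (Fin m))
  have hA : A.Nonempty := by
    obtain ⟨B, -, -, hspan, hBi⟩ := exists_linearIndepOn_extension
      (K := ℂ) (v := fun j => b j x₁) (s := ∅) (t := Set.univ) (linearIndepOn_empty _ _)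
      (Set.empty_subset _)
    obtain ⟨J, rfl⟩ : ∃ J : Finset (Fin m), (J : Set (Fin m)) = B :=
      ⟨(Set.toFinite B).toFinset, Set.Finite.coe_toFinset _⟩
    refine ⟨J, Finset.mem_filter.2 ⟨Finset.mem_univ _, ?_, x₁, hBi⟩⟩
    refine sel_card hn (fun j => b j x₁) J hBi ?_
    rw [eq_top_iff, ← hx₁]
    refine Submodule.span_le.2 ?_
    rw [← Set.image_univ]
    exact hspan
  obtain ⟨J, hJA, hmin⟩ := Finset.exists_min_image A (fun J => ∑ j ∈ J, j.1) hA
  obtain ⟨-, hc, x₀, hx₀⟩ := Finset.mem_filter.1 hJA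
  have hinj : Function.Injective fun k : Fin n => J.orderEmbOfFin hc k :=
    (J.orderEmbOfFin hc).injective
  have hrange : Set.range (fun k : Fin n => J.orderEmbOfFin hc k) = (J : Set (Fin m)) :=
    Finset.range_orderEmbOfFin J hc
  have hiff : ∀ y : Y, LinearIndependent ℂ (fun k : Fin n => b (J.orderEmbOfFin hc k) y) ↔
      LinearIndepOn ℂ (fun j => b j y) (J : Set (Fin m)) := by
    intro y
    rw [← hrange, linearIndepOn_range_iff hinj]
    rfl
  refine ⟨fun k => J.orderEmbOfFin hc k, x₀, (J.orderEmbOfFin hc).strictMono,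
    (hiff x₀).2 hx₀, fun y hy i => ?_⟩
  have hy' := (hiff y).1 hy
  have himg : (fun k : Fin n => b (J.orderEmbOfFin hc k) y) '' {k | J.orderEmbOfFin hc k ≤ i} =
      (fun j => b j y) '' ((J.filter fun j => j ≤ i : Finset (Fin m)) : Set (Fin m)) := by
    ext z
    constructor
    · rintro ⟨k, hk, rfl⟩
      exact ⟨J.orderEmbOfFin hc k, Finset.mem_coe.2 (Finset.mem_filter.2
        ⟨Finset.orderEmbOfFin_mem J hc k, hk⟩), rfl⟩
    · rintro ⟨j, hj, rfl⟩
      obtain ⟨hj1, hj2⟩ := Finset.mem_filter.1 (Finset.mem_coe.1 hj)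
      have : j ∈ Set.range (fun k : Fin n => J.orderEmbOfFin hc k) := by
        rw [hrange]
        exact hj1
      obtain ⟨k, rfl⟩ := this
      exact ⟨k, hj2, rfl⟩
  rw [himg]
  by_contra hnot
  obtain ⟨J', h1, h2, h3⟩ := sel_exchange hn (fun j => b j y) J hy' hc i hnot
  have h4 := hmin J' (Finset.mem_filter.2 ⟨Finset.mem_univ _, h1, y, h2⟩)
  omega

end

end Pool.Agent.HOA
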