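import Pool.Agent.HOA.Nil
import Pool.Agent.HOA.FrB
import Pool.Agent.HOA.FrS
import Pool.Agent.HOA.Prop
import Pool.Agent.HOA.Sel
import Pool.Agent.HOA.Flag
import Pool.Agent.HOA.Engel
import Pool.Agent.HOA.Hom
import Pool.Agent.HOA.Br

/-!
# Holomorphic vector fields spanning one tangent space (assembly)
-/

open scoped Manifold ContDiff Topology
open Set Metric Filter

namespace Pool.Agent.HOA

noncomputable section

section LA

variable {V : Type} [AddCommGroup V] [Module ℂ V]

/-- diagonal entries of a triangular automorphism are eigenvalues -/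
theorem tri_eigen {n : ℕ} (b : Module.Basis (Fin n) ℂ V) (T : V →ₗ[ℂ] V)
    (hT : ∀ i, T (b i) ∈ Submodule.span ℂ (b '' {j | j ≤ i})) (i : Fin n) :
    ∃ v, v ≠ 0 ∧ T v = (b.repr (T (b i)) i) • v := by
  classical
  have hfd : FiniteDimensional ℂ V := Module.Finite.of_basis b
  set l := b.repr (T (b i)) i with hl
  set A : Submodule ℂ V := Submodule.span ℂ (b '' {j | j ≤ i}) with hA
  set B : Submodule ℂ V := Submodule.span ℂ (b '' {j | j < i}) with hB
  have hBA : B ≤ A := Submodule.span_mono (image_mono fun j (hj : j < i) => (le_of_lt hj : j ≤ i))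
  have key : ∀ v ∈ A, (T - l • LinearMap.id : V →ₗ[ℂ] V) v ∈ B := by
    intro v hv
    refine Submodule.span_induction (p := fun v _ => (T - l • LinearMap.id : V →ₗ[ℂ] V) v ∈ B)
      ?_ ?_ ?_ ?_ hv
    · rintro _ ⟨j, hj, rfl⟩
      simp only [LinearMap.sub_apply, LinearMap.smul_apply, LinearMap.id_apply]
      rcases eq_or_lt_of_le (show j ≤ i from hj) with h | h
      · subst h
        rw [hB, Module.Basis.mem_span_image]
        have h1 := hT j
        rw [Module.Basis.mem_span_image] at h1
        intro k hk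
        have hk' : b.repr (T (b j) - l • b j) k ≠ 0 := by
          simpa using hk
        have hkj : k ≠ j := by
          rintro rfl
          apply hk'
          simp [hl]
        have : b.repr (T (b j)) k ≠ 0 := by
          intro h0
          apply hk'
          simp [h0, hkj]
        have : k ≤ j := h1 (by simpa using this)
        exact lt_of_le_of_ne this hkj
      · have h1 : T (b j) ∈ B := by
          refine Submodule.span_mono (image_mono ?_) (hT j)
          intro k hk
          exact lt_of_le_of_lt hk h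
        exact B.sub_mem h1 (B.smul_mem _ (Submodule.subset_span ⟨j, h, rfl⟩))
    · simp
    · intro x y _ _ hx hy
      rw [map_add]; exact B.add_mem hx hy
    · intro c x _ hx
      rw [map_smul]; exact B.smul_mem _ hx
  let g : A →ₗ[ℂ] B := (T - l • LinearMap.id : V →ₗ[ℂ] V).restrict key
  have hlt : Module.finrank ℂ B < Module.finrank ℂ A := by
    apply Submodule.finrank_lt_finrank_of_lt
    refine lt_of_le_of_ne hBA ?_
    intro h
    have : b i ∈ A := Submodule.subset_span ⟨i, (le_refl i : i ≤ i), rfl⟩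
    rw [← h, hB, Module.Basis.mem_span_image] at this
    have := this (a := i) (by simp)
    exact lt_irrefl _ (show i < i from this)
  have hker : LinearMap.ker g ≠ ⊥ := LinearMap.ker_ne_bot_of_finrank_lt hlt
  obtain ⟨v, hv, hv0⟩ := Submodule.exists_mem_ne_zero_of_ne_bot hker
  refine ⟨v.1, fun h => hv0 (Subtype.ext h), ?_⟩
  have : (g v : V) = 0 := by
    rw [LinearMap.mem_ker.1 hv]; rfl
  have h2 : T v.1 - l • v.1 = 0 := by
    simpa [g, LinearMap.restrict_apply] using this
  exact sub_eq_zero.1 h2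

end LA

variable {E : Type} [NormedAddCommGroup E] [NormedSpace ℂ E] [FiniteDimensional ℂ E]
variable {M : Type} [TopologicalSpace M] [T2Space M] [CompactSpace M] [ChartedSpace E M]
  [IsManifold 𝓘(ℂ, E) ω M]
variable {f : Diffeomorph 𝓘(ℂ, E) 𝓘(ℂ, E) M M ω} {N : (x : M) → TangentSpace 𝓘(ℂ, E) x → ℝ}
  {Es Eu : (x : M) → Submodule ℝ (TangentSpace 𝓘(ℂ, E) x)} {C ν : ℝ}

/-- evaluation of a field in a basis -/
theorem sum_ev {m : ℕ} (b : Module.Basis (Fin m) ℂ (HF E M)) (v : HF E M) (x : M) :
    v.1 x = ∑ i, b.repr v i • (b i).1 x := by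
  let ev : HF E M →ₗ[ℂ] TangentSpace 𝓘(ℂ, E) x :=
    (LinearMap.proj (R := ℂ) (φ := fun y : M => TangentSpace 𝓘(ℂ, E) y) x).comp (HF E M).subtype
  have h1 : ev (∑ i, b.repr v i • b i) = ∑ i, b.repr v i • ev (b i) := by
    rw [map_sum]
    exact Finset.sum_congr rfl fun i _ => by rw [map_smul]
  rw [b.sum_repr] at h1
  exact h1

/-- if the selected vectors are independent at one point, they are independent everywhere -/
theorem frame_everywhere [ConnectedSpace M] (h : Hyp f N Es Eu C ν)
    {T : HF E M ≃ₗ[ℂ] HF E M} (hT : IsPush f T)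
    {br : HF E M →ₗ[ℂ] HF E M →ₗ[ℂ] HF E M} (hbr : IsBr br) {m n : ℕ}
    {b : Module.Basis (Fin m) ℂ (HF E M)}
    (hfl : ∀ v i, br v (b i) ∈ Submodule.span ℂ (b '' {j | j < i}))
    {idx : Fin n → Fin m} (hidx : StrictMono idx) (β : Module.Basis (Fin n) ℂ E)
    (hdep : ∀ x : M, LinearIndependent ℂ (fun k => (b (idx k)).1 x) → ∀ i,
      (b i).1 x ∈ Submodule.span ℂ ((fun k => (b (idx k)).1 x) '' {k | idx k ≤ i}))
    {x₀ : M} (hx₀ : LinearIndependent ℂ (fun k => (b (idx k)).1 x₀)) (x : M) :
    LinearIndependent ℂ (fun k => (b (idx k)).1 x) := by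
  obtain ⟨ι, hι, ⟨G⟩⟩ := exists_cover E M
  obtain ⟨K, hK⟩ := frame_bound h hT hbr hfl hidx β hdep G
  have hmem : ∀ (i : ι) (x : M), G.Io i x → G.In i x := fun i x hx =>
    ⟨hx.1, ball_subset_closedBall hx.2⟩
  have := propagate G {x | LinearIndependent ℂ (fun k => (b (idx k)).1 x)} ⟨x₀, hx₀⟩
    (fun i => dd β (fun k => b (idx k)) (G.e i)) (fun i => dd_analytic β _ (G.mem i))
    (fun i x hx => (dd_ne_zero β (fun k => b (idx k)) (G.mem i) hx.1).symm) K
    (fun i x hx hxA => hK i x (hmem i x hx) hxA)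
  have hx : x ∈ {x | LinearIndependent ℂ (fun k => (b (idx k)).1 x)} := by
    rw [this]; trivial
  exact hx

theorem fields_main [ConnectedSpace M] (h : Hyp f N Es Eu C ν) (x₁ : M)
    (hspan : Submodule.span ℂ (range fun v : HF E M => v.1 x₁) = ⊤) :
    ∃ (X : Fin (Module.finrank ℂ E) → (x : M) → TangentSpace 𝓘(ℂ, E) x)
      (c : Fin (Module.finrank ℂ E) → Fin (Module.finrank ℂ E) → Fin (Module.finrank ℂ E) → ℂ)
      (a : Fin (Module.finrank ℂ E) → Fin (Module.finrank ℂ E) → ℂ), NilFrame f X c a := by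
  classical
  have := hf_finite E M
  obtain ⟨T, hT⟩ := exists_push (E := E) f
  obtain ⟨br, hbr⟩ := exists_br E M
  obtain ⟨halt, hjac⟩ := br_props hbr
  have hTbr := push_br hT hbr
  have hno : ∀ (v : HF E M) (l : ℂ), ‖l‖ = 1 → T v = l • v → v = 0 :=
    fun v l hl hv => no_unit h hT v l hl hv
  have hW := graded_engel br halt hjac {a | Homog T a} (homog_span T)
    (fun a ha b hb => homog_br T br hTbr ha hb) (fun a ha => homog_nil T hno br hTbr ha)
  obtain ⟨m, b, hfl, hTb⟩ := flag_exists br T hTbr hW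
  -- the basis spans at `x₁`
  have hspan' : Submodule.span ℂ (range fun i => ((b i).1 x₁ : E)) = ⊤ := by
    rw [eq_top_iff]
    intro w _
    have hw : (w : TangentSpace 𝓘(ℂ, E) x₁) ∈
        Submodule.span ℂ (range fun v : HF E M => v.1 x₁) := by
      rw [hspan]; trivial
    have hle : Submodule.span ℂ (range fun v : HF E M => v.1 x₁) ≤
        (Submodule.span ℂ (range fun i => (b i).1 x₁) :
          Submodule ℂ (TangentSpace 𝓘(ℂ, E) x₁)) := by
      rw [Submodule.span_le]
      rintro _ ⟨v, rfl⟩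
      have : v.1 x₁ = ∑ i, b.repr v i • (b i).1 x₁ := sum_ev b v x₁
      simp only [SetLike.mem_coe]
      rw [this]
      exact Submodule.sum_mem _ fun i _ => Submodule.smul_mem _ _ (Submodule.subset_span ⟨i, rfl⟩)
    exact hle hw
  obtain ⟨idx, x₀, hidx, hlin, hdep⟩ := select (n := Module.finrank ℂ E)
    (fun (i : Fin m) (y : M) => ((b i).1 y : E)) rfl x₁ hspan'
  have hall := frame_everywhere h hT hbr hfl hidx (Module.finBasis ℂ E) hdep hlin
  have hsp := frame_span (n := Module.finrank ℂ E) rfl (fun k => b (idx k)) hall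
  have hsurj : Function.Surjective idx := by
    intro j
    by_contra hj
    have h1 := hsp (b j)
    have h2 : (range fun k => b (idx k)) = b '' (range idx) := by
      ext v; simp [eq_comm]
    rw [h2, Module.Basis.mem_span_image] at h1
    have := h1 (a := j) (by simp)
    exact hj this
  let eq : Fin (Module.finrank ℂ E) ≃ Fin m := Equiv.ofBijective idx ⟨hidx.injective, hsurj⟩
  let bX : Module.Basis (Fin (Module.finrank ℂ E)) ℂ (HF E M) := b.reindex eq.symm
  have hbX : ∀ k, bX k = b (idx k) := fun k => by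
    simp only [bX, Module.Basis.reindex_apply, Equiv.symm_symm]
    rfl
  have himg : ∀ (k : Fin (Module.finrank ℂ E)) , b '' {j | j < idx k} ⊆ bX '' {l | l < k} := by
    rintro k _ ⟨j, hj, rfl⟩
    obtain ⟨l, rfl⟩ := hsurj j
    exact ⟨l, hidx.lt_iff_lt.1 hj, hbX l⟩
  have himg' : ∀ (k : Fin (Module.finrank ℂ E)) , b '' {j | j ≤ idx k} ⊆ bX '' {l | l ≤ k} := by
    rintro k _ ⟨j, hj, rfl⟩
    obtain ⟨l, rfl⟩ := hsurj j
    exact ⟨l, hidx.le_iff_le.1 hj, hbX l⟩
  have hflX : ∀ v k, br v (bX k) ∈ Submodule.span ℂ (bX '' {l | l < k}) := by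
    intro v k
    rw [hbX]
    exact Submodule.span_mono (himg k) (hfl v (idx k))
  have hTX : ∀ k, T (bX k) ∈ Submodule.span ℂ (bX '' {l | l ≤ k}) := by
    intro k
    rw [hbX]
    exact Submodule.span_mono (himg' k) (hTb (idx k))
  have hanti : ∀ u v, br u v = - br v u := by
    intro u v
    have h1 := halt (u + v)
    simp only [map_add, LinearMap.add_apply, halt, zero_add, add_zero] at h1
    exact eq_neg_of_add_eq_zero_right h1
  have hsum : ∀ (v : HF E M) (x : M), v.1 x = ∑ k, bX.repr v k • (bX k).1 x :=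
    fun v x => sum_ev bX v x
  refine ⟨fun k => (bX k).1, fun i j k => bX.repr (br (bX i) (bX j)) k,
    fun i j => bX.repr (T (bX i)) j, ?_⟩
  refine ⟨fun i => (bX i).2, ?_, ?_, ?_, ?_, ?_, ?_, ?_, ?_⟩
  · intro x
    have := hall x
    simpa only [hbX] using this
  · intro x
    have : FiniteDimensional ℂ (TangentSpace 𝓘(ℂ, E) x) := inferInstanceAs (FiniteDimensional ℂ E)
    have := (hall x).span_eq_top_of_card_eq_finrank'
      (by rw [Fintype.card_fin]; rfl)
    simpa only [hbX] using this
  · intro Y hY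
    exact ⟨fun i => bX.repr ⟨Y, hY⟩ i, fun x => hsum ⟨Y, hY⟩ x⟩
  · intro i j x
    rw [← hbr]
    exact hsum _ x
  · intro i j k hk
    constructor
    · have h1 := hflX (bX j) i
      rw [Module.Basis.mem_span_image] at h1
      apply h1 (a := k)
      simp only [Finset.mem_coe, Finsupp.mem_support_iff]
      intro h0
      apply hk
      rw [hanti, map_neg, Finsupp.neg_apply, h0, neg_zero]
    · have h1 := hflX (bX i) j
      rw [Module.Basis.mem_span_image] at h1
      apply h1 (a := k)
      simpa using hk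
  · intro i x
    rw [← hT]
    exact hsum _ _
  · intro i j hij
    by_contra hne
    have h1 := hTX i
    rw [Module.Basis.mem_span_image] at h1
    have := h1 (a := j) (by simpa using hne)
    exact absurd hij (not_lt.2 this)
  · intro i
    obtain ⟨v, hv0, hv⟩ := tri_eigen bX (T : HF E M →ₗ[ℂ] HF E M) hTX i
    refine ⟨fun h0 => hv0 ?_, fun h1 => hv0 (hno v _ h1 hv)⟩
    have : T v = 0 := by
      have hv' : T v = (bX.repr (T (bX i)) i) • v := hv
      rw [hv', h0, zero_smul]
    simpa using this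

end

end Pool.Agent.HOA
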