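import Pool.Agent.HOA.Tools
import Pool.Agent.HOA.Loc

/-!
# HOA/FormL: holomorphic 1-forms in charts
-/

open scoped Manifold ContDiff Topology
open Set Metric Filter

namespace Pool.Agent.HOA

noncomputable section

variable {E : Type} [NormedAddCommGroup E] [NormedSpace ℂ E] [FiniteDimensional ℂ E]
variable {M : Type} [TopologicalSpace M] [T2Space M] [CompactSpace M] [ChartedSpace E M]
  [IsManifold 𝓘(ℂ, E) ω M]

theorem holForm_local {α : (x : M) → TangentSpace 𝓘(ℂ, E) x → ℂ} (hα : HolForm α)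
    {e : OpenPartialHomeomorph M E} (he : e ∈ atlas E M) (w : E) :
    AnalyticOnNhd ℂ (fun z => α (e.symm z) (ilc e z w)) e.target := by
  have hsym : ContMDiffOn 𝓘(ℂ, E) 𝓘(ℂ, E) ω e.symm e.target :=
    contMDiffOn_symm_of_mem_maximalAtlas (IsManifold.subset_maximalAtlas he)
  have hT := hsym.contMDiffOn_tangentMapWithin (m := ω) le_rfl e.open_target.uniqueMDiffOn
  have hV : ContMDiff 𝓘(ℂ, E) (𝓘(ℂ, E)).tangent ω
      (fun z : E => (⟨z, w⟩ : TangentBundle 𝓘(ℂ, E) E)) :=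
    contMDiff_vectorSpace_iff_contDiff.2 contDiff_const
  have hC : ContMDiffOn 𝓘(ℂ, E) (𝓘(ℂ, E)).tangent ω
      (fun z : E => tangentMapWithin 𝓘(ℂ, E) 𝓘(ℂ, E) e.symm e.target
        (⟨z, w⟩ : TangentBundle 𝓘(ℂ, E) E)) e.target :=
    hT.comp hV.contMDiffOn (fun z hz => hz)
  have h := hα.2.comp_contMDiffOn hC
  rw [contMDiffOn_iff_contDiffOn] at h
  have h2 : ContDiffOn ℂ ω (fun z => α (e.symm z) (ilc e z w)) e.target := by
    refine h.congr fun z hz => ?_
    show α (e.symm z) (mfderiv 𝓘(ℂ, E) 𝓘(ℂ, E) e.symm z w) =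
      α (e.symm z) (mfderivWithin 𝓘(ℂ, E) 𝓘(ℂ, E) e.symm e.target z w)
    rw [mfderivWithin_of_isOpen e.open_target hz]
  exact (e.open_target.analyticOn_iff_analyticOnNhd).1 h2.analyticOn

end

end Pool.Agent.HOA
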