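import Pool.Agent.HOA.Tools

/-!
# Sections of powers of the canonical bundle: working definitions

A section of `K ^ m` is represented by the function `S : M → ℂ`, `S x` being its value at `x`
with respect to `(dz₁ ∧ ... ∧ dzₙ) ^ m` in the preferred chart `chartAt E x` at `x`;
`kloc m S e` is its expression in the chart `e`.
-/

open scoped Manifold ContDiff Topology
open Set Metric Filter

namespace Pool.Agent.HOA

noncomputable section

variable {E : Type} [NormedAddCommGroup E] [NormedSpace ℂ E]
variable {M : Type} [TopologicalSpace M] [ChartedSpace E M]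

/-- the local expression in the chart `e` of the section of `K ^ m` given by the function `S` -/
def kloc (m : ℤ) (S : M → ℂ) (e : OpenPartialHomeomorph M E) (z : E) : ℂ :=
  S (e.symm z) * (fderiv ℂ (chartAt E (e.symm z) ∘ e.symm) z).det ^ m

variable (E) in
/-- the space of holomorphic sections of `K ^ m` -/
def KS (m : ℤ) : Submodule ℂ (M → ℂ) where
  carrier := {S | ∀ e ∈ atlas E M, AnalyticOnNhd ℂ (kloc m S e) e.target}
  zero_mem' := by
    intro e _
    have : kloc m (0 : M → ℂ) e = fun _ => 0 := by
      funext z; simp [kloc]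
    rw [this]
    exact analyticOnNhd_const
  add_mem' := by
    intro a b ha hb e he
    have : kloc m (a + b) e = kloc m a e + kloc m b e := by
      funext z; simp [kloc, add_mul]
    rw [this]
    exact (ha e he).add (hb e he)
  smul_mem' := by
    intro c a ha e he
    have : kloc m (c • a) e = fun z => c * kloc m a e z := by
      funext z; simp [kloc, mul_assoc]
    rw [this]
    exact analyticOnNhd_const.mul (ha e he)

/-- pull-back of a section of `K ^ m` by `f` -/
def pb (f : M → M) (m : ℤ) (S : M → ℂ) : M → ℂ := fun x =>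
  S (f x) * (fderiv ℂ (lmap (chartAt E x) f (chartAt E (f x))) (chartAt E x x)).det ^ m

/-- `s` (local expressions of a section of a line bundle in the charts of `G`) satisfies
`f^* s = s` with the multipliers `h`, whose logarithmic derivatives are bounded by `K`. -/
structure Mult (f : M → M) {ι : Type} (G : GCover ι E M) (s : ι → E → ℂ) (h : ι → ι → E → ℂ)
    (K : ℝ) : Prop where
  ana : ∀ i, AnalyticOnNhd ℂ (s i) (G.e i).target
  zero : ∀ (i j : ι) (x : M), x ∈ (G.e i).source → x ∈ (G.e j).source →
    s i (G.e i x) = 0 → s j (G.e j x) = 0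
  eq : ∀ (i j : ι) (x : M), x ∈ (G.e i).source → f x ∈ (G.e j).source →
    s j (G.e j (f x)) * h i j (G.e i x) = s i (G.e i x)
  diff : ∀ (i j : ι) (x : M), x ∈ (G.e i).source → f x ∈ (G.e j).source →
    DifferentiableAt ℂ (h i j) (G.e i x) ∧ h i j (G.e i x) ≠ 0
  bound : ∀ (i j : ι) (x : M), G.In i x → G.In j (f x) → ∀ w : E,
    ‖fderiv ℂ (h i j) (G.e i x) w‖ ≤ K * ‖h i j (G.e i x)‖ * ‖w‖

end

end Pool.Agent.HOA
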