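import Pool.Agent.HOA.FormL
import Pool.Agent.HOA.KDefs

/-!
# HOA/FormS: n holomorphic 1-forms define a section of the canonical bundle

PLAN.  With `x = e.symm z`, `A = fderiv ℂ (chartAt E x ∘ e.symm) z`, which is `mfderiv e.symm z` read
in the preferred chart at `x`: `ilc e z w = A w` (as elements of `TangentSpace 𝓘(ℂ, E) x = E`;
`mfderiv` unfolds to the `fderivWithin` of `writtenInExtChartAt`).  By linearity of `α k x`
(`(hα k).1`), the matrix `α k x (A (β l))` is the product of the matrix `α k x (β j)` and of the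
matrix of `A` in the basis `β`, so `kloc 1 S e z = det (α k x (ilc e z (β l)))`, which is analytic in
`z` by `holForm_local` (determinant of a matrix of analytic functions).
-/

open scoped Manifold ContDiff Topology
open Set Metric Filter

namespace Pool.Agent.HOA

noncomputable section

variable {E : Type} [NormedAddCommGroup E] [NormedSpace ℂ E] [FiniteDimensional ℂ E]
variable {M : Type} [TopologicalSpace M] [T2Space M] [CompactSpace M] [ChartedSpace E M]
  [IsManifold 𝓘(ℂ, E) ω M]

omit [FiniteDimensional ℂ E] [T2Space M] [CompactSpace M] in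
private theorem ilc_eq {e : OpenPartialHomeomorph M E} (he : e ∈ atlas E M) {z : E}
    (hz : z ∈ e.target) (w : E) :
    ilc e z w = fderiv ℂ (chartAt E (e.symm z) ∘ e.symm) z w := by
  have hd : MDifferentiableAt 𝓘(ℂ, E) 𝓘(ℂ, E) e.symm z := by
    have h := (contMDiffOn_symm_of_mem_maximalAtlas (I := 𝓘(ℂ, E)) (n := ω)
      (IsManifold.subset_maximalAtlas he)).contMDiffAt (e.open_target.mem_nhds hz)
    exact h.mdifferentiableAt (by simp)
  unfold ilc
  rw [mfderiv, if_pos hd]
  simp only [writtenInExtChartAt, extChartAt, mfld_simps, fderivWithin_univ]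
  rfl

omit [FiniteDimensional ℂ E] in
private theorem det_analytic {n : ℕ} {F : Fin n → Fin n → E → ℂ} {U : Set E}
    (h : ∀ k l, AnalyticOnNhd ℂ (F k l) U) :
    AnalyticOnNhd ℂ (fun z => Matrix.det (Matrix.of fun k l => F k l z)) U := by
  intro z hz
  simp only [Matrix.det_apply]
  refine Finset.analyticAt_fun_sum _ (fun σ _ => ?_)
  have h2 : AnalyticAt ℂ (fun z => ∏ i : Fin n, F (σ i) i z) z :=
    Finset.analyticAt_fun_prod _ (fun i _ => h (σ i) i z hz)
  rcases Int.units_eq_one_or (Equiv.Perm.sign σ) with hs | hs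
  · simpa [hs] using h2
  · have h3 : AnalyticAt ℂ (fun z => -∏ i : Fin n, F (σ i) i z) z := h2.neg
    simpa [hs] using h3

theorem forms_section {n : ℕ} (β : Module.Basis (Fin n) ℂ E)
    (α : Fin n → (x : M) → TangentSpace 𝓘(ℂ, E) x → ℂ) (hα : ∀ k, HolForm (α k)) :
    (fun x => Matrix.det (Matrix.of fun k l => α k x (β l))) ∈
      (KS E 1 : Submodule ℂ (M → ℂ)) := by
  intro e he
  have key : EqOn (fun z => Matrix.det (Matrix.of fun k l => α k (e.symm z) (ilc e z (β l))))
      (kloc 1 (fun x => Matrix.det (Matrix.of fun k l => α k x (β l))) e) e.target := by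
    intro z hz
    have hA : (Matrix.of fun k l => α k (e.symm z) (ilc e z (β l))) =
        (Matrix.of fun k l => α k (e.symm z) (β l)) *
          LinearMap.toMatrix β β (fderiv ℂ (chartAt E (e.symm z) ∘ e.symm) z : E →ₗ[ℂ] E) := by
      ext k l
      rw [Matrix.mul_apply]
      simp only [Matrix.of_apply]
      rw [ilc_eq he hz]
      set A : E →L[ℂ] E := fderiv ℂ (chartAt E (e.symm z) ∘ e.symm) z with hAd
      have h1 : A (β l) = ∑ j, (β.repr (A (β l)) j) • β j := (β.sum_repr (A (β l))).symm
      let φ : E →ₗ[ℂ] ℂ := IsLinearMap.mk' (fun v : E => α k (e.symm z) v) ((hα k).1 (e.symm z))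
      have h2 : φ (A (β l)) = ∑ j, β.repr (A (β l)) j * φ (β j) := by
        conv_lhs => rw [h1]
        rw [map_sum]
        exact Finset.sum_congr rfl fun j _ => by rw [map_smul, smul_eq_mul]
      calc α k (e.symm z) (A (β l)) = φ (A (β l)) := rfl
        _ = ∑ j, β.repr (A (β l)) j * φ (β j) := h2
        _ = ∑ j, α k (e.symm z) (β j) * LinearMap.toMatrix β β (A : E →ₗ[ℂ] E) j l := by
            refine Finset.sum_congr rfl fun j _ => ?_
            rw [LinearMap.toMatrix_apply, mul_comm]
            rfl
    simp only [kloc, zpow_one]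
    rw [hA, Matrix.det_mul, LinearMap.det_toMatrix]
  exact (det_analytic fun k l => holForm_local (hα k) he (β l)).congr e.open_target key

end

end Pool.Agent.HOA
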