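import Pool.Agent.HOA.KMain
import Pool.Agent.HOA.FieldsMain
import Pool.Agent.HOA.FormS
import Pool.Agent.HOA.Dual

/-!
# Holomorphic 1-forms spanning one cotangent space (assembly)
-/

open scoped Manifold ContDiff Topology
open Set Metric Filter

namespace Pool.Agent.HOA

noncomputable section

/-- a family of linear forms without common kernel contains a basis of the dual space -/
theorem exists_dual_family {V : Type} [AddCommGroup V] [Module ℂ V] [FiniteDimensional ℂ V]
    (A : Set (Module.Dual ℂ V)) (hA : ∀ ξ : V, (∀ α ∈ A, α ξ = 0) → ξ = 0) :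
    ∃ a : Fin (Module.finrank ℂ V) → Module.Dual ℂ V, (∀ k, a k ∈ A) ∧ LinearIndependent ℂ a := by
  classical
  have hspan : Submodule.span ℂ A = ⊤ := by
    have h1 : (Submodule.span ℂ A).dualCoannihilator = ⊥ := by
      rw [eq_bot_iff]
      intro ξ hξ
      rw [Submodule.mem_dualCoannihilator] at hξ
      exact hA ξ fun α hα => hξ α (Submodule.subset_span hα)
    have h2 := Subspace.dualCoannihilator_dualAnnihilator_eq (W := Submodule.span ℂ A)
    rw [h1] at h2
    rw [← h2, Submodule.dualAnnihilator_bot]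
  obtain ⟨b, hbA, hbs, hbl⟩ := exists_linearIndependent ℂ A
  have hbasis : Submodule.span ℂ b = ⊤ := by rw [hbs, hspan]
  let B : Module.Basis b ℂ (Module.Dual ℂ V) := Module.Basis.mk hbl (by simp [hbasis])
  have hfin : Finite b := Module.Finite.finite_basis B
  have := Fintype.ofFinite b
  have hcard : Fintype.card b = Module.finrank ℂ V := by
    rw [← Module.finrank_eq_card_basis B, Subspace.dual_finrank_eq]
  let e : Fin (Module.finrank ℂ V) ≃ b := (Fintype.equivFinOfCardEq hcard).symm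
  exact ⟨fun k => (e k).1, fun k => hbA (e k).2, hbl.comp e e.injective⟩

variable {E : Type} [NormedAddCommGroup E] [NormedSpace ℂ E] [FiniteDimensional ℂ E]
variable {M : Type} [TopologicalSpace M] [T2Space M] [CompactSpace M] [ChartedSpace E M]
  [IsManifold 𝓘(ℂ, E) ω M]
variable {f : Diffeomorph 𝓘(ℂ, E) 𝓘(ℂ, E) M M ω} {N : (x : M) → TangentSpace 𝓘(ℂ, E) x → ℝ}
  {Es Eu : (x : M) → Submodule ℝ (TangentSpace 𝓘(ℂ, E) x)} {C ν : ℝ}

theorem det_forms_ne_zero {V : Type} [AddCommGroup V] [Module ℂ V] {n : ℕ}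
    (β : Module.Basis (Fin n) ℂ V) (a : Fin n → V → ℂ) (ha : ∀ k, IsLinearMap ℂ (a k)) :
    Matrix.det (Matrix.of fun k l => a k (β l)) ≠ 0 ↔ ∀ ξ, (∀ k, a k ξ = 0) → ξ = 0 := by
  classical
  let A : V →ₗ[ℂ] (Fin n → ℂ) := LinearMap.pi fun k => IsLinearMap.mk' (a k) (ha k)
  have hmat : LinearMap.toMatrix β (Pi.basisFun ℂ (Fin n)) A =
      Matrix.of fun k l => a k (β l) := by
    ext k l
    simp [LinearMap.toMatrix_apply, A]
  rw [← hmat]
  have hfr : Module.finrank ℂ V = Module.finrank ℂ (Fin n → ℂ) := by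
    rw [Module.finrank_eq_card_basis β]; simp
  have := Module.Finite.of_basis β
  constructor
  · intro hdet ξ hξ
    have hinj : Function.Injective A := by
      have hu : IsUnit (LinearMap.toMatrix β (Pi.basisFun ℂ (Fin n)) A).det :=
        isUnit_iff_ne_zero.2 hdet
      have := (LinearEquiv.ofIsUnitDet (f := A) hu).injective
      exact this
    apply hinj
    rw [map_zero]
    funext k
    exact hξ k
  · intro hker hdet
    have hinj : Function.Injective A := by
      rw [← LinearMap.ker_eq_bot, eq_bot_iff]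
      intro ξ hξ
      exact hker ξ fun k => congrFun (LinearMap.mem_ker.1 hξ) k
    let Ae : V ≃ₗ[ℂ] (Fin n → ℂ) := LinearMap.linearEquivOfInjective A hinj hfr
    have hu := LinearEquiv.isUnit_det Ae β (Pi.basisFun ℂ (Fin n))
    have hAe : (Ae : V →ₗ[ℂ] (Fin n → ℂ)) = A := by
      ext v k
      simp [Ae]
    rw [hAe] at hu
    exact hu.ne_zero hdet

theorem coframe_everywhere [ConnectedSpace M] (h : Hyp f N Es Eu C ν)
    (α : Fin (Module.finrank ℂ E) → (x : M) → TangentSpace 𝓘(ℂ, E) x → ℂ)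
    (hα : ∀ k, HolForm (α k)) (x₁ : M)
    (hx₁ : ∀ ξ : TangentSpace 𝓘(ℂ, E) x₁, (∀ k, α k x₁ ξ = 0) → ξ = 0) (x : M) :
    ∀ ξ : TangentSpace 𝓘(ℂ, E) x, (∀ k, α k x ξ = 0) → ξ = 0 := by
  have hS := forms_section (Module.finBasis ℂ E) α hα
  have h1 := (det_forms_ne_zero (V := TangentSpace 𝓘(ℂ, E) x₁) (Module.finBasis ℂ E)
    (fun k => α k x₁) (fun k => (hα k).1 x₁)).2 hx₁
  have h0 : (fun x => Matrix.det (Matrix.of fun k l => α k x (Module.finBasis ℂ E l))) ≠
      (0 : M → ℂ) := fun h => h1 (congrFun h x₁)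
  have h2 := (canonical_main h one_pos hS h0).1 x
  exact (det_forms_ne_zero (V := TangentSpace 𝓘(ℂ, E) x) (Module.finBasis ℂ E)
    (fun k => α k x) (fun k => (hα k).1 x)).1 h2

theorem forms_span [ConnectedSpace M] (h : Hyp f N Es Eu C ν) (x₁ : M)
    (hx₁ : ∀ ξ : TangentSpace 𝓘(ℂ, E) x₁,
      (∀ α : (x : M) → TangentSpace 𝓘(ℂ, E) x → ℂ, HolForm α → α x₁ ξ = 0) → ξ = 0) :
    Submodule.span ℂ (range fun v : HF E M => v.1 x₁) = ⊤ := by
  classical
  have : FiniteDimensional ℂ (TangentSpace 𝓘(ℂ, E) x₁) := inferInstanceAs (FiniteDimensional ℂ E)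
  obtain ⟨a, haA, hal⟩ := exists_dual_family (V := TangentSpace 𝓘(ℂ, E) x₁)
    {φ | ∃ α : (x : M) → TangentSpace 𝓘(ℂ, E) x → ℂ, HolForm α ∧ ∀ ξ, φ ξ = α x₁ ξ}
    (by
      intro ξ hξ
      apply hx₁
      intro α hα
      exact hξ (IsLinearMap.mk' (α x₁) (hα.1 x₁)) ⟨α, hα, fun _ => rfl⟩)
  choose α hα hαa using haA
  have hker : ∀ ξ : TangentSpace 𝓘(ℂ, E) x₁, (∀ k, α k x₁ ξ = 0) → ξ = 0 := by
    intro ξ hξ
    have hsp : Submodule.span ℂ (range a) = ⊤ :=
      hal.span_eq_top_of_card_eq_finrank' (by rw [Fintype.card_fin, Subspace.dual_finrank_eq])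
    rw [← Module.forall_dual_apply_eq_zero_iff ℂ ξ]
    intro φ
    have hφ : φ ∈ Submodule.span ℂ (range a) := by rw [hsp]; trivial
    refine Submodule.span_induction (p := fun φ _ => φ ξ = 0) ?_ ?_ ?_ ?_ hφ
    · rintro _ ⟨k, rfl⟩
      rw [hαa k]; exact hξ k
    · rfl
    · intro x y _ _ hx hy
      rw [LinearMap.add_apply, hx, hy, add_zero]
    · intro c x _ hx
      rw [LinearMap.smul_apply, hx, smul_zero]
  have hall := coframe_everywhere h (fun k => α k) hα x₁ hker
  obtain ⟨X, hX⟩ := dual_fields (n := Module.finrank ℂ E) rfl (fun k => α k) hα hall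
  rw [eq_top_iff]
  intro ξ _
  have : ξ = ∑ l, α l x₁ ξ • (X l).1 x₁ := by
    rw [← sub_eq_zero]
    apply hker
    intro k
    let φ : TangentSpace 𝓘(ℂ, E) x₁ →ₗ[ℂ] ℂ := IsLinearMap.mk' (α k x₁) ((hα k).1 x₁)
    have h1 : φ (ξ - ∑ l, α l x₁ ξ • (X l).1 x₁) =
        φ ξ - ∑ l, α l x₁ ξ • φ ((X l).1 x₁) := by
      rw [map_sub, map_sum]
      congr 1
      exact Finset.sum_congr rfl fun l _ => map_smul _ _ _
    have h2 : ∑ l, α l x₁ ξ • φ ((X l).1 x₁) = φ ξ := by
      rw [Finset.sum_eq_single k]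
      · have h3 : φ ((X k).1 x₁) = 1 := (hX k k x₁).trans (if_pos rfl)
        rw [h3, smul_eq_mul, mul_one]
        rfl
      · intro l _ hl
        have h3 : φ ((X l).1 x₁) = 0 := (hX k l x₁).trans (if_neg (Ne.symm hl))
        rw [h3, smul_zero]
      · intro h; exact absurd (Finset.mem_univ k) h
    change φ _ = 0
    rw [h1, h2, sub_self]
  rw [this]
  exact Submodule.sum_mem _ fun l _ => Submodule.smul_mem _ _ (Submodule.subset_span ⟨X l, rfl⟩)

end

end Pool.Agent.HOA
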