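import Pool.Agent.HOA.Tools

/-!
# HOA/Glue: gluing of measures
-/

open scoped Manifold ContDiff Topology
open Set Metric Filter
open MeasureTheory

namespace Pool.Agent.HOA

noncomputable section


private theorem exists_part {X : Type} [MeasurableSpace X] {ι : Type} [Finite ι] (U : ι → Set X)
    (hU : ∀ i, MeasurableSet (U i)) (hc : ∀ x, ∃ i, x ∈ U i) :
    ∃ P : ι → Set X, (∀ i, MeasurableSet (P i)) ∧ (∀ i, P i ⊆ U i) ∧
      Pairwise (Function.onFun Disjoint P) ∧ ⋃ i, P i = univ := by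
  obtain ⟨n, ⟨e⟩⟩ := Finite.exists_equiv_fin ι
  refine ⟨fun i => U i \ ⋃ j, ⋃ (_ : e j < e i), U j, ?_, ?_, ?_, ?_⟩
  · intro i
    exact (hU i).diff (MeasurableSet.iUnion fun j => MeasurableSet.iUnion fun _ => hU j)
  · intro i
    exact sdiff_subset
  · intro i j hij
    rw [Function.onFun, Set.disjoint_left]
    intro x hx hx'
    rcases lt_or_gt_of_ne (fun h => hij (e.injective h)) with h | h
    · exact hx'.2 (mem_iUnion₂.2 ⟨i, h, hx.1⟩)
    · exact hx.2 (mem_iUnion₂.2 ⟨j, h, hx'.1⟩)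
  · refine eq_univ_of_forall fun x => ?_
    have hne : ({k : Fin n | x ∈ U (e.symm k)}).Nonempty := by
      obtain ⟨i, hi⟩ := hc x
      exact ⟨e i, by simpa using hi⟩
    obtain ⟨k, hk, hmin⟩ := WellFounded.has_min (wellFounded_lt (α := Fin n)) _ hne
    refine mem_iUnion.2 ⟨e.symm k, hk, ?_⟩
    intro hx
    obtain ⟨j, hj, hxj⟩ := mem_iUnion₂.1 hx
    refine hmin (e j) ?_ (by simpa using hj)
    simpa using hxj

private theorem measure_part {X : Type} [MeasurableSpace X] {ι : Type} [Finite ι] (P : ι → Set X)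
    (hP : ∀ i, MeasurableSet (P i)) (hd : Pairwise (Function.onFun Disjoint P))
    (hu : ⋃ i, P i = univ) (μ : Measure X) (B : Set X) (hB : MeasurableSet B) :
    μ B = ∑' i, μ (B ∩ P i) := by
  have h1 : B = ⋃ i, (B ∩ P i) := by
    rw [← inter_iUnion, hu, inter_univ]
  have h2 := measure_iUnion (μ := μ) (f := fun i => B ∩ P i) (fun i j hij => by
    have := hd hij
    exact this.mono inter_subset_right inter_subset_right) (fun i => hB.inter (hP i))
  rw [← h1] at h2
  exact h2

theorem measure_ext_cover {X : Type} [MeasurableSpace X] {ι : Type} [Finite ι] (U : ι → Set X)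
    (hU : ∀ i, MeasurableSet (U i)) (hc : ∀ x, ∃ i, x ∈ U i) (μ ν : Measure X)
    (h : ∀ i, ∀ B, MeasurableSet B → B ⊆ U i → μ B = ν B) : μ = ν := by
  obtain ⟨P, hP, hPU, hd, hu⟩ := exists_part U hU hc
  ext B hB
  rw [measure_part P hP hd hu μ B hB, measure_part P hP hd hu ν B hB]
  exact tsum_congr fun i => h i _ (hB.inter (hP i)) (inter_subset_right.trans (hPU i))

theorem glue_measure {X : Type} [MeasurableSpace X] {ι : Type} [Finite ι] (U : ι → Set X)
    (hU : ∀ i, MeasurableSet (U i)) (hc : ∀ x, ∃ i, x ∈ U i) (μs : ι → Measure X)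
    (h : ∀ i j B, MeasurableSet B → B ⊆ U i → B ⊆ U j → μs i B = μs j B)
    (hfin : ∀ i, μs i (U i) < ⊤) :
    ∃ μ : Measure X, IsFiniteMeasure μ ∧ ∀ i B, MeasurableSet B → B ⊆ U i → μ B = μs i B := by
  obtain ⟨P, hP, hPU, hd, hu⟩ := exists_part U hU hc
  have happ : ∀ B, MeasurableSet B →
      Measure.sum (fun i => (μs i).restrict (P i)) B = ∑' i, μs i (B ∩ P i) := by
    intro B hB
    rw [Measure.sum_apply _ hB]
    exact tsum_congr fun i => Measure.restrict_apply hB
  refine ⟨Measure.sum (fun i => (μs i).restrict (P i)), ⟨?_⟩, ?_⟩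
  · rw [happ _ MeasurableSet.univ]
    cases nonempty_fintype ι
    rw [tsum_fintype]
    refine ENNReal.sum_lt_top.2 fun i _ => ?_
    refine lt_of_le_of_lt (measure_mono ?_) (hfin i)
    exact inter_subset_right.trans (hPU i)
  · intro j B hB hBj
    rw [happ B hB, measure_part P hP hd hu (μs j) B hB]
    exact tsum_congr fun i => h i j _ (hB.inter (hP i)) (inter_subset_right.trans (hPU i))
      (inter_subset_left.trans hBj)

end

end Pool.Agent.HOA
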