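import Pool.Agent.HOA.Loc
import Pool.Agent.HOA.LBd
import Pool.Agent.HOA.NCmp
import Pool.Agent.HOA.Cov

/-!
# HOA/Grw: the derivative of a diffeomorphism is bounded for the norm N

PLAN.  Take a finite good family `G` (`exists_cover E M`), `A` from `norm_compare`, `B` from
`lmap_bounds g G`.  For `x`, choose `i, j` with `G.In i x`, `G.In j (g x)` (`G.cov`; the ball of radius
`r` is in the closed ball of radius `2 r`).  Then `N (g x) (dg ξ) ≤ A ‖lc (dg ξ)‖` and, by `lc_mfderiv`,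
`‖lc (dg ξ)‖ ≤ B ‖lc ξ‖ ≤ B A N x ξ`; `L = A * B * A`.
-/

open scoped Manifold ContDiff Topology
open Set Metric Filter

namespace Pool.Agent.HOA

noncomputable section

variable {E : Type} [NormedAddCommGroup E] [NormedSpace ℂ E] [FiniteDimensional ℂ E]
variable {M : Type} [TopologicalSpace M] [T2Space M] [CompactSpace M] [ChartedSpace E M]
  [IsManifold 𝓘(ℂ, E) ω M]

theorem growth {N : (x : M) → TangentSpace 𝓘(ℂ, E) x → ℝ}
    (hc : Continuous (fun v : TangentBundle 𝓘(ℂ, E) M => N v.proj v.snd))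
    (hs : ∀ (x : M) (t : ℝ) (v : TangentSpace 𝓘(ℂ, E) x), N x (t • v) = |t| * N x v)
    (hp : ∀ (x : M) (v : TangentSpace 𝓘(ℂ, E) x), v ≠ 0 → 0 < N x v)
    (g : Diffeomorph 𝓘(ℂ, E) 𝓘(ℂ, E) M M ω) :
    ∃ L : ℝ, 0 < L ∧ ∀ (x : M) (ξ : TangentSpace 𝓘(ℂ, E) x),
      N (g x) (mfderiv 𝓘(ℂ, E) 𝓘(ℂ, E) g x ξ) ≤ L * N x ξ := by
  obtain ⟨ι, hι, ⟨G⟩⟩ := exists_cover E M
  obtain ⟨A, hA, hcmp⟩ := norm_compare hc hs hp G
  obtain ⟨B, hB, hbd⟩ := lmap_bounds g G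
  have hin : ∀ y : M, ∃ i, G.In i y := by
    intro y
    obtain ⟨i, hi, hi'⟩ := G.cov y
    refine ⟨i, hi, ?_⟩
    have hpos := G.pos i
    rw [Metric.mem_ball] at hi'
    rw [Metric.mem_closedBall]
    linarith
  refine ⟨A * B * A, by positivity, fun x ξ => ?_⟩
  obtain ⟨i, hi⟩ := hin x
  obtain ⟨j, hj⟩ := hin (g x)
  have h1 := (hcmp j (g x) hj (mfderiv 𝓘(ℂ, E) 𝓘(ℂ, E) g x ξ)).2
  have h2 := lc_mfderiv (g := g) g.contMDiff_toFun (G.mem i) (G.mem j) hi.1 hj.1 ξ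
  have h3 := (hbd i j x hi hj).1 (lc (G.e i) x ξ)
  have h4 := (hcmp i x hi ξ).1
  rw [← h2] at h3
  calc N (g x) (mfderiv 𝓘(ℂ, E) 𝓘(ℂ, E) g x ξ)
      ≤ A * ‖lc (G.e j) (g x) (mfderiv 𝓘(ℂ, E) 𝓘(ℂ, E) g x ξ)‖ := h1
    _ ≤ A * (B * ‖lc (G.e i) x ξ‖) := mul_le_mul_of_nonneg_left h3 hA.le
    _ ≤ A * (B * (A * N x ξ)) := by
        exact mul_le_mul_of_nonneg_left (mul_le_mul_of_nonneg_left h4 hB.le) hA.le
    _ = A * B * A * N x ξ := by ring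

end

end Pool.Agent.HOA
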