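import Pool.Agent.HOA.KDefs
import Pool.Agent.HOA.Loc

/-!
# HOA/KLoc: local expressions of sections of powers of the canonical bundle

Chain rule for the transition maps of charts.
-/

open scoped Manifold ContDiff Topology
open Set Metric Filter

namespace Pool.Agent.HOA

noncomputable section

variable {E : Type} [NormedAddCommGroup E] [NormedSpace ℂ E] [FiniteDimensional ℂ E]
variable {M : Type} [TopologicalSpace M] [T2Space M] [CompactSpace M] [ChartedSpace E M]
  [IsManifold 𝓘(ℂ, E) ω M]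

theorem kloc_trans (m : ℤ) (S : M → ℂ) {e e' : OpenPartialHomeomorph M E} (he : e ∈ atlas E M)
    (he' : e' ∈ atlas E M) {z : E} (hz : z ∈ e.target) (hz' : e.symm z ∈ e'.source) :
    kloc m S e z = kloc m S e' (e' (e.symm z)) * (fderiv ℂ (lmap e id e') z).det ^ m := by
  have hx : e'.symm (e' (e.symm z)) = e.symm z := e'.left_inv hz'
  have hid : ContMDiff 𝓘(ℂ, E) 𝓘(ℂ, E) ω (id : M → M) := contMDiff_id
  unfold kloc
  rw [hx]
  have h1 : AnalyticAt ℂ (lmap e id e') z := lmap_analytic hid he he' hz hz'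
  have h2 : AnalyticAt ℂ (lmap e' id (chartAt E (e.symm z))) (e' (e.symm z)) := by
    refine lmap_analytic hid he' (chart_mem_atlas E _) (e'.map_source hz') ?_
    rw [hx]
    exact mem_chart_source E _
  have h3 : (chartAt E (e.symm z) ∘ e.symm) =ᶠ[𝓝 z]
      (lmap e' id (chartAt E (e.symm z))) ∘ (lmap e id e') := by
    have h4 : e.symm ⁻¹' e'.source ∈ 𝓝 z :=
      (e.continuousAt_symm hz).preimage_mem_nhds (e'.open_source.mem_nhds hz')
    filter_upwards [h4] with w hw
    change chartAt E (e.symm z) (e.symm w) = chartAt E (e.symm z) (e'.symm (e' (e.symm w)))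
    rw [e'.left_inv hw]
  have h5 : fderiv ℂ (chartAt E (e.symm z) ∘ e.symm) z =
      (fderiv ℂ (lmap e' id (chartAt E (e.symm z))) (e' (e.symm z))).comp
        (fderiv ℂ (lmap e id e') z) := by
    rw [h3.fderiv_eq]
    exact fderiv_comp z h2.differentiableAt h1.differentiableAt
  have h6 : (fderiv ℂ (chartAt E (e.symm z) ∘ e.symm) z).det =
      (fderiv ℂ (lmap e' id (chartAt E (e.symm z))) (e' (e.symm z))).det *
        (fderiv ℂ (lmap e id e') z).det := by
    rw [h5]
    exact LinearMap.det_comp _ _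
  rw [h6, mul_zpow, ← mul_assoc]
  rfl

theorem kloc_ne_zero (m : ℤ) (S : M → ℂ) {e : OpenPartialHomeomorph M E} (he : e ∈ atlas E M)
    {x : M} (hx : x ∈ e.source) : kloc m S e (e x) ≠ 0 ↔ S x ≠ 0 := by
  have h1 := (lmap_invertible (Diffeomorph.refl 𝓘(ℂ, E) M ω) he (chart_mem_atlas E x) hx
    (mem_chart_source E x)).2
  unfold kloc
  rw [e.left_inv hx]
  have h2 : (fderiv ℂ (chartAt E x ∘ e.symm) (e x)).det ≠ 0 := h1
  rw [mul_ne_zero_iff]
  exact ⟨fun h => h.1, fun h => ⟨h, zpow_ne_zero m h2⟩⟩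

theorem canSec_of_mem {m : ℤ} {S : M → ℂ} (hS : S ∈ KS E m) : CanSec m (kloc (E := E) m S) := by
  refine ⟨hS, fun e he e' he' z hz hz' => ?_⟩
  exact kloc_trans m S he he' hz hz'

theorem mem_of_canSec {m : ℤ} {s : OpenPartialHomeomorph M E → E → ℂ} (hs : CanSec m s) :
    ∃ S ∈ KS E m, ∀ e ∈ atlas E M, ∀ z ∈ e.target, kloc m S e z = s e z := by
  have h1 : ∀ e ∈ atlas E M, ∀ z ∈ e.target,
      kloc m (fun x => s (chartAt E x) (chartAt E x x)) e z = s e z := by
    intro e he z hz
    exact (hs.2 e he _ (chart_mem_atlas E (e.symm z)) z hz (mem_chart_source E (e.symm z))).symm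
  refine ⟨fun x => s (chartAt E x) (chartAt E x x), ?_, h1⟩
  intro e he
  exact (hs.1 e he).congr e.open_target fun z hz => (h1 e he z hz).symm

end

end Pool.Agent.HOA
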