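import Pool.Agent.HOA.KDefs
import Pool.Agent.HOA.Loc
import Pool.Agent.HOA.KLoc

/-!
# HOA/KPb: pull-back of sections of powers of the canonical bundle
-/

open scoped Manifold ContDiff Topology
open Set Metric Filter

namespace Pool.Agent.HOA

noncomputable section

variable {E : Type} [NormedAddCommGroup E] [NormedSpace ℂ E] [FiniteDimensional ℂ E]
variable {M : Type} [TopologicalSpace M] [T2Space M] [CompactSpace M] [ChartedSpace E M]
  [IsManifold 𝓘(ℂ, E) ω M]

private theorem kpb_det_comp {g h : M → M} (hg : ContMDiff 𝓘(ℂ, E) 𝓘(ℂ, E) ω g)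
    (hh : ContMDiff 𝓘(ℂ, E) 𝓘(ℂ, E) ω h)
    {e e' e'' : OpenPartialHomeomorph M E} (he : e ∈ atlas E M) (he' : e' ∈ atlas E M)
    (he'' : e'' ∈ atlas E M) {z : E} (hz : z ∈ e.target) (hz' : g (e.symm z) ∈ e'.source)
    (hz'' : h (g (e.symm z)) ∈ e''.source) :
    (fderiv ℂ (lmap e (h ∘ g) e'') z).det =
      (fderiv ℂ (lmap e' h e'') (e' (g (e.symm z)))).det * (fderiv ℂ (lmap e g e') z).det := by
  have hx : e'.symm (e' (g (e.symm z))) = g (e.symm z) := e'.left_inv hz'
  have h1 : AnalyticAt ℂ (lmap e g e') z := lmap_analytic hg he he' hz hz'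
  have h2 : AnalyticAt ℂ (lmap e' h e'') (e' (g (e.symm z))) := by
    refine lmap_analytic hh he' he'' (e'.map_source hz') ?_
    rw [hx]
    exact hz''
  have h3 : (lmap e (h ∘ g) e'') =ᶠ[𝓝 z] (lmap e' h e'') ∘ (lmap e g e') := by
    have h4 : (g ∘ e.symm) ⁻¹' e'.source ∈ 𝓝 z := by
      have hc : ContinuousAt (g ∘ e.symm) z :=
        ContinuousAt.comp hg.continuous.continuousAt (e.continuousAt_symm hz)
      exact hc.preimage_mem_nhds (e'.open_source.mem_nhds hz')
    filter_upwards [h4] with w hw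
    have hw' : e'.symm (e' (g (e.symm w))) = g (e.symm w) := e'.left_inv hw
    change e'' (h (g (e.symm w))) = e'' (h (e'.symm (e' (g (e.symm w)))))
    rw [hw']
  have h5 : fderiv ℂ (lmap e (h ∘ g) e'') z =
      (fderiv ℂ (lmap e' h e'') (e' (g (e.symm z)))).comp (fderiv ℂ (lmap e g e') z) := by
    rw [h3.fderiv_eq]
    exact fderiv_comp z h2.differentiableAt h1.differentiableAt
  rw [h5]
  exact LinearMap.det_comp _ _

theorem kloc_pb (f : Diffeomorph 𝓘(ℂ, E) 𝓘(ℂ, E) M M ω) (m : ℤ) (S : M → ℂ)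
    {e e' : OpenPartialHomeomorph M E} (he : e ∈ atlas E M) (he' : e' ∈ atlas E M) {z : E}
    (hz : z ∈ e.target) (hz' : f (e.symm z) ∈ e'.source) :
    kloc m (pb (E := E) f m S) e z =
      kloc m S e' (lmap e f e' z) * (fderiv ℂ (lmap e f e') z).det ^ m := by
  have hf : ContMDiff 𝓘(ℂ, E) 𝓘(ℂ, E) ω f := f.contMDiff
  have hid : ContMDiff 𝓘(ℂ, E) 𝓘(ℂ, E) ω (id : M → M) := contMDiff_id
  have hl : lmap e f e' z = e' (f (e.symm z)) := rfl
  have hy : e'.symm (e' (f (e.symm z))) = f (e.symm z) := e'.left_inv hz'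
  have h1 := kpb_det_comp (e := e) (e' := chartAt E (e.symm z))
    (e'' := chartAt E (f (e.symm z))) hid hf he (chart_mem_atlas E _) (chart_mem_atlas E _) hz
    (mem_chart_source E (e.symm z)) (mem_chart_source E (f (e.symm z)))
  have h2 := kpb_det_comp (e := e) (e' := e')
    (e'' := chartAt E (f (e.symm z))) hf hid he he' (chart_mem_atlas E _) hz
    hz' (mem_chart_source E (f (e.symm z)))
  have h3 : (f : M → M) ∘ id = f := rfl
  have h4 : (id : M → M) ∘ f = f := rfl
  rw [h3] at h1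
  rw [h4] at h2
  have h5 : kloc m (pb (E := E) f m S) e z = S (f (e.symm z)) *
      (fderiv ℂ (lmap (chartAt E (e.symm z)) f (chartAt E (f (e.symm z))))
        (chartAt E (e.symm z) (e.symm z))).det ^ m *
      (fderiv ℂ (lmap e id (chartAt E (e.symm z))) z).det ^ m := rfl
  have h6 : kloc m S e' (lmap e f e' z) = S (f (e.symm z)) *
      (fderiv ℂ (lmap e' id (chartAt E (f (e.symm z)))) (e' (f (e.symm z)))).det ^ m := by
    unfold kloc
    rw [hl, hy]
    rfl
  rw [h5, h6, mul_assoc, mul_assoc, ← mul_zpow, ← mul_zpow, ← h2]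
  congr 2
  exact h1.symm

private theorem kpb_det_analytic {A : E → (E →L[ℂ] E)} {z : E} (hA : AnalyticAt ℂ A z) :
    AnalyticAt ℂ (fun w => (A w).det) z := by
  set b := Module.finBasis ℂ E with hb
  have h : ∀ B : E →L[ℂ] E, B.det = ∑ σ : Equiv.Perm (Fin (Module.finrank ℂ E)),
      ((Equiv.Perm.sign σ : ℤ) : ℂ) * ∏ i, ((LinearMap.toContinuousLinearMap (b.coord (σ i))).comp
        (ContinuousLinearMap.apply ℂ E (b i))) B := by
    intro B
    have h1 : B.det = LinearMap.det (B : E →ₗ[ℂ] E) := rfl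
    rw [h1, ← LinearMap.det_toMatrix b, Matrix.det_apply']
    refine Finset.sum_congr rfl fun σ _ => ?_
    congr 1
    refine Finset.prod_congr rfl fun i _ => ?_
    rw [LinearMap.toMatrix_apply]
    rfl
  have h2 : (fun w => (A w).det) = fun w => ∑ σ : Equiv.Perm (Fin (Module.finrank ℂ E)),
      ((Equiv.Perm.sign σ : ℤ) : ℂ) * ∏ i, ((LinearMap.toContinuousLinearMap (b.coord (σ i))).comp
        (ContinuousLinearMap.apply ℂ E (b i))) (A w) := funext fun w => h (A w)
  rw [h2]
  refine Finset.analyticAt_fun_sum _ fun σ _ => ?_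
  refine analyticAt_const.mul ?_
  refine Finset.analyticAt_fun_prod _ fun i _ => ?_
  exact (ContinuousLinearMap.analyticAt _ _).comp hA

theorem pb_mem (f : Diffeomorph 𝓘(ℂ, E) 𝓘(ℂ, E) M M ω) (m : ℤ) {S : M → ℂ} (hS : S ∈ KS E m) :
    pb (E := E) f m S ∈ KS E m := by
  have hf : ContMDiff 𝓘(ℂ, E) 𝓘(ℂ, E) ω f := f.contMDiff
  intro e he z₀ hz₀
  set e' := chartAt E (f (e.symm z₀)) with he'
  have hm : e' ∈ atlas E M := chart_mem_atlas E _
  have hz' : f (e.symm z₀) ∈ e'.source := mem_chart_source E _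
  have h1 : AnalyticAt ℂ (lmap e f e') z₀ := lmap_analytic hf he hm hz₀ hz'
  have h2 : AnalyticAt ℂ (kloc m S e') (lmap e f e' z₀) :=
    hS e' hm _ (e'.map_source hz')
  have h3 : AnalyticAt ℂ (fun z => kloc m S e' (lmap e f e' z)) z₀ := h2.fun_comp h1
  have h4 : AnalyticAt ℂ (fun z => (fderiv ℂ (lmap e f e') z).det) z₀ :=
    kpb_det_analytic h1.fderiv
  have h5 : (fderiv ℂ (lmap e f e') z₀).det ≠ 0 := by
    have h6 := (lmap_invertible f he hm (x := e.symm z₀) (e.map_target hz₀) hz').2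
    rwa [e.right_inv hz₀] at h6
  have h7 : AnalyticAt ℂ (fun z => kloc m S e' (lmap e f e' z) *
      (fderiv ℂ (lmap e f e') z).det ^ m) z₀ := h3.mul (h4.fun_zpow h5)
  refine h7.congr ?_
  have h8 : (f ∘ e.symm) ⁻¹' e'.source ∈ 𝓝 z₀ := by
    have hc : ContinuousAt (f ∘ e.symm) z₀ :=
      ContinuousAt.comp hf.continuous.continuousAt (e.continuousAt_symm hz₀)
    exact hc.preimage_mem_nhds (e'.open_source.mem_nhds hz')
  filter_upwards [h8, e.open_target.mem_nhds hz₀] with z hz hzt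
  exact (kloc_pb f m S he hm hzt hz).symm

theorem pb_symm (f : Diffeomorph 𝓘(ℂ, E) 𝓘(ℂ, E) M M ω) (m : ℤ) (S : M → ℂ) :
    pb (E := E) f.symm m (pb (E := E) f m S) = S := by
  funext x
  have hf : ContMDiff 𝓘(ℂ, E) 𝓘(ℂ, E) ω f := f.contMDiff
  have hfs : ContMDiff 𝓘(ℂ, E) 𝓘(ℂ, E) ω f.symm := f.symm.contMDiff
  have hxx : f (f.symm x) = x := f.apply_symm_apply x
  have hl : (chartAt E x).symm (chartAt E x x) = x :=
    (chartAt E x).left_inv (mem_chart_source E x)
  have h1 := kpb_det_comp (e := chartAt E x) (e' := chartAt E (f.symm x))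
    (e'' := chartAt E x) (z := chartAt E x x) hfs hf (chart_mem_atlas E _) (chart_mem_atlas E _)
    (chart_mem_atlas E _) ((chartAt E x).map_source (mem_chart_source E x))
    (by rw [hl]; exact mem_chart_source E _) (by rw [hl, hxx]; exact mem_chart_source E x)
  rw [hl] at h1
  have h2 : (f : M → M) ∘ f.symm = id := by
    funext y
    exact f.apply_symm_apply y
  rw [h2] at h1
  have h3 : (fderiv ℂ (lmap (chartAt E x) id (chartAt E x)) (chartAt E x x)).det = 1 := by
    have h4 : lmap (chartAt E x) id (chartAt E x) =ᶠ[𝓝 (chartAt E x x)] id := by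
      filter_upwards [(chartAt E x).open_target.mem_nhds
        ((chartAt E x).map_source (mem_chart_source E x))] with w hw
      exact (chartAt E x).right_inv hw
    rw [h4.fderiv_eq, fderiv_id]
    exact LinearMap.det_id
  rw [h3] at h1
  have h5 : pb (E := E) f.symm m (pb (E := E) f m S) x = S (f (f.symm x)) *
      (fderiv ℂ (lmap (chartAt E (f.symm x)) f (chartAt E (f (f.symm x))))
        (chartAt E (f.symm x) (f.symm x))).det ^ m *
      (fderiv ℂ (lmap (chartAt E x) f.symm (chartAt E (f.symm x))) (chartAt E x x)).det ^ m := rfl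
  rw [h5, hxx, mul_assoc, ← mul_zpow, ← h1, one_zpow, mul_one]

end

end Pool.Agent.HOA
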