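import Pool.Agent.HOA.KFin
import Pool.Agent.HOA.KPb

/-!
# HOA/KEig: an eigensection of the pull-back

PLAN.  `pb f m` restricts to a linear endomorphism of the finite dimensional space `KS E m`
(`pb_mem`, `ks_finite`), nonzero space by `hS`, `h0`; over `ℂ` it has an eigenvalue
(`Module.End.exists_eigenvalue`), nonzero because the endomorphism is injective (`pb_symm`).
-/

open scoped Manifold ContDiff Topology
open Set Metric Filter

namespace Pool.Agent.HOA

noncomputable section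

variable {E : Type} [NormedAddCommGroup E] [NormedSpace ℂ E] [FiniteDimensional ℂ E]
variable {M : Type} [TopologicalSpace M] [T2Space M] [CompactSpace M] [ChartedSpace E M]
  [IsManifold 𝓘(ℂ, E) ω M]

theorem ks_eigen (f : Diffeomorph 𝓘(ℂ, E) 𝓘(ℂ, E) M M ω) (m : ℤ) {S : M → ℂ} (hS : S ∈ KS E m)
    (h0 : S ≠ 0) : ∃ S' ∈ KS E m, S' ≠ 0 ∧ ∃ l : ℂ, l ≠ 0 ∧ pb (E := E) f m S' = l • S' := by
  have hadd : ∀ A B : M → ℂ, pb (E := E) f m (A + B) = pb (E := E) f m A + pb (E := E) f m B := by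
    intro A B
    funext x
    simp only [pb, Pi.add_apply, add_mul]
  have hsmul : ∀ (c : ℂ) (A : M → ℂ), pb (E := E) f m (c • A) = c • pb (E := E) f m A := by
    intro c A
    funext x
    simp only [pb, Pi.smul_apply, smul_eq_mul, mul_assoc]
  let T : (KS E m : Submodule ℂ (M → ℂ)) →ₗ[ℂ] (KS E m : Submodule ℂ (M → ℂ)) :=
    { toFun := fun A => ⟨pb (E := E) f m A.1, pb_mem f m A.2⟩
      map_add' := fun A B => Subtype.ext (hadd A.1 B.1)
      map_smul' := fun c A => Subtype.ext (hsmul c A.1) }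
  haveI : FiniteDimensional ℂ (KS E m : Submodule ℂ (M → ℂ)) := ks_finite E M m
  haveI : Nontrivial (KS E m : Submodule ℂ (M → ℂ)) :=
    ⟨⟨⟨S, hS⟩, 0, fun h => h0 (congrArg Subtype.val h)⟩⟩
  obtain ⟨l, hl⟩ := Module.End.exists_eigenvalue T
  obtain ⟨v, hv⟩ := hl.exists_hasEigenvector
  have hTv : T v = l • v := hv.apply_eq_smul
  have hv0 : v ≠ 0 := hv.2
  have hval : pb (E := E) f m v.1 = l • v.1 := congrArg Subtype.val hTv
  refine ⟨v.1, v.2, fun h => hv0 (Subtype.ext h), l, ?_, hval⟩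
  rintro rfl
  apply hv0
  apply Subtype.ext
  have h1 := pb_symm (E := E) f m v.1
  rw [hval, zero_smul] at h1
  have h2 : pb (E := E) f.symm m (0 : M → ℂ) = 0 := by
    funext x
    simp only [pb, Pi.zero_apply, zero_mul]
  rw [h2] at h1
  exact h1.symm

end

end Pool.Agent.HOA
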