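import Pool.Agent.HOA.FD
import Pool.Agent.HOA.LBd
import Pool.Agent.HOA.Cov
import Pool.Agent.HOA.KLoc

/-!
# HOA/KFin: the space of sections of a power of the canonical bundle is finite dimensional

`fd_abstract` applied to the local expressions in a finite good family of charts.
-/

open scoped Manifold ContDiff Topology
open Set Metric Filter

namespace Pool.Agent.HOA

noncomputable section

variable {E : Type} [NormedAddCommGroup E] [NormedSpace ℂ E] [FiniteDimensional ℂ E]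
variable {M : Type} [TopologicalSpace M] [T2Space M] [CompactSpace M] [ChartedSpace E M]
  [IsManifold 𝓘(ℂ, E) ω M]

private theorem zpow_bd {d : ℂ} {C : ℝ} (h1 : ‖d‖ ≤ C) (h2 : ‖d⁻¹‖ ≤ C) (m : ℤ) :
    ‖d ^ m‖ ≤ (max C 1) ^ m.natAbs := by
  rcases m with k | k
  · show ‖d ^ (k : ℤ)‖ ≤ (max C 1) ^ k
    rw [zpow_natCast, norm_pow]
    exact pow_le_pow_left₀ (norm_nonneg _) (h1.trans (le_max_left _ _)) k
  · show ‖d ^ (Int.negSucc k)‖ ≤ (max C 1) ^ (k + 1)
    rw [zpow_negSucc, ← inv_pow, norm_pow]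
    exact pow_le_pow_left₀ (norm_nonneg _) (h2.trans (le_max_left _ _)) (k + 1)

private def gk {ι : Type} (G : GCover ι E M) (m : ℤ) (i : ι) :
    (KS E m : Submodule ℂ (M → ℂ)) →ₗ[ℂ] (E → ℂ) where
  toFun S := kloc m S.1 (G.e i)
  map_add' S S' := by
    funext z
    simp [kloc, add_mul]
  map_smul' a S := by
    funext z
    simp [kloc, mul_assoc]

variable (E M) in
theorem ks_finite (m : ℤ) : FiniteDimensional ℂ (KS E m : Submodule ℂ (M → ℂ)) := by
  obtain ⟨ι, hι, ⟨G⟩⟩ := exists_cover E M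
  obtain ⟨C, hC, hb⟩ := lmap_bounds (Diffeomorph.refl 𝓘(ℂ, E) M ω) G
  have hsub : ∀ i, closedBall (G.c i) (2 * G.r i) ⊆ (G.e i).target := fun i =>
    (closedBall_subset_closedBall (by nlinarith [G.pos i])).trans (G.sub i)
  refine fd_abstract G.c G.r G.pos (gk G m) ?_ ?_ ((max C 1) ^ m.natAbs) ?_
  · intro i S
    exact (S.2 (G.e i) (G.mem i)).mono (hsub i)
  · intro S hS
    apply Subtype.ext
    funext x
    obtain ⟨i, hi, hi'⟩ := G.cov x
    have h1 : kloc m S.1 (G.e i) (G.e i x) = 0 := hS i (G.e i x) (ball_subset_closedBall hi')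
    by_contra h2
    exact (kloc_ne_zero m S.1 (G.mem i) hi).2 h2 h1
  · intro i S z hz
    have hz' := hsub i hz
    obtain ⟨x, hx⟩ : ∃ x, x = (G.e i).symm z := ⟨_, rfl⟩
    have hxi : x ∈ (G.e i).source := by
      rw [hx]
      exact (G.e i).map_target hz'
    have hxz : G.e i x = z := by
      rw [hx]
      exact (G.e i).right_inv hz'
    obtain ⟨j, hj, hj'⟩ := G.cov x
    refine ⟨j, G.e j x, ball_subset_closedBall hj', ?_⟩
    have hj2 := hj
    rw [hx] at hj2
    have h3 := kloc_trans m S.1 (G.mem i) (G.mem j) hz' hj2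
    rw [← hx] at h3
    obtain ⟨_, _, h4, h5⟩ := hb i j x ⟨hxi, by
        show G.e i x ∈ closedBall (G.c i) (2 * G.r i)
        rw [hxz]
        exact hz⟩ ⟨hj, closedBall_subset_closedBall (by nlinarith [G.pos j])
      (ball_subset_closedBall hj')⟩
    rw [hxz] at h4 h5
    have h6 : ‖(fderiv ℂ (lmap (G.e i) id (G.e j)) z).det ^ m‖ ≤ (max C 1) ^ m.natAbs :=
      zpow_bd h4 h5 m
    show ‖kloc m S.1 (G.e i) z‖ ≤ (max C 1) ^ m.natAbs * ‖kloc m S.1 (G.e j) (G.e j x)‖
    rw [h3, norm_mul, mul_comm]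
    exact mul_le_mul_of_nonneg_right h6 (norm_nonneg _)

end

end Pool.Agent.HOA
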