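import Pool.Agent.HOA.RecB
import Pool.Agent.HOA.Ang
import Pool.Agent.HOA.HSym

/-!
# HOA/SecB: logarithmic derivative bound everywhere

PLAN.  Constants: `K₁` from `rec_bound h G hm`, `K₂` from `rec_bound (hyp_symm h) G hm'`, `A` from
`norm_compare`, `L` from `angle h`.  At a point `x` with `G.Io i x`, `s i ≠ 0`, recurrent in both
directions: for `w : E` let `ξ` be the tangent vector with `lc (G.e i) x ξ = w` (`lc_ilc`),
`ξ = a + b` (`h.compl`): `‖Ds(w)‖ ≤ K₁ ‖s‖ ‖lc a‖ + K₂ ‖s‖ ‖lc b‖ ≤ (K₁ + K₂) A L A ‖s‖ ‖w‖`, so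
`‖Ds‖ ≤ K' ‖s‖` there.  For a general `x` with `G.Io i x` and `s i (G.e i x) ≠ 0`: the set where
`‖fderiv (s i) (G.e i y)‖ > K' ‖s i (G.e i y)‖`, `G.Io i y` and `s i (G.e i y) ≠ 0` is open; if it
contained `x`, `hrec` would give a recurrent point in it (its zero set does not depend on the chart:
`Mult.zero`), a contradiction.
-/

open scoped Manifold ContDiff Topology
open Set Metric Filter

namespace Pool.Agent.HOA

noncomputable section

variable {E : Type} [NormedAddCommGroup E] [NormedSpace ℂ E] [FiniteDimensional ℂ E]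
variable {M : Type} [TopologicalSpace M] [T2Space M] [CompactSpace M] [ChartedSpace E M]
  [IsManifold 𝓘(ℂ, E) ω M]
variable {f : Diffeomorph 𝓘(ℂ, E) 𝓘(ℂ, E) M M ω} {N : (x : M) → TangentSpace 𝓘(ℂ, E) x → ℝ}
  {Es Eu : (x : M) → Submodule ℝ (TangentSpace 𝓘(ℂ, E) x)} {C ν : ℝ}

private theorem exists_lc {e : OpenPartialHomeomorph M E} (he : e ∈ atlas E M) (w : E) {x : M}
    (hx : x ∈ e.source) : ∃ ξ : TangentSpace 𝓘(ℂ, E) x, lc e x ξ = w := by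
  have h1 := e.left_inv hx
  rw [← h1]
  exact ⟨ilc e (e x) w, lc_ilc he (e.map_source hx) w⟩

private theorem lc_add (e : OpenPartialHomeomorph M E) (x : M) (a b : TangentSpace 𝓘(ℂ, E) x) :
    lc e x (a + b) = lc e x a + lc e x b :=
  map_add (mfderiv 𝓘(ℂ, E) 𝓘(ℂ, E) e x) a b

theorem sec_bound (h : Hyp f N Es Eu C ν) {ι : Type} [Finite ι] (G : GCover ι E M)
    {s : ι → E → ℂ} {μ μ' : ι → ι → E → ℂ} {K₀ K₁ : ℝ} (hm : Mult f G s μ K₀)
    (hm' : Mult f.symm G s μ' K₁)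
    (hrec : ∀ U : Set M, IsOpen U → (∃ i, ∃ x ∈ U, x ∈ (G.e i).source ∧ s i (G.e i x) ≠ 0) →
      ∃ x ∈ U, (∃ i, x ∈ (G.e i).source ∧ s i (G.e i x) ≠ 0) ∧ Recur f x ∧ Recur f.symm x) :
    ∃ K' : ℝ, ∀ (i : ι) (x : M), G.Io i x → s i (G.e i x) ≠ 0 →
      ‖fderiv ℂ (s i) (G.e i x)‖ ≤ K' * ‖s i (G.e i x)‖ := by
  obtain ⟨k1, hk1, h1⟩ := rec_bound h G hm
  obtain ⟨k2, hk2, h2⟩ := rec_bound (hyp_symm h) G hm'
  obtain ⟨A, hA, hN⟩ := norm_compare h.cont h.smul h.pos G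
  obtain ⟨L, hL, hang⟩ := angle h
  -- recurrent points
  have step : ∀ (i : ι) (x : M), G.Io i x → s i (G.e i x) ≠ 0 → Recur f x → Recur f.symm x →
      ‖fderiv ℂ (s i) (G.e i x)‖ ≤ (k1 + k2) * A * L * A * ‖s i (G.e i x)‖ := by
    intro i x hx hs hr hr'
    have hIn : G.In i x := ⟨hx.1, ball_subset_closedBall hx.2⟩
    refine ContinuousLinearMap.opNorm_le_bound _ (by positivity) fun w => ?_
    obtain ⟨ξ, hξ⟩ := exists_lc (G.mem i) w hx.1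
    have htop : ξ ∈ Es x ⊔ Eu x := by
      rw [(h.compl x).sup_eq_top]
      exact Submodule.mem_top
    obtain ⟨a, ha, b, hb, hab⟩ := Submodule.mem_sup.1 htop
    have hw : w = lc (G.e i) x a + lc (G.e i) x b := by
      rw [← hξ, ← hab, lc_add]
    have e1 := h1 i x hx hs hr a ha
    have e2 := h2 i x hx hs hr' b hb
    obtain ⟨e3, e4⟩ := hang x a b ha hb
    rw [hab] at e3 e4
    have e5 := (hN i x hIn ξ).2
    rw [hξ] at e5
    have e6 := (hN i x hIn a).1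
    have e7 := (hN i x hIn b).1
    have hs0 : 0 ≤ ‖s i (G.e i x)‖ := norm_nonneg _
    have f1 : ‖lc (G.e i) x a‖ ≤ A * (L * (A * ‖w‖)) :=
      e6.trans (mul_le_mul_of_nonneg_left (e3.trans (mul_le_mul_of_nonneg_left e5 hL.le)) hA.le)
    have f2 : ‖lc (G.e i) x b‖ ≤ A * (L * (A * ‖w‖)) :=
      e7.trans (mul_le_mul_of_nonneg_left (e4.trans (mul_le_mul_of_nonneg_left e5 hL.le)) hA.le)
    calc ‖fderiv ℂ (s i) (G.e i x) w‖
        = ‖fderiv ℂ (s i) (G.e i x) (lc (G.e i) x a) + fderiv ℂ (s i) (G.e i x) (lc (G.e i) x b)‖ := by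
          rw [hw, map_add]
      _ ≤ ‖fderiv ℂ (s i) (G.e i x) (lc (G.e i) x a)‖ + ‖fderiv ℂ (s i) (G.e i x) (lc (G.e i) x b)‖ :=
          norm_add_le _ _
      _ ≤ k1 * ‖s i (G.e i x)‖ * (A * (L * (A * ‖w‖))) + k2 * ‖s i (G.e i x)‖ * (A * (L * (A * ‖w‖))) :=
          add_le_add (e1.trans (mul_le_mul_of_nonneg_left f1 (mul_nonneg hk1 hs0)))
            (e2.trans (mul_le_mul_of_nonneg_left f2 (mul_nonneg hk2 hs0)))
      _ = (k1 + k2) * A * L * A * ‖s i (G.e i x)‖ * ‖w‖ := by ring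
  refine ⟨(k1 + k2) * A * L * A, fun i x hx hs => ?_⟩
  by_contra hlt
  rw [not_le] at hlt
  have hc1 : ContinuousOn (s i) (G.e i).target := (hm.ana i).continuousOn
  have hc2 : ContinuousOn (fderiv ℂ (s i)) (G.e i).target := (hm.ana i).fderiv.continuousOn
  have hW1 : IsOpen ((G.e i).target ∩
      (fun z => ‖fderiv ℂ (s i) z‖ - (k1 + k2) * A * L * A * ‖s i z‖) ⁻¹' Ioi 0) :=
    (hc2.norm.sub (continuousOn_const.mul hc1.norm)).isOpen_inter_preimage (G.e i).open_target isOpen_Ioi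
  have hW2 : IsOpen ((G.e i).target ∩ (s i) ⁻¹' {0}ᶜ) :=
    hc1.isOpen_inter_preimage (G.e i).open_target isOpen_compl_singleton
  have hV := (hW1.inter hW2).inter (isOpen_ball (x := G.c i) (ε := 2 * G.r i))
  have hU := (G.e i).isOpen_inter_preimage hV
  obtain ⟨y, hyU, _, hr, hr'⟩ := hrec _ hU ⟨i, x, ⟨hx.1, ⟨⟨(G.e i).map_source hx.1, sub_pos.2 hlt⟩,
    ⟨(G.e i).map_source hx.1, hs⟩⟩, hx.2⟩, hx.1, hs⟩
  obtain ⟨hy1, ⟨⟨_, hy2⟩, ⟨_, hy3⟩⟩, hy4⟩ := hyU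
  have hy5 := step i y ⟨hy1, hy4⟩ hy3 hr hr'
  exact absurd hy5 (not_le.2 (sub_pos.1 hy2))

end

end Pool.Agent.HOA
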