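import Pool.Agent.HOA.KMul
import Pool.Agent.HOA.SecB
import Pool.Agent.HOA.Prop
import Pool.Agent.HOA.Cov
import Pool.Agent.HOA.KPb

/-!
# HOA/KNz: eigensections with dense recurrence have no zeros

The multipliers of `S` for `f` and `f.symm`, the bound of the logarithmic derivative and `propagate`.
-/

open scoped Manifold ContDiff Topology
open Set Metric Filter

namespace Pool.Agent.HOA

noncomputable section

variable {E : Type} [NormedAddCommGroup E] [NormedSpace ℂ E] [FiniteDimensional ℂ E]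
variable {M : Type} [TopologicalSpace M] [T2Space M] [CompactSpace M] [ChartedSpace E M]
  [IsManifold 𝓘(ℂ, E) ω M]
variable {f : Diffeomorph 𝓘(ℂ, E) 𝓘(ℂ, E) M M ω} {N : (x : M) → TangentSpace 𝓘(ℂ, E) x → ℝ}
  {Es Eu : (x : M) → Submodule ℝ (TangentSpace 𝓘(ℂ, E) x)} {C ν : ℝ}

theorem ks_nonzero [ConnectedSpace M] (h : Hyp f N Es Eu C ν) {m : ℤ} {S : M → ℂ}
    (hS : S ∈ KS E m) (h0 : S ≠ 0) {l : ℂ} (hl : l ≠ 0) (hpb : pb (E := E) f m S = l • S)
    (hrec : ∀ U : Set M, IsOpen U → (∃ x ∈ U, S x ≠ 0) →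
      ∃ x ∈ U, S x ≠ 0 ∧ Recur f x ∧ Recur f.symm x) :
    ∀ x, S x ≠ 0 := by
  have hpb' : pb (E := E) f.symm m S = l⁻¹ • S := by
    have h1 := pb_symm (E := E) f m S
    rw [hpb] at h1
    have h2 : pb (E := E) f.symm m (l • S) = l • pb (E := E) f.symm m S := by
      funext x
      simp only [pb, Pi.smul_apply, smul_eq_mul]
      ring
    rw [h2] at h1
    calc pb (E := E) f.symm m S = l⁻¹ • (l • pb (E := E) f.symm m S) := by
          rw [smul_smul, inv_mul_cancel₀ hl, one_smul]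
      _ = l⁻¹ • S := by rw [h1]
  obtain ⟨ι, hι, ⟨G⟩⟩ := exists_cover E M
  obtain ⟨μ, K₀, hm⟩ := ks_mult f hS hl hpb G
  obtain ⟨μ', K₁, hm'⟩ := ks_mult f.symm hS (inv_ne_zero hl) hpb' G
  have hk : ∀ (i : ι) (x : M), x ∈ (G.e i).source → (kloc m S (G.e i) (G.e i x) ≠ 0 ↔ S x ≠ 0) :=
    fun i x hx => kloc_ne_zero m S (G.mem i) hx
  obtain ⟨K', hK'⟩ := sec_bound h G hm hm' (by
    rintro U hU ⟨i, x, hxU, hxs, hx0⟩
    obtain ⟨y, hyU, hy0, hy1, hy2⟩ := hrec U hU ⟨x, hxU, (hk i x hxs).mp hx0⟩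
    obtain ⟨j, hj, -⟩ := G.cov y
    exact ⟨y, hyU, ⟨j, hj, (hk j y hj).mpr hy0⟩, hy1, hy2⟩)
  obtain ⟨x₀, hx₀⟩ : ∃ x, S x ≠ 0 := by
    by_contra hcon
    push Not at hcon
    exact h0 (funext hcon)
  have huniv := propagate G {x | S x ≠ 0} ⟨x₀, hx₀⟩ (fun i => kloc m S (G.e i)) hm.ana
    (fun i x hx => (hk i x hx.1).symm) K'
    (fun i x hx hxA => hK' i x hx ((hk i x hx.1).mpr hxA))
  intro x
  have hx : x ∈ {x | S x ≠ 0} := by
    rw [huniv]
    exact mem_univ x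
  exact hx

end

end Pool.Agent.HOA
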