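import Pool.Agent.HOA.KMeas

/-!
# HOA/KRec: recurrent points are dense where an eigensection is nonzero
-/

open scoped Manifold ContDiff Topology
open Set Metric Filter

namespace Pool.Agent.HOA

noncomputable section

variable {E : Type} [NormedAddCommGroup E] [NormedSpace ℂ E] [FiniteDimensional ℂ E]
variable {M : Type} [TopologicalSpace M] [T2Space M] [CompactSpace M] [ChartedSpace E M]
  [IsManifold 𝓘(ℂ, E) ω M]

theorem exists_rec (f : Diffeomorph 𝓘(ℂ, E) 𝓘(ℂ, E) M M ω) {m : ℤ} (hm : 0 < m) {S : M → ℂ}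
    (hS : S ∈ KS E m) {l : ℂ} (hl : l ≠ 0) (hpb : pb (E := E) f m S = l • S) (h0 : S ≠ 0) :
    ‖l‖ = 1 ∧ ∀ U : Set M, IsOpen U → (∃ x ∈ U, S x ≠ 0) →
      ∃ x ∈ U, S x ≠ 0 ∧ Recur f x ∧ Recur f.symm x := by
  classical
  let _ : MeasurableSpace M := borel M
  have _ : BorelSpace M := ⟨rfl⟩
  have _ : SecondCountableTopology M := ChartedSpace.secondCountable_of_sigmaCompact E M
  obtain ⟨μ, hfin, hpos, hinv⟩ := exists_measure f hm hS hl hpb
  have hm' : (0 : ℝ) < m := by exact_mod_cast hm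
  obtain ⟨x0, hx0⟩ : ∃ x, S x ≠ 0 := by
    by_contra hne
    push Not at hne
    exact h0 (funext hne)
  have hU : μ univ ≠ 0 := hpos univ isOpen_univ ⟨x0, mem_univ _, hx0⟩
  have h1 := hinv univ MeasurableSet.univ
  have hsurj : Function.Surjective (f : M → M) := f.surjective
  rw [image_univ, hsurj.range_eq] at h1
  have h2 : ENNReal.ofReal (‖l‖ ^ (2 / (m : ℝ))) = 1 := by
    have h3 : ENNReal.ofReal (‖l‖ ^ (2 / (m : ℝ))) * μ univ = 1 * μ univ := by
      rw [← h1, one_mul]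
    exact (ENNReal.mul_left_inj hU (MeasureTheory.measure_ne_top μ univ)).1 h3
  have hinv' : ∀ B : Set M, MeasurableSet B → μ (f '' B) = μ B := by
    intro B hB
    rw [hinv B hB, h2, one_mul]
  have hl1 : ‖l‖ = 1 := by
    rw [ENNReal.ofReal_eq_one] at h2
    have h3 : (‖l‖ ^ (2 / (m : ℝ))) ^ ((m : ℝ) / 2) = 1 := by rw [h2, Real.one_rpow]
    rw [← Real.rpow_mul (norm_nonneg l)] at h3
    have h4 : 2 / (m : ℝ) * ((m : ℝ) / 2) = 1 := by
      field_simp
    rw [h4, Real.rpow_one] at h3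
    exact h3
  refine ⟨hl1, ?_⟩
  have hf : MeasureTheory.MeasurePreserving f μ μ := by
    refine ⟨f.continuous.measurable, ?_⟩
    ext B hB
    rw [MeasureTheory.Measure.map_apply f.continuous.measurable hB,
      ← hinv' _ (f.continuous.measurable hB), image_preimage_eq B hsurj]
  have hg : MeasureTheory.MeasurePreserving f.symm μ μ := by
    refine ⟨f.symm.continuous.measurable, ?_⟩
    ext B hB
    rw [MeasureTheory.Measure.map_apply f.symm.continuous.measurable hB, ← hinv' B hB]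
    congr 1
    ext x
    constructor
    · intro hx
      exact ⟨f.symm x, hx, f.apply_symm_apply x⟩
    · rintro ⟨y, hy, rfl⟩
      show f.symm (f y) ∈ B
      rw [f.symm_apply_apply]
      exact hy
  have hae1 := hf.conservative.ae_frequently_mem_of_mem_nhds
  have hae2 := hg.conservative.ae_frequently_mem_of_mem_nhds
  intro U hUo hUx
  obtain ⟨x1, hx1, hS1⟩ := hUx
  set e := chartAt E x1 with he
  have hea : e ∈ atlas E M := chart_mem_atlas E x1
  have hx1s : x1 ∈ e.source := mem_chart_source E x1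
  have hcont : ContinuousOn (kloc m S e) e.target := (hS e hea).continuousOn
  set V : Set M := U ∩ (e.source ∩ e ⁻¹' (e.target ∩ (kloc m S e) ⁻¹' {0}ᶜ)) with hV
  have hVo : IsOpen V := by
    refine hUo.inter (e.isOpen_inter_preimage ?_)
    exact hcont.isOpen_inter_preimage e.open_target isOpen_compl_singleton
  have hVmem : ∀ x ∈ V, x ∈ U ∧ S x ≠ 0 := by
    rintro x ⟨hxU, hxs, hxt, hxne⟩
    exact ⟨hxU, (kloc_ne_zero m S hea hxs).1 hxne⟩
  have hx1V : x1 ∈ V := ⟨hx1, hx1s, e.map_source hx1s, (kloc_ne_zero m S hea hx1s).2 hS1⟩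
  have hVpos : μ V ≠ 0 := hpos V hVo ⟨x1, hx1V, hS1⟩
  have hfreq : ∃ x ∈ V, (∀ s ∈ 𝓝 x, ∃ᶠ n in atTop, f^[n] x ∈ s) ∧
      ∀ s ∈ 𝓝 x, ∃ᶠ n in atTop, f.symm^[n] x ∈ s := by
    by_contra hne
    push Not at hne
    apply hVpos
    have h5 := hae1.and hae2
    rw [MeasureTheory.ae_iff] at h5
    refine MeasureTheory.measure_mono_null ?_ h5
    intro x hx
    show ¬ _
    rintro ⟨ha, hb⟩
    obtain ⟨s, hs, hs'⟩ := hne x hx ha
    exact (hb s hs) hs'
  obtain ⟨x, hxV, hr1, hr2⟩ := hfreq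
  exact ⟨x, (hVmem x hxV).1, (hVmem x hxV).2, hr1, hr2⟩

end

end Pool.Agent.HOA
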