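import Pool.Agent.HOA.KLoc

/-!
# HOA/KUn: quotient of two sections of a power of the canonical bundle (maximum principle)
-/

open scoped Manifold ContDiff Topology
open Set Metric Filter

namespace Pool.Agent.HOA

noncomputable section

variable {E : Type} [NormedAddCommGroup E] [NormedSpace ℂ E] [FiniteDimensional ℂ E]
variable {M : Type} [TopologicalSpace M] [T2Space M] [CompactSpace M] [ChartedSpace E M]
  [IsManifold 𝓘(ℂ, E) ω M]

theorem ks_unique [ConnectedSpace M] {m : ℤ} {S : M → ℂ} (hS : S ∈ KS E m) (h0 : ∀ x, S x ≠ 0)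
    {S' : M → ℂ} (hS' : S' ∈ KS E m) : ∃ a : ℂ, S' = a • S := by
  have hman : IsManifold 𝓘(ℂ, E) 1 M := IsManifold.of_le (n := ω) le_top
  have hmd : MDifferentiable 𝓘(ℂ, E) 𝓘(ℂ, ℂ) (fun x => S' x / S x) := by
    intro x0
    have he : chartAt E x0 ∈ atlas E M := chart_mem_atlas E x0
    have hx0 : x0 ∈ (chartAt E x0).source := mem_chart_source E x0
    have hQ : DifferentiableAt ℂ (fun z => kloc m S' (chartAt E x0) z / kloc m S (chartAt E x0) z)
        (chartAt E x0 x0) := by
      exact ((hS' _ he _ ((chartAt E x0).map_source hx0)).fun_div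
        (hS _ he _ ((chartAt E x0).map_source hx0)) ((kloc_ne_zero m S he hx0).2 (h0 x0))).differentiableAt
    have h1 : MDifferentiableAt 𝓘(ℂ, E) 𝓘(ℂ, ℂ)
        ((fun z => kloc m S' (chartAt E x0) z / kloc m S (chartAt E x0) z) ∘ (chartAt E x0)) x0 :=
      MDifferentiableAt.comp x0 hQ.mdifferentiableAt (mdifferentiableAt_atlas he hx0)
    refine h1.congr_of_eventuallyEq ?_
    filter_upwards [(chartAt E x0).open_source.mem_nhds hx0] with x hx
    have h2 : kloc m S (chartAt E x0) (chartAt E x0 x) ≠ 0 := (kloc_ne_zero m S he hx).2 (h0 x)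
    show S' x / S x = kloc m S' (chartAt E x0) (chartAt E x0 x) / kloc m S (chartAt E x0) (chartAt E x0 x)
    have h3 : ∀ R : M → ℂ, kloc m R (chartAt E x0) (chartAt E x0 x) =
        R x * (fderiv ℂ (chartAt E x ∘ (chartAt E x0).symm) (chartAt E x0 x)).det ^ m := by
      intro R
      unfold kloc
      rw [(chartAt E x0).left_inv hx]
    rw [h3 S] at h2
    rw [h3 S, h3 S']
    have h4 := (mul_ne_zero_iff.1 h2).2
    rw [mul_div_mul_right _ _ h4]
  obtain ⟨a, ha⟩ := hmd.exists_eq_const_of_compactSpace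
  refine ⟨a, ?_⟩
  funext x
  have h1 : S' x / S x = a := congrFun ha x
  rw [Pi.smul_apply, smul_eq_mul, ← h1, div_mul_cancel₀ _ (h0 x)]

end

end Pool.Agent.HOA
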