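import Pool.Agent.HOA.KEig
import Pool.Agent.HOA.KRec
import Pool.Agent.HOA.KNz
import Pool.Agent.HOA.KUn

/-!
# Sections of powers of the canonical bundle (assembly)
-/

open scoped Manifold ContDiff Topology
open Set Metric Filter

namespace Pool.Agent.HOA

noncomputable section

variable {E : Type} [NormedAddCommGroup E] [NormedSpace ℂ E] [FiniteDimensional ℂ E]
variable {M : Type} [TopologicalSpace M] [T2Space M] [CompactSpace M] [ChartedSpace E M]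
  [IsManifold 𝓘(ℂ, E) ω M]
variable {f : Diffeomorph 𝓘(ℂ, E) 𝓘(ℂ, E) M M ω} {N : (x : M) → TangentSpace 𝓘(ℂ, E) x → ℝ}
  {Es Eu : (x : M) → Submodule ℝ (TangentSpace 𝓘(ℂ, E) x)} {C ν : ℝ}

omit [FiniteDimensional ℂ E] [T2Space M] [CompactSpace M] [IsManifold 𝓘(ℂ, E) ω M] in
theorem pb_smul (g : M → M) (m : ℤ) (a : ℂ) (S : M → ℂ) :
    pb (E := E) g m (a • S) = a • pb (E := E) g m S := by
  funext x
  simp [pb, mul_assoc]

theorem canonical_main [ConnectedSpace M] (h : Hyp f N Es Eu C ν) {m : ℤ} (hm : 0 < m)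
    {S : M → ℂ} (hS : S ∈ KS E m) (h0 : S ≠ 0) :
    (∀ x, S x ≠ 0) ∧ (∀ S' ∈ KS E m, ∃ a : ℂ, S' = a • S) ∧
      ∃ l : ℂ, ‖l‖ = 1 ∧ pb (E := E) f m S = l • S := by
  obtain ⟨S₁, hS₁, h1, l, hl, hpb⟩ := ks_eigen f m hS h0
  obtain ⟨hl1, hrec⟩ := exists_rec f hm hS₁ hl hpb h1
  have hnz := ks_nonzero h hS₁ h1 hl hpb hrec
  obtain ⟨a, ha⟩ := ks_unique hS₁ hnz hS
  have ha0 : a ≠ 0 := by
    rintro rfl
    exact h0 (by rw [ha, zero_smul])
  refine ⟨?_, ?_, l, hl1, ?_⟩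
  · intro x
    rw [ha]
    exact mul_ne_zero ha0 (hnz x)
  · intro S' hS'
    obtain ⟨a', ha'⟩ := ks_unique hS₁ hnz hS'
    refine ⟨a' * a⁻¹, ?_⟩
    rw [ha', ha, smul_smul]
    congr 1
    field_simp
  · rw [ha, pb_smul, hpb, smul_comm]

end

end Pool.Agent.HOA
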