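import Pool.Agent.HOA.KLoc
import Pool.Agent.HOA.KPb
import Pool.Agent.HOA.CVar
import Pool.Agent.HOA.Glue
import Pool.Agent.HOA.Cov

/-!
# HOA/KMeas: the finite quasi-invariant measure defined by an eigensection

In the chart `e` the measure has the density `‖kloc m S e z‖ ^ (2 / m)`; the measures of the charts
agree by the change of variables formula, and are glued.
-/

open scoped Manifold ContDiff Topology
open Set Metric Filter
open MeasureTheory

namespace Pool.Agent.HOA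

noncomputable section

section aux

variable {E : Type} [NormedAddCommGroup E] [NormedSpace ℂ E] [FiniteDimensional ℂ E]
  [MeasurableSpace E] [BorelSpace E]
variable {M : Type} [TopologicalSpace M] [ChartedSpace E M]
  [MeasurableSpace M] [BorelSpace M]

/-- the density in the chart `e` -/
private def rho (m : ℤ) (S : M → ℂ) (e : OpenPartialHomeomorph M E) (z : E) : ENNReal :=
  ENNReal.ofReal (‖kloc m S e z‖ ^ (2 / (m : ℝ)))

/-- the measure on the source of the chart `e` -/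
private def nu (μE : Measure E) (m : ℤ) (S : M → ℂ) (e : OpenPartialHomeomorph M E) : Measure M :=
  ((μE.restrict e.target).withDensity (rho m S e)).map e.symm

omit [NormedSpace ℂ E] [FiniteDimensional ℂ E] [ChartedSpace E M] in
private theorem meas_image (e : OpenPartialHomeomorph M E) {B : Set M} (hB : MeasurableSet B)
    (hBe : B ⊆ e.source) : MeasurableSet (e '' B) := by
  have h1 : Measurable (e.target.domRestrict e.symm) :=
    (continuousOn_iff_continuous_domRestrict.1 e.continuousOn_symm).measurable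
  have h2 : MeasurableSet ((↑) '' ((e.target.domRestrict e.symm) ⁻¹' B) : Set E) :=
    MeasurableSet.subtype_image e.open_target.measurableSet (h1 hB)
  have h3 : e '' B = (↑) '' ((e.target.domRestrict e.symm) ⁻¹' B) := by
    rw [e.image_eq_target_inter_inv_preimage hBe]
    ext z
    constructor
    · rintro ⟨hz, hz'⟩
      exact ⟨⟨z, hz⟩, hz', rfl⟩
    · rintro ⟨w, hw, rfl⟩
      exact ⟨w.2, hw⟩
  rw [h3]
  exact h2

omit [FiniteDimensional ℂ E] in
private theorem nu_apply (μE : Measure E) [SFinite μE] (m : ℤ) (S : M → ℂ) (e : OpenPartialHomeomorph M E)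
    {B : Set M} (hB : MeasurableSet B) (hBe : B ⊆ e.source) :
    nu μE m S e B = ∫⁻ z in e '' B, rho m S e z ∂μE := by
  have h1 : AEMeasurable e.symm (μE.restrict e.target) :=
    e.continuousOn_symm.aemeasurable e.open_target.measurableSet
  have h2 : AEMeasurable e.symm ((μE.restrict e.target).withDensity (rho m S e)) :=
    h1.mono_ac (withDensity_absolutelyContinuous _ _)
  unfold nu
  rw [Measure.map_apply_of_aemeasurable h2 hB, withDensity_apply',
    Measure.restrict_restrict' e.open_target.measurableSet, e.image_eq_target_inter_inv_preimage hBe,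
    Set.inter_comm]

omit [FiniteDimensional ℂ E] [MeasurableSpace E] [BorelSpace E] [MeasurableSpace M] [BorelSpace M] in
private theorem kloc_smul (m : ℤ) (S : M → ℂ) (l : ℂ) (e : OpenPartialHomeomorph M E) (z : E) :
    kloc m (l • S) e z = l * kloc m S e z := by
  simp [kloc, mul_assoc]

private theorem pow_key {m : ℤ} (hm : 0 < m) {a b d l : ℝ} (ha : 0 ≤ a) (hb : 0 ≤ b) (hd : 0 ≤ d)
    (hl : 0 ≤ l) (h : l * a = b * d ^ m) :
    b ^ (2 / (m : ℝ)) * d ^ 2 = l ^ (2 / (m : ℝ)) * a ^ (2 / (m : ℝ)) := by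
  have hm' : (m : ℝ) ≠ 0 := by exact_mod_cast hm.ne'
  have h1 : (d ^ m) ^ (2 / (m : ℝ)) = d ^ 2 := by
    rw [← Real.rpow_intCast, ← Real.rpow_mul hd, mul_div_cancel₀ _ hm']
    exact Real.rpow_two d
  rw [← Real.mul_rpow hl ha, h, Real.mul_rpow hb (zpow_nonneg hd m), h1]

private theorem key (μE : Measure E) [μE.IsAddHaarMeasure] [SFinite μE] [T2Space M] [CompactSpace M]
    [IsManifold 𝓘(ℂ, E) ω M] {m : ℤ} (hm : 0 < m) {S : M → ℂ}
    (g : Diffeomorph 𝓘(ℂ, E) 𝓘(ℂ, E) M M ω) {l : ℂ} (hpb : pb (E := E) g m S = l • S)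
    {e e' : OpenPartialHomeomorph M E} (he : e ∈ atlas E M) (he' : e' ∈ atlas E M)
    {B : Set M} (hB : MeasurableSet B) (hBe : B ⊆ e.source) (hgB : g '' B ⊆ e'.source) :
    nu μE m S e' (g '' B) = ENNReal.ofReal (‖l‖ ^ (2 / (m : ℝ))) * nu μE m S e B := by
  have hgBm : MeasurableSet (g '' B) := by
    have h1 : g '' B = g.symm ⁻¹' B := by
      ext y
      constructor
      · rintro ⟨x, hx, rfl⟩
        show g.symm (g x) ∈ B
        rw [g.symm_apply_apply]
        exact hx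
      · intro hy
        exact ⟨g.symm y, hy, g.apply_symm_apply y⟩
    rw [h1]
    exact g.symm.continuous.measurable hB
  rw [nu_apply μE m S e' hgBm hgB, nu_apply μE m S e hB hBe]
  have hF : lmap e g e' '' (e '' B) = e' '' (g '' B) := by
    ext z
    constructor
    · rintro ⟨_, ⟨x, hx, rfl⟩, rfl⟩
      refine ⟨g x, ⟨x, hx, rfl⟩, ?_⟩
      show e' (g x) = e' (g (e.symm (e x)))
      rw [e.left_inv (hBe hx)]
    · rintro ⟨_, ⟨x, hx, rfl⟩, rfl⟩
      refine ⟨e x, ⟨x, hx, rfl⟩, ?_⟩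
      show e' (g (e.symm (e x))) = e' (g x)
      rw [e.left_inv (hBe hx)]
  have hU : IsOpen (e.target ∩ e.symm ⁻¹' (g ⁻¹' e'.source)) :=
    e.isOpen_inter_preimage_symm (e'.open_source.preimage g.continuous)
  have hQU : e '' B ⊆ e.target ∩ e.symm ⁻¹' (g ⁻¹' e'.source) := by
    rintro _ ⟨x, hx, rfl⟩
    refine ⟨e.map_source (hBe hx), ?_⟩
    show g (e.symm (e x)) ∈ e'.source
    rw [e.left_inv (hBe hx)]
    exact hgB ⟨x, hx, rfl⟩
  have hA : AnalyticOnNhd ℂ (lmap e g e') (e.target ∩ e.symm ⁻¹' (g ⁻¹' e'.source)) :=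
    fun z hz => lmap_analytic g.contMDiff he he' hz.1 hz.2
  have hinj : InjOn (lmap e g e') (e '' B) := by
    rintro _ ⟨x, hx, rfl⟩ _ ⟨y, hy, rfl⟩ hxy
    have h1 : e' (g (e.symm (e x))) = e' (g (e.symm (e y))) := hxy
    rw [e.left_inv (hBe hx), e.left_inv (hBe hy)] at h1
    have h2 := e'.injOn (hgB ⟨x, hx, rfl⟩) (hgB ⟨y, hy, rfl⟩) h1
    rw [g.injective h2]
  have hρ : ∀ z ∈ e '' B, rho m S e' (lmap e g e' z) *
      ENNReal.ofReal (‖(fderiv ℂ (lmap e g e') z).det‖ ^ 2) =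
      ENNReal.ofReal (‖l‖ ^ (2 / (m : ℝ))) * rho m S e z := by
    intro z hz
    have hz' := hQU hz
    have h1 := kloc_pb g m S he he' hz'.1 hz'.2
    rw [hpb, kloc_smul] at h1
    have h2 := congrArg norm h1
    rw [norm_mul, norm_mul, norm_zpow] at h2
    have h3 := pow_key hm (norm_nonneg _) (norm_nonneg _) (norm_nonneg _) (norm_nonneg _) h2
    unfold rho
    rw [← ENNReal.ofReal_mul (by positivity), ← ENNReal.ofReal_mul (by positivity), h3]
  rw [← hF, change_vars μE hU hQU (meas_image e hB hBe) hA hinj hρ,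
    lintegral_const_mul' _ _ ENNReal.ofReal_ne_top]

omit [FiniteDimensional ℂ E] [MeasurableSpace E] [BorelSpace E] [MeasurableSpace M] [BorelSpace M] in
private theorem pb_refl [IsManifold 𝓘(ℂ, E) ω M] (m : ℤ) (S : M → ℂ) :
    pb (E := E) (Diffeomorph.refl 𝓘(ℂ, E) M ω) m S = (1 : ℂ) • S := by
  funext x
  have h1 : lmap (chartAt E x) (Diffeomorph.refl 𝓘(ℂ, E) M ω) (chartAt E x) =ᶠ[𝓝 (chartAt E x x)]
      (fun z => z) := by
    filter_upwards [(chartAt E x).open_target.mem_nhds (mem_chart_target E x)] with z hz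
    exact (chartAt E x).right_inv hz
  have h2 : fderiv ℂ (lmap (chartAt E x) (Diffeomorph.refl 𝓘(ℂ, E) M ω) (chartAt E x)) (chartAt E x x) =
      ContinuousLinearMap.id ℂ E := by
    rw [h1.fderiv_eq, fderiv_fun_id]
  show S x * (fderiv ℂ (lmap (chartAt E x) (Diffeomorph.refl 𝓘(ℂ, E) M ω) (chartAt E x))
    (chartAt E x x)).det ^ m = (1 : ℂ) * S x
  rw [h2]
  simp [ContinuousLinearMap.det]

omit [MeasurableSpace E] [BorelSpace E] [FiniteDimensional ℂ E] [MeasurableSpace M] [BorelSpace M] in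
private theorem rho_cont {m : ℤ} (hm : 0 < m) {S : M → ℂ} (hS : S ∈ KS E m)
    {e : OpenPartialHomeomorph M E} (he : e ∈ atlas E M) :
    ContinuousOn (fun z => ‖kloc m S e z‖ ^ (2 / (m : ℝ))) e.target := by
  have h1 : ContinuousOn (kloc m S e) e.target := (hS e he).continuousOn
  have h2 : 0 ≤ 2 / (m : ℝ) := by
    have : (0 : ℝ) < m := by exact_mod_cast hm
    positivity
  exact h1.norm.rpow_const fun z _ => Or.inr h2

omit [FiniteDimensional ℂ E] in
private theorem fin_aux (μE : Measure E) [μE.IsAddHaarMeasure] [SFinite μE] {m : ℤ} (hm : 0 < m)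
    {S : M → ℂ} (hS : S ∈ KS E m) {e : OpenPartialHomeomorph M E} (he : e ∈ atlas E M)
    {K : Set E} (hK : IsCompact K) (hKt : K ⊆ e.target) {B : Set M} (hB : MeasurableSet B)
    (hBe : B ⊆ e.source) (hBK : e '' B ⊆ K) : nu μE m S e B < ⊤ := by
  obtain ⟨C, hC⟩ := hK.exists_bound_of_continuousOn ((rho_cont hm hS he).mono hKt)
  rw [nu_apply μE m S e hB hBe]
  calc ∫⁻ z in e '' B, rho m S e z ∂μE ≤ ∫⁻ z in K, rho m S e z ∂μE := lintegral_mono_set hBK
    _ ≤ ∫⁻ _ in K, ENNReal.ofReal C ∂μE := by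
        refine setLIntegral_mono' hK.measurableSet fun z hz => ?_
        exact ENNReal.ofReal_le_ofReal ((le_abs_self _).trans (hC z hz))
    _ = ENNReal.ofReal C * μE K := by rw [setLIntegral_const]
    _ < ⊤ := ENNReal.mul_lt_top ENNReal.ofReal_lt_top hK.measure_lt_top

private theorem pos_aux (μE : Measure E) [μE.IsAddHaarMeasure] [SFinite μE] [T2Space M] [CompactSpace M]
    [IsManifold 𝓘(ℂ, E) ω M] {m : ℤ} (hm : 0 < m)
    {S : M → ℂ} (hS : S ∈ KS E m) {e : OpenPartialHomeomorph M E} (he : e ∈ atlas E M)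
    {V : Set M} (hV : IsOpen V) {x : M} (hx : x ∈ V) (hxe : x ∈ e.source) (hSx : S x ≠ 0) :
    ∃ B : Set M, MeasurableSet B ∧ B ⊆ V ∧ B ⊆ e.source ∧ nu μE m S e B ≠ 0 := by
  have hk : kloc m S e (e x) ≠ 0 := (kloc_ne_zero m S he hxe).2 hSx
  have hpos : 0 < rho m S e (e x) :=
    ENNReal.ofReal_pos.2 (Real.rpow_pos_of_pos (norm_pos_iff.2 hk) _)
  have hc : ContinuousAt (rho m S e) (e x) :=
    (ENNReal.continuous_ofReal.continuousAt).comp
      ((rho_cont hm hS he).continuousAt (e.open_target.mem_nhds (e.map_source hxe)))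
  have h1 : ∀ᶠ z in 𝓝 (e x), rho m S e (e x) / 2 < rho m S e z :=
    hc.eventually (lt_mem_nhds (ENNReal.half_lt_self hpos.ne' ENNReal.ofReal_ne_top))
  obtain ⟨W, hW, hWo, hxW⟩ := _root_.mem_nhds_iff.1 h1
  have hO : IsOpen (e.source ∩ e ⁻¹' W) := e.isOpen_inter_preimage hWo
  refine ⟨(e.source ∩ e ⁻¹' W) ∩ V, (hO.inter hV).measurableSet, fun y hy => hy.2,
    fun y hy => hy.1.1, ?_⟩
  have hBo : IsOpen ((e.source ∩ e ⁻¹' W) ∩ V) := hO.inter hV
  have hBe : (e.source ∩ e ⁻¹' W) ∩ V ⊆ e.source := fun y hy => hy.1.1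
  rw [nu_apply μE m S e hBo.measurableSet hBe]
  have hI : IsOpen (e '' ((e.source ∩ e ⁻¹' W) ∩ V)) := by
    rw [e.image_eq_target_inter_inv_preimage hBe]
    exact e.isOpen_inter_preimage_symm hBo
  have hne : (e '' ((e.source ∩ e ⁻¹' W) ∩ V)).Nonempty := ⟨e x, x, ⟨⟨hxe, hxW⟩, hx⟩, rfl⟩
  have h2 : ∫⁻ _ in e '' ((e.source ∩ e ⁻¹' W) ∩ V), rho m S e (e x) / 2 ∂μE ≤
      ∫⁻ z in e '' ((e.source ∩ e ⁻¹' W) ∩ V), rho m S e z ∂μE := by
    refine setLIntegral_mono' hI.measurableSet ?_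
    rintro _ ⟨y, hy, rfl⟩
    exact (hW hy.1.2).le
  rw [setLIntegral_const] at h2
  have h3 : 0 < rho m S e (e x) / 2 * μE (e '' ((e.source ∩ e ⁻¹' W) ∩ V)) :=
    ENNReal.mul_pos (ENNReal.half_pos hpos.ne').ne' (hI.measure_pos μE hne).ne'
  exact (h3.trans_le h2).ne'

end aux

variable {E : Type} [NormedAddCommGroup E] [NormedSpace ℂ E] [FiniteDimensional ℂ E]
variable {M : Type} [TopologicalSpace M] [T2Space M] [CompactSpace M] [ChartedSpace E M]
  [IsManifold 𝓘(ℂ, E) ω M]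

theorem exists_measure [MeasurableSpace M] [BorelSpace M]
    (f : Diffeomorph 𝓘(ℂ, E) 𝓘(ℂ, E) M M ω) {m : ℤ} (hm : 0 < m) {S : M → ℂ} (hS : S ∈ KS E m)
    {l : ℂ} (hl : l ≠ 0) (hpb : pb (E := E) f m S = l • S) :
    ∃ μ : Measure M, IsFiniteMeasure μ ∧
      (∀ U : Set M, IsOpen U → (∃ x ∈ U, S x ≠ 0) → μ U ≠ 0) ∧
      ∀ B : Set M, MeasurableSet B → μ (f '' B) = ENNReal.ofReal (‖l‖ ^ (2 / (m : ℝ))) * μ B := by
  let _ : MeasurableSpace E := borel E
  have : BorelSpace E := ⟨rfl⟩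
  have : ProperSpace E := FiniteDimensional.proper ℂ E
  obtain ⟨μE, hμE⟩ : ∃ μE : Measure E, μE = Measure.addHaar := ⟨_, rfl⟩
  have : μE.IsAddHaarMeasure := by rw [hμE]; infer_instance
  have : SFinite μE := by infer_instance
  obtain ⟨ι, hι, ⟨G⟩⟩ := exists_cover E M
  obtain ⟨U, hU⟩ : ∃ U : ι → Set M, ∀ i, U i = (G.e i).source ∩ (G.e i) ⁻¹' ball (G.c i) (2 * G.r i) :=
    ⟨_, fun _ => rfl⟩
  have hUo : ∀ i, IsOpen (U i) := fun i => by
    rw [hU]
    exact (G.e i).isOpen_inter_preimage isOpen_ball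
  have hUm : ∀ i, MeasurableSet (U i) := fun i => (hUo i).measurableSet
  have hUc : ∀ x, ∃ i, x ∈ U i := by
    intro x
    obtain ⟨i, h1, h2⟩ := G.cov x
    refine ⟨i, ?_⟩
    rw [hU]
    exact ⟨h1, ball_subset_ball (by linarith [G.pos i]) h2⟩
  have hUs : ∀ i, U i ⊆ (G.e i).source := fun i x hx => by
    rw [hU] at hx
    exact hx.1
  have hcompat : ∀ i j B, MeasurableSet B → B ⊆ U i → B ⊆ U j →
      nu μE m S (G.e i) B = nu μE m S (G.e j) B := by
    intro i j B hB hi hj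
    have hid : (Diffeomorph.refl 𝓘(ℂ, E) M ω) '' B = B := Set.image_id B
    have h1 := key μE hm (Diffeomorph.refl 𝓘(ℂ, E) M ω) (pb_refl m S) (G.mem i) (G.mem j) hB
      (hi.trans (hUs i)) (by rw [hid]; exact hj.trans (hUs j))
    rw [hid, norm_one, Real.one_rpow, ENNReal.ofReal_one, one_mul] at h1
    exact h1.symm
  have hfin : ∀ i, nu μE m S (G.e i) (U i) < ⊤ := by
    intro i
    refine fin_aux μE hm hS (G.mem i) (isCompact_closedBall (G.c i) (3 * G.r i)) (G.sub i) (hUm i)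
      (hUs i) ?_
    rintro _ ⟨x, hx, rfl⟩
    rw [hU] at hx
    exact ball_subset_closedBall (ball_subset_ball (by linarith [G.pos i]) hx.2)
  obtain ⟨μ, hμf, hμ⟩ := glue_measure U hUm hUc (fun i => nu μE m S (G.e i)) hcompat hfin
  refine ⟨μ, hμf, ?_, ?_⟩
  · rintro V hV ⟨x, hx, hSx⟩
    obtain ⟨i, hi⟩ := hUc x
    obtain ⟨B, hB, hBV, _, hB0⟩ := pos_aux μE hm hS (G.mem i) (hV.inter (hUo i)) ⟨hx, hi⟩ (hUs i hi) hSx
    have h1 : μ B ≠ 0 := by
      rw [hμ i B hB fun y hy => (hBV hy).2]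
      exact hB0
    have h2 : μ B ≤ μ V := measure_mono fun y hy => (hBV hy).1
    exact fun h0 => h1 (le_antisymm (h2.trans_eq h0) bot_le)
  · have himg : ∀ B : Set M, f '' B = f.symm ⁻¹' B := by
      intro B
      ext y
      constructor
      · rintro ⟨x, hx, rfl⟩
        show f.symm (f x) ∈ B
        rw [f.symm_apply_apply]
        exact hx
      · intro hy
        exact ⟨f.symm y, hy, f.apply_symm_apply y⟩
    have hfm : Measurable f.symm := f.symm.continuous.measurable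
    have hmap : ∀ B : Set M, MeasurableSet B → μ.map f.symm B = μ (f '' B) := by
      intro B hB
      rw [Measure.map_apply hfm hB, himg]
    have heq : μ.map f.symm = ENNReal.ofReal (‖l‖ ^ (2 / (m : ℝ))) • μ := by
      refine measure_ext_cover (ι := ι × ι) (fun p => U p.1 ∩ f ⁻¹' U p.2) ?_ ?_ _ _ ?_
      · intro p
        exact (hUm p.1).inter (f.continuous.measurable (hUm p.2))
      · intro x
        obtain ⟨i, hi⟩ := hUc x
        obtain ⟨j, hj⟩ := hUc (f x)
        exact ⟨(i, j), hi, hj⟩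
      · rintro ⟨i, j⟩ B hB hBU
        have h1 : B ⊆ U i := fun y hy => (hBU hy).1
        have h2 : f '' B ⊆ U j := by
          rintro _ ⟨y, hy, rfl⟩
          exact (hBU hy).2
        have h3 : MeasurableSet (f '' B) := by
          rw [himg]
          exact hfm hB
        rw [hmap B hB, hμ j _ h3 h2, Measure.smul_apply, smul_eq_mul, hμ i B hB h1]
        exact key μE hm f hpb (G.mem i) (G.mem j) hB (h1.trans (hUs i)) (h2.trans (hUs j))
    intro B hB
    rw [← hmap B hB, heq, Measure.smul_apply, smul_eq_mul]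

end

end Pool.Agent.HOA
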