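import Pool.Agent.HOA.KLoc
import Pool.Agent.HOA.KPb
import Pool.Agent.HOA.LBd
import Pool.Agent.HOA.DetF

/-!
# HOA/KMul: the multipliers of an eigensection
-/

open scoped Manifold ContDiff Topology
open Set Metric Filter

namespace Pool.Agent.HOA

noncomputable section

variable {E : Type} [NormedAddCommGroup E] [NormedSpace ℂ E] [FiniteDimensional ℂ E]
variable {M : Type} [TopologicalSpace M] [T2Space M] [CompactSpace M] [ChartedSpace E M]
  [IsManifold 𝓘(ℂ, E) ω M]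

private theorem mult_aux {D : E → ℂ} {z : E} (hD : DifferentiableAt ℂ D z) (h0 : D z ≠ 0) (c : ℂ)
    (m : ℤ) : HasFDerivAt (fun y => c * D y ^ m) ((c * (m * D z ^ (m - 1))) • fderiv ℂ D z) z := by
  have h1 : HasDerivAt (fun t : ℂ => c * t ^ m) (c * (m * D z ^ (m - 1))) (D z) :=
    (hasDerivAt_zpow m (D z) (Or.inl h0)).const_mul c
  exact h1.comp_hasFDerivAt z hD.hasFDerivAt

theorem ks_mult (f : Diffeomorph 𝓘(ℂ, E) 𝓘(ℂ, E) M M ω) {m : ℤ} {S : M → ℂ} (hS : S ∈ KS E m)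
    {l : ℂ} (hl : l ≠ 0) (hpb : pb (E := E) f m S = l • S) {ι : Type} [Finite ι]
    (G : GCover ι E M) :
    ∃ (μ : ι → ι → E → ℂ) (K : ℝ), Mult f G (fun i => kloc m S (G.e i)) μ K := by
  obtain ⟨C, hC, hb⟩ := lmap_bounds f G
  have hkey : ∀ (i j : ι) (x : M), x ∈ (G.e i).source → f x ∈ (G.e j).source →
      DifferentiableAt ℂ (fun y => (fderiv ℂ (lmap (G.e i) f (G.e j)) y).det) (G.e i x) ∧
      (fderiv ℂ (lmap (G.e i) f (G.e j)) (G.e i x)).det ≠ 0 ∧
      ∀ w, fderiv ℂ (fun y => (fderiv ℂ (lmap (G.e i) f (G.e j)) y).det) (G.e i x) w =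
        (fderiv ℂ (lmap (G.e i) f (G.e j)) (G.e i x)).det *
          Bt (lmap (G.e i) f (G.e j)) (G.e i x) w := by
    intro i j x hx hfx
    have h1 : AnalyticAt ℂ (lmap (G.e i) f (G.e j)) (G.e i x) := by
      refine lmap_analytic f.contMDiff (G.mem i) (G.mem j) ((G.e i).map_source hx) ?_
      rw [(G.e i).left_inv hx]
      exact hfx
    have h2 := lmap_invertible f (G.mem i) (G.mem j) hx hfx
    exact ⟨(det_fderiv h1 h2.1 0).1, h2.2, fun w => (det_fderiv h1 h2.1 w).2⟩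
  refine ⟨fun i j z => l⁻¹ * (fderiv ℂ (lmap (G.e i) f (G.e j)) z).det ^ m, |(m : ℝ)| * C,
    ⟨?_, ?_, ?_, ?_, ?_⟩⟩
  · intro i
    exact hS (G.e i) (G.mem i)
  · intro i j x hi hj h
    by_contra hne
    have h1 : S x ≠ 0 := (kloc_ne_zero m S (G.mem j) hj).1 hne
    exact (kloc_ne_zero m S (G.mem i) hi).2 h1 h
  · intro i j x hx hfx
    have hz : G.e i x ∈ (G.e i).target := (G.e i).map_source hx
    have hfx' : f ((G.e i).symm (G.e i x)) ∈ (G.e j).source := by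
      rw [(G.e i).left_inv hx]
      exact hfx
    have h1 := kloc_pb f m S (G.mem i) (G.mem j) hz hfx'
    have h2 : lmap (G.e i) f (G.e j) (G.e i x) = G.e j (f x) := by
      simp only [lmap, Function.comp_apply]
      rw [(G.e i).left_inv hx]
    have h3 : kloc m (l • S) (G.e i) (G.e i x) = l * kloc m S (G.e i) (G.e i x) := by
      simp [kloc, mul_assoc]
    rw [hpb, h3, h2] at h1
    have h4 : kloc m S (G.e i) (G.e i x) = l⁻¹ * (l * kloc m S (G.e i) (G.e i x)) := by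
      rw [inv_mul_cancel_left₀ hl]
    rw [h4, h1]
    ring
  · intro i j x hx hfx
    obtain ⟨h1, h2, -⟩ := hkey i j x hx hfx
    refine ⟨(mult_aux h1 h2 l⁻¹ m).differentiableAt, ?_⟩
    exact mul_ne_zero (inv_ne_zero hl) (zpow_ne_zero m h2)
  · intro i j x hx hfx w
    obtain ⟨h1, h2, h3⟩ := hkey i j x hx.1 hfx.1
    rw [(mult_aux h1 h2 l⁻¹ m).fderiv]
    have h4 := (hb i j x hx hfx).2.1 w
    have h5 : ((l⁻¹ * (m * (fderiv ℂ (lmap (G.e i) f (G.e j)) (G.e i x)).det ^ (m - 1))) •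
        fderiv ℂ (fun y => (fderiv ℂ (lmap (G.e i) f (G.e j)) y).det) (G.e i x)) w =
        (m : ℂ) * (l⁻¹ * (fderiv ℂ (lmap (G.e i) f (G.e j)) (G.e i x)).det ^ m) *
          Bt (lmap (G.e i) f (G.e j)) (G.e i x) w := by
      rw [ContinuousLinearMap.smul_apply, h3 w, smul_eq_mul]
      have h6 : (fderiv ℂ (lmap (G.e i) f (G.e j)) (G.e i x)).det ^ m =
          (fderiv ℂ (lmap (G.e i) f (G.e j)) (G.e i x)).det ^ (m - 1) *
            (fderiv ℂ (lmap (G.e i) f (G.e j)) (G.e i x)).det := by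
        rw [← zpow_add_one₀ h2, sub_add_cancel]
      rw [h6]
      ring
    rw [h5, norm_mul, norm_mul]
    have h7 : ‖(m : ℂ)‖ = |(m : ℝ)| := by
      rw [Complex.norm_intCast]
    rw [h7]
    calc |(m : ℝ)| * ‖l⁻¹ * (fderiv ℂ (lmap (G.e i) f (G.e j)) (G.e i x)).det ^ m‖ *
          ‖Bt (lmap (G.e i) f (G.e j)) (G.e i x) w‖
        ≤ |(m : ℝ)| * ‖l⁻¹ * (fderiv ℂ (lmap (G.e i) f (G.e j)) (G.e i x)).det ^ m‖ *
          (C * ‖w‖) := by
          exact mul_le_mul_of_nonneg_left h4 (by positivity)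
      _ = |(m : ℝ)| * C * ‖l⁻¹ * (fderiv ℂ (lmap (G.e i) f (G.e j)) (G.e i x)).det ^ m‖ * ‖w‖ := by
          ring

end

end Pool.Agent.HOA
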