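import Pool.Agent.HOA.Defs

/-!
# The conclusion of the theorem on almost homogeneous manifolds
-/

open scoped Manifold ContDiff Topology
open Set Metric

namespace Pool.Agent.HOA

noncomputable section

variable {E : Type} [NormedAddCommGroup E] [NormedSpace ℂ E]
variable {M : Type} [TopologicalSpace M] [ChartedSpace E M] [IsManifold 𝓘(ℂ, E) ω M]

/-- `X` is a global holomorphic frame of `M`, every holomorphic vector field is a combination of
the `X i` with constant coefficients, the brackets have the constant structure constants `c`,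
strictly triangular (so that the Lie algebra of all holomorphic vector fields is nilpotent, of
dimension the dimension of `M`), and `f` acts on the frame by the constant triangular matrix `a`
without diagonal entry `0` or of modulus `1`. -/
structure NilFrame (f : M → M) {n : ℕ} (X : Fin n → (x : M) → TangentSpace 𝓘(ℂ, E) x)
    (c : Fin n → Fin n → Fin n → ℂ) (a : Fin n → Fin n → ℂ) : Prop where
  hol : ∀ i, HolField (X i)
  indep : ∀ x, LinearIndependent ℂ (fun i => X i x)
  span : ∀ x, Submodule.span ℂ (range fun i => X i x) = ⊤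
  all : ∀ Y : (x : M) → TangentSpace 𝓘(ℂ, E) x, HolField Y →
    ∃ t : Fin n → ℂ, ∀ x, Y x = ∑ i, t i • X i x
  bracket : ∀ i j x, VectorField.mlieBracket 𝓘(ℂ, E) (X i) (X j) x = ∑ k, c i j k • X k x
  nil : ∀ i j k, c i j k ≠ 0 → k < i ∧ k < j
  push : ∀ i x, mfderiv 𝓘(ℂ, E) 𝓘(ℂ, E) f x (X i x) = ∑ j, a i j • X j (f x)
  tri : ∀ i j, i < j → a i j = 0
  diag : ∀ i, a i i ≠ 0 ∧ ‖a i i‖ ≠ 1

end

end Pool.Agent.HOA
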