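import Pool.Agent.HOA.KDefs
import Pool.Agent.HOA.Loc
import Pool.Agent.HOA.NCmp

/-!
# HOA/RecB: logarithmic derivative at a recurrent point in the stable directions
-/

open scoped Manifold ContDiff Topology
open Set Metric Filter

namespace Pool.Agent.HOA

noncomputable section

variable {E : Type} [NormedAddCommGroup E] [NormedSpace ℂ E] [FiniteDimensional ℂ E]
variable {M : Type} [TopologicalSpace M] [T2Space M] [CompactSpace M] [ChartedSpace E M]
  [IsManifold 𝓘(ℂ, E) ω M]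
variable {f : Diffeomorph 𝓘(ℂ, E) 𝓘(ℂ, E) M M ω} {N : (x : M) → TangentSpace 𝓘(ℂ, E) x → ℝ}
  {Es Eu : (x : M) → Submodule ℝ (TangentSpace 𝓘(ℂ, E) x)} {C ν : ℝ}

/-- one step of the logarithmic derivative -/
private lemma rec_step {ι : Type} (G : GCover ι E M) {s : ι → E → ℂ} {μ : ι → ι → E → ℂ} {K : ℝ}
    (hm : Mult f G s μ K) (i j : ι) (y : M) (hy : y ∈ (G.e i).source)
    (hy' : f y ∈ (G.e j).source) (hs : s j (G.e j (f y)) ≠ 0) (w : E) :
    fderiv ℂ (s i) (G.e i y) w / s i (G.e i y) =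
      fderiv ℂ (μ i j) (G.e i y) w / μ i j (G.e i y) +
      fderiv ℂ (s j) (G.e j (f y)) (fderiv ℂ (lmap (G.e i) f (G.e j)) (G.e i y) w) /
        s j (G.e j (f y)) := by
  have hzt : G.e i y ∈ (G.e i).target := (G.e i).map_source hy
  have hsy : (G.e i).symm (G.e i y) = y := (G.e i).left_inv hy
  have hF : AnalyticAt ℂ (lmap (G.e i) f (G.e j)) (G.e i y) :=
    lmap_analytic f.contMDiff (G.mem i) (G.mem j) hzt (by rw [hsy]; exact hy')
  have hFz : lmap (G.e i) f (G.e j) (G.e i y) = G.e j (f y) := by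
    unfold lmap
    rw [Function.comp_apply, Function.comp_apply, hsy]
  have hμ := hm.diff i j y hy hy'
  have heq := hm.eq i j y hy hy'
  have hsj : DifferentiableAt ℂ (s j) (G.e j (f y)) :=
    (hm.ana j _ ((G.e j).map_source hy')).differentiableAt
  have hev : s i =ᶠ[𝓝 (G.e i y)] fun z' => (s j ∘ lmap (G.e i) f (G.e j)) z' * μ i j z' := by
    have h1 : ∀ᶠ z' in 𝓝 (G.e i y), z' ∈ (G.e i).target := (G.e i).open_target.mem_nhds hzt
    have hc : ContinuousAt (fun z' => f ((G.e i).symm z')) (G.e i y) :=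
      f.continuous.continuousAt.comp ((G.e i).continuousAt_symm hzt)
    have h2 : ∀ᶠ z' in 𝓝 (G.e i y), f ((G.e i).symm z') ∈ (G.e j).source :=
      hc.preimage_mem_nhds ((G.e j).open_source.mem_nhds (by rw [hsy]; exact hy'))
    filter_upwards [h1, h2] with z' h1 h2
    have h3 := hm.eq i j ((G.e i).symm z') ((G.e i).map_target h1) h2
    rw [(G.e i).right_inv h1] at h3
    exact h3.symm
  have hs' : HasFDerivAt (s j) (fderiv ℂ (s j) (G.e j (f y)))
      (lmap (G.e i) f (G.e j) (G.e i y)) := by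
    rw [hFz]
    exact hsj.hasFDerivAt
  have hmul := (hs'.comp (G.e i y) hF.differentiableAt.hasFDerivAt).mul hμ.1.hasFDerivAt
  have hfd := (hmul.congr_of_eventuallyEq hev).fderiv
  rw [hfd, ← heq]
  simp only [add_apply, smul_apply,
    ContinuousLinearMap.comp_apply, Function.comp_apply, hFz, smul_eq_mul]
  have h4 := hμ.2
  field_simp

private lemma iter_smooth (k : ℕ) : ContMDiff 𝓘(ℂ, E) 𝓘(ℂ, E) ω (f^[k] : M → M) := by
  induction k with
  | zero =>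
    rw [Function.iterate_zero]
    exact contMDiff_id
  | succ k ih =>
    rw [Function.iterate_succ']
    exact f.contMDiff.comp ih

/-- the coordinates of the image of a tangent vector under the next iterate -/
private lemma lc_iter (e e' : OpenPartialHomeomorph M E) (he : e ∈ atlas E M) (he' : e' ∈ atlas E M)
    (x : M) (k : ℕ) (hx : f^[k] x ∈ e.source) (hx' : f (f^[k] x) ∈ e'.source)
    (ξ : TangentSpace 𝓘(ℂ, E) x) :
    lc e' (f^[k + 1] x) (mfderiv 𝓘(ℂ, E) 𝓘(ℂ, E) (f^[k + 1] : M → M) x ξ) =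
      fderiv ℂ (lmap e f e') (e (f^[k] x))
        (lc e (f^[k] x) (mfderiv 𝓘(ℂ, E) 𝓘(ℂ, E) (f^[k] : M → M) x ξ)) := by
  rw [← lc_mfderiv f.contMDiff he he' hx hx']
  have h1 : MDifferentiableAt 𝓘(ℂ, E) 𝓘(ℂ, E) (f^[k] : M → M) x :=
    (iter_smooth k).mdifferentiable (by simp) x
  have h2 : MDifferentiableAt 𝓘(ℂ, E) 𝓘(ℂ, E) f (f^[k] x) :=
    f.contMDiff.mdifferentiable (by simp) _
  have h3 : mfderiv 𝓘(ℂ, E) 𝓘(ℂ, E) ((f : M → M) ∘ f^[k]) x =
      (mfderiv 𝓘(ℂ, E) 𝓘(ℂ, E) f (f^[k] x)).comp (mfderiv 𝓘(ℂ, E) 𝓘(ℂ, E) (f^[k] : M → M) x) :=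
    mfderiv_comp x h2 h1
  have h4 : lc e' (((f : M → M) ∘ f^[k]) x) (mfderiv 𝓘(ℂ, E) 𝓘(ℂ, E) ((f : M → M) ∘ f^[k]) x ξ) =
      lc e' (f (f^[k] x)) (mfderiv 𝓘(ℂ, E) 𝓘(ℂ, E) f (f^[k] x)
        (mfderiv 𝓘(ℂ, E) 𝓘(ℂ, E) (f^[k] : M → M) x ξ)) := by
    rw [h3]
    rfl
  rw [← h4, ← Function.iterate_succ']

theorem rec_bound (h : Hyp f N Es Eu C ν) {ι : Type} [Finite ι] (G : GCover ι E M)
    {s : ι → E → ℂ} {μ : ι → ι → E → ℂ} {K : ℝ} (hm : Mult f G s μ K) :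
    ∃ K' : ℝ, 0 ≤ K' ∧ ∀ (i : ι) (x : M), G.Io i x → s i (G.e i x) ≠ 0 → Recur f x → ∀ ξ ∈ Es x,
      ‖fderiv ℂ (s i) (G.e i x) (lc (G.e i) x ξ)‖ ≤
        K' * ‖s i (G.e i x)‖ * ‖lc (G.e i) x ξ‖ := by
  obtain ⟨A, hA, hcmp⟩ := norm_compare h.cont h.smul h.pos G
  have hν1 : 0 < 1 - ν := by linarith [h.ν_lt]
  refine ⟨|K| * A ^ 2 * |C| / (1 - ν), by positivity, ?_⟩
  intro i x hx hsx hrec ξ hξ
  have hIn : ∀ (j : ι) (y : M), y ∈ (G.e j).source → G.e j y ∈ ball (G.c j) (G.r j) → G.In j y := by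
    intro j y h1 h2
    refine ⟨h1, ball_subset_closedBall (ball_subset_ball (by linarith [G.pos j]) h2)⟩
  have hInx : G.In i x := ⟨hx.1, ball_subset_closedBall hx.2⟩
  obtain ⟨W, hW⟩ : ∃ W : ℝ, W = ‖lc (G.e i) x ξ‖ := ⟨_, rfl⟩
  have hW0 : 0 ≤ W := by rw [hW]; exact norm_nonneg _
  -- size of the coordinates of the iterated vector
  have hwk : ∀ (j : ι) (k : ℕ), G.In j (f^[k] x) →
      ‖lc (G.e j) (f^[k] x) (mfderiv 𝓘(ℂ, E) 𝓘(ℂ, E) (f^[k] : M → M) x ξ)‖ ≤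
        A ^ 2 * |C| * ν ^ k * W := by
    intro j k hj
    have h1 := (hcmp j (f^[k] x) hj (mfderiv 𝓘(ℂ, E) 𝓘(ℂ, E) (f^[k] : M → M) x ξ)).1
    have h2 := h.contr x ξ hξ k
    have h3 := (hcmp i x hInx ξ).2
    rw [← hW] at h3
    have hN0 : 0 ≤ N x ξ := by
      have h4 := h.add x ξ (-ξ)
      have h5 : N x (-ξ) = N x ξ := by
        have h6 := h.smul x (-1) ξ
        rw [neg_one_smul] at h6
        rw [h6]
        norm_num
      have h7 : N x 0 = 0 := by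
        have h8 := h.smul x 0 ξ
        rw [zero_smul] at h8
        rw [h8]
        norm_num
      rw [add_neg_cancel, h7, h5] at h4
      linarith
    have hνk : 0 < ν ^ k := pow_pos h.ν_pos k
    have h9 : C * ν ^ k * N x ξ ≤ |C| * ν ^ k * (A * W) := by
      have h10 : C * ν ^ k * N x ξ ≤ |C| * ν ^ k * N x ξ := by
        have := le_abs_self C
        gcongr
      refine h10.trans ?_
      gcongr
    calc _ ≤ A * N (f^[k] x) (mfderiv 𝓘(ℂ, E) 𝓘(ℂ, E) (f^[k] : M → M) x ξ) := h1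
      _ ≤ A * (|C| * ν ^ k * (A * W)) := by
          gcongr
          exact h2.trans h9
      _ = A ^ 2 * |C| * ν ^ k * W := by ring
  -- the section does not vanish along the orbit
  have hnz : ∀ (k : ℕ) (j : ι), f^[k] x ∈ (G.e j).source → s j (G.e j (f^[k] x)) ≠ 0 := by
    intro k
    induction k with
    | zero =>
      intro j hj h0
      exact hsx (hm.zero j i x hj hx.1 h0)
    | succ k ih =>
      intro j hj h0
      obtain ⟨j', h1, h2⟩ := G.cov (f^[k] x)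
      rw [Function.iterate_succ_apply'] at hj h0
      have h3 := hm.eq j' j (f^[k] x) h1 hj
      rw [h0, zero_mul] at h3
      exact ih j' h1 h3.symm
  -- one step
  have hstep : ∀ (k : ℕ) (j j' : ι), G.In j (f^[k] x) → G.In j' (f^[k + 1] x) →
      ‖fderiv ℂ (s j) (G.e j (f^[k] x))
        (lc (G.e j) (f^[k] x) (mfderiv 𝓘(ℂ, E) 𝓘(ℂ, E) (f^[k] : M → M) x ξ)) /
          s j (G.e j (f^[k] x))‖ ≤
      |K| * (A ^ 2 * |C| * ν ^ k * W) +
      ‖fderiv ℂ (s j') (G.e j' (f^[k + 1] x))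
        (lc (G.e j') (f^[k + 1] x) (mfderiv 𝓘(ℂ, E) 𝓘(ℂ, E) (f^[k + 1] : M → M) x ξ)) /
          s j' (G.e j' (f^[k + 1] x))‖ := by
    intro k j j' hj hj'
    have hj1 : f (f^[k] x) ∈ (G.e j').source := by
      have := hj'.1
      rwa [Function.iterate_succ_apply'] at this
    have hj2 : G.In j' (f (f^[k] x)) := by
      rwa [Function.iterate_succ_apply'] at hj'
    have hs2 : s j' (G.e j' (f (f^[k] x))) ≠ 0 := by
      have := hnz (k + 1) j' hj'.1
      rwa [Function.iterate_succ_apply'] at this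
    rw [lc_iter (G.e j) (G.e j') (G.mem j) (G.mem j') x k hj.1 hj1 ξ,
      rec_step G hm j j' (f^[k] x) hj.1 hj1 hs2]
    have hwk' := hwk j k hj
    generalize lc (G.e j) (f^[k] x) (mfderiv 𝓘(ℂ, E) 𝓘(ℂ, E) (f^[k] : M → M) x ξ) = w at hwk' ⊢
    have hb := hm.bound j j' (f^[k] x) hj hj2 w
    have hμ0 := (hm.diff j j' (f^[k] x) hj.1 hj1).2
    rw [Function.iterate_succ_apply']
    refine (norm_add_le _ _).trans (add_le_add ?_ le_rfl)
    rw [norm_div, div_le_iff₀ (norm_pos_iff.2 hμ0)]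
    refine hb.trans ?_
    have h1 : K * ‖μ j j' (G.e j (f^[k] x))‖ * ‖w‖ ≤ |K| * ‖μ j j' (G.e j (f^[k] x))‖ * ‖w‖ := by
      have := le_abs_self K
      gcongr
    refine h1.trans ?_
    have h2 : |K| * ‖μ j j' (G.e j (f^[k] x))‖ * ‖w‖ ≤
        |K| * ‖μ j j' (G.e j (f^[k] x))‖ * (A ^ 2 * |C| * ν ^ k * W) := by
      gcongr
    refine h2.trans (le_of_eq ?_)
    ring
  -- many steps
  have hmany : ∀ (n : ℕ) (j : ι), G.In j (f^[n + 1] x) →
      ‖fderiv ℂ (s i) (G.e i x) (lc (G.e i) x ξ) / s i (G.e i x)‖ ≤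
      ∑ k ∈ Finset.range (n + 1), |K| * (A ^ 2 * |C| * ν ^ k * W) +
      ‖fderiv ℂ (s j) (G.e j (f^[n + 1] x))
        (lc (G.e j) (f^[n + 1] x) (mfderiv 𝓘(ℂ, E) 𝓘(ℂ, E) (f^[n + 1] : M → M) x ξ)) /
          s j (G.e j (f^[n + 1] x))‖ := by
    intro n
    induction n with
    | zero =>
      intro j hj
      have h1 := hstep 0 i j hInx hj
      have h2 : lc (G.e i) (f^[0] x) (mfderiv 𝓘(ℂ, E) 𝓘(ℂ, E) (f^[0] : M → M) x ξ) =
          lc (G.e i) x ξ := by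
        have h3 : mfderiv 𝓘(ℂ, E) 𝓘(ℂ, E) (f^[0] : M → M) x ξ = ξ := by
          have h4 : mfderiv 𝓘(ℂ, E) 𝓘(ℂ, E) (id : M → M) x =
            ContinuousLinearMap.id ℂ (TangentSpace 𝓘(ℂ, E) x) := mfderiv_id
          change mfderiv 𝓘(ℂ, E) 𝓘(ℂ, E) (id : M → M) x ξ = ξ
          rw [h4]
          rfl
        exact congrArg (lc (G.e i) x) h3
      rw [h2] at h1
      rw [zero_add, Finset.sum_range_one]
      exact h1
    | succ n ih =>
      intro j hj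
      obtain ⟨j', h1, h2⟩ := G.cov (f^[n + 1] x)
      have h3 := hIn j' _ h1 h2
      have h4 := ih j' h3
      have h5 := hstep (n + 1) j' j h3 hj
      rw [Finset.sum_range_succ]
      linarith
  -- the geometric series
  have hgeo : ∀ n : ℕ, ∑ k ∈ Finset.range (n + 1), |K| * (A ^ 2 * |C| * ν ^ k * W) ≤
      |K| * A ^ 2 * |C| / (1 - ν) * W := by
    intro n
    have h1 : ∑ k ∈ Finset.range (n + 1), |K| * (A ^ 2 * |C| * ν ^ k * W) =
        |K| * A ^ 2 * |C| * W * ∑ k ∈ Finset.range (n + 1), ν ^ k := by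
      rw [Finset.mul_sum]
      refine Finset.sum_congr rfl fun k _ => ?_
      ring
    rw [h1]
    have h2 : ∑ k ∈ Finset.range (n + 1), ν ^ k ≤ 1 / (1 - ν) := by
      rw [le_div_iff₀ hν1, geom_sum_mul_neg]
      have := pow_pos h.ν_pos (n + 1)
      linarith
    calc _ ≤ |K| * A ^ 2 * |C| * W * (1 / (1 - ν)) := by gcongr
      _ = _ := by ring
  -- recurrence
  have hcs : ContinuousAt (fun y : M => ‖fderiv ℂ (s i) (G.e i y)‖ / ‖s i (G.e i y)‖) x := by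
    have hzt : G.e i x ∈ (G.e i).target := (G.e i).map_source hx.1
    have h1 := (hm.ana i _ hzt)
    have h2 : ContinuousAt (fderiv ℂ (s i)) (G.e i x) := h1.fderiv.continuousAt
    have h3 : ContinuousAt (G.e i) x := (G.e i).continuousAt hx.1
    have h4 : ContinuousAt (fun y : M => fderiv ℂ (s i) (G.e i y)) x :=
      ContinuousAt.comp (f := G.e i) (g := fderiv ℂ (s i)) h2 h3
    have h5 : ContinuousAt (fun y : M => s i (G.e i y)) x :=
      ContinuousAt.comp (f := G.e i) (g := s i) h1.continuousAt h3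
    exact h4.norm.div h5.norm (norm_ne_zero_iff.2 hsx)
  obtain ⟨B, hB⟩ : ∃ B : ℝ, B = ‖fderiv ℂ (s i) (G.e i x)‖ / ‖s i (G.e i x)‖ + 1 := ⟨_, rfl⟩
  have hB0 : 0 ≤ B := by rw [hB]; positivity
  have hU : ∀ᶠ y in 𝓝 x, ‖fderiv ℂ (s i) (G.e i y)‖ / ‖s i (G.e i y)‖ < B :=
    hcs.eventually_lt_const (by rw [hB]; linarith)
  have hIo : ∀ᶠ y in 𝓝 x, G.Io i y := by
    have h1 : ∀ᶠ y in 𝓝 x, y ∈ (G.e i).source := (G.e i).open_source.mem_nhds hx.1
    have h2 : ∀ᶠ y in 𝓝 x, G.e i y ∈ ball (G.c i) (2 * G.r i) :=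
      ((G.e i).continuousAt hx.1).preimage_mem_nhds (isOpen_ball.mem_nhds hx.2)
    filter_upwards [h1, h2] with y h1 h2 using ⟨h1, h2⟩
  have hfreq := hrec _ (hU.and hIo)
  -- conclusion
  have hkey : ‖fderiv ℂ (s i) (G.e i x) (lc (G.e i) x ξ) / s i (G.e i x)‖ ≤
      |K| * A ^ 2 * |C| / (1 - ν) * W := by
    by_contra hcon
    rw [not_le] at hcon
    have ht : Tendsto (fun n : ℕ => B * (A ^ 2 * |C| * ν ^ n * W)) atTop (𝓝 0) := by
      have h1 := tendsto_pow_atTop_nhds_zero_of_lt_one h.ν_pos.le h.ν_lt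
      have h2 := (((h1.const_mul (A ^ 2 * |C|)).mul_const W).const_mul B)
      simpa using h2
    have hev := ht.eventually_lt_const (sub_pos.2 hcon)
    obtain ⟨n, ⟨hn1, hn2⟩, hn3, hn4⟩ := (hfreq.and_eventually (hev.and (eventually_ge_atTop 1))).exists
    obtain ⟨m, rfl⟩ : ∃ m, n = m + 1 := ⟨n - 1, by omega⟩
    have hInn : G.In i (f^[m + 1] x) := ⟨hn2.1, ball_subset_closedBall hn2.2⟩
    have h1 := hmany m i hInn
    have h2 := hgeo m
    have h3 := hwk i (m + 1) hInn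
    generalize lc (G.e i) (f^[m + 1] x) (mfderiv 𝓘(ℂ, E) 𝓘(ℂ, E) (f^[m + 1] : M → M) x ξ) = w at h1 h3
    have h4 : ‖fderiv ℂ (s i) (G.e i (f^[m + 1] x)) w / s i (G.e i (f^[m + 1] x))‖ ≤
        B * (A ^ 2 * |C| * ν ^ (m + 1) * W) := by
      rw [norm_div]
      have h5 : ‖fderiv ℂ (s i) (G.e i (f^[m + 1] x)) w‖ / ‖s i (G.e i (f^[m + 1] x))‖ ≤
          ‖fderiv ℂ (s i) (G.e i (f^[m + 1] x))‖ / ‖s i (G.e i (f^[m + 1] x))‖ * ‖w‖ := by
        rw [div_mul_eq_mul_div]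
        gcongr
        exact ContinuousLinearMap.le_opNorm _ _
      refine h5.trans ?_
      gcongr
    linarith
  rw [norm_div, div_le_iff₀ (norm_pos_iff.2 hsx), hW] at hkey
  refine hkey.trans (le_of_eq ?_)
  ring

end

end Pool.Agent.HOA
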