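import Pool.Agent.HOA.Tools

/-!
# HOA/Schw: Schwarz lemma of high order

One complex variable: induction on the order with `dslope` and the maximum principle. In general:
restriction to complex lines through the centre.
-/

open scoped Manifold ContDiff Topology
open Set Metric Filter

namespace Pool.Agent.HOA

noncomputable section

variable {E : Type} [NormedAddCommGroup E] [NormedSpace ℂ E] [FiniteDimensional ℂ E]

private theorem sc_one {F : Type} [NormedAddCommGroup F] [NormedSpace ℂ F] [CompleteSpace F]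
    (k : ℕ) : ∀ (φ : ℂ → F) (C : ℝ), DiffContOnCl ℂ φ (ball 0 2) →
      (∀ t ∈ closedBall (0 : ℂ) 2, ‖φ t‖ ≤ C) →
      φ =O[𝓝[≠] 0] (fun t : ℂ => ‖t‖ ^ k) → ‖φ 1‖ ≤ C * (1 / 2) ^ k := by
  induction k with
  | zero =>
    intro φ C _ hC _
    rw [pow_zero, mul_one]
    apply hC
    rw [mem_closedBall_zero_iff, norm_one]
    norm_num
  | succ k ih =>
    intro φ C hd hC hO
    have hnb : ball (0 : ℂ) 2 ∈ 𝓝 (0 : ℂ) := ball_mem_nhds _ (by norm_num)
    have hcl : closure (ball (0 : ℂ) 2) = closedBall 0 2 := closure_ball _ (by norm_num)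
    have hdiff0 : DifferentiableAt ℂ φ 0 := hd.1.differentiableAt hnb
    have h0 : φ 0 = 0 := by
      have h1 : Tendsto φ (𝓝[≠] 0) (𝓝 (φ 0)) :=
        hdiff0.continuousAt.tendsto.mono_left nhdsWithin_le_nhds
      have h2 : Tendsto (fun t : ℂ => ‖t‖ ^ (k + 1)) (𝓝[≠] 0) (𝓝 0) := by
        have h3 : Continuous fun t : ℂ => ‖t‖ ^ (k + 1) := by fun_prop
        have h4 := h3.tendsto 0
        simp only [norm_zero, zero_pow (Nat.succ_ne_zero k)] at h4
        exact h4.mono_left nhdsWithin_le_nhds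
      exact tendsto_nhds_unique h1 (hO.trans_tendsto h2)
    have hψ : ∀ t : ℂ, t ≠ 0 → dslope φ 0 t = t⁻¹ • φ t := by
      intro t ht
      rw [dslope_of_ne _ ht, slope_def_module, h0, sub_zero, sub_zero]
    have hdψ : DiffContOnCl ℂ (dslope φ 0) (ball 0 2) := by
      refine ⟨(Complex.differentiableOn_dslope hnb).2 hd.1, ?_⟩
      rw [hcl]
      refine (continuousOn_dslope (closedBall_mem_nhds _ (by norm_num))).2 ⟨?_, hdiff0⟩
      rw [← hcl]
      exact hd.2
    have hbψ : ∀ t ∈ closedBall (0 : ℂ) 2, ‖dslope φ 0 t‖ ≤ C / 2 := by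
      intro t ht
      rw [← hcl] at ht
      refine Complex.norm_le_of_forall_mem_frontier_norm_le isBounded_ball hdψ ?_ ht
      intro w hw
      rw [frontier_ball _ (by norm_num), mem_sphere_zero_iff_norm] at hw
      have hw0 : w ≠ 0 := by
        rintro rfl
        rw [norm_zero] at hw
        norm_num at hw
      rw [hψ w hw0, norm_smul, norm_inv, hw]
      have h1 := hC w (by rw [mem_closedBall_zero_iff, hw])
      linarith
    have hOψ : dslope φ 0 =O[𝓝[≠] 0] (fun t : ℂ => ‖t‖ ^ k) := by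
      obtain ⟨A, hA⟩ := hO.bound
      refine Asymptotics.IsBigO.of_bound A ?_
      filter_upwards [hA, self_mem_nhdsWithin] with t ht ht0
      have ht1 : t ≠ 0 := ht0
      have ht2 : 0 < ‖t‖ := norm_pos_iff.2 ht1
      rw [hψ t ht1, norm_smul, norm_inv]
      have h1 : ‖t‖⁻¹ * ‖φ t‖ ≤ ‖t‖⁻¹ * (A * ‖‖t‖ ^ (k + 1)‖) :=
        mul_le_mul_of_nonneg_left ht (inv_nonneg.2 ht2.le)
      refine h1.trans (le_of_eq ?_)
      rw [Real.norm_of_nonneg (by positivity), Real.norm_of_nonneg (by positivity), pow_succ]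
      field_simp
    have h1 := ih (dslope φ 0) (C / 2) hdψ hbψ hOψ
    rw [hψ 1 one_ne_zero, inv_one, one_smul] at h1
    refine h1.trans (le_of_eq ?_)
    rw [pow_succ]
    ring

theorem schwarz_high {F : Type} [NormedAddCommGroup F] [NormedSpace ℂ F] [CompleteSpace F]
    {g : E → F} {c : E} {r K : ℝ} (hr : 0 < r) (hg : AnalyticOnNhd ℂ g (closedBall c (2 * r)))
    (hK : ∀ z ∈ closedBall c (2 * r), ‖g z‖ ≤ K) (k : ℕ)
    (hk : ∀ j < k, iteratedFDeriv ℂ j g c = 0) :
    ∀ z ∈ closedBall c r, ‖g z‖ ≤ K * (1 / 2) ^ k := by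
  intro z hz
  rw [mem_closedBall, dist_eq_norm] at hz
  have hmem : ∀ t ∈ closedBall (0 : ℂ) 2, c + t • (z - c) ∈ closedBall c (2 * r) := by
    intro t ht
    rw [mem_closedBall_zero_iff] at ht
    rw [mem_closedBall, dist_eq_norm, add_sub_cancel_left, norm_smul]
    exact mul_le_mul ht hz (norm_nonneg _) (by norm_num)
  have hL : Continuous fun t : ℂ => c + t • (z - c) := by fun_prop
  have hLd : Differentiable ℂ fun t : ℂ => c + t • (z - c) := by fun_prop
  have hcl : closure (ball (0 : ℂ) 2) = closedBall 0 2 := closure_ball _ (by norm_num)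
  have hd : DiffContOnCl ℂ (fun t : ℂ => g (c + t • (z - c))) (ball 0 2) := by
    apply DifferentiableOn.diffContOnCl
    rw [hcl]
    intro t ht
    have h1 : DifferentiableAt ℂ g (c + t • (z - c)) := (hg _ (hmem t ht)).differentiableAt
    exact (h1.comp t (hLd t)).differentiableWithinAt
  have hcmem : c ∈ closedBall c (2 * r) := mem_closedBall_self (by linarith)
  obtain ⟨p, ρ, hp⟩ := hg c hcmem
  have hps : ∀ y : E, p.partialSum k y = 0 := by
    intro y
    unfold FormalMultilinearSeries.partialSum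
    refine Finset.sum_eq_zero fun j hj => ?_
    have h1 := hp.factorial_smul y j
    rw [hk j (Finset.mem_range.1 hj)] at h1
    rw [ContinuousMultilinearMap.zero_apply, ← Nat.cast_smul_eq_nsmul ℂ] at h1
    rcases smul_eq_zero.1 h1 with h2 | h2
    · exact absurd h2 (Nat.cast_ne_zero.2 (Nat.factorial_ne_zero j))
    · exact h2
  have hO1 : (fun y : E => g (c + y)) =O[𝓝 0] fun y => ‖y‖ ^ k := by
    have h1 := hp.hasFPowerSeriesAt.isBigO_sub_partialSum_pow k
    simp only [hps, sub_zero] at h1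
    exact h1
  have hT : Tendsto (fun t : ℂ => t • (z - c)) (𝓝[≠] 0) (𝓝 0) := by
    have h1 : Continuous fun t : ℂ => t • (z - c) := by fun_prop
    have h2 := h1.tendsto 0
    simp only [zero_smul] at h2
    exact h2.mono_left nhdsWithin_le_nhds
  have hO2 : (fun t : ℂ => g (c + t • (z - c))) =O[𝓝[≠] 0] (fun t : ℂ => ‖t‖ ^ k) := by
    have h1 : (fun t : ℂ => g (c + t • (z - c))) =O[𝓝[≠] 0] (fun t : ℂ => ‖t • (z - c)‖ ^ k) :=
      hO1.comp_tendsto hT
    refine h1.trans (Asymptotics.IsBigO.of_bound (‖z - c‖ ^ k) (Filter.Eventually.of_forall fun t => ?_))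
    rw [norm_smul, mul_pow, norm_mul, Real.norm_of_nonneg (by positivity : 0 ≤ ‖t‖ ^ k),
      Real.norm_of_nonneg (by positivity : 0 ≤ ‖z - c‖ ^ k), mul_comm]
  have h3 := sc_one k (fun t : ℂ => g (c + t • (z - c))) K hd (fun t ht => hK _ (hmem t ht)) hO2
  simp only [one_smul, add_sub_cancel] at h3
  exact h3

end

end Pool.Agent.HOA
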