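import Pool.Agent.HOA.Defs

/-!
# Holomorphic Anosov diffeomorphisms: working definitions

* `lc e x ξ`  : the coordinates in the chart `e` of a tangent vector `ξ` at `x`;
* `ilc e z w` : the tangent vector at `e.symm z` with coordinates `w`;
* `rep e X`   : the coordinate expression of the vector field `X` in the chart `e`;
* `Bt F z w`  : trace of `DF(z)⁻¹ ∘ D²F(z)(w)`, the logarithmic derivative of `det DF`;
* `GCover ι E M` : a good family of charts (concentric balls of radii `r, 2r, 3r`), the balls of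
  radius `r` cover `M`;
* `HF E M` : the complex vector space of holomorphic vector fields on `M`.
-/

open scoped Manifold ContDiff Topology
open Set Metric

namespace Pool.Agent.HOA

noncomputable section

variable {E : Type} [NormedAddCommGroup E] [NormedSpace ℂ E]
variable {M : Type} [TopologicalSpace M] [ChartedSpace E M]

/-- the coordinates in the chart `e` of a tangent vector at `x` -/
def lc (e : OpenPartialHomeomorph M E) (x : M) (ξ : TangentSpace 𝓘(ℂ, E) x) : E :=
  mfderiv 𝓘(ℂ, E) 𝓘(ℂ, E) e x ξ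

/-- the tangent vector at `e.symm z` with coordinates `w` in the chart `e` -/
def ilc (e : OpenPartialHomeomorph M E) (z : E) (w : E) : TangentSpace 𝓘(ℂ, E) (e.symm z) :=
  mfderiv 𝓘(ℂ, E) 𝓘(ℂ, E) e.symm z w

/-- the coordinate expression of a vector field -/
def rep (e : OpenPartialHomeomorph M E) (X : (x : M) → TangentSpace 𝓘(ℂ, E) x) : E → E :=
  fun z => lc e (e.symm z) (X (e.symm z))

/-- `Bt F z w = trace (DF(z)⁻¹ ∘ D²F(z)(w))` -/
def Bt (F : E → E) (z w : E) : ℂ :=
  LinearMap.trace ℂ E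
    (((fderiv ℂ F z).inverse ∘L (fderiv ℂ (fderiv ℂ F) z w) : E →L[ℂ] E) : E →ₗ[ℂ] E)

/-- trace of a continuous linear endomorphism -/
def tr (A : E →L[ℂ] E) : ℂ := LinearMap.trace ℂ E (A : E →ₗ[ℂ] E)

/-- a good family of charts -/
structure GCover (ι : Type) (E : Type) [NormedAddCommGroup E] [NormedSpace ℂ E] (M : Type)
    [TopologicalSpace M] [ChartedSpace E M] where
  e : ι → OpenPartialHomeomorph M E
  c : ι → E
  r : ι → ℝ
  mem : ∀ i, e i ∈ atlas E M
  pos : ∀ i, 0 < r i
  sub : ∀ i, closedBall (c i) (3 * r i) ⊆ (e i).target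
  cov : ∀ x : M, ∃ i, x ∈ (e i).source ∧ e i x ∈ ball (c i) (r i)

/-- `x` lies in the `i`-th closed core of radius `2 r` -/
def GCover.In {ι : Type} (G : GCover ι E M) (i : ι) (x : M) : Prop :=
  x ∈ (G.e i).source ∧ G.e i x ∈ closedBall (G.c i) (2 * G.r i)

/-- `x` lies in the `i`-th open core of radius `2 r` -/
def GCover.Io {ι : Type} (G : GCover ι E M) (i : ι) (x : M) : Prop :=
  x ∈ (G.e i).source ∧ G.e i x ∈ ball (G.c i) (2 * G.r i)

/-- recurrence of the point `x` under forward iteration of `f` -/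
def Recur (f : M → M) (x : M) : Prop :=
  ∀ U ∈ 𝓝 x, ∃ᶠ n : ℕ in Filter.atTop, f^[n] x ∈ U

/-- the local expression of a map `g` in charts -/
def lmap (e : OpenPartialHomeomorph M E) (g : M → M) (e' : OpenPartialHomeomorph M E) : E → E :=
  e' ∘ g ∘ e.symm

variable (E M) in
/-- the space of holomorphic vector fields -/
def HF [IsManifold 𝓘(ℂ, E) ω M] : Submodule ℂ ((x : M) → TangentSpace 𝓘(ℂ, E) x) where
  carrier := {X | HolField X}
  zero_mem' := Bundle.contMDiff_zeroSection ℂ (TangentSpace 𝓘(ℂ, E) (M := M))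
  add_mem' := fun ha hb => ContMDiff.add_section ha hb
  smul_mem' := fun _ _ ha => ContMDiff.const_smul_section ha

/-- `T` is the push-forward of holomorphic vector fields by the diffeomorphism `f`. -/
def IsPush [IsManifold 𝓘(ℂ, E) ω M] (f : M → M) (T : HF E M ≃ₗ[ℂ] HF E M) : Prop :=
  ∀ (v : HF E M) (x : M), (T v).1 (f x) = mfderiv 𝓘(ℂ, E) 𝓘(ℂ, E) f x (v.1 x)

/-- `br` is the Lie bracket on the space of holomorphic vector fields. -/
def IsBr [IsManifold 𝓘(ℂ, E) ω M] (br : HF E M →ₗ[ℂ] HF E M →ₗ[ℂ] HF E M) : Prop :=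
  ∀ (v w : HF E M) (x : M), (br v w).1 x = VectorField.mlieBracket 𝓘(ℂ, E) v.1 w.1 x

/-- `T ^ k v → 0` in a complex vector space, tested on linear functionals -/
def Tends {V : Type} [AddCommGroup V] [Module ℂ V] (T : V ≃ₗ[ℂ] V) (v : V) : Prop :=
  ∀ φ : V →ₗ[ℂ] ℂ, Filter.Tendsto (fun k : ℕ => φ ((T ^ k : V ≃ₗ[ℂ] V) v)) Filter.atTop (𝓝 0)

end

end Pool.Agent.HOA
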